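import Pool.Agent.Lib.MP_1fca05_lc.Defs

/-!
The bundle dag (MP_1fca05_lc): an indegree-two dag `H` is replaced by a dag of indegree two whose
black pebbling number is about `(t + 1)` times the black pebbling number of `H`.
-/

namespace MP1fca05

/-- The number of nodes of the path of the cell `c`, if `c` reads the cells in the list `rd c`. -/
def clen {Ω : Type} (rd : Ω → List Ω) (c : Ω) : ℕ := max 1 (rd c).length

/-- `x` is a direct predecessor of `y` in the chain expansion of `rd`: every cell `c` is a path
`(c, 0), (c, 1), ..., (c, clen rd c - 1)`, and if the `i`-th entry of `rd c` is the cell `c'`, then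
there is an arc from the last node of `c'` to `(c, i)`. -/
def GPr {Ω : Type} (rd : Ω → List Ω) (x y : Ω × ℕ) : Prop :=
  (x.1 = y.1 ∧ x.2 + 1 = y.2) ∨ (x.2 + 1 = clen rd x.1 ∧ (rd y.1)[y.2]? = some x.1)

/-- The cells of the bundle dag: `some (v, l, w)` is column `w` in layer `l` of the bundle of the
vertex `v` of `H`, and `none` is the final cell. -/
abbrev BCell (N t : ℕ) : Type := Option (Fin N × ℕ × Fin (t + 1))

open scoped Classical in
/-- The direct predecessors of `v` in `H`, in increasing order. -/
noncomputable def pl {N : ℕ} (E : Fin N → Fin N → Prop) (v : Fin N) : List (Fin N) :=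
  (List.finRange N).filter (fun u => decide (E u v))

/-- What the cells of the bundle dag read: in the bottom layer `0` of the bundle of `v` all the
columns of the top layer `L` of the bundles of the direct predecessors of `v`; in layer `l + 1` the
hub (the last column) reads all columns in layer `l`, and every other column reads itself and the
hub in layer `l`; the final cell reads all the columns in the top layer of the bundle of the sink
`z`. -/
noncomputable def brd {N : ℕ} (E : Fin N → Fin N → Prop) (z : Fin N) (t L : ℕ) :
    BCell N t → List (BCell N t)
  | none => (List.finRange (t + 1)).map (fun w => some (z, L, w))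
  | some (v, 0, _) => (pl E v).flatMap (fun u => (List.finRange (t + 1)).map
      (fun w => some (u, L, w)))
  | some (v, l + 1, w) =>
      if w = Fin.last t then (List.finRange (t + 1)).map (fun w' => some (v, l, w'))
      else [some (v, l, w), some (v, l, Fin.last t)]

/-- The nodes of the bundle dag: the nodes of the cells in the layers `0, ..., L`, and of the final
cell. -/
abbrev BNode {N : ℕ} (E : Fin N → Fin N → Prop) (z : Fin N) (t L : ℕ) : Type :=
  {x : BCell N t × ℕ // x.2 < clen (brd E z t L) x.1 ∧ ∀ v l w, x.1 = some (v, l, w) → l ≤ L}

/-- The arcs of the bundle dag. -/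
def BArc {N : ℕ} (E : Fin N → Fin N → Prop) (z : Fin N) (t L : ℕ) (x y : BNode E z t L) : Prop :=
  GPr (brd E z t L) x.1 y.1

theorem clen_none {N : ℕ} (E : Fin N → Fin N → Prop) (z : Fin N) (t L : ℕ) :
    clen (brd E z t L) none = t + 1 := by
  simp [clen, brd]

/-- The sink of the bundle dag: the last node of the final cell. -/
def btgt {N : ℕ} (E : Fin N → Fin N → Prop) (z : Fin N) (t L : ℕ) : BNode E z t L :=
  ⟨(none, t), by rw [clen_none]; exact Nat.lt_succ_self t, by intro v l w h; simp at h⟩

end MP1fca05
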