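import Pool.Agent.Lib.MP_1fca05_lc.Bd

/-!
The bundle dag is a dag with unique sink and indegree at most two.
-/

namespace MP1fca05

namespace BdProps1

variable {N : ℕ} {E : Fin N → Fin N → Prop} {z : Fin N}

/-- The number of vertices from which `v` can be reached. -/
noncomputable def rho (E : Fin N → Fin N → Prop) (v : Fin N) : ℕ :=
  {u | Relation.TransGen E u v}.ncard

theorem rho_le (v : Fin N) : rho E v ≤ N := by
  have h := Set.ncard_le_card {u | Relation.TransGen E u v}
  rwa [Nat.card_eq_fintype_card, Fintype.card_fin] at h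

theorem rho_lt (h : ∀ v, ¬ Relation.TransGen E v v) {u v : Fin N} (huv : E u v) :
    rho E u < rho E v := by
  refine Set.ncard_lt_ncard ?_ (Set.toFinite _)
  refine ⟨fun w hw => Relation.TransGen.tail hw huv, fun hsub => ?_⟩
  exact h u (hsub (Relation.TransGen.single huv))

theorem mem_none {t L : ℕ} {c : BCell N t} (h : c ∈ brd E z t L none) :
    ∃ w, c = some (z, L, w) := by
  simp only [brd, List.mem_map] at h
  obtain ⟨w, _, hw⟩ := h
  exact ⟨w, hw.symm⟩

theorem mem_zero {t L : ℕ} {c : BCell N t} {v : Fin N} {w : Fin (t + 1)}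
    (h : c ∈ brd E z t L (some (v, 0, w))) : ∃ u w', E u v ∧ c = some (u, L, w') := by
  simp only [brd, List.mem_flatMap, List.mem_map, pl, List.mem_filter, decide_eq_true_eq] at h
  obtain ⟨u, ⟨_, hu⟩, w', _, hw⟩ := h
  exact ⟨u, w', hu, hw.symm⟩

theorem mem_succ {t L : ℕ} {c : BCell N t} {v : Fin N} {l : ℕ} {w : Fin (t + 1)}
    (h : c ∈ brd E z t L (some (v, l + 1, w))) : ∃ w', c = some (v, l, w') := by
  simp only [brd] at h
  split_ifs at h with hw
  · rw [List.mem_map] at h
    obtain ⟨w', _, hw'⟩ := h
    exact ⟨w', hw'.symm⟩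
  · simp only [List.mem_cons, List.not_mem_nil, or_false] at h
    rcases h with h | h
    · exact ⟨_, h⟩
    · exact ⟨_, h⟩

theorem none_not_mem {t L : ℕ} {c : BCell N t} : (none : BCell N t) ∉ brd E z t L c := by
  intro h
  match c, h with
  | none, h =>
    obtain ⟨w, hw⟩ := mem_none h
    exact absurd hw (by simp)
  | some (v, 0, w), h =>
    obtain ⟨u, w', _, hw⟩ := mem_zero h
    exact absurd hw (by simp)
  | some (v, l + 1, w), h =>
    obtain ⟨w', hw⟩ := mem_succ h
    exact absurd hw (by simp)

theorem length_le (t L : ℕ) (c : BCell N t) :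
    clen (brd E z t L) c < N * (t + 1) + t + 3 := by
  have hN : 0 ≤ N * (t + 1) := Nat.zero_le _
  unfold clen
  rw [max_lt_iff]
  refine ⟨by omega, ?_⟩
  match c with
  | none =>
    simp only [brd, List.length_map, List.length_finRange]
    omega
  | some (v, 0, w) =>
    have h1 : (pl E v).length ≤ N := by
      unfold pl
      refine (List.length_filter_le _ _).trans ?_
      rw [List.length_finRange]
    have h2 : (brd E z t L (some (v, 0, w))).length = (pl E v).length * (t + 1) := by
      simp only [brd, List.length_flatMap, List.length_map, List.length_finRange,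
        List.map_const', List.sum_replicate, smul_eq_mul]
    rw [h2]
    have h3 := Nat.mul_le_mul_right (t + 1) h1
    omega
  | some (v, l + 1, w) =>
    simp only [brd]
    split_ifs
    · simp only [List.length_map, List.length_finRange]
      omega
    · simp only [List.length_cons, List.length_nil]
      omega

/-- A rank which increases along the arcs of the bundle dag. -/
noncomputable def rk (E : Fin N → Fin N → Prop) (t L : ℕ) : BCell N t × ℕ → ℕ
  | (none, j) => (N + 1) * (L + 1) * (N * (t + 1) + t + 3) + j
  | (some (v, l, _), j) => (rho E v * (L + 1) + l) * (N * (t + 1) + t + 3) + j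

theorem rk_lt (h : ∀ v, ¬ Relation.TransGen E v v) {t L : ℕ} {x y : BNode E z t L}
    (hxy : BArc E z t L x y) : rk E t L x.1 < rk E t L y.1 := by
  obtain ⟨⟨c, i⟩, hi, hc⟩ := x
  obtain ⟨⟨c', i'⟩, hi', hc'⟩ := y
  rcases hxy with ⟨h1, h2⟩ | ⟨h1, h2⟩
  · have h1' : c = c' := h1
    have h2' : i + 1 = i' := h2
    subst h1'
    subst h2'
    match c with
    | none =>
      show (N + 1) * (L + 1) * (N * (t + 1) + t + 3) + i <
        (N + 1) * (L + 1) * (N * (t + 1) + t + 3) + (i + 1)
      omega
    | some (v, l, w) =>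
      show (rho E v * (L + 1) + l) * (N * (t + 1) + t + 3) + i <
        (rho E v * (L + 1) + l) * (N * (t + 1) + t + 3) + (i + 1)
      omega
  · have hB : i < N * (t + 1) + t + 3 := lt_trans hi (length_le t L c)
    have hmem : c ∈ brd E z t L c' := List.mem_of_getElem? h2
    have key : ∀ a b : ℕ, a < b →
        a * (N * (t + 1) + t + 3) + i < b * (N * (t + 1) + t + 3) + i' := by
      intro a b hab
      have h3 : (a + 1) * (N * (t + 1) + t + 3) ≤ b * (N * (t + 1) + t + 3) :=
        Nat.mul_le_mul_right _ hab
      have h4 : (a + 1) * (N * (t + 1) + t + 3) =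
          a * (N * (t + 1) + t + 3) + (N * (t + 1) + t + 3) := by ring
      omega
    match c', hmem with
    | none, hmem =>
      obtain ⟨w, rfl⟩ := mem_none hmem
      refine key (rho E z * (L + 1) + L) ((N + 1) * (L + 1)) ?_
      have h5 := Nat.mul_le_mul_right (L + 1) (rho_le (E := E) z)
      have h6 : (N + 1) * (L + 1) = N * (L + 1) + (L + 1) := by ring
      omega
    | some (v, 0, w), hmem =>
      obtain ⟨u, w', hu, rfl⟩ := mem_zero hmem
      refine key (rho E u * (L + 1) + L) (rho E v * (L + 1) + 0) ?_
      have h5 : (rho E u + 1) * (L + 1) ≤ rho E v * (L + 1) :=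
        Nat.mul_le_mul_right (L + 1) (rho_lt h hu)
      have h6 : (rho E u + 1) * (L + 1) = rho E u * (L + 1) + (L + 1) := by ring
      omega
    | some (v, l + 1, w), hmem =>
      obtain ⟨w', rfl⟩ := mem_succ hmem
      refine key (rho E v * (L + 1) + l) (rho E v * (L + 1) + (l + 1)) ?_
      omega

theorem rk_transGen (h : ∀ v, ¬ Relation.TransGen E v v) {t L : ℕ} {x y : BNode E z t L}
    (hxy : Relation.TransGen (BArc E z t L) x y) : rk E t L x.1 < rk E t L y.1 := by
  induction hxy with
  | single h1 => exact rk_lt h h1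
  | tail _ h1 ih => exact ih.trans (rk_lt h h1)

theorem lt_clen_of_mem {t L : ℕ} {c c' : BCell N t} (hmem : c ∈ brd E z t L c') :
    ∃ i, i < clen (brd E z t L) c' ∧ (brd E z t L c')[i]? = some c := by
  obtain ⟨i, hi, h⟩ := List.mem_iff_getElem.1 hmem
  refine ⟨i, lt_of_lt_of_le hi (le_max_right _ _), ?_⟩
  rw [List.getElem?_eq_getElem hi, h]

/-- The end of a cell which is read by a cell in the layers `0, ..., L` has a successor. -/
theorem exists_succ {t L : ℕ} {c c' : BCell N t} (hmem : c ∈ brd E z t L c')
    (hc' : ∀ v l w, c' = some (v, l, w) → l ≤ L) {x : BNode E z t L} (hx : x.1.1 = c)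
    (hx2 : x.1.2 + 1 = clen (brd E z t L) c) : ∃ y, BArc E z t L x y := by
  obtain ⟨i, hi, h⟩ := lt_clen_of_mem hmem
  refine ⟨⟨(c', i), hi, hc'⟩, Or.inr ⟨?_, ?_⟩⟩
  · rw [hx]
    exact hx2
  · rw [hx]
    exact h

theorem encard_le {α : Type*} {A B : Set α} (hA : ∀ a ∈ A, ∀ b ∈ A, a = b)
    (hB : ∀ a ∈ B, ∀ b ∈ B, a = b) : (A ∪ B).encard ≤ 2 := by
  have h1 : A.encard ≤ 1 := Set.encard_le_one_iff.2 fun a b ha hb => hA a ha b hb
  have h2 : B.encard ≤ 1 := Set.encard_le_one_iff.2 fun a b ha hb => hB a ha b hb
  refine (Set.encard_union_le A B).trans ((add_le_add h1 h2).trans ?_)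
  norm_num

end BdProps1

open BdProps1 in
theorem b_isPebDag' {N : ℕ} {E : Fin N → Fin N → Prop} {z : Fin N} (h : IsPebDag E z) (t L : ℕ) :
    IsPebDag (BArc E z t L) (btgt E z t L) := by
  refine ⟨fun v hv => lt_irrefl _ (rk_transGen h.acyclic hv), fun x => ⟨fun hx => ?_, ?_⟩,
    fun y => ?_⟩
  · obtain ⟨⟨c, i⟩, hi, hc⟩ := x
    have hi' : i < clen (brd E z t L) c := hi
    by_cases hi1 : i + 1 < clen (brd E z t L) c
    · exact absurd (Or.inl ⟨rfl, rfl⟩) (hx ⟨(c, i + 1), hi1, hc⟩)
    · have hi2 : i + 1 = clen (brd E z t L) c := by omega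
      match c, hi, hc, hi', hi1, hi2, hx with
      | none, hi, hc, hi', hi1, hi2, hx =>
        have h1 := clen_none E z t L
        apply Subtype.ext
        show ((none, i) : BCell N t × ℕ) = (none, t)
        have h2 : i = t := by omega
        rw [h2]
      | some (v, l, w), hi, hc, hi', hi1, hi2, hx =>
        exfalso
        have hl : l ≤ L := hc v l w rfl
        have main : ∃ c', some (v, l, w) ∈ brd E z t L c' ∧
            ∀ v' l' w', c' = some (v', l', w') → l' ≤ L := by
          rcases Nat.lt_or_ge l L with hl' | hl'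
          · refine ⟨some (v, l + 1, Fin.last t), ?_, ?_⟩
            · simp only [brd, if_true, List.mem_map]
              exact ⟨w, List.mem_finRange w, rfl⟩
            · intro v' l' w' he
              simp only [Option.some.injEq, Prod.mk.injEq] at he
              omega
          · have hlL : l = L := by omega
            by_cases hvz : v = z
            · refine ⟨none, ?_, ?_⟩
              · simp only [brd, List.mem_map]
                exact ⟨w, List.mem_finRange w, by rw [hlL, hvz]⟩
              · intro v' l' w' he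
                exact absurd he (by simp)
            · have h3 : ∃ v', E v v' := by
                by_contra hno
                push Not at hno
                exact hvz ((h.sink v).1 hno)
              obtain ⟨v', hv'⟩ := h3
              refine ⟨some (v', 0, 0), ?_, ?_⟩
              · simp only [brd, List.mem_flatMap, List.mem_map, pl, List.mem_filter,
                  decide_eq_true_eq]
                exact ⟨v, ⟨List.mem_finRange v, hv'⟩, w, List.mem_finRange w, by rw [hlL]⟩
              · intro v'' l' w' he
                simp only [Option.some.injEq, Prod.mk.injEq] at he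
                omega
        obtain ⟨c', h4, h5⟩ := main
        obtain ⟨y, hy⟩ := exists_succ (x := ⟨(some (v, l, w), i), hi, hc⟩) h4 h5 rfl hi2
        exact hx y hy
  · rintro rfl y hy
    obtain ⟨⟨c, i⟩, hi, hc⟩ := y
    rcases hy with ⟨h1, h2⟩ | ⟨_, h2⟩
    · have h1' : none = c := h1
      have h2' : t + 1 = i := h2
      subst h1'
      have h3 : i < clen (brd E z t L) none := hi
      rw [clen_none] at h3
      omega
    · exact none_not_mem (List.mem_of_getElem? h2)
  · have hsub : {u | BArc E z t L u y} ⊆
        {u : BNode E z t L | u.1.1 = y.1.1 ∧ u.1.2 + 1 = y.1.2} ∪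
        {u : BNode E z t L | u.1.2 + 1 = clen (brd E z t L) u.1.1 ∧
          (brd E z t L y.1.1)[y.1.2]? = some u.1.1} := by
      intro u hu
      exact hu
    refine (Set.encard_le_encard hsub).trans (encard_le ?_ ?_)
    · rintro a ⟨ha1, ha2⟩ b ⟨hb1, hb2⟩
      apply Subtype.ext
      exact Prod.ext (ha1.trans hb1.symm) (by omega)
    · rintro a ⟨ha1, ha2⟩ b ⟨hb1, hb2⟩
      have h1 : a.1.1 = b.1.1 := by
        rw [ha2] at hb2
        exact Option.some.inj hb2
      apply Subtype.ext
      refine Prod.ext h1 ?_
      rw [h1] at ha1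
      omega

end MP1fca05
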