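import Pool.Agent.Lib.MP_1fca05_lc.Bd

/-!
The bundle dag is finite; the number of its nodes.
-/

namespace MP1fca05

/-- A finite set which contains all the nodes of the bundle dag. -/
noncomputable def bdFin {N : ℕ} (E : Fin N → Fin N → Prop) (z : Fin N) (t L : ℕ) :
    Finset (BCell N t × ℕ) :=
  (Finset.range (clen (brd E z t L) none)).image (fun i => (none, i)) ∪
    Finset.univ.biUnion fun v : Fin N => (Finset.range (L + 1)).biUnion fun l =>
      Finset.univ.biUnion fun w : Fin (t + 1) =>
        (Finset.range (clen (brd E z t L) (some (v, l, w)))).image fun i => (some (v, l, w), i)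

theorem mem_bdFin {N : ℕ} {E : Fin N → Fin N → Prop} {z : Fin N} {t L : ℕ}
    (x : BNode E z t L) : x.1 ∈ bdFin E z t L := by
  obtain ⟨⟨c, i⟩, h1, h2⟩ := x
  rcases c with _ | ⟨v, l, w⟩
  · exact Finset.mem_union_left _ (Finset.mem_image.2 ⟨i, Finset.mem_range.2 h1, rfl⟩)
  · refine Finset.mem_union_right _ (Finset.mem_biUnion.2 ⟨v, Finset.mem_univ _,
      Finset.mem_biUnion.2 ⟨l, Finset.mem_range.2 (Nat.lt_succ_of_le (h2 v l w rfl)),
        Finset.mem_biUnion.2 ⟨w, Finset.mem_univ _,
          Finset.mem_image.2 ⟨i, Finset.mem_range.2 h1, rfl⟩⟩⟩⟩)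

instance {N : ℕ} (E : Fin N → Fin N → Prop) (z : Fin N) (t L : ℕ) : Finite (BNode E z t L) :=
  Finite.of_injective (fun x : BNode E z t L => (⟨x.1, mem_bdFin x⟩ : bdFin E z t L))
    fun _ _ h => Subtype.ext (Subtype.mk.inj h)

theorem bd_length_flatMap {N t : ℕ} {α : Type} (f : Fin N → Fin (t + 1) → α) (l : List (Fin N)) :
    (l.flatMap (fun u => (List.finRange (t + 1)).map (f u))).length = l.length * (t + 1) := by
  induction l with
  | nil => simp
  | cons a l ih =>
    rw [List.flatMap_cons, List.length_append, ih, List.length_map, List.length_finRange,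
      List.length_cons]
    ring

theorem bd_pl_le {N : ℕ} {E : Fin N → Fin N → Prop} {z : Fin N} (h : IsPebDag E z) (v : Fin N) :
    (pl E v).length ≤ 2 := by
  classical
  have h1 : (pl E v).Nodup := (List.nodup_finRange N).filter _
  have h2 : (((pl E v).toFinset : Finset (Fin N)) : Set (Fin N)) ⊆ {u | E u v} := by
    intro u hu
    rw [Finset.mem_coe, List.mem_toFinset] at hu
    unfold pl at hu
    rw [List.mem_filter] at hu
    exact of_decide_eq_true hu.2
  have h3 := (Set.encard_le_encard h2).trans (h.indeg v)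
  rw [Set.encard_coe_eq_coe_finsetCard, List.toFinset_card_of_nodup h1] at h3
  exact_mod_cast h3

theorem bd_clen_zero {N : ℕ} {E : Fin N → Fin N → Prop} {z : Fin N} (h : IsPebDag E z) (t L : ℕ)
    (v : Fin N) (w : Fin (t + 1)) : clen (brd E z t L) (some (v, 0, w)) ≤ 2 * (t + 1) := by
  have h1 : clen (brd E z t L) (some (v, 0, w)) = max 1 ((pl E v).length * (t + 1)) := by
    show max 1 ((pl E v).flatMap (fun u => (List.finRange (t + 1)).map
      (fun w => (some (u, L, w) : BCell N t)))).length = _
    rw [bd_length_flatMap (fun u w => (some (u, L, w) : BCell N t))]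
  rw [h1]
  have h2 := Nat.mul_le_mul_right (t + 1) (bd_pl_le h v)
  omega

theorem bd_clen_succ {N : ℕ} (E : Fin N → Fin N → Prop) (z : Fin N) (t L : ℕ)
    (v : Fin N) (l : ℕ) :
    ∑ w : Fin (t + 1), clen (brd E z t L) (some (v, l + 1, w)) = 3 * t + 1 := by
  have h1 : ∀ w : Fin (t + 1), clen (brd E z t L) (some (v, l + 1, w)) =
      if w = Fin.last t then t + 1 else 2 := by
    intro w
    show max 1 (if w = Fin.last t then (List.finRange (t + 1)).map
      (fun w' => (some (v, l, w') : BCell N t))
      else [some (v, l, w), some (v, l, Fin.last t)]).length = _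
    split_ifs with hw
    · rw [List.length_map, List.length_finRange]
      omega
    · rfl
  rw [Finset.sum_congr rfl fun w _ => h1 w, Fin.sum_univ_castSucc]
  have h2 : ∀ i : Fin t, (if i.castSucc = Fin.last t then t + 1 else 2) = 2 := fun i =>
    if_neg (Fin.castSucc_lt_last i).ne
  rw [Finset.sum_congr rfl fun i _ => h2 i, if_pos rfl, Finset.sum_const, Finset.card_univ,
    Fintype.card_fin, smul_eq_mul]
  ring

theorem bdFin_card_le {N : ℕ} {E : Fin N → Fin N → Prop} {z : Fin N} (h : IsPebDag E z)
    (t L : ℕ) :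
    (bdFin E z t L).card ≤ N * (L * (3 * t + 1) + 2 * (t + 1) ^ 2) + (t + 1) := by
  have h0 : ∀ (v : Fin N) (l : ℕ), (Finset.univ.biUnion fun w : Fin (t + 1) =>
      (Finset.range (clen (brd E z t L) (some (v, l, w)))).image
        fun i => ((some (v, l, w), i) : BCell N t × ℕ)).card ≤
      ∑ w : Fin (t + 1), clen (brd E z t L) (some (v, l, w)) := by
    intro v l
    refine Finset.card_biUnion_le.trans (Finset.sum_le_sum fun w _ => ?_)
    exact Finset.card_image_le.trans (le_of_eq (Finset.card_range _))
  have h1 : ∀ v : Fin N, ((Finset.range (L + 1)).biUnion fun l =>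
      Finset.univ.biUnion fun w : Fin (t + 1) =>
        (Finset.range (clen (brd E z t L) (some (v, l, w)))).image
          fun i => ((some (v, l, w), i) : BCell N t × ℕ)).card ≤
      L * (3 * t + 1) + 2 * (t + 1) ^ 2 := by
    intro v
    refine Finset.card_biUnion_le.trans ((Finset.sum_le_sum fun l _ => h0 v l).trans ?_)
    rw [Finset.sum_range_succ', Finset.sum_congr rfl fun l _ => bd_clen_succ E z t L v l,
      Finset.sum_const, Finset.card_range, smul_eq_mul]
    refine Nat.add_le_add_left ?_ _
    refine (Finset.sum_le_sum fun w _ => bd_clen_zero h t L v w).trans (le_of_eq ?_)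
    rw [Finset.sum_const, Finset.card_univ, Fintype.card_fin, smul_eq_mul]
    ring
  refine (Finset.card_union_le _ _).trans ?_
  rw [Nat.add_comm (N * _)]
  refine Nat.add_le_add ?_ ?_
  · refine Finset.card_image_le.trans (le_of_eq ?_)
    rw [Finset.card_range, clen_none]
  · refine Finset.card_biUnion_le.trans ((Finset.sum_le_sum fun v _ => h1 v).trans (le_of_eq ?_))
    rw [Finset.sum_const, Finset.card_univ, Fintype.card_fin, smul_eq_mul]

theorem b_card_le' {N : ℕ} {E : Fin N → Fin N → Prop} {z : Fin N} (h : IsPebDag E z) (t L : ℕ) :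
    Nat.card (BNode E z t L) ≤ N * (L * (3 * t + 1) + 2 * (t + 1) ^ 2) + (t + 1) := by
  have h1 : Nat.card (bdFin E z t L) = (bdFin E z t L).card := by
    rw [Nat.card_eq_fintype_card, Fintype.card_coe]
  refine le_trans ?_ (bdFin_card_le h t L)
  rw [← h1]
  exact Nat.card_le_card_of_injective
    (fun x : BNode E z t L => (⟨x.1, mem_bdFin x⟩ : bdFin E z t L))
    fun _ _ h => Subtype.ext (Subtype.mk.inj h)

end MP1fca05
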