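import Pool.Agent.Lib.MP_1fca05_lc.Defs

/-!
Black pebbling, factor below two (MP_1fca05_lc): the pebbling strategy for the layered dag.
-/

namespace MP1fca05

namespace Up

/-! ### Reachable configurations -/

section

variable {V : Type} [DecidableEq V]

/-- `Q` can be reached from `P` with at most `K` pebbles. -/
def Rch (E : V → V → Prop) (K : ℕ) : Finset V → Finset V → Prop :=
  Relation.ReflTransGen fun P Q => Move E P Q ∧ Q.card ≤ K

theorem Rch.seq {E : V → V → Prop} {K : ℕ} {P Q : Finset V} (h : Rch E K P Q) :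
    P.card ≤ K → ∃ (T : ℕ) (S : ℕ → Finset V), S 0 = P ∧ S T = Q ∧
      (∀ i, i < T → Move E (S i) (S (i + 1))) ∧ ∀ i, i ≤ T → (S i).card ≤ K := by
  induction h using Relation.ReflTransGen.head_induction_on with
  | refl =>
    intro hP
    exact ⟨0, fun _ => Q, rfl, rfl, fun i hi => absurd hi (Nat.not_lt_zero i), fun _ _ => hP⟩
  | head hab _ ih =>
    rename_i a b _
    intro hP
    obtain ⟨T, S, h1, h2, h3, h4⟩ := ih hab.2
    refine ⟨T + 1, fun i => if i = 0 then a else S (i - 1), by simp, by simp [h2], ?_, ?_⟩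
    · intro i hi
      rcases i with _ | i
      · simp only [if_true, Nat.zero_add, Nat.one_ne_zero, if_false, Nat.sub_self]
        rw [h1]
        exact hab.1
      · simp only [Nat.add_eq_zero_iff, Nat.one_ne_zero, and_false, if_false, Nat.add_sub_cancel]
        exact h3 i (by omega)
    · intro i hi
      rcases i with _ | i
      · simpa using hP
      · simp only [Nat.add_eq_zero_iff, Nat.one_ne_zero, and_false, if_false, Nat.add_sub_cancel]
        exact h4 i (by omega)

theorem Rch.can {E : V → V → Prop} {K : ℕ} {Q : Finset V} {t : V} (h : Rch E K ∅ Q)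
    (ht : t ∈ Q) : CanPebble E t K := by
  obtain ⟨T, S, h1, h2, h3, h4⟩ := h.seq (by simp)
  exact ⟨T, S, h1, h3, by rw [h2]; exact ht, h4⟩

theorem Rch.place {E : V → V → Prop} {K : ℕ} {P : Finset V} {v : V} (hv : v ∉ P)
    (h : ∀ u, E u v → u ∈ P) (hK : P.card + 1 ≤ K) : Rch E K P (insert v P) :=
  Relation.ReflTransGen.single ⟨Or.inl ⟨v, hv, h, rfl⟩, by
    rw [Finset.card_insert_of_notMem hv]
    exact hK⟩

theorem Rch.remove {E : V → V → Prop} {K : ℕ} {P : Finset V} {v : V} (hv : v ∈ P)
    (hK : P.card ≤ K) : Rch E K P (P.erase v) :=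
  Relation.ReflTransGen.single ⟨Or.inr (Or.inl ⟨v, hv, rfl⟩),
    (Finset.card_le_card (Finset.erase_subset _ _)).trans hK⟩

/-- The run of a chain. -/
theorem Rch.chain {E : V → V → Prop} {K : ℕ} {P : Finset V} (c : ℕ → V) (n : ℕ)
    (hc : ∀ j ≤ n, c j ∉ P) (hne : ∀ j < n, c (j + 1) ≠ c j) (h0 : ∀ u, E u (c 0) → u ∈ P)
    (hs : ∀ j < n, ∀ u, E u (c (j + 1)) → u = c j ∨ u ∈ P) (hE : ∀ j < n, E (c j) (c (j + 1)))
    (hK : P.card + 1 ≤ K) : ∀ j ≤ n, Rch E K P (insert (c j) P) := by
  intro j
  induction j with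
  | zero =>
    intro _
    exact Rch.place (hc 0 (Nat.zero_le _)) h0 hK
  | succ j ih =>
    intro hj
    refine Relation.ReflTransGen.tail (ih (by omega)) ⟨Or.inr (Or.inr ⟨c j, c (j + 1),
      Finset.mem_insert_self _ _, ?_, hE j (by omega), ?_, ?_⟩), ?_⟩
    · rw [Finset.mem_insert, not_or]
      exact ⟨hne j (by omega), hc _ hj⟩
    · intro w hw
      rw [Finset.mem_insert]
      exact hs j (by omega) w hw
    · rw [Finset.erase_insert (hc j (by omega))]
    · rw [Finset.card_insert_of_notMem (hc _ hj)]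
      exact hK

end

/-! ### The rows -/

variable {m : ℕ}

/-- The last nodes of the columns in `W` in the layer `b`. -/
def Row (b : Fin (20 * (m + 1))) (W : Finset (Fin (m + 1))) : Finset (Node m) :=
  W.image fun w => Sum.inl (w, b, Fin.last m)

theorem mem_Row {b : Fin (20 * (m + 1))} {W : Finset (Fin (m + 1))} {w : Fin (m + 1)}
    {a : Fin (20 * (m + 1))} {j : Fin (m + 1)} :
    (Sum.inl (w, a, j) : Node m) ∈ Row b W ↔ w ∈ W ∧ a = b ∧ j = Fin.last m := by
  unfold Row
  rw [Finset.mem_image]
  constructor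
  · rintro ⟨w', hw', h⟩
    simp only [Sum.inl.injEq, Prod.mk.injEq] at h
    obtain ⟨rfl, rfl, rfl⟩ := h
    exact ⟨hw', rfl, rfl⟩
  · rintro ⟨hw, rfl, rfl⟩
    exact ⟨w, hw, rfl⟩

theorem notMem_Row {b : Fin (20 * (m + 1))} {W : Finset (Fin (m + 1))} {j : Fin (m + 1)} :
    (Sum.inr j : Node m) ∉ Row b W := by
  unfold Row
  rw [Finset.mem_image]
  rintro ⟨w, _, h⟩
  exact absurd h (by simp)

theorem card_Row (b : Fin (20 * (m + 1))) (W : Finset (Fin (m + 1))) :
    (Row b W).card ≤ W.card := Finset.card_image_le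

theorem Row_empty (b : Fin (20 * (m + 1))) : Row b (∅ : Finset (Fin (m + 1))) = ∅ := by
  simp [Row]

theorem Row_insert (b : Fin (20 * (m + 1))) (w : Fin (m + 1)) (W : Finset (Fin (m + 1))) :
    Row b (insert w W) = insert (Sum.inl (w, b, Fin.last m)) (Row b W) := by
  unfold Row
  rw [Finset.image_insert]

theorem card_two (a b : Fin (20 * (m + 1))) (A B : Finset (Fin (m + 1))) :
    (Row a A ∪ Row b B).card ≤ A.card + B.card :=
  (Finset.card_union_le _ _).trans (Nat.add_le_add (card_Row _ _) (card_Row _ _))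

variable {R : Fin m → Fin m → Prop} {K : ℕ}

/-- The run of the chain of column `w` in layer `b`. -/
theorem run {P : Finset (Node m)} {w : Fin (m + 1)} {b : Fin (20 * (m + 1))}
    (h1 : ∀ j, (Sum.inl (w, b, j) : Node m) ∉ P)
    (h2 : ∀ (a : Fin (20 * (m + 1))) (u : Fin (m + 1)), (a : ℕ) + 1 = b → Rp R u w →
      (Sum.inl (u, a, Fin.last m) : Node m) ∈ P)
    (hK : P.card + 1 ≤ K) : Rch (Arc R) K P (insert (Sum.inl (w, b, Fin.last m)) P) := by
  have hlt : ∀ j, min j m < m + 1 := fun j => Nat.lt_succ_of_le (Nat.min_le_right _ _)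
  set c : ℕ → Node m := fun j => Sum.inl (w, b, ⟨min j m, hlt j⟩) with hc
  have key := Rch.chain (E := Arc R) (K := K) (P := P) c m (fun j _ => h1 _) ?_ ?_ ?_ ?_ hK m le_rfl
  · have e : c m = Sum.inl (w, b, Fin.last m) := by
      simp only [hc, min_self]
      rfl
    rwa [e] at key
  · intro j hj h
    simp only [hc, Sum.inl.injEq, Prod.mk.injEq, Fin.mk.injEq, true_and] at h
    omega
  · rintro (⟨u, a, i⟩ | i) h
    · rcases h with ⟨_, _, h⟩ | ⟨rfl, ha, _, hR⟩
      · simp at h
      · exact h2 a u ha hR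
    · exact h.elim
  · rintro j hj (⟨u, a, i⟩ | i) h
    · rcases h with ⟨rfl, rfl, h⟩ | ⟨rfl, ha, _, hR⟩
      · left
        simp only [hc, Sum.inl.injEq, Prod.mk.injEq, true_and]
        apply Fin.ext
        simp only at h ⊢
        omega
      · exact Or.inr (h2 a u ha hR)
    · exact h.elim
  · intro j hj
    left
    refine ⟨rfl, rfl, ?_⟩
    show min j m + 1 = min (j + 1) m
    omega

/-- Layer `0`. -/
theorem layer_zero (b : Fin (20 * (m + 1))) (hb : (b : ℕ) = 0) (hK : m + 1 ≤ K)
    (W : Finset (Fin (m + 1))) : Rch (Arc R) K ∅ (Row b W) := by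
  induction W using Finset.induction_on with
  | empty =>
    rw [Row_empty]
    exact Relation.ReflTransGen.refl
  | insert w W hw ih =>
    rw [Row_insert]
    refine Relation.ReflTransGen.trans ih (run ?_ ?_ ?_)
    · intro j h
      exact hw (mem_Row.1 h).1
    · intro a u ha _
      omega
    · have h1 := card_Row b W
      have h2 := Finset.card_le_univ (insert w W)
      rw [Finset.card_insert_of_notMem hw, Fintype.card_fin] at h2
      omega

/-- New nodes in the layer `b`. -/
theorem grow {a b : Fin (20 * (m + 1))} (hab : (a : ℕ) + 1 = b) {A B : Finset (Fin (m + 1))}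
    (B' : Finset (Fin (m + 1))) (h : ∀ v ∈ B', v ∉ B → ∀ u, Rp R u v → u ∈ A)
    (hK : A.card + (B ∪ B').card ≤ K) :
    Rch (Arc R) K (Row a A ∪ Row b B) (Row a A ∪ Row b (B ∪ B')) := by
  have hne : a ≠ b := by
    rintro rfl
    omega
  induction B' using Finset.induction_on with
  | empty =>
    rw [Finset.union_empty]
    exact Relation.ReflTransGen.refl
  | insert v B' hv ih =>
    have h1 := ih (fun w hw => h w (Finset.mem_insert_of_mem hw)) (le_trans (Nat.add_le_add_left
      (Finset.card_le_card (Finset.union_subset_union_right (Finset.subset_insert _ _))) _) hK)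
    rw [Finset.union_insert] at hK ⊢
    by_cases hvB : v ∈ B ∪ B'
    · rw [Finset.insert_eq_of_mem hvB]
      exact h1
    · rw [Row_insert, Finset.union_insert]
      rw [Finset.card_insert_of_notMem hvB] at hK
      have hvB' : v ∉ B := fun h => hvB (Finset.mem_union_left _ h)
      refine Relation.ReflTransGen.trans h1 (run ?_ ?_ ?_)
      · intro j hj
        rcases Finset.mem_union.1 hj with hj | hj
        · exact hne (mem_Row.1 hj).2.1.symm
        · exact hvB (mem_Row.1 hj).1
      · intro a' u ha hR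
        have haa : a' = a := Fin.ext (by omega)
        subst haa
        exact Finset.mem_union_left _ (mem_Row.2 ⟨h v (Finset.mem_insert_self _ _) hvB' u hR,
          rfl, rfl⟩)
      · have := card_two a b A (B ∪ B')
        omega

/-- Removal of a node in the layer `a`. -/
theorem shrink {a b : Fin (20 * (m + 1))} (hab : (a : ℕ) + 1 = b) {A B : Finset (Fin (m + 1))}
    {x : Fin (m + 1)} (hx : x ∈ A) (hK : A.card + B.card ≤ K) :
    Rch (Arc R) K (Row a A ∪ Row b B) (Row a (A.erase x) ∪ Row b B) := by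
  have hne : a ≠ b := by
    rintro rfl
    omega
  have h1 : Row a (A.erase x) ∪ Row b B =
      (Row a A ∪ Row b B).erase (Sum.inl (x, a, Fin.last m)) := by
    ext z
    rcases z with ⟨w, c, j⟩ | j
    · simp only [Finset.mem_union, Finset.mem_erase, mem_Row, ne_eq, Sum.inl.injEq,
        Prod.mk.injEq]
      constructor
      · rintro (⟨⟨h1, h2⟩, rfl, rfl⟩ | ⟨h1, rfl, rfl⟩)
        · exact ⟨fun h => h1 h.1, Or.inl ⟨h2, rfl, rfl⟩⟩
        · exact ⟨fun h => hne h.2.1.symm, Or.inr ⟨h1, rfl, rfl⟩⟩
      · rintro ⟨h0, (⟨h2, rfl, rfl⟩ | ⟨h1, rfl, rfl⟩)⟩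
        · exact Or.inl ⟨⟨fun h => h0 ⟨h, rfl, rfl⟩, h2⟩, rfl, rfl⟩
        · exact Or.inr ⟨h1, rfl, rfl⟩
    · simp only [Finset.mem_union, Finset.mem_erase, notMem_Row, or_self, and_false]
  rw [h1]
  exact Rch.remove (Finset.mem_union_left _ (mem_Row.2 ⟨hx, rfl, rfl⟩))
    ((card_two a b A B).trans hK)

/-! ### The order of the columns -/

/-- The position of a column; the hub is the last one. -/
def pos (f : Fin m ≃ Fin m) (w : Fin (m + 1)) : ℕ :=
  Fin.lastCases (motive := fun _ => ℕ) m (fun u => (f u : ℕ)) w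

theorem pos_last (f : Fin m ≃ Fin m) : pos f (Fin.last m) = m := by
  simp [pos]

theorem pos_castSucc (f : Fin m ≃ Fin m) (u : Fin m) : pos f u.castSucc = f u := by
  simp [pos]

theorem pos_inj (f : Fin m ≃ Fin m) {w w' : Fin (m + 1)} (h : pos f w = pos f w') : w = w' := by
  induction w using Fin.lastCases with
  | last =>
    induction w' using Fin.lastCases with
    | last => rfl
    | cast u' =>
      rw [pos_last, pos_castSucc] at h
      have := (f u').2
      omega
  | cast u =>
    induction w' using Fin.lastCases with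
    | last =>
      rw [pos_last, pos_castSucc] at h
      have := (f u).2
      omega
    | cast u' =>
      rw [pos_castSucc, pos_castSucc] at h
      rw [f.injective (Fin.ext h)]

theorem exists_pos (f : Fin m ≃ Fin m) {i : ℕ} (hi : i ≤ m) : ∃ w, pos f w = i := by
  rcases hi.lt_or_eq with h | h
  · exact ⟨(f.symm ⟨i, h⟩).castSucc, by rw [pos_castSucc, Equiv.apply_symm_apply]⟩
  · exact ⟨Fin.last m, by rw [pos_last, h]⟩

theorem pos_le (f : Fin m ≃ Fin m) (w : Fin (m + 1)) : pos f w ≤ m := by
  induction w using Fin.lastCases with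
  | last => rw [pos_last]
  | cast u => rw [pos_castSucc]; exact (f u).2.le

/-- The columns which are still needed. -/
def Aset (f : Fin m ≃ Fin m) (i : ℕ) : Finset (Fin (m + 1)) :=
  Finset.univ.filter fun w => i ≤ pos f w

theorem mem_Aset {f : Fin m ≃ Fin m} {i : ℕ} {w : Fin (m + 1)} :
    w ∈ Aset f i ↔ i ≤ pos f w := by simp [Aset]

theorem Aset_succ (f : Fin m ≃ Fin m) {i : ℕ} {x : Fin (m + 1)} (hx : pos f x = i) :
    Aset f (i + 1) = (Aset f i).erase x := by
  ext w
  rw [Finset.mem_erase, mem_Aset, mem_Aset]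
  constructor
  · intro h
    refine ⟨?_, by omega⟩
    rintro rfl
    omega
  · rintro ⟨h1, h2⟩
    have h3 : pos f w ≠ i := fun h => h1 (pos_inj f (h.trans hx.symm))
    omega

theorem card_Aset (f : Fin m ≃ Fin m) (i : ℕ) (hi : i ≤ m + 1) :
    (Aset f i).card + i = m + 1 := by
  induction i with
  | zero =>
    have h1 : Aset f 0 = Finset.univ := by
      ext w
      simp [mem_Aset]
    rw [h1, Finset.card_univ, Fintype.card_fin]
  | succ i ih =>
    obtain ⟨x, hx⟩ := exists_pos f (i := i) (by omega)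
    have h1 : x ∈ Aset f i := mem_Aset.2 hx.ge
    have h2 := ih (by omega)
    rw [Aset_succ f hx, Finset.card_erase_of_mem h1]
    have h3 : 0 < (Aset f i).card := Finset.card_pos.2 ⟨x, h1⟩
    omega

/-- The out-neighbours of the first `i` columns. -/
noncomputable def Bset (R : Fin m → Fin m → Prop) (f : Fin m ≃ Fin m) (i : ℕ) :
    Finset (Fin (m + 1)) :=
  @Finset.filter _ (fun v => ∃ u, pos f u < i ∧ Rp R u v) (Classical.decPred _) Finset.univ

theorem mem_Bset {f : Fin m ≃ Fin m} {i : ℕ} {v : Fin (m + 1)} :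
    v ∈ Bset R f i ↔ ∃ u, pos f u < i ∧ Rp R u v := by simp [Bset]

theorem card_Bset {f : Fin m ≃ Fin m} {k : ℕ}
    (hf : ∀ i : ℕ, {v | ∃ u, (f u : ℕ) < i ∧ R u v}.ncard ≤ i + k) {i : ℕ} (hi : i ≤ m) :
    (Bset R f i).card ≤ i + k + 1 := by
  have h1 : ((Bset R f i : Finset (Fin (m + 1))) : Set (Fin (m + 1))) ⊆
      insert (Fin.last m) (Fin.castSucc '' {v | ∃ u, (f u : ℕ) < i ∧ R u v}) := by
    intro v hv
    rw [Finset.mem_coe, mem_Bset] at hv
    obtain ⟨u, hu, hR⟩ := hv
    rcases hR with rfl | rfl | ⟨i', j, rfl, rfl, hR⟩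
    · rw [pos_last] at hu
      omega
    · exact Set.mem_insert _ _
    · rw [pos_castSucc] at hu
      exact Set.mem_insert_of_mem _ ⟨j, ⟨i', hu, hR⟩, rfl⟩
  have h2 := Set.ncard_le_ncard h1 (Set.toFinite _)
  rw [Set.ncard_coe_finset] at h2
  have h3 := Set.ncard_insert_le (Fin.last m)
    (Fin.castSucc '' {v : Fin m | ∃ u, (f u : ℕ) < i ∧ R u v})
  have h4 := Set.ncard_image_le (f := (Fin.castSucc : Fin m → Fin (m + 1)))
    (Set.toFinite {v : Fin m | ∃ u, (f u : ℕ) < i ∧ R u v})
  have h5 := hf i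
  omega

/-- The step from one layer to the next one. -/
theorem row_step {f : Fin m ≃ Fin m} {k : ℕ}
    (hf : ∀ i : ℕ, {v | ∃ u, (f u : ℕ) < i ∧ R u v}.ncard ≤ i + k)
    {a b : Fin (20 * (m + 1))} (hab : (a : ℕ) + 1 = b) :
    Rch (Arc R) (m + k + 3) (Row a Finset.univ) (Row b Finset.univ) := by
  have key : ∀ i ≤ m + 1, Rch (Arc R) (m + k + 3) (Row a Finset.univ)
      (Row a (Aset f i) ∪ Row b (Bset R f i)) := by
    intro i
    induction i with
    | zero =>
      intro _
      have h1 : Aset f 0 = Finset.univ := by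
        ext w
        simp [mem_Aset]
      have h2 : Bset R f 0 = ∅ := by
        ext v
        simp [mem_Bset]
      rw [h1, h2, Row_empty, Finset.union_empty]
      exact Relation.ReflTransGen.refl
    | succ i ih =>
      intro hi
      obtain ⟨x, hx⟩ := exists_pos f (i := i) (by omega)
      have hA := card_Aset f i (by omega)
      have hsub : Bset R f i ⊆ Bset R f (i + 1) := by
        intro v hv
        rw [mem_Bset] at hv ⊢
        obtain ⟨u, hu, hR⟩ := hv
        exact ⟨u, by omega, hR⟩
      have hB : (Aset f i).card + (Bset R f (i + 1)).card ≤ m + k + 3 := by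
        rcases Nat.lt_or_ge i m with him | him
        · have := card_Bset (R := R) hf (i := i + 1) (by omega)
          omega
        · have h1 := Finset.card_le_univ (Bset R f (i + 1))
          rw [Fintype.card_fin] at h1
          omega
      have h1 := grow (R := R) (K := m + k + 3) hab (A := Aset f i) (B := Bset R f i)
        (Bset R f (i + 1)) (by
          intro v _ hv u hR
          rw [mem_Aset]
          by_contra hlt
          exact hv (mem_Bset.2 ⟨u, by omega, hR⟩)) (by
          rw [Finset.union_eq_right.2 hsub]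
          exact hB)
      rw [Finset.union_eq_right.2 hsub] at h1
      have h2 := shrink (R := R) (K := m + k + 3) hab (A := Aset f i) (B := Bset R f (i + 1))
        (x := x) (mem_Aset.2 hx.ge) hB
      rw [← Aset_succ f hx] at h2
      exact ((ih (by omega)).trans h1).trans h2
  have h1 := key (m + 1) le_rfl
  have h2 : Aset f (m + 1) = ∅ := by
    ext w
    have := pos_le f w
    simp only [mem_Aset, Finset.notMem_empty, iff_false]
    omega
  have h3 : Bset R f (m + 1) = Finset.univ := by
    ext v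
    simp only [mem_Bset, Finset.mem_univ, iff_true]
    exact ⟨Fin.last m, by rw [pos_last]; omega, Or.inl rfl⟩
  rwa [h2, h3, Row_empty, Finset.empty_union] at h1

end Up

open Up in
theorem canPebble_of_layout {m : ℕ} (R : Fin m → Fin m → Prop) (k : ℕ) (h : Layout R k) :
    CanPebble (Arc R) (tgt m) (m + k + 3) := by
  obtain ⟨f, hf⟩ := h
  have hrow : ∀ l (hl : l < 20 * (m + 1)),
      Rch (Arc R) (m + k + 3) ∅ (Row ⟨l, hl⟩ Finset.univ) := by
    intro l
    induction l with
    | zero =>
      intro hl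
      exact layer_zero ⟨0, hl⟩ rfl (by omega) _
    | succ l ih =>
      intro hl
      exact (ih (by omega)).trans (row_step hf (a := ⟨l, by omega⟩) (b := ⟨l + 1, hl⟩) rfl)
  have hL : 20 * (m + 1) - 1 < 20 * (m + 1) := by omega
  have h1 := hrow (20 * (m + 1) - 1) hL
  set P : Finset (Node m) := Row ⟨20 * (m + 1) - 1, hL⟩ Finset.univ with hP
  have hcard : P.card ≤ m + 1 := by
    have := card_Row (m := m) ⟨20 * (m + 1) - 1, hL⟩ Finset.univ
    rwa [Finset.card_univ, Fintype.card_fin] at this
  have hlt : ∀ j, min j m < m + 1 := fun j => Nat.lt_succ_of_le (Nat.min_le_right _ _)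
  set c : ℕ → Node m := fun j => Sum.inr ⟨min j m, hlt j⟩ with hc
  have hpre : ∀ (u : Fin (m + 1)) (a : Fin (20 * (m + 1))) (i : Fin (m + 1)), i = Fin.last m →
      (a : ℕ) + 1 = 20 * (m + 1) → (Sum.inl (u, a, i) : Node m) ∈ P := by
    intro u a i hi ha
    rw [hP, mem_Row]
    exact ⟨Finset.mem_univ _, Fin.ext (by simp only; omega), hi⟩
  have key := Rch.chain (E := Arc R) (K := m + k + 3) (P := P) c m (fun j _ => notMem_Row)
    ?_ ?_ ?_ ?_ (by omega) m le_rfl
  · refine Rch.can (h1.trans key) ?_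
    have e : c m = tgt m := by
      simp only [hc, min_self]
      rfl
    rw [← e]
    exact Finset.mem_insert_self _ _
  · intro j hj h
    simp only [hc, Sum.inr.injEq, Fin.mk.injEq] at h
    omega
  · rintro (⟨u, a, i⟩ | i) h
    · exact hpre u a i h.1 h.2.1
    · have h' : (i : ℕ) + 1 = min 0 m := h
      omega
  · rintro j hj (⟨u, a, i⟩ | i) h
    · exact Or.inr (hpre u a i h.1 h.2.1)
    · left
      have h' : (i : ℕ) + 1 = min (j + 1) m := h
      simp only [hc, Sum.inr.injEq]
      apply Fin.ext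
      show (i : ℕ) = min j m
      omega
  · intro j hj
    show min j m + 1 = min (j + 1) m
    omega

end MP1fca05
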