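import Pool.Agent.Lib.MP_1fca05_lc.Bd
import Pool.Agent.Lib.MP_1fca05_lc.Upper

/-!
A strategy for `H` gives a strategy for the bundle dag.
-/

namespace MP1fca05

namespace BU

open Up

variable {N : ℕ} {E : Fin N → Fin N → Prop} {z : Fin N} {t L K : ℕ}

/-- The layer of the cell is at most `L`. -/
def Ok (L : ℕ) (c : BCell N t) : Prop := ∀ v l w, c = some (v, l, w) → l ≤ L

theorem clen_pos {Ω : Type} (rd : Ω → List Ω) (c : Ω) : 0 < clen rd c :=
  lt_of_lt_of_le Nat.one_pos (le_max_left _ _)

variable (E z t L) in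
/-- The nodes of a cell. -/
noncomputable def bn (c : BCell N t) (hc : Ok L c) (i : ℕ) : BNode E z t L :=
  ⟨(c, min i (clen (brd E z t L) c - 1)), by
    have h1 := clen_pos (brd E z t L) c
    have h2 := Nat.min_le_right i (clen (brd E z t L) c - 1)
    show min i (clen (brd E z t L) c - 1) < clen (brd E z t L) c
    omega, hc⟩

variable (E z t L) in
open scoped Classical in
/-- The last node of a cell. -/
noncomputable def en (c : BCell N t) : BNode E z t L :=
  if hc : Ok L c then bn E z t L c hc (clen (brd E z t L) c) else btgt E z t L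

theorem bn_fst (c : BCell N t) (hc : Ok L c) (i : ℕ) : (bn E z t L c hc i).1.1 = c := rfl

theorem bn_snd (c : BCell N t) (hc : Ok L c) {i : ℕ} (hi : i ≤ clen (brd E z t L) c - 1) :
    (bn E z t L c hc i).1.2 = i := Nat.min_eq_left hi

theorem en_eq {c : BCell N t} (hc : Ok L c) :
    en E z t L c = bn E z t L c hc (clen (brd E z t L) c - 1) := by
  unfold en
  rw [dif_pos hc]
  apply Subtype.ext
  unfold bn
  simp only [Prod.mk.injEq, true_and]
  omega

theorem en_fst {c : BCell N t} (hc : Ok L c) : (en E z t L c).1.1 = c := by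
  rw [en_eq hc, bn_fst]

theorem en_snd {c : BCell N t} (hc : Ok L c) :
    (en E z t L c).1.2 = clen (brd E z t L) c - 1 := by
  rw [en_eq hc, bn_snd c hc le_rfl]

theorem en_inj {c c' : BCell N t} (hc : Ok L c) (hc' : Ok L c')
    (h : en E z t L c = en E z t L c') : c = c' := by
  rw [← en_fst (E := E) (z := z) hc, h, en_fst hc']

theorem en_of_last {u : BNode E z t L} (h : u.1.2 + 1 = clen (brd E z t L) u.1.1) :
    en E z t L u.1.1 = u := by
  have hu : Ok L u.1.1 := u.2.2
  apply Subtype.ext
  apply Prod.ext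
  · exact en_fst hu
  · rw [en_snd hu]
    omega

theorem image_erase_en {S : Finset (BCell N t)} (hS : ∀ c ∈ S, Ok L c) {c : BCell N t}
    (hc : c ∈ S) :
    (S.erase c).image (en E z t L) = (S.image (en E z t L)).erase (en E z t L c) := by
  ext x
  simp only [Finset.mem_image, Finset.mem_erase]
  constructor
  · rintro ⟨d, ⟨hd1, hd2⟩, rfl⟩
    exact ⟨fun h => hd1 (en_inj (hS d hd2) (hS c hc) h), d, hd2, rfl⟩
  · rintro ⟨hx, d, hd, rfl⟩
    exact ⟨d, ⟨fun h => hx (by rw [h]), hd⟩, rfl⟩

theorem bn_notMem {S : Finset (BCell N t)} (hS : ∀ c ∈ S, Ok L c) {c : BCell N t}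
    (hc : Ok L c) (hcS : c ∉ S) (i : ℕ) : bn E z t L c hc i ∉ S.image (en E z t L) := by
  intro h
  obtain ⟨d, hd, h1⟩ := Finset.mem_image.1 h
  apply hcS
  have h2 := en_fst (E := E) (z := z) (hS d hd)
  rw [h1, bn_fst] at h2
  rwa [h2]

/-- A walker runs along the path of the cell `c`. -/
theorem walk {S : Finset (BCell N t)} (hS : ∀ c ∈ S, Ok L c) {c : BCell N t}
    (hc : Ok L c) (hcS : c ∉ S) (hr : ∀ c' ∈ brd E z t L c, c' ∈ S) (hK : S.card + 1 ≤ K) :
    Rch (BArc E z t L) K (S.image (en E z t L)) ((insert c S).image (en E z t L)) := by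
  rw [Finset.image_insert, en_eq hc]
  refine Rch.chain (E := BArc E z t L) (K := K) (P := S.image (en E z t L))
    (fun j => bn E z t L c hc j) (clen (brd E z t L) c - 1) (fun j _ => bn_notMem hS hc hcS j)
    ?_ ?_ ?_ ?_ ((Nat.add_le_add_right Finset.card_image_le 1).trans hK) _ le_rfl
  · intro j hj h
    have h1 : (bn E z t L c hc (j + 1)).1.2 = (bn E z t L c hc j).1.2 := by rw [h]
    rw [bn_snd c hc hj, bn_snd c hc hj.le] at h1
    omega
  · intro u hu
    rcases hu with ⟨_, h2⟩ | ⟨h1, h2⟩
    · rw [bn_snd c hc (Nat.zero_le _)] at h2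
      omega
    · rw [← en_of_last h1]
      exact Finset.mem_image_of_mem _ (hr _ (List.mem_of_getElem? h2))
  · intro j hj u hu
    rcases hu with ⟨h1, h2⟩ | ⟨h1, h2⟩
    · left
      apply Subtype.ext
      apply Prod.ext
      · exact h1
      · rw [bn_snd c hc hj] at h2
        rw [bn_snd c hc hj.le]
        omega
    · right
      rw [← en_of_last h1]
      exact Finset.mem_image_of_mem _ (hr _ (List.mem_of_getElem? h2))
  · intro j hj
    left
    refine ⟨rfl, ?_⟩
    rw [bn_snd c hc hj, bn_snd c hc hj.le]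

theorem remove {S : Finset (BCell N t)} (hS : ∀ c ∈ S, Ok L c) (hK : S.card ≤ K)
    (A : Finset (BCell N t)) :
    Rch (BArc E z t L) K (S.image (en E z t L)) ((S \ A).image (en E z t L)) := by
  induction A using Finset.induction_on with
  | empty =>
    rw [Finset.sdiff_empty]
    exact Relation.ReflTransGen.refl
  | insert c A hc ih =>
    have e : S \ insert c A = (S \ A).erase c := by
      ext x
      simp only [Finset.mem_sdiff, Finset.mem_insert, Finset.mem_erase, not_or]
      tauto
    rw [e]
    by_cases hcS : c ∈ S \ A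
    · rw [image_erase_en (fun d hd => hS d (Finset.sdiff_subset hd)) hcS]
      refine ih.trans (Rch.remove (Finset.mem_image_of_mem _ hcS) ?_)
      exact Finset.card_image_le.trans ((Finset.card_le_card Finset.sdiff_subset).trans hK)
    · rw [Finset.erase_eq_of_notMem hcS]
      exact ih

/-- A pebble slides up in a column. -/
theorem slide {S : Finset (BCell N t)} (hS : ∀ c ∈ S, Ok L c) {v : Fin N} {l : ℕ}
    {w : Fin (t + 1)} (hw : w ≠ Fin.last t) (hl : l + 1 ≤ L) (h1 : some (v, l, w) ∈ S)
    (h2 : some (v, l, Fin.last t) ∈ S) (h3 : some (v, l + 1, w) ∉ S) (hK : S.card ≤ K) :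
    Rch (BArc E z t L) K (S.image (en E z t L))
      ((insert (some (v, l + 1, w)) (S.erase (some (v, l, w)))).image (en E z t L)) := by
  have hb : brd E z t L (some (v, l + 1, w)) = [some (v, l, w), some (v, l, Fin.last t)] := by
    simp [brd, hw]
  have hlen : clen (brd E z t L) (some (v, l + 1, w)) = 2 := by
    unfold clen
    rw [hb]
    rfl
  have hc : Ok L (some (v, l + 1, w) : BCell N t) := by
    intro v' l' w' h
    simp only [Option.some.injEq, Prod.mk.injEq] at h
    omega
  have k0 : (bn E z t L (some (v, l + 1, w)) hc 0).1.2 = 0 := bn_snd _ hc (by omega)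
  have k1 : (bn E z t L (some (v, l + 1, w)) hc 1).1.2 = 1 := bn_snd _ hc (by omega)
  have n0 := bn_notMem (E := E) (z := z) hS hc h3 0
  have n1 := bn_notMem (E := E) (z := z) hS hc h3 1
  have hne : bn E z t L (some (v, l + 1, w)) hc 1 ≠ bn E z t L (some (v, l + 1, w)) hc 0 := by
    intro h
    rw [h] at k1
    omega
  have hu := Finset.mem_image_of_mem (en E z t L) h1
  have hcard : ∀ x : BNode E z t L, (insert x ((S.image (en E z t L)).erase
      (en E z t L (some (v, l, w))))).card ≤ K := by
    intro x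
    refine (Finset.card_insert_le _ _).trans ?_
    rw [Finset.card_erase_of_mem hu]
    have h4 : 0 < (S.image (en E z t L)).card := Finset.card_pos.2 ⟨_, hu⟩
    have h5 : (S.image (en E z t L)).card ≤ S.card := Finset.card_image_le
    omega
  have e0 : en E z t L (some (v, l + 1, w)) = bn E z t L (some (v, l + 1, w)) hc 1 := by
    rw [en_eq hc, hlen]
  rw [Finset.image_insert, image_erase_en hS h1, e0]
  have m1 : Move (BArc E z t L) (S.image (en E z t L)) (insert (bn E z t L (some (v, l + 1, w)) hc 0)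
      ((S.image (en E z t L)).erase (en E z t L (some (v, l, w))))) := by
    refine Or.inr (Or.inr ⟨_, _, hu, n0, ?_, ?_, rfl⟩)
    · right
      refine ⟨?_, ?_⟩
      · rw [en_fst (hS _ h1), en_snd (hS _ h1)]
        have := clen_pos (brd E z t L) (some (v, l, w) : BCell N t)
        omega
      · rw [en_fst (hS _ h1), bn_fst, k0, hb]
        rfl
    · intro u hu'
      rcases hu' with ⟨_, h5⟩ | ⟨h5, h6⟩
      · rw [k0] at h5
        omega
      · rw [bn_fst, k0, hb] at h6
        rw [← en_of_last h5]
        have h7 : some (v, l, w) = u.1.1 := Option.some.inj h6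
        rw [← h7]
        exact hu
  have m2 : Move (BArc E z t L) (insert (bn E z t L (some (v, l + 1, w)) hc 0)
      ((S.image (en E z t L)).erase (en E z t L (some (v, l, w)))))
      (insert (bn E z t L (some (v, l + 1, w)) hc 1)
      ((S.image (en E z t L)).erase (en E z t L (some (v, l, w))))) := by
    refine Or.inr (Or.inr ⟨_, bn E z t L (some (v, l + 1, w)) hc 1, Finset.mem_insert_self _ _,
      ?_, ?_, ?_, ?_⟩)
    · rw [Finset.mem_insert, not_or]
      exact ⟨hne, fun h => n1 (Finset.mem_of_mem_erase h)⟩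
    · left
      refine ⟨rfl, ?_⟩
      rw [k0, k1]
    · intro u hu'
      rcases hu' with ⟨h5, h6⟩ | ⟨h5, h6⟩
      · rw [k1] at h6
        have h7 : u = bn E z t L (some (v, l + 1, w)) hc 0 := by
          apply Subtype.ext
          apply Prod.ext
          · exact h5
          · rw [k0]
            omega
        rw [h7]
        exact Finset.mem_insert_self _ _
      · rw [bn_fst, k1, hb] at h6
        rw [← en_of_last h5]
        have h7 : some (v, l, Fin.last t) = u.1.1 := Option.some.inj h6
        rw [← h7]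
        refine Finset.mem_insert_of_mem (Finset.mem_erase.2 ⟨?_, Finset.mem_image_of_mem _ h2⟩)
        intro h8
        have h9 := en_inj (hS _ h2) (hS _ h1) h8
        simp only [Option.some.injEq, Prod.mk.injEq, true_and] at h9
        exact hw h9.symm
    · rw [Finset.erase_insert]
      exact fun h => n0 (Finset.mem_of_mem_erase h)
  exact Relation.ReflTransGen.tail (Relation.ReflTransGen.single ⟨m1, hcard _⟩) ⟨m2, hcard _⟩

/-- The top cells of the bundles of `Th`. -/
def Top (t L : ℕ) (Th : Finset (Fin N)) : Finset (BCell N t) :=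
  (Th ×ˢ Finset.univ).image fun x => some (x.1, L, x.2)

theorem mem_Top {Th : Finset (Fin N)} {v : Fin N} {l : ℕ} {w : Fin (t + 1)} :
    (some (v, l, w) : BCell N t) ∈ Top t L Th ↔ v ∈ Th ∧ l = L := by
  unfold Top
  rw [Finset.mem_image]
  constructor
  · rintro ⟨⟨u, w'⟩, h1, h2⟩
    simp only [Option.some.injEq, Prod.mk.injEq] at h2
    obtain ⟨rfl, rfl, rfl⟩ := h2
    exact ⟨(Finset.mem_product.1 h1).1, rfl⟩
  · rintro ⟨h1, rfl⟩
    exact ⟨(v, w), Finset.mem_product.2 ⟨h1, Finset.mem_univ _⟩, rfl⟩

theorem none_Top {Th : Finset (Fin N)} : (none : BCell N t) ∉ Top t L Th := by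
  unfold Top
  rw [Finset.mem_image]
  rintro ⟨x, _, h⟩
  simp at h

theorem card_Top (Th : Finset (Fin N)) : (Top t L Th).card ≤ (t + 1) * Th.card := by
  refine Finset.card_image_le.trans ?_
  rw [Finset.card_product, Finset.card_univ, Fintype.card_fin, Nat.mul_comm]

/-- Cells in a layer. -/
def Rw (v : Fin N) (l : ℕ) (A : Finset (Fin (t + 1))) : Finset (BCell N t) :=
  A.image fun w => some (v, l, w)

theorem mem_Rw {v v' : Fin N} {l l' : ℕ} {A : Finset (Fin (t + 1))} {w : Fin (t + 1)} :
    (some (v', l', w) : BCell N t) ∈ Rw v l A ↔ v' = v ∧ l' = l ∧ w ∈ A := by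
  unfold Rw
  rw [Finset.mem_image]
  constructor
  · rintro ⟨w', h1, h2⟩
    simp only [Option.some.injEq, Prod.mk.injEq] at h2
    obtain ⟨rfl, rfl, rfl⟩ := h2
    exact ⟨rfl, rfl, h1⟩
  · rintro ⟨rfl, rfl, h⟩
    exact ⟨w, h, rfl⟩

theorem none_Rw {v : Fin N} {l : ℕ} {A : Finset (Fin (t + 1))} :
    (none : BCell N t) ∉ Rw v l A := by
  unfold Rw
  rw [Finset.mem_image]
  rintro ⟨x, _, h⟩
  simp at h

theorem card_Rw (v : Fin N) (l : ℕ) (A : Finset (Fin (t + 1))) : (Rw v l A).card ≤ A.card :=
  Finset.card_image_le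

theorem ok_Top {Th : Finset (Fin N)} : ∀ c ∈ Top t L Th, Ok L c := by
  intro c hc v l w h
  rw [h, mem_Top] at hc
  exact hc.2.le

theorem ok_Rw {v : Fin N} {l : ℕ} (hl : l ≤ L) {A : Finset (Fin (t + 1))} :
    ∀ c ∈ Rw v l A, Ok L c := by
  intro c hc v' l' w h
  rw [h, mem_Rw] at hc
  rw [hc.2.1]
  exact hl

theorem ok_union {A B : Finset (BCell N t)} (hA : ∀ c ∈ A, Ok L c) (hB : ∀ c ∈ B, Ok L c) :
    ∀ c ∈ A ∪ B, Ok L c := by
  intro c hc
  rcases Finset.mem_union.1 hc with h | h
  · exact hA c h
  · exact hB c h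

theorem ok_some {v : Fin N} {l : ℕ} {w : Fin (t + 1)} (hl : l ≤ L) :
    Ok L (some (v, l, w) : BCell N t) := by
  intro v' l' w' h
  simp only [Option.some.injEq, Prod.mk.injEq] at h
  rw [← h.2.1]
  exact hl

theorem row_zero {Th : Finset (Fin N)} {v : Fin N} (hv : v ∉ Th) (hp : ∀ u, E u v → u ∈ Th)
    (hK : (t + 1) * Th.card + (t + 2) ≤ K) (A : Finset (Fin (t + 1))) :
    Rch (BArc E z t L) K ((Top t L Th).image (en E z t L))
      ((Top t L Th ∪ Rw v 0 A).image (en E z t L)) := by
  induction A using Finset.induction_on with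
  | empty =>
    have e : (Rw v 0 ∅ : Finset (BCell N t)) = ∅ := rfl
    rw [e, Finset.union_empty]
    exact Relation.ReflTransGen.refl
  | insert w A hw ih =>
    have e : (Rw v 0 (insert w A) : Finset (BCell N t)) = insert (some (v, 0, w)) (Rw v 0 A) := by
      unfold Rw
      rw [Finset.image_insert]
    rw [e, Finset.union_insert]
    refine ih.trans (walk (ok_union ok_Top (ok_Rw (Nat.zero_le _))) (ok_some (Nat.zero_le _))
      ?_ ?_ ?_)
    · rw [Finset.mem_union, not_or, mem_Top, mem_Rw]
      exact ⟨fun h => hv h.1, fun h => hw h.2.2⟩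
    · intro c' hc'
      simp only [brd, List.mem_flatMap, List.mem_map, List.mem_finRange, true_and] at hc'
      obtain ⟨u, hu, w', rfl⟩ := hc'
      refine Finset.mem_union_left _ (mem_Top.2 ⟨hp u ?_, rfl⟩)
      classical
      unfold pl at hu
      simpa using hu
    · have h1 := Finset.card_union_le (Top t L Th) (Rw v 0 A)
      have h2 := card_Top (t := t) (L := L) Th
      have h3 := card_Rw v 0 A
      have h4 := Finset.card_le_univ (insert w A)
      rw [Finset.card_insert_of_notMem hw, Fintype.card_fin] at h4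
      omega

theorem stage {Th : Finset (Fin N)} {v : Fin N} (hv : v ∉ Th)
    (hK : (t + 1) * Th.card + (t + 2) ≤ K) {l : ℕ} (hl : l + 1 ≤ L) :
    Rch (BArc E z t L) K ((Top t L Th ∪ Rw v l Finset.univ).image (en E z t L))
      ((Top t L Th ∪ Rw v (l + 1) Finset.univ).image (en E z t L)) := by
  have hT : ∀ (l' : ℕ) (w : Fin (t + 1)), (some (v, l', w) : BCell N t) ∉ Top t L Th :=
    fun l' w h => hv (mem_Top.1 h).1
  -- the new hub
  have s1 : Rch (BArc E z t L) K ((Top t L Th ∪ Rw v l Finset.univ).image (en E z t L))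
      ((insert (some (v, l + 1, Fin.last t)) (Top t L Th ∪ Rw v l Finset.univ)).image
        (en E z t L)) := by
    refine walk (ok_union ok_Top (ok_Rw (by omega))) (ok_some hl) ?_ ?_ ?_
    · rw [Finset.mem_union, not_or, mem_Rw]
      exact ⟨hT _ _, fun h => by omega⟩
    · intro c' hc'
      simp only [brd, if_true, List.mem_map, List.mem_finRange, true_and] at hc'
      obtain ⟨w', rfl⟩ := hc'
      exact Finset.mem_union_right _ (mem_Rw.2 ⟨rfl, rfl, Finset.mem_univ _⟩)
    · have h1 := Finset.card_union_le (Top t L Th) (Rw v l Finset.univ)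
      have h2 := card_Top (t := t) (L := L) Th
      have h3 := card_Rw v l (Finset.univ : Finset (Fin (t + 1)))
      rw [Finset.card_univ, Fintype.card_fin] at h3
      omega
  -- the slides
  have s2 : ∀ W : Finset (Fin (t + 1)), Fin.last t ∉ W →
      Rch (BArc E z t L) K ((insert (some (v, l + 1, Fin.last t))
        (Top t L Th ∪ Rw v l Finset.univ)).image (en E z t L))
      ((Top t L Th ∪ Rw v l Wᶜ ∪ Rw v (l + 1) (insert (Fin.last t) W)).image (en E z t L)) := by
    intro W
    induction W using Finset.induction_on with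
    | empty =>
      intro _
      have e : insert (some (v, l + 1, Fin.last t)) (Top t L Th ∪ Rw v l Finset.univ) =
          Top t L Th ∪ Rw v l (∅ : Finset (Fin (t + 1)))ᶜ ∪ Rw v (l + 1) {Fin.last t} := by
        rw [Finset.compl_empty]
        have e2 : (Rw v (l + 1) {Fin.last t} : Finset (BCell N t)) =
            {some (v, l + 1, Fin.last t)} := by
          unfold Rw
          rw [Finset.image_singleton]
        rw [e2, Finset.union_singleton]
      rw [e]
      exact Relation.ReflTransGen.refl
    | insert w W hw ih =>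
      intro hW
      rw [Finset.mem_insert, not_or] at hW
      refine (ih hW.2).trans ?_
      have e : Top t L Th ∪ Rw v l (insert w W)ᶜ ∪
          Rw v (l + 1) (insert (Fin.last t) (insert w W)) =
          insert (some (v, l + 1, w)) ((Top t L Th ∪ Rw v l Wᶜ ∪
            Rw v (l + 1) (insert (Fin.last t) W)).erase (some (v, l, w))) := by
        ext c
        rcases c with _ | ⟨v', l', w'⟩
        · simp [none_Top, none_Rw]
        · simp only [Finset.mem_union, Finset.mem_insert, Finset.mem_erase, mem_Rw,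
            Finset.mem_compl, Option.some.injEq, Prod.mk.injEq, ne_eq]
          constructor
          · rintro ((h | ⟨rfl, rfl, h⟩) | ⟨rfl, rfl, h⟩)
            · refine Or.inr ⟨?_, Or.inl (Or.inl h)⟩
              rintro ⟨rfl, rfl, rfl⟩
              exact hT _ _ h
            · exact Or.inr ⟨fun h' => h (Or.inl h'.2.2), Or.inl (Or.inr ⟨rfl, rfl,
                fun h' => h (Or.inr h')⟩)⟩
            · rcases h with h | h | h
              · exact Or.inr ⟨fun h' => by omega, Or.inr ⟨rfl, rfl, Or.inl h⟩⟩
              · exact Or.inl ⟨rfl, rfl, h⟩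
              · exact Or.inr ⟨fun h' => by omega, Or.inr ⟨rfl, rfl, Or.inr h⟩⟩
          · rintro (⟨rfl, rfl, rfl⟩ | ⟨h0, ((h | ⟨rfl, rfl, h⟩) | ⟨rfl, rfl, h⟩)⟩)
            · exact Or.inr ⟨rfl, rfl, Or.inr (Or.inl rfl)⟩
            · exact Or.inl (Or.inl h)
            · refine Or.inl (Or.inr ⟨rfl, rfl, ?_⟩)
              rintro (h1 | h1)
              · exact h0 ⟨rfl, rfl, h1⟩
              · exact h h1
            · rcases h with h | h
              · exact Or.inr ⟨rfl, rfl, Or.inl h⟩
              · exact Or.inr ⟨rfl, rfl, Or.inr (Or.inr h)⟩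
      rw [e]
      refine slide (ok_union (ok_union ok_Top (ok_Rw (by omega))) (ok_Rw hl)) (Ne.symm hW.1) hl
        ?_ ?_ ?_ ?_
      · exact Finset.mem_union_left _ (Finset.mem_union_right _ (mem_Rw.2 ⟨rfl, rfl,
          Finset.mem_compl.2 hw⟩))
      · exact Finset.mem_union_left _ (Finset.mem_union_right _ (mem_Rw.2 ⟨rfl, rfl,
          Finset.mem_compl.2 hW.2⟩))
      · rw [Finset.mem_union, Finset.mem_union, mem_Rw, mem_Rw, Finset.mem_insert]
        rintro ((h | h) | h)
        · exact hT _ _ h
        · omega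
        · rcases h.2.2 with h1 | h1
          · exact hW.1 h1.symm
          · exact hw h1
      · have h1 := Finset.card_union_le (Top t L Th ∪ Rw v l Wᶜ)
          (Rw v (l + 1) (insert (Fin.last t) W))
        have h2 := Finset.card_union_le (Top t L Th) (Rw v l Wᶜ)
        have h3 := card_Top (t := t) (L := L) Th
        have h4 := card_Rw v l Wᶜ
        have h5 := card_Rw v (l + 1) (insert (Fin.last t) W)
        rw [Finset.card_insert_of_notMem hW.2] at h5
        have h6 := Finset.card_compl_add_card W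
        rw [Fintype.card_fin] at h6
        omega
  refine s1.trans ((s2 (Finset.univ.erase (Fin.last t)) (Finset.notMem_erase _ _)).trans ?_)
  have e : Top t L Th ∪ Rw v (l + 1) Finset.univ =
      (Top t L Th ∪ Rw v l (Finset.univ.erase (Fin.last t))ᶜ ∪
        Rw v (l + 1) (insert (Fin.last t) (Finset.univ.erase (Fin.last t)))) \
        Rw v l Finset.univ := by
    ext c
    rcases c with _ | ⟨v', l', w'⟩
    · simp [none_Top, none_Rw]
    · simp only [Finset.mem_union, Finset.mem_sdiff, mem_Rw, Finset.insert_erase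
        (Finset.mem_univ (Fin.last t)), Finset.mem_univ, and_true]
      constructor
      · rintro (h | ⟨rfl, rfl⟩)
        · refine ⟨Or.inl (Or.inl h), ?_⟩
          rintro ⟨rfl, rfl⟩
          exact hT _ _ h
        · exact ⟨Or.inr ⟨rfl, rfl⟩, fun h => by omega⟩
      · rintro ⟨((h | ⟨h1, h2, _⟩) | h), h0⟩
        · exact Or.inl h
        · exact absurd ⟨h1, h2⟩ h0
        · exact Or.inr h
  rw [e]
  refine remove (ok_union (ok_union ok_Top (ok_Rw (by omega))) (ok_Rw hl)) ?_ _
  have h1 := Finset.card_union_le (Top t L Th ∪ Rw v l (Finset.univ.erase (Fin.last t))ᶜ)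
    (Rw v (l + 1) (insert (Fin.last t) (Finset.univ.erase (Fin.last t))))
  have h2 := Finset.card_union_le (Top t L Th) (Rw v l (Finset.univ.erase (Fin.last t))ᶜ)
  have h3 := card_Top (t := t) (L := L) Th
  have h4 := card_Rw v l (Finset.univ.erase (Fin.last t))ᶜ
  have h5 := card_Rw v (l + 1) (insert (Fin.last t) (Finset.univ.erase (Fin.last t)))
  rw [Finset.insert_erase (Finset.mem_univ _), Finset.card_univ, Fintype.card_fin] at h5
  have h6 := Finset.card_compl_add_card (Finset.univ.erase (Fin.last t))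
  rw [Finset.card_erase_of_mem (Finset.mem_univ _), Finset.card_univ, Fintype.card_fin] at h6
  rw [Finset.insert_erase (Finset.mem_univ _)] at h1 ⊢
  omega

/-- The bundle of `v` is pebbled. -/
theorem place {Th : Finset (Fin N)} {v : Fin N} (hv : v ∉ Th) (hp : ∀ u, E u v → u ∈ Th)
    (hK : (t + 1) * Th.card + (t + 2) ≤ K) :
    Rch (BArc E z t L) K ((Top t L Th).image (en E z t L))
      ((Top t L (insert v Th)).image (en E z t L)) := by
  have h1 : ∀ l ≤ L, Rch (BArc E z t L) K ((Top t L Th).image (en E z t L))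
      ((Top t L Th ∪ Rw v l Finset.univ).image (en E z t L)) := by
    intro l
    induction l with
    | zero => exact fun _ => row_zero hv hp hK _
    | succ l ih => exact fun hl => (ih (by omega)).trans (stage hv hK hl)
  have e : Top t L (insert v Th) = Top t L Th ∪ Rw v L Finset.univ := by
    ext c
    rcases c with _ | ⟨v', l', w'⟩
    · simp [none_Top, none_Rw]
    · simp only [Finset.mem_union, mem_Top, mem_Rw, Finset.mem_insert, Finset.mem_univ, and_true]
      tauto
  rw [e]
  exact h1 L le_rfl

theorem drop {Th : Finset (Fin N)} (u : Fin N) (hK : (t + 1) * Th.card ≤ K) :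
    Rch (BArc E z t L) K ((Top t L Th).image (en E z t L))
      ((Top t L (Th.erase u)).image (en E z t L)) := by
  have e : Top t L (Th.erase u) = Top t L Th \ Rw u L Finset.univ := by
    ext c
    rcases c with _ | ⟨v', l', w'⟩
    · simp [none_Top, none_Rw]
    · simp only [Finset.mem_sdiff, mem_Top, mem_Rw, Finset.mem_erase, Finset.mem_univ, and_true]
      tauto
  rw [e]
  exact remove ok_Top ((card_Top Th).trans hK) _

theorem move {p : ℕ} {P Q : Finset (Fin N)} (h : Move E P Q) (hP : P.card ≤ p)
    (hQ : Q.card ≤ p) :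
    Rch (BArc E z t L) ((t + 1) * (p + 1) + 1) ((Top t L P).image (en E z t L))
      ((Top t L Q).image (en E z t L)) := by
  have hK : (t + 1) * (p + 1) + 1 = (t + 1) * p + (t + 2) := by ring
  have hmul : (t + 1) * P.card ≤ (t + 1) * p := Nat.mul_le_mul_left _ hP
  rcases h with ⟨v, hv, hpr, rfl⟩ | ⟨v, hv, rfl⟩ | ⟨u, v, hu, hv, _, hpr, rfl⟩
  · exact place hv hpr (by omega)
  · exact drop v (by omega)
  · have huv : u ≠ v := fun h => hv (h ▸ hu)
    refine (place hv hpr (by omega)).trans ?_
    have e : insert v (P.erase u) = (insert v P).erase u := by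
      ext x
      simp only [Finset.mem_insert, Finset.mem_erase]
      constructor
      · rintro (rfl | h)
        · exact ⟨fun h => huv h.symm, Or.inl rfl⟩
        · exact ⟨h.1, Or.inr h.2⟩
      · rintro ⟨h1, h2 | h2⟩
        · exact Or.inl h2
        · exact Or.inr ⟨h1, h2⟩
    rw [e]
    refine drop u ?_
    rw [Finset.card_insert_of_notMem hv]
    have : (t + 1) * (P.card + 1) ≤ (t + 1) * (p + 1) := Nat.mul_le_mul_left _ (by omega)
    omega

end BU

theorem b_canPebble {N : ℕ} {E : Fin N → Fin N → Prop} {z : Fin N} (h : IsPebDag E z) (t L : ℕ)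
    {p : ℕ} (hp : CanPebble E z p) :
    CanPebble (BArc E z t L) (btgt E z t L) ((t + 1) * (p + 1) + 1) := by
  obtain ⟨T, S, h0, hmv, hz, hc⟩ := hp
  have key : ∀ i ≤ T, Up.Rch (BArc E z t L) ((t + 1) * (p + 1) + 1) ∅
      ((BU.Top t L (S i)).image (BU.en E z t L)) := by
    intro i
    induction i with
    | zero =>
      intro _
      have e : (BU.Top t L (S 0)).image (BU.en E z t L) = ∅ := by
        rw [h0]
        simp [BU.Top]
      rw [e]
      exact Relation.ReflTransGen.refl
    | succ i ih =>
      intro hi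
      exact (ih (by omega)).trans (BU.move (hmv i (by omega)) (hc i (by omega)) (hc _ hi))
  have hn : BU.Ok L (none : BCell N t) := by
    intro v l w h
    simp at h
  have hK : (t + 1) * (p + 1) + 1 = (t + 1) * p + (t + 2) := by ring
  have hcard : (BU.Top t L (S T)).card + 1 ≤ (t + 1) * (p + 1) + 1 := by
    have h1 := BU.card_Top (t := t) (L := L) (S T)
    have h2 : (t + 1) * (S T).card ≤ (t + 1) * p := Nat.mul_le_mul_left _ (hc T le_rfl)
    omega
  have h3 := (key T le_rfl).trans (BU.walk (c := none) BU.ok_Top hn BU.none_Top (by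
    intro c' hc'
    simp only [brd, List.mem_map, List.mem_finRange, true_and] at hc'
    obtain ⟨w, rfl⟩ := hc'
    exact BU.mem_Top.2 ⟨hz, rfl⟩) hcard)
  refine Up.Rch.can (t := btgt E z t L) h3 ?_
  rw [Finset.image_insert]
  refine Finset.mem_insert.2 (Or.inl ?_)
  apply Subtype.ext
  apply Prod.ext
  · exact (BU.en_fst hn).symm
  · rw [BU.en_snd hn, clen_none]
    rfl

end MP1fca05
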