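import Pool.Agent.Lib.MP_1fca05_lc.Cp
import Pool.Agent.Lib.MP_1fca05_lc.Upper

/-!
The blow-up by copies: dag properties, existence of strategies, upper bound.
-/

namespace MP1fca05

theorem cp_isSinkDag {V : Type} {E : V → V → Prop} {z : V} (h : IsSinkDag E z) {t : ℕ}
    (ht : 1 ≤ t) : IsSinkDag (CpArc E z t) (.inr ()) := by
  have hproj : ∀ (x : V × Fin t) (w : (V × Fin t) ⊕ Unit),
      Relation.TransGen (CpArc E z t) (.inl x) w →
        ∀ y : V × Fin t, w = .inl y → Relation.TransGen E x.1 y.1 := by
    intro x w hw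
    induction hw with
    | single hab =>
      rintro y rfl
      exact Relation.TransGen.single hab
    | tail _ hbc ih =>
      rename_i b c _
      rintro y rfl
      rcases b with b | b
      · exact Relation.TransGen.tail (ih b rfl) hbc
      · exact absurd hbc (fun h => h)
  refine ⟨?_, ?_⟩
  · rintro (x | u) hx
    · exact h.acyclic x.1 (hproj x _ hx x rfl)
    · obtain ⟨c, hc, _⟩ := Relation.TransGen.head'_iff.1 hx
      exact hc
  · rintro (x | u)
    · constructor
      · intro hx
        exfalso
        have h1 : x.1 ≠ z := fun h1 => hx (.inr ()) h1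
        apply h1
        rw [← h.sink x.1]
        intro w hw
        exact hx (.inl (w, ⟨0, ht⟩)) hw
      · intro hx
        exact absurd hx (by simp)
    · constructor
      · intro _
        rfl
      · intro _ w hw
        exact hw

theorem exists_canPebble_dag {V : Type} [DecidableEq V] [Fintype V] {E : V → V → Prop}
    (h : ∀ v, ¬ Relation.TransGen E v v) (z : V) : CanPebble E z (Fintype.card V) := by
  have hwf : WellFounded (fun x y => Relation.TransGen E y x) := by
    have : IsTrans V (fun x y => Relation.TransGen E y x) :=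
      ⟨fun a b c hab hbc => Relation.TransGen.trans hbc hab⟩
    have : Std.Irrefl (fun x y : V => Relation.TransGen E y x) := ⟨fun a ha => h a ha⟩
    exact Finite.wellFounded_of_trans_of_irrefl _
  have key : ∀ n : ℕ, ∀ S : Finset V, S.card = n → (∀ u v, E u v → v ∈ S → u ∈ S) →
      Up.Rch E (Fintype.card V) ∅ S := by
    intro n
    induction n with
    | zero =>
      intro S hS _
      rw [Finset.card_eq_zero.1 hS]
      exact Relation.ReflTransGen.refl
    | succ n ih =>
      intro S hS hd
      have hne : (S : Set V).Nonempty := by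
        rw [Finset.coe_nonempty, ← Finset.card_pos, hS]
        exact Nat.succ_pos n
      obtain ⟨x, hx, hmin⟩ := hwf.has_min (S : Set V) hne
      have hxS : x ∈ S := hx
      have hmin' : ∀ y ∈ S, ¬ E x y := fun y hy hE => hmin y hy (Relation.TransGen.single hE)
      have h1 : (S.erase x).card = n := by
        rw [Finset.card_erase_of_mem hxS, hS]
        rfl
      have h2 := ih (S.erase x) h1 (by
        intro u v huv hv
        have hv' := Finset.mem_of_mem_erase hv
        refine Finset.mem_erase.2 ⟨?_, hd u v huv hv'⟩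
        rintro rfl
        exact hmin' v hv' huv)
      have h3 : Up.Rch E (Fintype.card V) (S.erase x) (insert x (S.erase x)) := by
        refine Up.Rch.place (Finset.notMem_erase x S) ?_ ?_
        · intro u hu
          refine Finset.mem_erase.2 ⟨?_, hd u x hu hxS⟩
          rintro rfl
          exact hmin' u hxS hu
        · rw [h1, ← hS]
          exact Finset.card_le_univ S
      rw [Finset.insert_erase hxS] at h3
      exact h2.trans h3
  exact Up.Rch.can (key _ Finset.univ rfl fun _ _ _ _ => Finset.mem_univ _) (Finset.mem_univ z)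

namespace Up

theorem Rch.placeAll {V : Type} [DecidableEq V] {E : V → V → Prop} {K : ℕ} {P : Finset V}
    (A : Finset V) (h : ∀ v ∈ A, ∀ u, E u v → u ∈ P) (hK : (P ∪ A).card ≤ K) :
    Rch E K P (P ∪ A) := by
  induction A using Finset.induction_on with
  | empty =>
    rw [Finset.union_empty]
    exact Relation.ReflTransGen.refl
  | insert a A ha ih =>
    have h1 := ih (fun v hv => h v (Finset.mem_insert_of_mem hv)) (le_trans
      (Finset.card_le_card (Finset.union_subset_union_right (Finset.subset_insert _ _))) hK)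
    rw [Finset.union_insert] at hK ⊢
    by_cases haP : a ∈ P ∪ A
    · rw [Finset.insert_eq_of_mem haP]
      exact h1
    · refine h1.trans (Rch.place haP ?_ ?_)
      · intro u hu
        exact Finset.mem_union_left _ (h a (Finset.mem_insert_self _ _) u hu)
      · rwa [Finset.card_insert_of_notMem haP] at hK

theorem Rch.removeAll {V : Type} [DecidableEq V] {E : V → V → Prop} {K : ℕ} {P : Finset V}
    (A : Finset V) (hK : P.card ≤ K) : Rch E K P (P \ A) := by
  induction A using Finset.induction_on with
  | empty =>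
    rw [Finset.sdiff_empty]
    exact Relation.ReflTransGen.refl
  | insert a A ha ih =>
    rw [Finset.sdiff_insert]
    by_cases haP : a ∈ P \ A
    · exact ih.trans (Rch.remove haP ((Finset.card_le_card Finset.sdiff_subset).trans hK))
    · rw [Finset.erase_eq_of_notMem haP]
      exact ih

/-- The copies of the nodes of `S`. -/
def Cps {V : Type} [DecidableEq V] (t : ℕ) (S : Finset V) : Finset ((V × Fin t) ⊕ Unit) :=
  (S ×ˢ (Finset.univ : Finset (Fin t))).map ⟨Sum.inl, Sum.inl_injective⟩

section

variable {V : Type} [DecidableEq V] {t : ℕ}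

theorem inl_mem_Cps {S : Finset V} {x : V × Fin t} :
    (Sum.inl x : (V × Fin t) ⊕ Unit) ∈ Cps t S ↔ x.1 ∈ S := by
  simp [Cps]

theorem inr_notMem_Cps {S : Finset V} {u : Unit} :
    (Sum.inr u : (V × Fin t) ⊕ Unit) ∉ Cps t S := by
  simp [Cps]

theorem card_Cps (S : Finset V) : (Cps t S).card = t * S.card := by
  rw [Cps, Finset.card_map, Finset.card_product, Finset.card_univ, Fintype.card_fin, mul_comm]

theorem Cps_step {E : V → V → Prop} {z : V} {p : ℕ} (ht : 1 ≤ t) {P Q : Finset V}
    (hP : P.card ≤ p) (hQ : Q.card ≤ p) (h : Move E P Q) :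
    Rch (CpArc E z t) (t * (p + 1) - 1) (Cps t P) (Cps t Q) := by
  have hK : t * p ≤ t * (p + 1) - 1 := by
    rw [Nat.mul_succ]
    omega
  have hP' : (Cps t P).card ≤ t * p := by
    rw [card_Cps]
    exact Nat.mul_le_mul_left t hP
  have hQ' : (Cps t Q).card ≤ t * p := by
    rw [card_Cps]
    exact Nat.mul_le_mul_left t hQ
  rcases h with ⟨v, hv, hpre, rfl⟩ | ⟨v, hv, rfl⟩ | ⟨u, v, hu, hv, huv, hpre, rfl⟩
  · have e : Cps t (insert v P) = Cps t P ∪ Cps t {v} := by
      ext w
      rcases w with x | w
      · rw [Finset.mem_union, inl_mem_Cps, inl_mem_Cps, inl_mem_Cps, Finset.mem_insert,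
          Finset.mem_singleton, or_comm]
      · rw [Finset.mem_union]
        simp only [inr_notMem_Cps, or_self]
    rw [e] at hQ' ⊢
    refine Rch.placeAll _ ?_ (hQ'.trans hK)
    rintro (x | w) hx (y | w') hy
    · rw [inl_mem_Cps, Finset.mem_singleton] at hx
      have hy' : E y.1 x.1 := hy
      rw [hx] at hy'
      exact inl_mem_Cps.2 (hpre _ hy')
    · exact hy.elim
    · exact absurd hx inr_notMem_Cps
    · exact absurd hx inr_notMem_Cps
  · have e : Cps t (P.erase v) = Cps t P \ Cps t {v} := by
      ext w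
      rcases w with x | w
      · rw [Finset.mem_sdiff, inl_mem_Cps, inl_mem_Cps, inl_mem_Cps, Finset.mem_erase,
          Finset.mem_singleton, and_comm]
      · rw [Finset.mem_sdiff]
        simp only [inr_notMem_Cps, false_and]
    rw [e]
    exact Rch.removeAll _ (hP'.trans hK)
  · have huv' : u ≠ v := by
      rintro rfl
      exact hv hu
    set i0 : Fin t := ⟨0, ht⟩ with hi0
    set A : Finset ((V × Fin t) ⊕ Unit) := (Cps t {v}).erase (Sum.inl (v, i0)) with hA
    have hAcard : A.card = t - 1 := by
      rw [hA, Finset.card_erase_of_mem (inl_mem_Cps.2 (Finset.mem_singleton_self v)), card_Cps,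
        Finset.card_singleton, Nat.mul_one]
    have hPA : (Cps t P ∪ A).card ≤ t * (p + 1) - 1 := by
      refine (Finset.card_union_le _ _).trans ?_
      rw [hAcard, Nat.mul_succ]
      omega
    have hprev : ∀ i : Fin t, ∀ y, CpArc E z t y (.inl (v, i)) → y ∈ Cps t P := by
      rintro i (y | w') hy
      · exact inl_mem_Cps.2 (hpre _ hy)
      · exact hy.elim
    have h1 : Rch (CpArc E z t) (t * (p + 1) - 1) (Cps t P) (Cps t P ∪ A) := by
      refine Rch.placeAll _ ?_ hPA
      rintro (x | w) hx y hy
      · have hx' := Finset.mem_of_mem_erase hx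
        rw [inl_mem_Cps, Finset.mem_singleton] at hx'
        obtain ⟨x1, x2⟩ := x
        simp only at hx'
        subst hx'
        exact hprev x2 y hy
      · exact absurd (Finset.mem_of_mem_erase hx) inr_notMem_Cps
    have hnot : (Sum.inl (v, i0) : (V × Fin t) ⊕ Unit) ∉ Cps t P ∪ A := by
      rw [Finset.mem_union, not_or]
      exact ⟨fun h => hv (inl_mem_Cps.1 h), Finset.notMem_erase _ _⟩
    have hin : (Sum.inl (u, i0) : (V × Fin t) ⊕ Unit) ∈ Cps t P ∪ A :=
      Finset.mem_union_left _ (inl_mem_Cps.2 hu)
    set Q : Finset ((V × Fin t) ⊕ Unit) :=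
      insert (Sum.inl (v, i0)) ((Cps t P ∪ A).erase (Sum.inl (u, i0))) with hQdef
    have hQcard : Q.card ≤ t * (p + 1) - 1 := by
      rw [hQdef, Finset.card_insert_of_notMem (fun h => hnot (Finset.mem_of_mem_erase h)),
        Finset.card_erase_of_mem hin]
      have := Finset.card_pos.2 ⟨_, hin⟩
      omega
    have h2 : Rch (CpArc E z t) (t * (p + 1) - 1) (Cps t P ∪ A) Q := by
      refine Relation.ReflTransGen.single ⟨Or.inr (Or.inr ⟨Sum.inl (u, i0), Sum.inl (v, i0), hin,
        hnot, huv, ?_, rfl⟩), hQcard⟩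
      intro w hw
      exact Finset.mem_union_left _ (hprev i0 w hw)
    have h3 : Rch (CpArc E z t) (t * (p + 1) - 1) Q (Q \ Cps t {u}) := Rch.removeAll _ hQcard
    have e : Q \ Cps t {u} = Cps t (insert v (P.erase u)) := by
      ext w
      rcases w with x | w
      · rw [Finset.mem_sdiff, inl_mem_Cps, inl_mem_Cps, hQdef, Finset.mem_insert,
          Finset.mem_erase, Finset.mem_union, hA, Finset.mem_erase, inl_mem_Cps, inl_mem_Cps,
          Finset.mem_insert, Finset.mem_erase, Finset.mem_singleton, Finset.mem_singleton]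
        obtain ⟨x1, x2⟩ := x
        simp only [ne_eq, Sum.inl.injEq, Prod.mk.injEq]
        constructor
        · rintro ⟨(⟨rfl, rfl⟩ | ⟨h1, h2 | ⟨h2, rfl⟩⟩), h3⟩
          · exact Or.inl rfl
          · exact Or.inr ⟨h3, h2⟩
          · exact Or.inl rfl
        · rintro (rfl | ⟨h1, h2⟩)
          · refine ⟨?_, fun h => huv' h.symm⟩
            by_cases hx2 : x2 = i0
            · exact Or.inl ⟨rfl, hx2⟩
            · exact Or.inr ⟨fun h => huv' h.1.symm, Or.inr ⟨fun h => hx2 h.2, rfl⟩⟩
          · exact ⟨Or.inr ⟨fun h => h1 h.1, Or.inl h2⟩, h1⟩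
      · rw [Finset.mem_sdiff, hQdef, Finset.mem_insert, Finset.mem_erase, Finset.mem_union, hA,
          Finset.mem_erase]
        simp [inr_notMem_Cps]
    rw [← e]
    exact (h1.trans h2).trans h3

end

end Up

open Up in
theorem cp_upper {V : Type} [DecidableEq V] {E : V → V → Prop} {z : V}
    (hE : ∀ v, ¬ E v v) {t p : ℕ} (ht : 1 ≤ t) (h : CanPebble E z p) :
    CanPebble (CpArc E z t) (.inr ()) (t * (p + 1) - 1) := by
  obtain ⟨T, S, h0, hm, hz, hc⟩ := h
  have hK : t * p ≤ t * (p + 1) - 1 := by
    rw [Nat.mul_succ]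
    omega
  have key : ∀ i ≤ T, Rch (CpArc E z t) (t * (p + 1) - 1) ∅ (Cps t (S i)) := by
    intro i
    induction i with
    | zero =>
      intro _
      have e : Cps t (S 0) = ∅ := by
        rw [← Finset.card_eq_zero, card_Cps, h0, Finset.card_empty, Nat.mul_zero]
      rw [e]
      exact Relation.ReflTransGen.refl
    | succ i ih =>
      intro hi
      exact (ih (by omega)).trans (Cps_step ht (hc i (by omega)) (hc (i + 1) hi)
        (hm i (by omega)))
  set i0 : Fin t := ⟨0, ht⟩ with hi0
  have hin : (Sum.inl (z, i0) : (V × Fin t) ⊕ Unit) ∈ Cps t (S T) := inl_mem_Cps.2 hz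
  have hnot : (Sum.inr () : (V × Fin t) ⊕ Unit) ∉ Cps t (S T) := inr_notMem_Cps
  have h1 : Rch (CpArc E z t) (t * (p + 1) - 1) (Cps t (S T))
      (insert (Sum.inr ()) ((Cps t (S T)).erase (Sum.inl (z, i0)))) := by
    refine Relation.ReflTransGen.single ⟨Or.inr (Or.inr ⟨Sum.inl (z, i0), Sum.inr (), hin,
      hnot, rfl, ?_, rfl⟩), ?_⟩
    · rintro (x | w) hx
      · have hx' : x.1 = z := hx
        rw [inl_mem_Cps, hx']
        exact hz
      · exact hx.elim
    · rw [Finset.card_insert_of_notMem (fun h => hnot (Finset.mem_of_mem_erase h)),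
        Finset.card_erase_of_mem hin]
      have h2 := Finset.card_pos.2 ⟨_, hin⟩
      have h3 : (Cps t (S T)).card ≤ t * p := by
        rw [card_Cps]
        exact Nat.mul_le_mul_left t (hc T le_rfl)
      omega
  exact Rch.can ((key T le_rfl).trans h1) (Finset.mem_insert_self _ _)

end MP1fca05
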