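import Pool.Agent.Lib.MP_1fca05_lc.CpLower
import Pool.Agent.Lib.MP_1fca05_lc.CpUpper

/-!
The exact black pebbling number of the blow-up by copies (MP_1fca05_lc).
-/

namespace MP1fca05

section

variable {V : Type} {E : V → V → Prop} {z : V}

theorem IsSinkDag.irrefl (h : IsSinkDag E z) : ∀ v, ¬ E v v := fun v hv =>
  h.acyclic v (Relation.TransGen.single hv)

theorem cp_card [Fintype V] (t : ℕ) :
    Fintype.card ((V × Fin t) ⊕ Unit) = t * Fintype.card V + 1 := by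
  simp [Fintype.card_sum, Fintype.card_prod, Nat.mul_comm]

variable [DecidableEq V]

theorem peb_le_of_canPebble {k : ℕ} (h : CanPebble E z k) : Peb E z ≤ k := Nat.sInf_le h

theorem canPebble_peb_of {k : ℕ} (h : CanPebble E z k) : CanPebble E z (Peb E z) :=
  Nat.sInf_mem (s := {k | CanPebble E z k}) ⟨k, h⟩

theorem one_le_of_canPebble {k : ℕ} (h : CanPebble E z k) : 1 ≤ k := by
  obtain ⟨T, S, h0, hm, hz, hc⟩ := h
  have h1 := hc T le_rfl
  have h2 := Finset.card_pos.2 ⟨_, hz⟩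
  omega

variable [Fintype V]

theorem dag_canPebble_peb (h : ∀ v, ¬ Relation.TransGen E v v) : CanPebble E z (Peb E z) :=
  canPebble_peb_of (exists_canPebble_dag h z)

theorem dag_peb_le_card (h : ∀ v, ¬ Relation.TransGen E v v) : Peb E z ≤ Fintype.card V :=
  peb_le_of_canPebble (exists_canPebble_dag h z)

theorem dag_one_le_peb (h : ∀ v, ¬ Relation.TransGen E v v) : 1 ≤ Peb E z :=
  one_le_of_canPebble (dag_canPebble_peb h)

theorem cp_peb (h : IsSinkDag E z) (hz : ∃ u, E u z) {t : ℕ} (ht : 1 ≤ t) :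
    Peb (CpArc E z t) (.inr ()) + 1 = t * (Peb E z + 1) := by
  have h1 := cp_upper h.irrefl ht (dag_canPebble_peb (z := z) h.acyclic)
  have h2 := peb_le_of_canPebble h1
  have h3 := cp_lower h.irrefl hz ht (canPebble_peb_of h1)
  have h4 := peb_le_of_canPebble h3
  have h5 := dag_one_le_peb (z := z) h.acyclic
  have h6 : Peb E z + 1 ≤ (Peb (CpArc E z t) (.inr ()) + 1) / t := by omega
  have h7 := (Nat.le_div_iff_mul_le (by omega)).1 h6
  have h8 : 1 ≤ t * (Peb E z + 1) := Nat.mul_pos ht (Nat.succ_pos _)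
  have h9 : (Peb E z + 1) * t = t * (Peb E z + 1) := Nat.mul_comm _ _
  omega

/-- An additive error less than `t` determines `Peb E z`. -/
theorem cp_decides (h : IsSinkDag E z) (hz : ∃ u, E u z) {t : ℕ} (ht : 1 ≤ t) {A : ℝ}
    (h1 : (Peb (CpArc E z t) (.inr ()) : ℝ) ≤ A)
    (h2 : A < Peb (CpArc E z t) (.inr ()) + t) : ⌊(A + 1) / t⌋₊ = Peb E z + 1 := by
  have h3 : ((Peb (CpArc E z t) (.inr ()) : ℝ)) + 1 = t * (Peb E z + 1) := by
    exact_mod_cast cp_peb h hz ht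
  have ht' : (0 : ℝ) < t := by exact_mod_cast ht
  have h4 : (0 : ℝ) ≤ (Peb (CpArc E z t) (.inr ()) : ℝ) := Nat.cast_nonneg _
  rw [Nat.floor_eq_iff (div_nonneg (by linarith) ht'.le)]
  push_cast
  constructor
  · rw [le_div_iff₀ ht']
    linarith
  · rw [div_lt_iff₀ ht']
    linarith

theorem cp_pow {N t : ℕ} (hN : 1 ≤ N) {ε : ℝ} (hε : 0 < ε) (hε1 : ε ≤ 1)
    (ht : (2 * N : ℝ) ≤ (t : ℝ) ^ ε) : ((t * N + 1 : ℕ) : ℝ) ^ (1 - ε) < t := by
  have hN' : (1 : ℝ) ≤ N := by exact_mod_cast hN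
  have ht1 : (1 : ℝ) < t := by
    by_contra hcon
    have h1 : (t : ℝ) ^ ε ≤ 1 := Real.rpow_le_one (Nat.cast_nonneg _) (not_lt.1 hcon) hε.le
    linarith
  have ht0 : (0 : ℝ) < t := by linarith
  have h1 : ((t * N + 1 : ℕ) : ℝ) ≤ (t : ℝ) ^ (1 + ε) := by
    rw [Real.rpow_add ht0, Real.rpow_one]
    push_cast
    nlinarith
  calc ((t * N + 1 : ℕ) : ℝ) ^ (1 - ε) ≤ ((t : ℝ) ^ (1 + ε)) ^ (1 - ε) :=
        Real.rpow_le_rpow (Nat.cast_nonneg _) h1 (by linarith)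
    _ = (t : ℝ) ^ ((1 + ε) * (1 - ε)) := by rw [← Real.rpow_mul ht0.le]
    _ < (t : ℝ) ^ (1 : ℝ) := by
        apply Real.rpow_lt_rpow_of_exponent_lt ht1
        nlinarith
    _ = t := Real.rpow_one _

omit [DecidableEq V] in
theorem cp_card_pos (z : V) : 1 ≤ Fintype.card V := Fintype.card_pos_iff.2 ⟨z⟩

theorem cp_decides_pow (h : IsSinkDag E z) (hz : ∃ u, E u z) {t : ℕ} (ht : 1 ≤ t) {ε : ℝ}
    (hε : 0 < ε) (hε1 : ε ≤ 1) (htε : (2 * Fintype.card V : ℝ) ≤ (t : ℝ) ^ ε) {A : ℝ}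
    (h1 : (Peb (CpArc E z t) (.inr ()) : ℝ) ≤ A)
    (h2 : A ≤ Peb (CpArc E z t) (.inr ()) +
        (Fintype.card ((V × Fin t) ⊕ Unit) : ℝ) ^ (1 - ε) ∨
      A ≤ Peb (CpArc E z t) (.inr ()) + (Peb (CpArc E z t) (.inr ()) : ℝ) ^ (1 - ε)) :
    ⌊(A + 1) / t⌋₊ = Peb E z + 1 := by
  have hN : 1 ≤ Fintype.card V := cp_card_pos z
  have h3 := cp_pow hN hε hε1 htε
  rw [← cp_card] at h3
  apply cp_decides h hz ht h1
  rcases h2 with h2 | h2
  · linarith
  · have h4 : (Peb (CpArc E z t) (.inr ()) : ℝ) ≤ (Fintype.card ((V × Fin t) ⊕ Unit) : ℝ) := by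
      exact_mod_cast dag_peb_le_card (cp_isSinkDag h ht).acyclic
    have h5 := Real.rpow_le_rpow (Nat.cast_nonneg _) h4 (show 0 ≤ 1 - ε by linarith)
    linarith

end

end MP1fca05
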