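import Pool.Agent.Lib.MP_1fca05_lc.BdLow
import Pool.Agent.Lib.MP_1fca05_lc.BdUpper
import Pool.Agent.Lib.MP_1fca05_lc.BdProps1
import Pool.Agent.Lib.MP_1fca05_lc.BdProps2
import Pool.Agent.Lib.MP_1fca05_lc.CpFinal

/-!
The black pebbling number of the bundle dag, and additive approximations (MP_1fca05_lc).
-/

namespace MP1fca05

/-- The number of layers above the bottom layer in each bundle. -/
def bL (N t : ℕ) : ℕ := 2 * ((t + 1) * (N + 1) + 1) + 2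

section

variable {N : ℕ} {E : Fin N → Fin N → Prop} {z : Fin N}

theorem b_peb (h : IsPebDag E z) (t : ℕ) :
    CanPebble (BArc E z t (bL N t)) (btgt E z t (bL N t))
        (Peb (BArc E z t (bL N t)) (btgt E z t (bL N t))) ∧
      Peb (BArc E z t (bL N t)) (btgt E z t (bL N t)) ≤ (t + 1) * (Peb E z + 1) + 1 ∧
      Peb E z ≤ Peb (BArc E z t (bL N t)) (btgt E z t (bL N t)) / (t + 1) + 1 := by
  have h0 := dag_canPebble_peb (z := z) h.acyclic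
  have h1 := b_canPebble (t := t) (L := bL N t) h h0
  have h2 := peb_le_of_canPebble h1
  have h3 := canPebble_peb_of h1
  have h4 : Peb E z ≤ N := by
    have := dag_peb_le_card (z := z) h.acyclic
    rwa [Fintype.card_fin] at this
  refine ⟨h3, h2, peb_le_of_canPebble (b_lower h ?_ h3)⟩
  have h5 : (t + 1) * (Peb E z + 1) ≤ (t + 1) * (N + 1) :=
    Nat.mul_le_mul_left _ (by omega)
  have h6 : bL N t = 2 * ((t + 1) * (N + 1) + 1) + 2 := rfl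
  omega

theorem b_card (h : IsPebDag E z) (t : ℕ) :
    Nat.card (BNode E z t (bL N t)) ≤ 27 * N ^ 2 * (t + 1) ^ 2 := by
  refine (b_card_le' h t (bL N t)).trans ?_
  have hN : 1 ≤ N := by
    have := z.2
    omega
  unfold bL
  nlinarith [Nat.mul_le_mul hN hN, Nat.zero_le t, Nat.zero_le (N * t), Nat.zero_le (N * t * t),
    Nat.mul_le_mul_left (N * t * t) hN, Nat.mul_le_mul_left (N * t) hN, Nat.mul_le_mul_left N hN,
    Nat.mul_le_mul_left (t * t) hN, Nat.mul_le_mul_left t hN,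
    Nat.mul_le_mul_left (t * t) (Nat.mul_le_mul hN hN), Nat.mul_le_mul_left t (Nat.mul_le_mul hN hN)]

/-- An additive error less than `t` determines `Peb E z` up to an additive error `1`. -/
theorem b_decides (h : IsPebDag E z) {t : ℕ} {A : ℝ}
    (h1 : (Peb (BArc E z t (bL N t)) (btgt E z t (bL N t)) : ℝ) ≤ A)
    (h2 : A < Peb (BArc E z t (bL N t)) (btgt E z t (bL N t)) + t) :
    ⌊A / (t + 1)⌋₊ ≤ Peb E z + 1 ∧ Peb E z ≤ ⌊A / (t + 1)⌋₊ + 1 := by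
  obtain ⟨_, h4, h5⟩ := b_peb h t
  have ht : (0 : ℝ) < t + 1 := by positivity
  have hA : (0 : ℝ) ≤ A := (Nat.cast_nonneg _).trans h1
  constructor
  · have h6 : A / (t + 1) < (Peb E z + 2 : ℕ) := by
      rw [div_lt_iff₀ ht]
      have h7 : (Peb (BArc E z t (bL N t)) (btgt E z t (bL N t)) : ℝ) ≤
          (t + 1) * (Peb E z + 1) + 1 := by exact_mod_cast h4
      push_cast
      nlinarith
    have h8 := (Nat.floor_lt (div_nonneg hA ht.le)).2 h6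
    omega
  · have h6 : Peb (BArc E z t (bL N t)) (btgt E z t (bL N t)) / (t + 1) ≤ ⌊A / (t + 1)⌋₊ := by
      apply Nat.le_floor
      refine (Nat.cast_div_le).trans ?_
      push_cast
      exact div_le_div_of_nonneg_right h1 ht.le
    omega

theorem b_pos (z : Fin N) : 1 ≤ N := by
  have := z.2
  omega

theorem b_large (hN : 1 ≤ N) {t : ℕ} {ε : ℝ} (hε : 0 < ε) (hε1 : ε ≤ 1 / 2)
    (ht : (6 * N : ℝ) ≤ ((t : ℝ) + 1) ^ ε) : (36 : ℝ) ≤ (t : ℝ) + 1 := by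
  have hN' : (1 : ℝ) ≤ N := by exact_mod_cast hN
  have h0 : (1 : ℝ) ≤ (t : ℝ) + 1 := by
    have : (0 : ℝ) ≤ t := Nat.cast_nonneg _
    linarith
  have h1 : ((t : ℝ) + 1) ^ ε ≤ ((t : ℝ) + 1) ^ (1 / 2 : ℝ) :=
    Real.rpow_le_rpow_of_exponent_le h0 hε1
  rw [← Real.sqrt_eq_rpow] at h1
  have h2 : (6 : ℝ) ≤ Real.sqrt ((t : ℝ) + 1) := by linarith
  have h3 := Real.sq_sqrt (show (0 : ℝ) ≤ (t : ℝ) + 1 by linarith)
  nlinarith

theorem b_pow (hN : 1 ≤ N) {t n : ℕ} (hn : n ≤ 27 * N ^ 2 * (t + 1) ^ 2) {ε : ℝ} (hε : 0 < ε)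
    (hε1 : ε ≤ 1 / 2) (ht : (6 * N : ℝ) ≤ ((t : ℝ) + 1) ^ ε) : (n : ℝ) ^ (1 / 2 - ε) < t := by
  have hN' : (1 : ℝ) ≤ N := by exact_mod_cast hN
  have hT := b_large hN hε hε1 ht
  have hT0 : (0 : ℝ) < (t : ℝ) + 1 := by linarith
  have h1 : (n : ℝ) ≤ ((t : ℝ) + 1) ^ (2 + 2 * ε) := by
    have h2 : (n : ℝ) ≤ 27 * N ^ 2 * ((t : ℝ) + 1) ^ 2 := by exact_mod_cast hn
    have h3 : ((t : ℝ) + 1) ^ (2 + 2 * ε) = (((t : ℝ) + 1) ^ ε) ^ 2 * ((t : ℝ) + 1) ^ 2 := by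
      rw [Real.rpow_add hT0, Real.rpow_two, mul_comm (2 : ℝ) ε, Real.rpow_mul hT0.le,
        Real.rpow_two]
      ring
    rw [h3]
    refine h2.trans (mul_le_mul_of_nonneg_right ?_ (by positivity))
    nlinarith
  calc (n : ℝ) ^ (1 / 2 - ε) ≤ (((t : ℝ) + 1) ^ (2 + 2 * ε)) ^ (1 / 2 - ε) :=
        Real.rpow_le_rpow (Nat.cast_nonneg _) h1 (by linarith)
    _ = ((t : ℝ) + 1) ^ ((2 + 2 * ε) * (1 / 2 - ε)) := by rw [← Real.rpow_mul hT0.le]
    _ ≤ ((t : ℝ) + 1) ^ (1 - ε) := by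
        apply Real.rpow_le_rpow_of_exponent_le (by linarith)
        nlinarith
    _ = ((t : ℝ) + 1) / ((t : ℝ) + 1) ^ ε := by rw [Real.rpow_sub hT0, Real.rpow_one]
    _ ≤ ((t : ℝ) + 1) / 6 := by
        apply div_le_div_of_nonneg_left hT0.le (by norm_num)
        linarith
    _ < t := by linarith

theorem b_pow' (hN : 1 ≤ N) {t s : ℕ} (hs : s ≤ (t + 1) * (N + 1) + 1) {ε : ℝ} (hε : 0 < ε)
    (hε1 : ε ≤ 1 / 2) (ht : (6 * N : ℝ) ≤ ((t : ℝ) + 1) ^ ε) : (s : ℝ) ^ (1 - ε) < t := by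
  have hN' : (1 : ℝ) ≤ N := by exact_mod_cast hN
  have hT := b_large hN hε hε1 ht
  have hT0 : (0 : ℝ) < (t : ℝ) + 1 := by linarith
  have h1 : (s : ℝ) ≤ ((t : ℝ) + 1) ^ (1 + ε) / 2 := by
    have h2 : (s : ℝ) ≤ ((t : ℝ) + 1) * (N + 1) + 1 := by exact_mod_cast hs
    rw [Real.rpow_add hT0, Real.rpow_one]
    have h3 : ((t : ℝ) + 1) * (6 * N) ≤ ((t : ℝ) + 1) * ((t : ℝ) + 1) ^ ε :=
      mul_le_mul_of_nonneg_left ht hT0.le
    nlinarith
  have h4 : (1.4 : ℝ) ≤ (2 : ℝ) ^ (1 - ε) := by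
    have h5 : (2 : ℝ) ^ (1 / 2 : ℝ) ≤ (2 : ℝ) ^ (1 - ε) :=
      Real.rpow_le_rpow_of_exponent_le one_le_two (by linarith)
    rw [← Real.sqrt_eq_rpow] at h5
    refine le_trans ?_ h5
    apply Real.le_sqrt_of_sq_le
    norm_num
  have h6 : (((t : ℝ) + 1) ^ (1 + ε)) ^ (1 - ε) ≤ (t : ℝ) + 1 := by
    rw [← Real.rpow_mul hT0.le]
    calc ((t : ℝ) + 1) ^ ((1 + ε) * (1 - ε)) ≤ ((t : ℝ) + 1) ^ (1 : ℝ) := by
          apply Real.rpow_le_rpow_of_exponent_le (by linarith)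
          nlinarith
      _ = (t : ℝ) + 1 := Real.rpow_one _
  calc (s : ℝ) ^ (1 - ε) ≤ (((t : ℝ) + 1) ^ (1 + ε) / 2) ^ (1 - ε) :=
        Real.rpow_le_rpow (Nat.cast_nonneg _) h1 (by linarith)
    _ = (((t : ℝ) + 1) ^ (1 + ε)) ^ (1 - ε) / 2 ^ (1 - ε) :=
        Real.div_rpow (by positivity) (by norm_num) _
    _ ≤ ((t : ℝ) + 1) / 2 ^ (1 - ε) := div_le_div_of_nonneg_right h6 (by positivity)
    _ ≤ ((t : ℝ) + 1) / 1.4 := div_le_div_of_nonneg_left hT0.le (by norm_num) h4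
    _ < t := by
        rw [div_lt_iff₀ (by norm_num)]
        linarith

theorem b_decides_pow (h : IsPebDag E z) {t : ℕ} {ε : ℝ} (hε : 0 < ε) (hε1 : ε ≤ 1 / 2)
    (htε : (6 * N : ℝ) ≤ ((t : ℝ) + 1) ^ ε) {A : ℝ}
    (h1 : (Peb (BArc E z t (bL N t)) (btgt E z t (bL N t)) : ℝ) ≤ A)
    (h2 : A ≤ Peb (BArc E z t (bL N t)) (btgt E z t (bL N t)) +
        (Nat.card (BNode E z t (bL N t)) : ℝ) ^ (1 / 2 - ε) ∨
      A ≤ Peb (BArc E z t (bL N t)) (btgt E z t (bL N t)) +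
        (Peb (BArc E z t (bL N t)) (btgt E z t (bL N t)) : ℝ) ^ (1 - ε)) :
    ⌊A / (t + 1)⌋₊ ≤ Peb E z + 1 ∧ Peb E z ≤ ⌊A / (t + 1)⌋₊ + 1 := by
  apply b_decides h h1
  rcases h2 with h2 | h2
  · have := b_pow (b_pos z) (b_card h t) hε hε1 htε
    linarith
  · have h4 : Peb E z ≤ N := by
      have := dag_peb_le_card (z := z) h.acyclic
      rwa [Fintype.card_fin] at this
    have h5 : (t + 1) * (Peb E z + 1) ≤ (t + 1) * (N + 1) :=
      Nat.mul_le_mul_left _ (by omega)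
    have h6 := (b_peb h t).2.1
    have := b_pow' (b_pos z) (t := t) (s := Peb (BArc E z t (bL N t)) (btgt E z t (bL N t)))
      (by omega) hε hε1 htε
    linarith

end

end MP1fca05
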