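import Pool.Agent.Lib.MP_1fca05_lc.Live

/-!
The lower bound for joined relations.
-/

namespace MP1fca05

theorem last_time (p : ℕ → Prop) {a : ℕ} (ha : p a) : ∀ {b : ℕ}, a ≤ b → ¬ p b →
    ∃ t, a ≤ t ∧ t < b ∧ p t ∧ ∀ r, t < r → r ≤ b → ¬ p r
  | 0, hab, hb => by
      have : a = 0 := by omega
      subst this
      exact absurd ha hb
  | b + 1, hab, hb => by
      by_cases h : p b
      · refine ⟨b, ?_, by omega, h, ?_⟩
        · by_contra hcon
          have : a = b + 1 := by omega
          subst this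
          exact hb ha
        · intro r h1 h2
          have : r = b + 1 := by omega
          rwa [this]
      · have hab' : a ≤ b := by
          by_contra hcon
          have : a = b + 1 := by omega
          subst this
          exact hb ha
        obtain ⟨t, h1, h2, h3, h4⟩ := last_time p ha hab' h
        refine ⟨t, h1, by omega, h3, ?_⟩
        intro r h5 h6
        rcases Nat.lt_or_ge b r with h7 | h7
        · have : r = b + 1 := by omega
          rwa [this]
        · exact h4 r h5 h7

theorem first_time (p : ℕ → Prop) {a b : ℕ} (ha : p a) (hab : a ≤ b) (hb : ¬ p b) :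
    ∃ t, a < t ∧ t ≤ b ∧ ¬ p t ∧ ∀ r, a ≤ r → r < t → p r := by
  classical
  have hex : ∃ t, a ≤ t ∧ ¬ p t := ⟨b, hab, hb⟩
  have h1 := Nat.find_spec hex
  refine ⟨Nat.find hex, ?_, Nat.find_min' hex ⟨hab, hb⟩, h1.2, ?_⟩
  · by_contra hcon
    have h2 : Nat.find hex = a := le_antisymm (by omega) h1.1
    rw [h2] at h1
    exact h1.2 ha
  · intro r h3 h4
    by_contra h5
    exact Nat.find_min hex h4 ⟨h3, h5⟩

section

variable {m : ℕ} {R : Fin m → Fin m → Prop}

theorem not_op_of_preds {P : Finset (Nd m)} {b k : ℕ} {w : Fin (m + 1)} (hk : 1 ≤ k)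
    (h : ∀ u, Pr R u (w, b + k, Fin.last m) → u ∈ P) : ¬ Op R P b k w := by
  obtain ⟨k, rfl⟩ : ∃ l, k = l + 1 := ⟨k - 1, by omega⟩
  rintro ⟨u, h1, h2, h3⟩
  rcases eq_or_lt_of_le (Fin.le_last u) with hu | hu
  · subst hu
    exact op_out h1 (h _ (Or.inr ⟨rfl, by simp only; omega, rfl, h2⟩))
  · have hu' : (u : ℕ) < m := hu
    have h4 : (w, b + (k + 1), (⟨m - 1, by omega⟩ : Fin (m + 1))) ∈ P :=
      h _ (Or.inl ⟨rfl, rfl, by simp only [Fin.val_last]; omega⟩)
    refine h3 ⟨m - 1, by omega⟩ ?_ ?_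
    · rw [Fin.le_def]
      simp only
      omega
    · rwa [add_assoc]

theorem one_le_of_joined {q : ℕ} (hR : Joined R q) : 1 ≤ q := by
  by_contra hcon
  obtain ⟨a, ha, _⟩ := hR ∅ ∅ (by simp; omega) (by simp; omega)
  simp at ha

/-- a time interval in which the target stops being open for the base `b` gives a heavy layer -/
theorem lose {q : ℕ} (hR : Joined R q) {s L t0 t1 : ℕ} {P : ℕ → Finset (Nd m)}
    (hst : ∀ t, t0 ≤ t → t < t1 → St R (P t) (P (t + 1)))
    (hc : ∀ t, t0 ≤ t → t ≤ t1 → (P t).card ≤ s) {b : ℕ} (hb : b + (2 * s + 2) ≤ L)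
    (h01 : t0 ≤ t1) {w : Fin (m + 1)} (h0 : Op R (P t0) b (L - b) w)
    (h1 : ¬ Op R (P t1) b (L - b) w) :
    ∃ t, t0 ≤ t ∧ t < t1 ∧ ∃ j ≤ 2 * s + 2, ¬ Live R q (P (t + 1)) b j ∧
      m + 2 ≤ (cols (P (t + 1)) (b + j)).card + 2 * q := by
  have hq := one_le_of_joined hR
  obtain ⟨t, h2, h3, h4, h5⟩ := last_time (fun t => Op R (P t) b (L - b) w) h0 h01 h1
  refine ⟨t, h2, h3, ?_⟩
  have h6 := h5 (t + 1) (by omega) (by omega)
  rcases dichotomy (hst t h2 h3) (hc (t + 1) (by omega) (by omega)) b with h7 | h7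
  · exact absurd (h7 _ w (by omega) h4) h6
  · exact exists_heavy hq hR (not_live_of_none hq (fun w => h7 (2 * s + 2) w le_rfl))

theorem low_inf {q : ℕ} (hR : Joined R q) {s T L : ℕ} (P : ℕ → Finset (Nd m))
    (hP0 : P 0 = ∅) (hst : ∀ t, t < T → St R (P t) (P (t + 1)))
    (hc : ∀ t, t ≤ T → (P t).card ≤ s) (hz : (Fin.last m, L, Fin.last m) ∈ P T)
    (hL : 3 * (2 * s + 2) ≤ L) : 2 * (m + 2) ≤ s + 1 + 4 * q := by
  classical
  have hq := one_le_of_joined hR
  -- the first time the target carries a pebble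
  obtain ⟨tf, hf0, hfT, hf1, hf2⟩ := first_time (fun t => (Fin.last m, L, Fin.last m) ∉ P t)
    (a := 0) (b := T) (by simp [hP0]) (by omega) (by simpa using hz)
  obtain ⟨e, rfl⟩ : ∃ e, tf = e + 1 := ⟨tf - 1, by omega⟩
  have hze : (Fin.last m, L, Fin.last m) ∉ P e := hf2 e (by omega) (by omega)
  have hze1 : (Fin.last m, L, Fin.last m) ∈ P (e + 1) := by simpa using hf1
  obtain ⟨v, hv1, hv2⟩ := hst e (by omega)
  have hvz : v = (Fin.last m, L, Fin.last m) := by
    rcases Finset.mem_insert.1 (hv2 hze1) with h | h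
    · exact h.symm
    · exact absurd h hze
  subst hvz
  have hne : ∀ b, b < L → ¬ Op R (P e) b (L - b) (Fin.last m) := by
    intro b hb
    apply not_op_of_preds (by omega)
    have : b + (L - b) = L := by omega
    rw [this]
    exact hv1
  -- the last time the target is open for the base 0
  obtain ⟨t0, _, ht0e, ht0, ht0'⟩ := last_time (fun t => Op R (P t) 0 L (Fin.last m))
    (a := 0) (b := e) (by simp only [hP0]; exact op_empty _ _ _) (by omega)
    (by simpa using hne 0 (by omega))
  have hres : ∀ b, b ≤ L → Op R (P t0) b (L - b) (Fin.last m) := by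
    intro b hb
    have h1 : Op R (P t0) 0 (b + (L - b)) (Fin.last m) := by
      have : b + (L - b) = L := by omega
      rw [this]
      exact ht0
    have h2 := op_restrict h1
    rwa [zero_add] at h2
  have hfirst : ∃ k ≤ 2 * s + 2, ¬ Live R q (P (t0 + 1)) 0 k := by
    rcases dichotomy (hst t0 (by omega)) (hc (t0 + 1) (by omega)) 0 with h7 | h7
    · exact absurd (h7 _ _ (by omega) ht0) (ht0' (t0 + 1) (by omega) (by omega))
    · exact ⟨2 * s + 2, le_rfl, not_live_of_none hq (fun w => h7 (2 * s + 2) w le_rfl)⟩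
  by_cases hall : ∀ t, t0 + 1 ≤ t → t ≤ e → ∃ k ≤ 2 * s + 2, ¬ Live R q (P t) 0 k
  · -- there is always a level that is not live near the base 0
    obtain ⟨t, h1, h2, j, hj, _, hj2⟩ := lose hR (s := s) (L := L) (t0 := t0) (t1 := e) (P := P)
      (b := 2 * s + 3) (w := Fin.last m) (fun t h1 h2 => hst t (by omega))
      (fun t h1 h2 => hc t (by omega)) (by omega) (by omega) (hres _ (by omega))
      (hne _ (by omega))
    obtain ⟨k, hk, hk2⟩ := hall (t + 1) (by omega) (by omega)
    obtain ⟨i, hi, _, hi2⟩ := exists_heavy hq hR hk2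
    have h3 := card_two (P := P (t + 1)) (P' := P (t + 1)) (U := P (t + 1))
      (a := 0 + i) (a' := 2 * s + 3 + j) (Finset.Subset.refl _) (Finset.Subset.refl _) (by omega)
    have h4 := hc (t + 1) (by omega)
    omega
  · push Not at hall
    obtain ⟨t', h1, h2, h3⟩ := hall
    obtain ⟨t, h4, h5, h6, h7⟩ := first_time
      (fun t => ∃ k ≤ 2 * s + 2, ¬ Live R q (P t) 0 k) (a := t0 + 1) (b := t') hfirst h1
      (by push Not; exact h3)
    obtain ⟨d, rfl⟩ : ∃ d, t = d + 1 := ⟨t - 1, by omega⟩
    push Not at h6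
    obtain ⟨v, hv1, hv2⟩ := hst d (by omega)
    have hU : (insert v (P d)).card ≤ s + 1 :=
      (Finset.card_insert_le _ _).trans (by have := hc d (by omega); omega)
    have hPU : P d ⊆ insert v (P d) := Finset.subset_insert _ _
    obtain ⟨k0, hk0, hk0'⟩ := h7 d (by omega) (by omega)
    obtain ⟨i0, hi0, _, hi02⟩ := exists_heavy hq hR hk0'
    by_cases hlive : ∀ k, k ≤ 2 * (2 * s + 2) → Live R q (P (d + 1)) 0 k
    · -- all columns are open at some level
      obtain ⟨i, hi, hfr1, hfr2⟩ := exists_free_pair (hc (d + 1) (by omega)) (2 * s + 2)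
      obtain ⟨u, hu⟩ := exists_open_of_live hq (hlive (2 * s + 2 + 2 * i) (by omega))
      have hopen : ∀ w, Op R (P (d + 1)) 0 (2 * s + 2 + 2 * i + 2) w := by
        apply all_open (u := u) _ _ hu
        · simpa using hfr1
        · simpa using hfr2
      obtain ⟨l, hl⟩ : ∃ l, l = 2 * s + 2 + 2 * i + 2 := ⟨_, rfl⟩
      rw [← hl] at hopen
      have hno : ¬ Op R (P (d + 1)) l (L - l) (Fin.last m) := by
        intro hcon
        have h8 : Op R (P (d + 1)) (0 + l) (L - l) (Fin.last m) := by rwa [zero_add]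
        have h9 := op_concat hopen h8
        have h10 : l + (L - l) = L := by omega
        rw [h10] at h9
        exact ht0' (d + 1) (by omega) (by omega) h9
      obtain ⟨r, hr1, hr2, j, hj, _, hj2⟩ := lose hR (s := s) (L := L) (t0 := t0) (t1 := d + 1)
        (P := P) (b := l) (w := Fin.last m) (fun t h1 h2 => hst t (by omega))
        (fun t h1 h2 => hc t (by omega)) (by omega) (by omega) (hres _ (by omega)) hno
      rcases Nat.lt_or_ge r d with hrd | hrd
      · obtain ⟨k1, hk1, hk1'⟩ := h7 (r + 1) (by omega) (by omega)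
        obtain ⟨i1, hi1, _, hi12⟩ := exists_heavy hq hR hk1'
        have h8 := card_two (P := P (r + 1)) (P' := P (r + 1)) (U := P (r + 1))
          (a := 0 + i1) (a' := l + j) (Finset.Subset.refl _) (Finset.Subset.refl _) (by omega)
        have h9 := hc (r + 1) (by omega)
        omega
      · have hrd' : r = d := by omega
        subst hrd'
        have h8 := card_two (P := P r) (P' := P (r + 1)) (U := insert v (P r))
          (a := 0 + i0) (a' := l + j) hPU hv2 (by omega)
        omega
    · push Not at hlive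
      obtain ⟨k, hk, hk'⟩ := hlive
      obtain ⟨j, hj, hj1, hj2⟩ := exists_heavy hq hR hk'
      have hj3 : 2 * s + 2 < j := by
        by_contra hcon
        exact hj1 (h6 j (by omega))
      have h8 := card_two (P := P d) (P' := P (d + 1)) (U := insert v (P d))
        (a := 0 + i0) (a' := 0 + j) hPU hv2 (by omega)
      omega

end

end MP1fca05
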