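import Pool.Agent.Lib.MP_1fca05_lc.BdStep
import Pool.Agent.Lib.MP_1fca05_lc.Low

/-!
The lower bound for the bundle dag.
-/

namespace MP1fca05

section

variable {N : ℕ} {E : Fin N → Fin N → Prop} {z : Fin N} {t L : ℕ}

theorem gpr_node {x : BNode E z t L} {y : BCell N t × ℕ} (h : GPr (brd E z t L) y x.1) :
    ∃ u : BNode E z t L, BArc E z t L u x ∧ u.1 = y := by
  obtain ⟨x, hx1, hx2⟩ := x
  have key : y.2 < clen (brd E z t L) y.1 ∧ ∀ v l w, y.1 = some (v, l, w) → l ≤ L := by
    rcases h with ⟨h1, h2⟩ | ⟨h1, h2⟩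
    · simp only at h1 h2
      refine ⟨?_, fun v l w h3 => hx2 v l w (by rw [← h1]; exact h3)⟩
      rw [h1]
      omega
    · simp only at h2
      refine ⟨by omega, fun v l w h3 => ?_⟩
      rcases hxc : x.1 with _ | ⟨v', l', w'⟩
      · rw [hxc] at h2
        obtain ⟨w'', h4⟩ := read_none h2
        rw [h4] at h3
        simp only [Option.some.injEq, Prod.mk.injEq] at h3
        omega
      · rw [hxc] at h2
        rcases l' with _ | l'
        · obtain ⟨u, w'', _, h4⟩ := read_zero h2
          rw [h4] at h3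
          simp only [Option.some.injEq, Prod.mk.injEq] at h3
          omega
        · obtain ⟨w'', h4⟩ := read_succ h2
          rw [h4] at h3
          simp only [Option.some.injEq, Prod.mk.injEq] at h3
          have := hx2 v' (l' + 1) w' hxc
          omega
  exact ⟨⟨y, key⟩, h, rfl⟩

theorem gst_of_move {P Q : Finset (BNode E z t L)} (h : Move (BArc E z t L) P Q) :
    GSt (brd E z t L) (P.image Subtype.val) (Q.image Subtype.val) := by
  classical
  rcases h with ⟨v, _, h2, rfl⟩ | ⟨v, _, rfl⟩ | ⟨u, v, _, _, _, h4, rfl⟩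
  · refine Or.inr ⟨v.1, fun y hy => ?_, ?_⟩
    · obtain ⟨u, hu, rfl⟩ := gpr_node hy
      exact Finset.mem_image_of_mem _ (h2 u hu)
    · rw [Finset.image_insert]
  · exact Or.inl (Finset.image_subset_image (Finset.erase_subset _ _))
  · refine Or.inr ⟨v.1, fun y hy => ?_, ?_⟩
    · obtain ⟨u, hu, rfl⟩ := gpr_node hy
      exact Finset.mem_image_of_mem _ (h4 u hu)
    · rw [Finset.image_insert]
      exact Finset.insert_subset_insert _ (Finset.image_subset_image (Finset.erase_subset _ _))

theorem b_preds {P Q : Finset (BNode E z t L)} (h : Move (BArc E z t L) P Q)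
    {x : BNode E z t L} (hx : x ∉ P) (hx' : x ∈ Q) : ∀ u, BArc E z t L u x → u ∈ P := by
  classical
  rcases h with ⟨v, _, h2, rfl⟩ | ⟨v, _, rfl⟩ | ⟨u, v, _, _, _, h4, rfl⟩
  · rcases Finset.mem_insert.1 hx' with h | h
    · rw [h]
      exact h2
    · exact absurd h hx
  · exact absurd (Finset.mem_of_mem_erase hx') hx
  · rcases Finset.mem_insert.1 hx' with h | h
    · rw [h]
      exact h4
    · exact absurd (Finset.mem_of_mem_erase h) hx

theorem not_ful_empty (v : Fin N) : ¬ Ful (∅ : Finset (BCell N t × ℕ)) v := by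
  intro h
  obtain ⟨l, j, h1⟩ := h 0
  exact absurd h1 (Finset.notMem_empty _)

theorem b_lower (hH : IsPebDag E z) {s : ℕ} (hL : 2 * s + 2 ≤ L)
    (h : CanPebble (BArc E z t L) (btgt E z t L) s) : CanPebble E z (s / (t + 1) + 1) := by
  classical
  obtain ⟨T, S, hS0, hS, hT, hc⟩ := h
  set P : ℕ → Finset (BCell N t × ℕ) := fun i => (S i).image Subtype.val with hP
  have hP0 : P 0 = ∅ := by simp [hP, hS0]
  have hst : ∀ i, i < T → GSt (brd E z t L) (P i) (P (i + 1)) := fun i hi => gst_of_move (hS i hi)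
  have hcard : ∀ i, i ≤ T → (P i).card ≤ s := fun i hi => Finset.card_image_le.trans (hc i hi)
  have hrun : ∀ i, i ≤ T → ∃ Θ, Up.Rch E (s / (t + 1) + 1) ∅ Θ ∧ Rep E z t L (P i) Θ ∅ ∧
      Θ.card ≤ s / (t + 1) := by
    intro i
    induction i with
    | zero =>
      intro _
      refine ⟨∅, Relation.ReflTransGen.refl, ?_, by simp⟩
      rw [hP0]
      exact ⟨fun u hu => absurd (ful_of_clo hu) (not_ful_empty u),
        fun v hv => absurd hv (not_ful_empty v), fun v _ hv => absurd hv (not_ful_empty v)⟩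
    | succ i ih =>
      intro hi
      obtain ⟨Θ, h1, h2, h3⟩ := ih (by omega)
      obtain ⟨Θ', h4, h5, h6⟩ := step_rep hH (hst i (by omega)) (hcard (i + 1) hi) hL h2 h3
      exact ⟨Θ', h1.trans h4, h5, h6⟩
  -- the first time the target carries a pebble
  obtain ⟨tf, hf0, hfT, hf1, hf2⟩ := first_time (fun i => btgt E z t L ∉ S i)
    (a := 0) (b := T) (by simp [hS0]) (by omega) (by simpa using hT)
  obtain ⟨e, rfl⟩ : ∃ e, tf = e + 1 := ⟨tf - 1, by omega⟩
  have hze : btgt E z t L ∉ S e := hf2 e (by omega) (by omega)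
  have hze1 : btgt E z t L ∈ S (e + 1) := by simpa using hf1
  have hpre := b_preds (hS e (by omega)) hze hze1
  have hpre' : ∀ y, GPr (brd E z t L) y (none, t) → y ∈ P e := by
    intro y hy
    obtain ⟨u, hu, rfl⟩ := gpr_node (x := btgt E z t L) hy
    exact Finset.mem_image_of_mem _ (hpre u hu)
  have hend : ¬ Opn (brd E z t L) (P e) (Lev z 0) none := by
    intro hopn
    cases hopn with
    | base h1 _ =>
      obtain ⟨w, hw⟩ := h1
      simp at hw
    | @step _ c' i h1 h2 h3 =>
      have h4 := lt_clen h2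
      rw [clen_none] at h4
      rcases eq_or_lt_of_le (Nat.lt_succ_iff.1 h4) with h5 | h5
      · subst h5
        refine h1.out (hpre' _ (Or.inr ⟨?_, h2⟩))
        have := clen_pos (brd E z i L) c'
        show clen (brd E z i L) c' - 1 + 1 = clen (brd E z i L) c'
        omega
      · refine h3 (t - 1) (by omega) (by rw [clen_none]; omega) (hpre' _ (Or.inl ⟨rfl, ?_⟩))
        show t - 1 + 1 = t
        omega
  have hstart : Opn (brd E z t L) (P 0) (Lev z 0) none := by
    rw [hP0]
    have h1 : Opn (brd E z t L) ∅ (Lev z 0) (some (z, 0, (0 : Fin (t + 1)))) :=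
      Opn.base ⟨0, rfl⟩ (Finset.notMem_empty _)
    have h2 := opn_up h1 L (fun l' j _ _ => Finset.notMem_empty _)
    obtain ⟨i, hi⟩ := final_reads (E := E) (z := z) (L := L) (0 : Fin (t + 1))
    rw [zero_add] at h2
    exact Opn.step h2 hi (fun j _ _ => Finset.notMem_empty _)
  obtain ⟨r, _, hr, hr1, hr2⟩ := last_time (fun i => Opn (brd E z t L) (P i) (Lev z 0) none)
    (a := 0) (b := e) hstart (by omega) hend
  have hclo : Clo E z t L (P (r + 1)) z := by
    have h1 := hr2 (r + 1) (by omega) (by omega)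
    rcases hst r (by omega) with h2 | ⟨x, hx, hQx⟩
    · exact absurd (hr1.anti h2) h1
    · exact (new_closed hx hQx (hcard (r + 1) (by omega)) hL (fun l w h => by simp at h) hr1 h1).2
  obtain ⟨Θ, h1, h2, _⟩ := hrun (r + 1) (by omega)
  exact h1.can (h2.1 z hclo)

end

end MP1fca05
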