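import Pool.Agent.Lib.MP_1fca05_lc.Bd

/-!
Open cells in chain expansions, and in the bundle dag.
-/

namespace MP1fca05

section General

variable {Ω : Type} {rd : Ω → List Ω}

/-- There is a path free of `P` from the end of a cell in `B` to the end of the cell. -/
inductive Opn (rd : Ω → List Ω) (P : Finset (Ω × ℕ)) (B : Ω → Prop) : Ω → Prop
  | base {c : Ω} : B c → (c, clen rd c - 1) ∉ P → Opn rd P B c
  | step {c c' : Ω} {i : ℕ} : Opn rd P B c' → (rd c)[i]? = some c' →
      (∀ j, i ≤ j → j < clen rd c → (c, j) ∉ P) → Opn rd P B c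

/-- A step: pebbles are removed, or a pebble is placed on a node all of whose direct predecessors
carry pebbles and then pebbles are removed. -/
def GSt [DecidableEq Ω] (rd : Ω → List Ω) (P Q : Finset (Ω × ℕ)) : Prop :=
  Q ⊆ P ∨ ∃ x, (∀ y, GPr rd y x → y ∈ P) ∧ Q ⊆ insert x P

theorem clen_pos (rd : Ω → List Ω) (c : Ω) : 1 ≤ clen rd c := le_max_left _ _

theorem lt_clen {c c' : Ω} {i : ℕ} (h : (rd c)[i]? = some c') : i < clen rd c := by
  have h1 : i < (rd c).length := by
    by_contra hcon
    rw [List.getElem?_eq_none (not_lt.1 hcon)] at h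
    simp at h
  exact h1.trans_le (le_max_right _ _)

theorem Opn.out {P : Finset (Ω × ℕ)} {B : Ω → Prop} {c : Ω} (h : Opn rd P B c) :
    (c, clen rd c - 1) ∉ P := by
  cases h with
  | base _ h2 => exact h2
  | step _ h2 h3 =>
    have h4 := lt_clen h2
    exact h3 _ (by omega) (by omega)

theorem Opn.anti {P Q : Finset (Ω × ℕ)} (hQ : Q ⊆ P) {B : Ω → Prop} {c : Ω}
    (h : Opn rd P B c) : Opn rd Q B c := by
  induction h with
  | base h1 h2 => exact Opn.base h1 (fun hh => h2 (hQ hh))
  | step _ h2 h3 ih => exact Opn.step ih h2 (fun j h4 h5 hh => h3 j h4 h5 (hQ hh))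

theorem Opn.concat {P : Finset (Ω × ℕ)} {B B' : Ω → Prop} (hB : ∀ c, B' c → Opn rd P B c) {c : Ω}
    (h : Opn rd P B' c) : Opn rd P B c := by
  induction h with
  | base h1 _ => exact hB _ h1
  | step _ h2 h3 ih => exact Opn.step ih h2 h3

theorem Opn.ins [DecidableEq Ω] {P : Finset (Ω × ℕ)} {x : Ω × ℕ} (hx : ∀ y, GPr rd y x → y ∈ P) {B : Ω → Prop}
    (hB : ∀ c, B c → x ≠ (c, clen rd c - 1)) {c : Ω} (h : Opn rd P B c) :
    Opn rd (insert x P) B c := by
  induction h with
  | base h1 h2 =>
    refine Opn.base h1 (fun hh => ?_)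
    rcases Finset.mem_insert.1 hh with hh | hh
    · exact hB _ h1 hh.symm
    · exact h2 hh
  | @step c c' i h1 h2 h3 ih =>
    refine Opn.step ih h2 (fun j h4 h5 hh => ?_)
    rcases Finset.mem_insert.1 hh with hh | hh
    · subst hh
      rcases eq_or_lt_of_le h4 with h6 | h6
      · subst h6
        refine h1.out (hx _ (Or.inr ⟨?_, h2⟩))
        have := clen_pos rd c'
        show clen rd c' - 1 + 1 = clen rd c'
        omega
      · refine h3 (j - 1) (by omega) (by omega) (hx _ (Or.inl ⟨rfl, ?_⟩))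
        show j - 1 + 1 = j
        omega
    · exact h3 j h4 h5 hh

end General

section Bundle

variable {N : ℕ} {E : Fin N → Fin N → Prop} {z : Fin N} {t L : ℕ}

/-- the cells in layer `k` of the bundle of `u` -/
def Lev {N t : ℕ} (u : Fin N) (k : ℕ) (c : BCell N t) : Prop := ∃ w, c = some (u, k, w)

/-- every column of the bundle of `v` carries a pebble -/
def Ful {N t : ℕ} (P : Finset (BCell N t × ℕ)) (v : Fin N) : Prop :=
  ∀ w : Fin (t + 1), ∃ l j, (some (v, l, w), j) ∈ P

/-- nothing in the top layer of the bundle of `u` is open from its bottom layer -/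
def Clo (E : Fin N → Fin N → Prop) (z : Fin N) (t L : ℕ) (P : Finset (BCell N t × ℕ))
    (u : Fin N) : Prop := ∀ w, ¬ Opn (brd E z t L) P (Lev u 0) (some (u, L, w))

/-- nothing in the top layer of the bundle of `v` is open from the bottom layer of the bundle of
`u` -/
def Cut (E : Fin N → Fin N → Prop) (z : Fin N) (t L : ℕ) (P : Finset (BCell N t × ℕ))
    (u v : Fin N) : Prop := ∀ w, ¬ Opn (brd E z t L) P (Lev u 0) (some (v, L, w))

theorem mem_pl {v u : Fin N} : u ∈ pl E v ↔ E u v := by
  simp [pl]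

/-- what is read in layer `l + 1` -/
theorem read_succ {v : Fin N} {l : ℕ} {w : Fin (t + 1)} {i : ℕ} {c : BCell N t}
    (h : (brd E z t L (some (v, l + 1, w)))[i]? = some c) : ∃ w', c = some (v, l, w') := by
  simp only [brd] at h
  split_ifs at h with hw
  · have h1 := List.mem_of_getElem? h
    simp only [List.mem_map] at h1
    obtain ⟨w', _, h1⟩ := h1
    exact ⟨w', h1.symm⟩
  · have h1 := List.mem_of_getElem? h
    simp only [List.mem_cons, List.not_mem_nil, or_false] at h1
    rcases h1 with h1 | h1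
    · exact ⟨_, h1⟩
    · exact ⟨_, h1⟩

theorem read_zero {v : Fin N} {w : Fin (t + 1)} {i : ℕ} {c : BCell N t}
    (h : (brd E z t L (some (v, 0, w)))[i]? = some c) : ∃ u w', E u v ∧ c = some (u, L, w') := by
  simp only [brd] at h
  have h1 := List.mem_of_getElem? h
  simp only [List.mem_flatMap, List.mem_map, mem_pl] at h1
  obtain ⟨u, h1, w', _, h2⟩ := h1
  exact ⟨u, w', h1, h2.symm⟩

theorem read_none {i : ℕ} {c : BCell N t}
    (h : (brd E z t L none)[i]? = some c) : ∃ w', c = some (z, L, w') := by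
  simp only [brd] at h
  have h1 := List.mem_of_getElem? h
  simp only [List.mem_map] at h1
  obtain ⟨w', _, h2⟩ := h1
  exact ⟨w', h2.symm⟩

theorem reads_self (v : Fin N) (l : ℕ) (w : Fin (t + 1)) :
    ∃ i : ℕ, (brd E z t L (some (v, l + 1, w)))[i]? = some (some (v, l, w)) := by
  apply List.getElem?_of_mem
  simp only [brd]
  split_ifs with hw
  · exact List.mem_map.2 ⟨w, List.mem_finRange w, rfl⟩
  · exact List.mem_cons_self

theorem reads_hub (v : Fin N) (l : ℕ) (w : Fin (t + 1)) :
    ∃ i : ℕ, (brd E z t L (some (v, l + 1, w)))[i]? = some (some (v, l, Fin.last t)) := by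
  apply List.getElem?_of_mem
  simp only [brd]
  split_ifs with hw
  · exact List.mem_map.2 ⟨Fin.last t, List.mem_finRange _, rfl⟩
  · exact List.mem_cons_of_mem _ (List.mem_singleton.2 rfl)

theorem hub_reads (v : Fin N) (l : ℕ) (w : Fin (t + 1)) :
    ∃ i : ℕ, (brd E z t L (some (v, l + 1, Fin.last t)))[i]? = some (some (v, l, w)) := by
  apply List.getElem?_of_mem
  simp only [brd, if_true]
  exact List.mem_map.2 ⟨w, List.mem_finRange _, rfl⟩

theorem bottom_reads {u v : Fin N} (h : E u v) (w w' : Fin (t + 1)) :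
    ∃ i : ℕ, (brd E z t L (some (v, 0, w)))[i]? = some (some (u, L, w')) := by
  apply List.getElem?_of_mem
  simp only [brd]
  rw [List.mem_flatMap]
  exact ⟨u, mem_pl.2 h, List.mem_map.2 ⟨w', List.mem_finRange _, rfl⟩⟩

theorem final_reads (w : Fin (t + 1)) :
    ∃ i : ℕ, (brd E z t L none)[i]? = some (some (z, L, w)) := by
  apply List.getElem?_of_mem
  simp only [brd]
  exact List.mem_map.2 ⟨w, List.mem_finRange _, rfl⟩

/-- an open column stays open along layers without pebbles in it -/
theorem opn_up {P : Finset (BCell N t × ℕ)} {B : BCell N t → Prop} {v : Fin N} {l : ℕ}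
    {w : Fin (t + 1)} (h : Opn (brd E z t L) P B (some (v, l, w))) : ∀ d,
    (∀ l' j, l < l' → l' ≤ l + d → (some (v, l', w), j) ∉ P) →
      Opn (brd E z t L) P B (some (v, l + d, w))
  | 0, _ => h
  | d + 1, hd => by
      obtain ⟨i, hi⟩ := reads_self (E := E) (z := z) (L := L) v (l + d) w
      exact Opn.step (opn_up h d (fun l' j h1 h2 => hd l' j h1 (by omega))) hi
        (fun j _ _ => hd (l + d + 1) j (by omega) (by omega))

theorem exists_free_col {P : Finset (BCell N t × ℕ)} {v : Fin N} (h : ¬ Ful P v) :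
    ∃ w : Fin (t + 1), ∀ l j, (some (v, l, w), j) ∉ P := by
  unfold Ful at h
  push Not at h
  exact h

theorem clo_of_cut {P : Finset (BCell N t × ℕ)} {u v : Fin N} (hF : ¬ Ful P v) (huv : E u v)
    (hK : Cut E z t L P u v) : Clo E z t L P u := by
  obtain ⟨w, hw⟩ := exists_free_col hF
  intro w' hw'
  obtain ⟨i, hi⟩ := bottom_reads (E := E) (z := z) (L := L) huv w w'
  have h1 : Opn (brd E z t L) P (Lev u 0) (some (v, 0, w)) :=
    Opn.step hw' hi (fun j _ _ => hw 0 j)
  have h2 := opn_up h1 L (fun l' j _ _ => hw l' j)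
  rw [zero_add] at h2
  exact hK w h2

theorem ful_of_clo {P : Finset (BCell N t × ℕ)} {v : Fin N} (h : Clo E z t L P v) : Ful P v := by
  by_contra hF
  obtain ⟨w, hw⟩ := exists_free_col hF
  have h1 : Opn (brd E z t L) P (Lev v 0) (some (v, 0, w)) := Opn.base ⟨w, rfl⟩ (hw 0 _)
  have h2 := opn_up h1 L (fun l' j _ _ => hw l' j)
  rw [zero_add] at h2
  exact h w h2

/-- a path from outside enters a bundle through its bottom layer -/
theorem opn_enter {P : Finset (BCell N t × ℕ)} {u v : Fin N} (huv : u ≠ v) {k : ℕ} :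
    ∀ l w, Opn (brd E z t L) P (Lev u k) (some (v, l, w)) →
      Opn (brd E z t L) P (Lev v 0) (some (v, l, w))
  | 0, w, h => Opn.base ⟨w, rfl⟩ h.out
  | l + 1, w, h => by
      cases h with
      | base h1 _ =>
        obtain ⟨w', hw'⟩ := h1
        simp only [Option.some.injEq, Prod.mk.injEq] at hw'
        exact absurd hw'.1.symm huv
      | step h1 h2 h3 =>
        obtain ⟨w', rfl⟩ := read_succ h2
        exact Opn.step (opn_enter huv l w' h1) h2 h3

theorem cut_of_clo {P : Finset (BCell N t × ℕ)} {u v : Fin N} (huv : u ≠ v)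
    (h : Clo E z t L P v) : Cut E z t L P u v :=
  fun w hw => h w (opn_enter huv L w hw)

/-- a path passes through every layer -/
theorem opn_restrict {P : Finset (BCell N t × ℕ)} {u : Fin N} {k : ℕ} (hk : k ≤ L)
    {c : BCell N t} (h : Opn (brd E z t L) P (Lev u 0) c) :
    (∀ l w, c = some (u, l, w) → k ≤ l) → Opn (brd E z t L) P (Lev u k) c := by
  induction h with
  | @base c h1 h2 =>
    intro hc
    obtain ⟨w, rfl⟩ := h1
    have h3 := hc 0 w rfl
    have h4 : k = 0 := by omega
    subst h4
    exact Opn.base ⟨w, rfl⟩ h2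
  | @step c c' i h1 h2 h3 ih =>
    intro hc
    have hout : (c, clen (brd E z t L) c - 1) ∉ P := by
      have h4 := lt_clen h2
      exact h3 _ (by omega) (by omega)
    rcases c with _ | ⟨v, l, w⟩
    · refine Opn.step (ih ?_) h2 h3
      intro l w hl
      obtain ⟨w', hw'⟩ := read_none h2
      rw [hw'] at hl
      simp only [Option.some.injEq, Prod.mk.injEq] at hl
      omega
    · by_cases hlev : v = u ∧ l = k
      · obtain ⟨rfl, rfl⟩ := hlev
        exact Opn.base ⟨w, rfl⟩ hout
      · refine Opn.step (ih ?_) h2 h3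
        intro l' w' hl'
        rcases l with _ | l
        · obtain ⟨u', w'', _, h5⟩ := read_zero h2
          rw [h5] at hl'
          simp only [Option.some.injEq, Prod.mk.injEq] at hl'
          omega
        · obtain ⟨w'', h5⟩ := read_succ h2
          rw [h5] at hl'
          simp only [Option.some.injEq, Prod.mk.injEq] at hl'
          obtain ⟨rfl, rfl, rfl⟩ := hl'
          have h6 := hc (l + 1) w rfl
          have h7 : ¬ (l + 1 = k) := fun h8 => hlev ⟨rfl, h8⟩
          omega

/-- below an open column there are open columns in all layers -/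
theorem exists_opn_below {P : Finset (BCell N t × ℕ)} {u : Fin N} : ∀ {l : ℕ} {w : Fin (t + 1)},
    Opn (brd E z t L) P (Lev u 0) (some (u, l, w)) → ∀ k ≤ l,
      ∃ w', Opn (brd E z t L) P (Lev u 0) (some (u, k, w'))
  | 0, w, h, k, hk => ⟨w, by rwa [Nat.le_zero.1 hk]⟩
  | l + 1, w, h, k, hk => by
      rcases Nat.lt_or_ge k (l + 1) with h1 | h1
      · cases h with
        | base h2 _ =>
          obtain ⟨w', hw'⟩ := h2
          simp at hw'
        | step h2 h3 _ =>
          obtain ⟨w', rfl⟩ := read_succ h3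
          exact exists_opn_below h2 k (by omega)
      · have : k = l + 1 := by omega
        subst this
        exact ⟨w, h⟩

/-- a layer without pebbles -/
def LFree {N t : ℕ} (P : Finset (BCell N t × ℕ)) (u : Fin N) (l : ℕ) : Prop :=
  ∀ w j, (some (u, l, w), j) ∉ P

theorem exists_lfree {P : Finset (BCell N t × ℕ)} {s : ℕ} (hP : P.card ≤ s) (u : Fin N) :
    ∃ i ≤ s, LFree P u (2 * i + 1) ∧ LFree P u (2 * i + 2) := by
  classical
  by_contra hcon
  push Not at hcon
  have hsub : Finset.range (s + 1) ⊆ P.image (fun x => match x.1 with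
      | some (_, l, _) => (l - 1) / 2
      | none => 0) := by
    intro i hi
    have hi' : i ≤ s := Nat.lt_succ_iff.1 (Finset.mem_range.1 hi)
    rw [Finset.mem_image]
    by_cases h1 : LFree P u (2 * i + 1)
    · have h2 := hcon i hi' h1
      unfold LFree at h2
      push Not at h2
      obtain ⟨w, j, hj⟩ := h2
      exact ⟨_, hj, by simp only; omega⟩
    · unfold LFree at h1
      push Not at h1
      obtain ⟨w, j, hj⟩ := h1
      exact ⟨_, hj, by simp only; omega⟩
  have h3 := (Finset.card_le_card hsub).trans Finset.card_image_le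
  rw [Finset.card_range] at h3
  omega

theorem opn_all {P : Finset (BCell N t × ℕ)} {B : BCell N t → Prop} {u : Fin N} {l : ℕ}
    (h1 : LFree P u (l + 1)) (h2 : LFree P u (l + 2)) {w0 : Fin (t + 1)}
    (h : Opn (brd E z t L) P B (some (u, l, w0))) (w : Fin (t + 1)) :
    Opn (brd E z t L) P B (some (u, l + 2, w)) := by
  obtain ⟨i, hi⟩ := hub_reads (E := E) (z := z) (L := L) u l w0
  obtain ⟨i', hi'⟩ := reads_hub (E := E) (z := z) (L := L) u (l + 1) w
  exact Opn.step (Opn.step h hi (fun j _ _ => h1 _ j)) hi' (fun j _ _ => h2 _ j)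

/-- if something becomes closed from the bottom of the bundle of `u` when a pebble is placed on `x`,
then `x` is in the bottom layer of this bundle, and the bundle becomes closed -/
theorem new_closed {P Q : Finset (BCell N t × ℕ)} {x : BCell N t × ℕ}
    (hx : ∀ y, GPr (brd E z t L) y x → y ∈ P) (hQx : Q ⊆ insert x P) {s : ℕ}
    (hQ : Q.card ≤ s) (hL : 2 * s + 2 ≤ L) {u : Fin N} {c : BCell N t}
    (hc : ∀ l w, c = some (u, l, w) → L ≤ l)
    (h1 : Opn (brd E z t L) P (Lev u 0) c) (h2 : ¬ Opn (brd E z t L) Q (Lev u 0) c) :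
    (∃ w j, x = (some (u, 0, w), j)) ∧ Clo E z t L Q u := by
  classical
  by_cases hb : ∀ c, Lev u 0 c → x ≠ (c, clen (brd E z t L) c - 1)
  · exact absurd ((h1.ins hx hb).anti hQx) h2
  · push Not at hb
    obtain ⟨c0, ⟨w, rfl⟩, rfl⟩ := hb
    refine ⟨⟨w, _, rfl⟩, ?_⟩
    intro w' hw'
    apply h2
    obtain ⟨i, hi, hf1, hf2⟩ := exists_lfree hQ u
    obtain ⟨w0, hw0⟩ := exists_opn_below hw' (2 * i) (by omega)
    have hall := fun w => opn_all hf1 hf2 hw0 w
    have h3 : Opn (brd E z t L) P (Lev u (2 * i + 2)) c :=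
      opn_restrict (by omega) h1 (fun l w h => by have := hc l w h; omega)
    have h4 : Opn (brd E z t L) (insert (some (u, 0, w),
        clen (brd E z t L) (some (u, 0, w)) - 1) P) (Lev u (2 * i + 2)) c := by
      apply h3.ins hx
      rintro c' ⟨w'', rfl⟩ hcc
      have := congrArg Prod.fst hcc
      simp at this
    refine Opn.concat ?_ (h4.anti hQx)
    rintro c' ⟨w'', rfl⟩
    exact hall w''

theorem card_ful {P : Finset (BCell N t × ℕ)} (F : Finset (Fin N)) (hF : ∀ v ∈ F, Ful P v) :
    F.card * (t + 1) ≤ P.card := by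
  classical
  have h1 : (F ×ˢ (Finset.univ : Finset (Fin (t + 1)))).card ≤ (P.image (fun x => match x.1 with
      | some (v, _, w) => some (v, w)
      | none => none)).card := by
    apply Finset.card_le_card_of_injOn (fun y => some (y.1, y.2))
    · rintro ⟨v, w⟩ hvw
      have hv : v ∈ F := (Finset.mem_product.1 hvw).1
      obtain ⟨l, j, h⟩ := hF v hv w
      exact Finset.mem_coe.2 (Finset.mem_image.2 ⟨_, h, rfl⟩)
    · rintro ⟨v, w⟩ _ ⟨v', w'⟩ _ h
      simpa using h
  rw [Finset.card_product, Finset.card_univ, Fintype.card_fin] at h1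
  exact h1.trans Finset.card_image_le

end Bundle

end MP1fca05
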