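import Pool.Agent.Lib.MP_1fca05_lc.Bd

/-!
The bundle dag is a dag with unique sink and indegree at most two; the number of its nodes.
-/

namespace MP1fca05

instance {N : ℕ} (E : Fin N → Fin N → Prop) (z : Fin N) (t L : ℕ) : Finite (BNode E z t L) := by
  sorry

theorem b_isPebDag {N : ℕ} {E : Fin N → Fin N → Prop} {z : Fin N} (h : IsPebDag E z) (t L : ℕ) :
    IsPebDag (BArc E z t L) (btgt E z t L) := by
  sorry

theorem b_card_le {N : ℕ} {E : Fin N → Fin N → Prop} {z : Fin N} (h : IsPebDag E z) (t L : ℕ) :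
    Nat.card (BNode E z t L) ≤ N * (L * (3 * t + 1) + 2 * (t + 1) ^ 2) + (t + 1) := by
  sorry

end MP1fca05
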