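import Pool.Agent.Lib.MP_1fca05_lc.BdOpen
import Pool.Agent.Lib.MP_1fca05_lc.Upper

/-!
A strategy for the bundle dag gives a strategy for `H`.
-/

namespace MP1fca05

section

variable {N : ℕ} {E : Fin N → Fin N → Prop} {z : Fin N} {t L : ℕ}

/-- The set `Θ` of vertices of `H` represents the configuration `P` of the bundle dag, with the
exceptions `S`. -/
def Rep (E : Fin N → Fin N → Prop) (z : Fin N) (t L : ℕ) (P : Finset (BCell N t × ℕ))
    (Θ S : Finset (Fin N)) : Prop :=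
  (∀ u, Clo E z t L P u → u ∈ Θ) ∧
    (∀ v, Ful P v → ∀ u, E u v → Cut E z t L P u v → u ∈ Θ ∨ v ∈ Θ) ∧
    ∀ v, v ∉ S → Ful P v → (∀ u, E u v → Cut E z t L P u v) → v ∈ Θ

theorem rch_subset {K : ℕ} : ∀ (n : ℕ) {Θ Θ' : Finset (Fin N)}, Θ.card - Θ'.card = n → Θ' ⊆ Θ →
    Θ.card ≤ K → Up.Rch E K Θ Θ' := by
  intro n
  induction n with
  | zero =>
    intro Θ Θ' h1 h2 _
    have : Θ' = Θ := Finset.eq_of_subset_of_card_le h2 (by omega)
    rw [this]
    exact Relation.ReflTransGen.refl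
  | succ n ih =>
    intro Θ Θ' h1 h2 h3
    have h4 : ∃ x ∈ Θ, x ∉ Θ' := by
      by_contra hcon
      push Not at hcon
      have := Finset.card_le_card hcon
      omega
    obtain ⟨x, hx, hx'⟩ := h4
    have h5 : (Θ.erase x).card = Θ.card - 1 := Finset.card_erase_of_mem hx
    have h6 : Θ' ⊆ Θ.erase x := fun y hy =>
      Finset.mem_erase.2 ⟨fun h => hx' (h ▸ hy), h2 hy⟩
    exact (Up.Rch.remove hx h3).trans (ih (by omega) h6 (by omega))

theorem two_preds (h : IsPebDag E z) {v u1 u2 u : Fin N} (h1 : E u1 v) (h2 : E u2 v)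
    (h12 : u1 ≠ u2) (hu : E u v) : u = u1 ∨ u = u2 := by
  by_contra hcon
  push Not at hcon
  have h3 : ({u, u1, u2} : Set (Fin N)) ⊆ {u | E u v} := by
    rintro x (rfl | rfl | rfl)
    · exact hu
    · exact h1
    · exact h2
  have h4 := (Set.encard_le_encard h3).trans (h.indeg v)
  rw [Set.encard_insert_of_notMem (by
    simp only [Set.mem_insert_iff, Set.mem_singleton_iff, not_or]
    exact hcon), Set.encard_pair h12] at h4
  norm_num at h4

theorem not_self (h : IsPebDag E z) (v : Fin N) : ¬ E v v :=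
  fun hv => h.acyclic v (Relation.TransGen.single hv)

theorem trim (hH : IsPebDag E z) {P : Finset (BCell N t × ℕ)} {Θ S : Finset (Fin N)}
    (h : Rep E z t L P Θ S) (hS : ∀ v ∈ S, ∃ u, E u v ∧ Ful P u) {K : ℕ} (hΘ : Θ.card ≤ K) :
    ∃ Θ', Rep E z t L P Θ' S ∧ Θ'.card * (t + 1) ≤ P.card ∧ Up.Rch E K Θ Θ' := by
  classical
  obtain ⟨ha, hb, hc⟩ := h
  set Θ' := Θ.filter (fun u => Ful P u ∨ ∃ v, v ∉ Θ ∧ E u v ∧ Ful P v ∧ Cut E z t L P u v)
    with hΘ'
  refine ⟨Θ', ⟨?_, ?_, ?_⟩, ?_, rch_subset _ rfl (Finset.filter_subset _ _) hΘ⟩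
  · intro u hu
    exact Finset.mem_filter.2 ⟨ha u hu, Or.inl (ful_of_clo hu)⟩
  · intro v hv u huv hcut
    by_cases hvΘ : v ∈ Θ
    · exact Or.inr (Finset.mem_filter.2 ⟨hvΘ, Or.inl hv⟩)
    · rcases hb v hv u huv hcut with h1 | h1
      · exact Or.inl (Finset.mem_filter.2 ⟨h1, Or.inr ⟨v, hvΘ, huv, hv, hcut⟩⟩)
      · exact absurd h1 hvΘ
  · intro v hvS hv hall
    exact Finset.mem_filter.2 ⟨hc v hvS hv hall, Or.inl hv⟩
  · -- counting
    have hex : ∀ u ∈ Θ', ∃ v, Ful P v ∧ ((Ful P u ∧ v = u) ∨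
        (¬ Ful P u ∧ v ∉ Θ ∧ E u v ∧ Cut E z t L P u v)) := by
      intro u hu
      rcases (Finset.mem_filter.1 hu).2 with h1 | ⟨v, h1, h2, h3, h4⟩
      · exact ⟨u, h1, Or.inl ⟨h1, rfl⟩⟩
      · by_cases hF : Ful P u
        · exact ⟨u, hF, Or.inl ⟨hF, rfl⟩⟩
        · exact ⟨v, h3, Or.inr ⟨hF, h1, h2, h4⟩⟩
    choose! g hg1 hg2 using hex
    have hinj : Set.InjOn g ↑Θ' := by
      intro u1 hu1 u2 hu2 h12
      by_contra hne
      have hm1 : u1 ∈ Θ := (Finset.mem_filter.1 hu1).1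
      have hm2 : u2 ∈ Θ := (Finset.mem_filter.1 hu2).1
      rcases hg2 u1 hu1 with ⟨h1, h2⟩ | ⟨h1, h2, h3, h4⟩
      · rcases hg2 u2 hu2 with ⟨h5, h6⟩ | ⟨h5, h6, h7, h8⟩
        · exact hne (by rw [← h2, ← h6, h12])
        · rw [← h12, h2] at h6
          exact h6 hm1
      · rcases hg2 u2 hu2 with ⟨h5, h6⟩ | ⟨h5, h6, h7, h8⟩
        · rw [h12, h6] at h2
          exact h2 hm2
        · rw [← h12] at h7 h8
          have hall : ∀ u, E u (g u1) → Cut E z t L P u (g u1) := by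
            intro u hu
            rcases two_preds hH h3 h7 hne hu with rfl | rfl
            · exact h4
            · exact h8
          by_cases hSv : g u1 ∈ S
          · obtain ⟨u, hu, hFu⟩ := hS _ hSv
            rcases two_preds hH h3 h7 hne hu with rfl | rfl
            · exact h1 hFu
            · exact h5 hFu
          · exact h2 (hc _ hSv (hg1 u1 hu1) hall)
    have h1 : Θ'.card = (Θ'.image g).card := (Finset.card_image_of_injOn hinj).symm
    rw [h1]
    apply card_ful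
    intro v hv
    obtain ⟨u, hu, rfl⟩ := Finset.mem_image.1 hv
    exact hg1 u hu

/-- removing the exceptions one after the other -/
theorem finish (hH : IsPebDag E z) {Q : Finset (BCell N t × ℕ)} {B : ℕ}
    (hB : ∀ n, n * (t + 1) ≤ Q.card → n ≤ B) : ∀ (n : ℕ) {Θ S : Finset (Fin N)}, S.card = n →
    Rep E z t L Q Θ S → (∀ v ∈ S, Ful Q v ∧ (∀ u, E u v → Cut E z t L Q u v) ∧
      ∃ u, E u v ∧ Ful Q u) → Θ.card ≤ B + 1 →
    ∃ Θ', Up.Rch E (B + 1) Θ Θ' ∧ Rep E z t L Q Θ' ∅ ∧ Θ'.card ≤ B := by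
  classical
  intro n
  induction n with
  | zero =>
    intro Θ S hS h _ hΘ
    rw [Finset.card_eq_zero] at hS
    subst hS
    obtain ⟨Θ', h1, h2, h3⟩ := trim hH h (by simp) hΘ
    exact ⟨Θ', h3, h1, hB _ h2⟩
  | succ n ih =>
    intro Θ S hS h hS2 hΘ
    obtain ⟨Θ1, ⟨ha, hb, hc⟩, h2, h3⟩ := trim hH h (fun v hv => (hS2 v hv).2.2) hΘ
    have h4 := hB _ h2
    obtain ⟨v, hv⟩ : S.Nonempty := by
      rw [← Finset.card_pos]
      omega
    obtain ⟨hv1, hv2, _⟩ := hS2 v hv
    have h5 : (S.erase v).card = n := by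
      rw [Finset.card_erase_of_mem hv, hS]
      rfl
    have hrep : Rep E z t L Q (insert v Θ1) (S.erase v) := by
      refine ⟨fun u hu => Finset.mem_insert_of_mem (ha u hu), fun w hw u huw hcut => ?_,
        fun w hw hF hall => ?_⟩
      · rcases hb w hw u huw hcut with h6 | h6
        · exact Or.inl (Finset.mem_insert_of_mem h6)
        · exact Or.inr (Finset.mem_insert_of_mem h6)
      · by_cases hwv : w = v
        · rw [hwv]
          exact Finset.mem_insert_self _ _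
        · refine Finset.mem_insert_of_mem (hc w (fun hwS => hw ?_) hF hall)
          exact Finset.mem_erase.2 ⟨hwv, hwS⟩
    have hcard : (insert v Θ1).card ≤ B + 1 := (Finset.card_insert_le _ _).trans (by omega)
    obtain ⟨Θ', h6, h7, h8⟩ := ih h5 hrep
      (fun w hw => hS2 w (Finset.mem_of_mem_erase hw)) hcard
    refine ⟨Θ', h3.trans (Relation.ReflTransGen.trans ?_ h6), h7, h8⟩
    by_cases hvΘ : v ∈ Θ1
    · rw [Finset.insert_eq_self.2 hvΘ]
    · apply Up.Rch.place hvΘ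
      · intro u hu
        rcases hb v hv1 u hu (hv2 u hu) with h9 | h9
        · exact h9
        · exact absurd h9 hvΘ
      · omega

/-- what a step can change -/
theorem step_data {P Q : Finset (BCell N t × ℕ)} (hst : GSt (brd E z t L) P Q) {s : ℕ}
    (hQ : Q.card ≤ s) (hL : 2 * s + 2 ≤ L) : ∃ y : Fin N, (∀ v, v ≠ y → Ful Q v → Ful P v) ∧
      (∀ u, u ≠ y → ∀ c : BCell N t, (∀ l w, c = some (u, l, w) → L ≤ l) →
        Opn (brd E z t L) P (Lev u 0) c → Opn (brd E z t L) Q (Lev u 0) c) ∧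
      (∀ c : BCell N t, (∀ l w, c = some (y, l, w) → L ≤ l) →
        Opn (brd E z t L) P (Lev y 0) c → Opn (brd E z t L) Q (Lev y 0) c ∨ Clo E z t L Q y) := by
  classical
  rcases hst with hst | ⟨x, hx, hQx⟩
  · exact ⟨z, fun v _ hF w => by obtain ⟨l, j, h⟩ := hF w; exact ⟨l, j, hst h⟩,
      fun u _ c _ h => h.anti hst, fun c _ h => Or.inl (h.anti hst)⟩
  · obtain ⟨y, hy⟩ : ∃ y : Fin N, ∀ v l w j, x = (some (v, l, w), j) → v = y := by
      rcases x with ⟨_ | ⟨v, l, w⟩, j⟩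
      · exact ⟨z, fun v l w j h => by simp at h⟩
      · refine ⟨v, fun v' l' w' j' h => ?_⟩
        simp only [Prod.mk.injEq, Option.some.injEq] at h
        exact h.1.1.symm
    refine ⟨y, fun v hv hF w => ?_, fun u hu c hc h => ?_, fun c hc h => ?_⟩
    · obtain ⟨l, j, h⟩ := hF w
      rcases Finset.mem_insert.1 (hQx h) with h1 | h1
      · exact absurd (hy _ _ _ _ h1.symm) hv
      · exact ⟨l, j, h1⟩
    · by_contra hcon
      obtain ⟨⟨w, j, h1⟩, _⟩ := new_closed hx hQx hQ hL hc h hcon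
      exact hu (hy _ _ _ _ h1)
    · by_cases h1 : Opn (brd E z t L) Q (Lev y 0) c
      · exact Or.inl h1
      · exact Or.inr (new_closed hx hQx hQ hL hc h h1).2

theorem step_rep (hH : IsPebDag E z) {P Q : Finset (BCell N t × ℕ)} (hst : GSt (brd E z t L) P Q)
    {s : ℕ} (hQ : Q.card ≤ s) (hL : 2 * s + 2 ≤ L) {Θ : Finset (Fin N)}
    (h : Rep E z t L P Θ ∅) (hΘ : Θ.card ≤ s / (t + 1)) :
    ∃ Θ', Up.Rch E (s / (t + 1) + 1) Θ Θ' ∧ Rep E z t L Q Θ' ∅ ∧ Θ'.card ≤ s / (t + 1) := by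
  classical
  obtain ⟨y, hy1, hy2, hy3⟩ := step_data hst hQ hL
  obtain ⟨ha, hb, hc⟩ := h
  have hclo : ∀ u, u ≠ y → Clo E z t L Q u → Clo E z t L P u := by
    intro u hu hcl w hw
    refine hcl w (hy2 u hu _ ?_ hw)
    intro l w' hlw
    simp only [Option.some.injEq, Prod.mk.injEq] at hlw
    omega
  have hcut : ∀ u v, u ≠ y → Cut E z t L Q u v → Cut E z t L P u v := by
    intro u v hu hcl w hw
    refine hcl w (hy2 u hu _ ?_ hw)
    intro l w' hlw
    simp only [Option.some.injEq, Prod.mk.injEq] at hlw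
    omega
  have hcuty : ∀ v, Cut E z t L Q y v → Cut E z t L P y v ∨ Clo E z t L Q y := by
    intro v hcl
    by_contra hcon
    push Not at hcon
    obtain ⟨hcon1, hcon2⟩ := hcon
    unfold Cut at hcon1
    push Not at hcon1
    obtain ⟨w, hw⟩ := hcon1
    rcases hy3 _ (by
      intro l w' hlw
      simp only [Option.some.injEq, Prod.mk.injEq] at hlw
      omega) hw with h1 | h1
    · exact hcl w h1
    · exact hcon2 h1
  have hself := not_self hH
  -- the new vertex `y`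
  set Θ1 : Finset (Fin N) := if Ful Q y ∧ ∀ u, E u y → Cut E z t L Q u y then insert y Θ else Θ
    with hΘ1
  have hsub : Θ ⊆ Θ1 := by
    rw [hΘ1]
    split_ifs
    · exact Finset.subset_insert _ _
    · exact Finset.Subset.refl _
  have hcond : Ful Q y → (∀ u, E u y → Cut E z t L Q u y) → y ∈ Θ1 := by
    intro h1 h2
    rw [hΘ1, if_pos ⟨h1, h2⟩]
    exact Finset.mem_insert_self _ _
  have hcard : Θ1.card ≤ s / (t + 1) + 1 := by
    rw [hΘ1]
    split_ifs
    · exact (Finset.card_insert_le _ _).trans (by omega)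
    · omega
  have hreach : Up.Rch E (s / (t + 1) + 1) Θ Θ1 := by
    by_cases hcy : Ful Q y ∧ ∀ u, E u y → Cut E z t L Q u y
    · rw [hΘ1, if_pos hcy]
      by_cases hyΘ : y ∈ Θ
      · rw [Finset.insert_eq_self.2 hyΘ]
        exact Relation.ReflTransGen.refl
      · have hall : ∀ u, E u y → Cut E z t L P u y := fun u hu =>
          hcut u y (fun h => hself y (h ▸ hu)) (hcy.2 u hu)
        have hnF : ¬ Ful P y := fun hF => hyΘ (hc y (Finset.notMem_empty _) hF hall)
        apply Up.Rch.place hyΘ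
        · intro u hu
          exact ha u (clo_of_cut hnF hu (hall u hu))
        · omega
    · rw [hΘ1, if_neg hcy]
      exact Relation.ReflTransGen.refl
  have ha1 : ∀ u, Clo E z t L Q u → u ∈ Θ1 := by
    intro u hu
    by_cases huy : u = y
    · subst huy
      exact hcond (ful_of_clo hu) (fun u' hu' => cut_of_clo (fun h => hself _ (h ▸ hu')) hu)
    · exact hsub (ha u (hclo u huy hu))
  have hb1 : ∀ v, Ful Q v → ∀ u, E u v → Cut E z t L Q u v → u ∈ Θ1 ∨ v ∈ Θ1 := by
    intro v hv u huv hcu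
    by_cases hvy : v = y
    · subst hvy
      have huv' : u ≠ v := fun h => hself _ (h ▸ huv)
      have h1 := hcut u v huv' hcu
      by_cases hF : Ful P v
      · rcases hb v hF u huv h1 with h2 | h2
        · exact Or.inl (hsub h2)
        · exact Or.inr (hsub h2)
      · exact Or.inl (hsub (ha u (clo_of_cut hF huv h1)))
    · have hF := hy1 v hvy hv
      by_cases huy : u = y
      · subst huy
        rcases hcuty v hcu with h1 | h1
        · rcases hb v hF u huv h1 with h2 | h2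
          · exact Or.inl (hsub h2)
          · exact Or.inr (hsub h2)
        · exact Or.inl (ha1 u h1)
      · rcases hb v hF u huv (hcut u v huy hcu) with h2 | h2
        · exact Or.inl (hsub h2)
        · exact Or.inr (hsub h2)
  set S : Finset (Fin N) := Finset.univ.filter (fun v => v ∉ Θ1 ∧ E y v ∧ Ful Q v ∧
    ∀ u, E u v → Cut E z t L Q u v) with hS
  have hc1 : ∀ v, v ∉ S → Ful Q v → (∀ u, E u v → Cut E z t L Q u v) → v ∈ Θ1 := by
    intro v hvS hv hall
    by_contra hvΘ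
    by_cases hvy : v = y
    · subst hvy
      exact hvΘ (hcond hv hall)
    · by_cases hyv : E y v
      · exact hvS (Finset.mem_filter.2 ⟨Finset.mem_univ _, hvΘ, hyv, hv, hall⟩)
      · refine hvΘ (hsub (hc v (Finset.notMem_empty _) (hy1 v hvy hv) (fun u hu => ?_)))
        exact hcut u v (fun h => hyv (h ▸ hu)) (hall u hu)
  have hS2 : ∀ v ∈ S, Ful Q v ∧ (∀ u, E u v → Cut E z t L Q u v) ∧ ∃ u, E u v ∧ Ful Q u := by
    intro v hv
    obtain ⟨_, hvΘ, hyv, hF, hall⟩ := Finset.mem_filter.1 hv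
    refine ⟨hF, hall, y, hyv, ?_⟩
    by_contra hFy
    have hncl : ¬ Clo E z t L Q y := fun h => hFy (ful_of_clo h)
    have hvy : v ≠ y := fun h => hself y (by rw [h] at hyv; exact hyv)
    refine hvΘ (hsub (hc v (Finset.notMem_empty _) (hy1 v hvy hF) (fun u hu => ?_)))
    by_cases huy : u = y
    · subst huy
      rcases hcuty v (hall u hu) with h1 | h1
      · exact h1
      · exact absurd h1 hncl
    · exact hcut u v huy (hall u hu)
  have hB : ∀ n, n * (t + 1) ≤ Q.card → n ≤ s / (t + 1) := fun n hn =>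
    (Nat.le_div_iff_mul_le (Nat.succ_pos t)).2 (hn.trans hQ)
  obtain ⟨Θ', h1, h2, h3⟩ := finish hH hB _ rfl ⟨ha1, hb1, hc1⟩ hS2 hcard
  exact ⟨Θ', hreach.trans h1, h2, h3⟩

end

end MP1fca05
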