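import Pool.Agent.Lib.MP_1fca05_lc.Defs

/-!
Two sets of columns without arcs from the first to the second give a layout.
-/

namespace MP1fca05

theorem layout_of_unjoined {m : ℕ} (R : Fin m → Fin m → Prop) (A B : Finset (Fin m))
    (h : ∀ a ∈ A, ∀ b ∈ B, ¬ R a b) : Layout R (m - min A.card B.card) := by
  classical
  set r : Fin m → ℕ := fun u => if u ∈ A then 0 else 1 with hr
  set σ : Equiv.Perm (Fin m) := Tuple.sort r with hσ
  have hmono : Monotone (r ∘ σ) := Tuple.monotone_sort r
  have hA : A.card ≤ m := by
    have := Finset.card_le_univ A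
    rwa [Fintype.card_fin] at this
  have hB : B.card ≤ m := by
    have := Finset.card_le_univ B
    rwa [Fintype.card_fin] at this
  refine ⟨σ.symm, fun i => ?_⟩
  by_cases hi : i ≤ A.card
  · -- the first `i` columns lie in `A`
    have hin : ∀ u, (σ.symm u : ℕ) < i → u ∈ A := by
      intro u hu
      by_contra hcon
      have hsub : A.image σ.symm ⊆ Finset.univ.filter (fun j : Fin m => j < σ.symm u) := by
        intro j hj
        obtain ⟨a, ha, rfl⟩ := Finset.mem_image.1 hj
        rw [Finset.mem_filter]
        refine ⟨Finset.mem_univ _, ?_⟩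
        by_contra hle
        push Not at hle
        have h1 := hmono hle
        simp only [Function.comp, Equiv.apply_symm_apply, hr] at h1
        rw [if_neg hcon, if_pos ha] at h1
        omega
      have h2 := Finset.card_le_card hsub
      rw [Finset.card_image_of_injective _ σ.symm.injective] at h2
      have h3 : (Finset.univ.filter (fun j : Fin m => j < σ.symm u)).card = (σ.symm u : ℕ) := by
        have h4 : Finset.univ.filter (fun j : Fin m => j < σ.symm u) = Finset.Iio (σ.symm u) := by
          ext j
          simp
        rw [h4, Fin.card_Iio]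
      omega
    have h1 : {v | ∃ u, (σ.symm u : ℕ) < i ∧ R u v} ⊆
        (↑(Finset.univ \ B) : Set (Fin m)) := by
      rintro v ⟨u, hu, huv⟩
      rw [Finset.mem_coe, Finset.mem_sdiff]
      exact ⟨Finset.mem_univ _, fun hvB => h u (hin u hu) v hvB huv⟩
    have h2 := Set.ncard_le_ncard h1 (Finset.finite_toSet _)
    rw [Set.ncard_coe_finset, Finset.card_sdiff_of_subset (Finset.subset_univ _),
      Finset.card_univ, Fintype.card_fin] at h2
    omega
  · have h1 := Set.ncard_le_ncard (Set.subset_univ {v | ∃ u, (σ.symm u : ℕ) < i ∧ R u v})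
    rw [Set.ncard_univ, Nat.card_eq_fintype_card, Fintype.card_fin] at h1
    omega

end MP1fca05
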