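import Pool.Agent.Lib.MP_1fca05_lc.Sp

/-!
The vertex separation number of a blow-up, lower bound.
-/

namespace MP1fca05

namespace BlowLow

section

variable {m M : ℕ} {T : Type} [Fintype T] [DecidableEq (Fin m)]

/-- The copies of `v` in the first `i` positions. -/
def Pl (e : Fin M ≃ Fin m × T) (f : Fin M ≃ Fin M) (v : Fin m) (i : ℕ) : Finset (Fin M) :=
  Finset.univ.filter fun p => (e p).1 = v ∧ (f p : ℕ) < i

omit [Fintype T] in
theorem mem_pl {e : Fin M ≃ Fin m × T} {f : Fin M ≃ Fin M} {v : Fin m} {i : ℕ} {p : Fin M} :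
    p ∈ Pl e f v i ↔ (e p).1 = v ∧ (f p : ℕ) < i := by
  rw [Pl, Finset.mem_filter]
  simp only [Finset.mem_univ, true_and]

theorem card_copies (e : Fin M ≃ Fin m × T) (v : Fin m) :
    (Finset.univ.filter fun p : Fin M => (e p).1 = v).card = Fintype.card T := by
  classical
  have h1 : (Finset.univ.filter fun p : Fin M => (e p).1 = v) =
      Finset.univ.image fun x : T => e.symm (v, x) := by
    ext p
    simp only [Finset.mem_filter, Finset.mem_univ, true_and, Finset.mem_image]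
    constructor
    · intro h
      exact ⟨(e p).2, by rw [← h]; simp⟩
    · rintro ⟨x, rfl⟩
      simp
  rw [h1, Finset.card_image_of_injective _ (fun x y h => by simpa using h), Finset.card_univ]

theorem pl_top (e : Fin M ≃ Fin m × T) (f : Fin M ≃ Fin M) (v : Fin m) :
    (Pl e f v M).card = Fintype.card T := by
  rw [← card_copies e v]
  congr 1
  ext p
  rw [mem_pl, Finset.mem_filter]
  constructor
  · rintro ⟨h, _⟩
    exact ⟨Finset.mem_univ _, h⟩
  · rintro ⟨_, h⟩
    exact ⟨h, (f p).2⟩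

omit [Fintype T] in
theorem pl_zero (e : Fin M ≃ Fin m × T) (f : Fin M ≃ Fin M) (v : Fin m) :
    (Pl e f v 0).card = 0 := by
  rw [Finset.card_eq_zero]
  ext p
  rw [mem_pl]
  simp

omit [Fintype T] in
theorem pl_mono (e : Fin M ≃ Fin m × T) (f : Fin M ≃ Fin M) (v : Fin m) {i j : ℕ} (h : i ≤ j) :
    (Pl e f v i).card ≤ (Pl e f v j).card := by
  apply Finset.card_le_card
  intro p hp
  rw [mem_pl] at hp ⊢
  exact ⟨hp.1, hp.2.trans_le h⟩

omit [Fintype T] in
theorem pl_step (e : Fin M ≃ Fin m × T) (f : Fin M ≃ Fin M) (v : Fin m) (i : ℕ) :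
    (Pl e f v (i + 1)).card ≤ (Pl e f v i).card + 1 := by
  classical
  have h1 : Pl e f v (i + 1) ⊆ Pl e f v i ∪ Finset.univ.filter fun p => (f p : ℕ) = i := by
    intro p hp
    rw [mem_pl] at hp
    rw [Finset.mem_union, mem_pl, Finset.mem_filter]
    rcases Nat.lt_or_ge (f p : ℕ) i with h | h
    · exact Or.inl ⟨hp.1, h⟩
    · exact Or.inr ⟨Finset.mem_univ _, by omega⟩
  have h2 : (Finset.univ.filter fun p => (f p : ℕ) = i).card ≤ 1 := by
    rw [Finset.card_le_one]
    intro a ha b hb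
    rw [Finset.mem_filter] at ha hb
    exact f.injective (Fin.ext (ha.2.trans hb.2.symm))
  have h3 := Finset.card_le_card h1
  have h4 := Finset.card_union_le (Pl e f v i) (Finset.univ.filter fun p => (f p : ℕ) = i)
  omega

/-- The main step: enough copies of `w` are counted. -/
theorem many_copies (E : Fin m → Fin m → Prop) (J : T → T → Prop) (e : Fin M ≃ Fin m × T)
    (f : Fin M ≃ Fin M) {q : ℕ}
    (hJ : ∀ A B : Finset T, q ≤ A.card → q ≤ B.card → ∃ a ∈ A, ∃ b ∈ B, J a b)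
    {i : ℕ} {u w : Fin m} (huw : u = w ∨ E u w) (hu : q ≤ (Pl e f u i).card)
    (hw : (Pl e f w i).card ≤ q) :
    ∃ D : Finset (Fin M), Fintype.card T - 2 * q ≤ D.card ∧ ∀ p' ∈ D, (e p').1 = w ∧
      i ≤ (f p' : ℕ) ∧ ∃ p, (f p : ℕ) < i ∧ Blow E J e p p' := by
  classical
  refine ⟨Finset.univ.filter fun p' => (e p').1 = w ∧
      i ≤ (f p' : ℕ) ∧ ∃ p, (f p : ℕ) < i ∧ Blow E J e p p', ?_, fun p' hp' => ?_⟩
  swap
  · rw [Finset.mem_filter] at hp'
    exact hp'.2
  set D := Finset.univ.filter fun p' => (e p').1 = w ∧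
      i ≤ (f p' : ℕ) ∧ ∃ p, (f p : ℕ) < i ∧ Blow E J e p p' with hD
  set D' := Finset.univ.filter fun p' => (e p').1 = w ∧
      i ≤ (f p' : ℕ) ∧ ¬ ∃ p, (f p : ℕ) < i ∧ Blow E J e p p' with hD'
  have h1 : (Finset.univ.filter fun p : Fin M => (e p).1 = w) ⊆ Pl e f w i ∪ (D' ∪ D) := by
    intro p hp
    rw [Finset.mem_filter] at hp
    rw [Finset.mem_union, Finset.mem_union, mem_pl, hD, hD', Finset.mem_filter, Finset.mem_filter]
    rcases Nat.lt_or_ge (f p : ℕ) i with h | h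
    · exact Or.inl ⟨hp.2, h⟩
    · by_cases h' : ∃ p', (f p' : ℕ) < i ∧ Blow E J e p' p
      · exact Or.inr (Or.inr ⟨Finset.mem_univ _, hp.2, h, h'⟩)
      · exact Or.inr (Or.inl ⟨Finset.mem_univ _, hp.2, h, h'⟩)
  have hinj : ∀ (S : Finset (Fin M)) (v : Fin m), (∀ p ∈ S, (e p).1 = v) →
      (S.image fun p => (e p).2).card = S.card := by
    intro S v hS
    apply Finset.card_image_of_injOn
    intro a ha b hb hab
    have ha' := hS a (Finset.mem_coe.1 ha)
    have hb' := hS b (Finset.mem_coe.1 hb)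
    exact e.injective (Prod.ext (ha'.trans hb'.symm) hab)
  have h2 : D'.card < q := by
    by_contra hcon
    rw [not_lt] at hcon
    have hD'w : ∀ p ∈ D', (e p).1 = w := by
      intro p hp
      rw [hD', Finset.mem_filter] at hp
      exact hp.2.1
    obtain ⟨a, ha, b, hb, hab⟩ := hJ ((Pl e f u i).image fun p => (e p).2)
      (D'.image fun p => (e p).2)
      (by rw [hinj _ u fun p hp => (mem_pl.1 hp).1]; exact hu)
      (by rw [hinj _ w hD'w]; exact hcon)
    obtain ⟨p, hp, rfl⟩ := Finset.mem_image.1 ha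
    obtain ⟨p', hp', rfl⟩ := Finset.mem_image.1 hb
    have hp1 := mem_pl.1 hp
    rw [hD', Finset.mem_filter] at hp'
    apply hp'.2.2.2
    refine ⟨p, hp1.2, ?_, hab⟩
    rw [hp1.1, hp'.2.1]
    exact huw
  have h3 := Finset.card_le_card h1
  rw [card_copies] at h3
  have h4 := Finset.card_union_le (Pl e f w i) (D' ∪ D)
  have h5 := Finset.card_union_le D' D
  omega

end

end BlowLow

open BlowLow in
theorem le_vsep_blow {m M : ℕ} (hm : 1 ≤ m) {T : Type} [Fintype T] (E : Fin m → Fin m → Prop)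
    (J : T → T → Prop) (e : Fin M ≃ Fin m × T) {q : ℕ} (hq : 1 ≤ q)
    (hJ : ∀ A B : Finset T, q ≤ A.card → q ≤ B.card → ∃ a ∈ A, ∃ b ∈ B, J a b) :
    (Fintype.card T - 2 * q) * (VSep E + 1) ≤ VSep (Blow E J e) := by
  classical
  rcases Nat.lt_or_ge (2 * q) (Fintype.card T) with ht | ht
  swap
  · rw [Nat.sub_eq_zero_of_le ht, zero_mul]
    exact Nat.zero_le _
  -- an optimal order
  obtain ⟨f, hf⟩ : ∃ f : Fin M ≃ Fin M, ∀ i : ℕ,
      {v | i ≤ (f v : ℕ) ∧ ∃ u, (f u : ℕ) < i ∧ Blow E J e u v}.ncard ≤ VSep (Blow E J e) := by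
    have h : VSep (Blow E J e) ∈ {k | ∃ f : Fin M ≃ Fin M, ∀ i : ℕ,
        {v | i ≤ (f v : ℕ) ∧ ∃ u, (f u : ℕ) < i ∧ Blow E J e u v}.ncard ≤ k} := by
      refine Nat.sInf_mem ⟨M, Equiv.refl _, fun i => ?_⟩
      have h1 := Set.ncard_le_ncard (Set.subset_univ
        {v | i ≤ (Equiv.refl (Fin M) v : ℕ) ∧ ∃ u, (Equiv.refl (Fin M) u : ℕ) < i ∧
          Blow E J e u v})
      rwa [Set.ncard_univ, Nat.card_eq_fintype_card, Fintype.card_fin] at h1
    exact h
  -- the times
  have hex : ∀ v : Fin m, ∃ i, q ≤ (Pl e f v i).card := fun v =>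
    ⟨M, by rw [pl_top]; omega⟩
  set τ : Fin m → ℕ := fun v => Nat.find (hex v) with hτ
  have hτ1 : ∀ v, q ≤ (Pl e f v (τ v)).card := fun v => Nat.find_spec (hex v)
  have hτ2 : ∀ v i, i < τ v → (Pl e f v i).card < q := fun v i hi =>
    not_le.1 (Nat.find_min (hex v) hi)
  have hτ4 : ∀ v, 1 ≤ τ v := by
    intro v
    by_contra hcon
    have h1 : τ v = 0 := by omega
    have h2 := hτ1 v
    rw [h1, pl_zero] at h2
    omega
  have hτ5 : ∀ v, (Pl e f v (τ v)).card ≤ q := by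
    intro v
    obtain ⟨k, hk⟩ : ∃ k, τ v = k + 1 := ⟨τ v - 1, by have := hτ4 v; omega⟩
    have h1 := hτ2 v k (by omega)
    have h2 := pl_step e f v k
    rw [hk]
    omega
  have hτp : ∀ v k, τ v = k + 1 → ∃ p, (e p).1 = v ∧ (f p : ℕ) = k := by
    intro v k hk
    by_contra hcon
    have h1 : Pl e f v (k + 1) ⊆ Pl e f v k := by
      intro p hp
      rw [mem_pl] at hp ⊢
      refine ⟨hp.1, ?_⟩
      rcases Nat.lt_or_ge (f p : ℕ) k with h | h
      · exact h
      · exact absurd ⟨p, hp.1, by omega⟩ hcon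
    have h2 := Finset.card_le_card h1
    have h3 := hτ1 v
    rw [hk] at h3
    have h4 := hτ2 v k (by omega)
    omega
  have hτi : Function.Injective τ := by
    intro v w hvw
    obtain ⟨k, hk⟩ : ∃ k, τ v = k + 1 := ⟨τ v - 1, by have := hτ4 v; omega⟩
    obtain ⟨p, hp1, hp2⟩ := hτp v k hk
    obtain ⟨p', hp1', hp2'⟩ := hτp w k (by rw [← hvw]; exact hk)
    have h1 : p = p' := f.injective (Fin.ext (hp2.trans hp2'.symm))
    rw [← hp1, ← hp1', h1]
  -- the order of the vertices of `E`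
  set σ : Equiv.Perm (Fin m) := Tuple.sort τ with hσ
  have hσm : Monotone (τ ∘ σ) := Tuple.monotone_sort τ
  have hle : ∀ u v : Fin m, (σ.symm u : ℕ) ≤ (σ.symm v : ℕ) → τ u ≤ τ v := by
    intro u v huv
    have h1 : σ.symm u ≤ σ.symm v := huv
    have h2 := hσm h1
    simp only [Function.comp, Equiv.apply_symm_apply] at h2
    exact h2
  obtain ⟨i, hi1, him, hib⟩ : ∃ i, 1 ≤ i ∧ i ≤ m ∧ VSep E ≤
      {w | i ≤ (σ.symm w : ℕ) ∧ ∃ u, (σ.symm u : ℕ) < i ∧ E u w}.ncard := by
    rcases Nat.eq_zero_or_pos (VSep E) with hb | hb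
    · exact ⟨1, le_rfl, hm, by rw [hb]; exact Nat.zero_le _⟩
    · have h1 : ∃ i, VSep E ≤
          {w | i ≤ (σ.symm w : ℕ) ∧ ∃ u, (σ.symm u : ℕ) < i ∧ E u w}.ncard := by
        by_contra hcon
        push Not at hcon
        have h2 : VSep E ≤ VSep E - 1 := by
          refine Nat.sInf_le ⟨σ.symm, fun i => ?_⟩
          have := hcon i
          omega
        omega
      obtain ⟨i, hi⟩ := h1
      have h3 : {w | i ≤ (σ.symm w : ℕ) ∧ ∃ u, (σ.symm u : ℕ) < i ∧ E u w}.Nonempty := by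
        rw [← Set.ncard_pos]
        omega
      obtain ⟨w, hw, u, hu, -⟩ := h3
      have := (σ.symm w).2
      exact ⟨i, by omega, by omega, hi⟩
  -- the vertex in position `i - 1`
  obtain ⟨v, hv⟩ : ∃ v : Fin m, (σ.symm v : ℕ) = i - 1 :=
    ⟨σ ⟨i - 1, by omega⟩, by rw [Equiv.symm_apply_apply]⟩
  set W : Set (Fin m) := {w | i ≤ (σ.symm w : ℕ) ∧ ∃ u, (σ.symm u : ℕ) < i ∧ E u w} with hW
  have hvW : v ∉ W := by
    rintro ⟨h1, _⟩
    omega
  have key : ∀ w ∈ insert v W, ∃ D : Finset (Fin M), Fintype.card T - 2 * q ≤ D.card ∧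
      ∀ p' ∈ D, (e p').1 = w ∧ τ v ≤ (f p' : ℕ) ∧ ∃ p, (f p : ℕ) < τ v ∧ Blow E J e p p' := by
    intro w hw
    rcases hw with rfl | ⟨h1, u, hu, huw⟩
    · exact many_copies E J e f hJ (Or.inl rfl) (hτ1 w) (hτ5 w)
    · refine many_copies E J e f hJ (Or.inr huw) ((hτ1 u).trans (pl_mono e f u ?_)) ?_
      · exact hle u v (by omega)
      · have h2 : τ v < τ w := by
          have h3 := hle v w (by omega)
          have h4 : τ v ≠ τ w := by
            intro h5
            have h6 := hτi h5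
            rw [h6] at hv
            omega
          omega
        exact (hτ2 w _ h2).le
  choose! D hD1 hD2 using key
  have hfin : (insert v W).Finite := Set.toFinite _
  have h1 : (hfin.toFinset.biUnion D).card = ∑ w ∈ hfin.toFinset, (D w).card := by
    apply Finset.card_biUnion
    intro w hw w' hw' hne
    show Disjoint (D w) (D w')
    rw [Finset.disjoint_left]
    intro p hp hp'
    exact hne ((hD2 w (hfin.mem_toFinset.1 (Finset.mem_coe.1 hw)) p hp).1.symm.trans
      (hD2 w' (hfin.mem_toFinset.1 (Finset.mem_coe.1 hw')) p hp').1)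
  have h2 : hfin.toFinset.card * (Fintype.card T - 2 * q) ≤ (hfin.toFinset.biUnion D).card := by
    rw [h1, ← smul_eq_mul]
    exact Finset.card_nsmul_le_sum _ _ _ fun w hw => hD1 w (hfin.mem_toFinset.1 hw)
  have h3 : hfin.toFinset.card = W.ncard + 1 := by
    rw [← Set.ncard_eq_toFinset_card _ hfin, Set.ncard_insert_of_notMem hvW (Set.toFinite _)]
  have h4 : (hfin.toFinset.biUnion D).card ≤ VSep (Blow E J e) := by
    refine le_trans ?_ (hf (τ v))
    rw [← Set.ncard_coe_finset]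
    refine Set.ncard_le_ncard ?_ (Set.toFinite _)
    intro p hp
    obtain ⟨w, hw, hpw⟩ := Finset.mem_biUnion.1 (Finset.mem_coe.1 hp)
    exact (hD2 w (hfin.mem_toFinset.1 hw) p hpw).2
  calc (Fintype.card T - 2 * q) * (VSep E + 1)
      ≤ (Fintype.card T - 2 * q) * (W.ncard + 1) := Nat.mul_le_mul_left _ (by omega)
    _ = hfin.toFinset.card * (Fintype.card T - 2 * q) := by rw [h3, mul_comm]
    _ ≤ _ := h2.trans h4

end MP1fca05
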