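import Pool.Agent.Lib.MP_1fca05_lc.Sp

/-!
The vertex separation number of a blow-up, upper bound.
-/

namespace MP1fca05

theorem vsep_blow_le {m M : ℕ} {T : Type} [Fintype T] (E : Fin m → Fin m → Prop)
    (J : T → T → Prop) (e : Fin M ≃ Fin m × T) :
    VSep (Blow E J e) ≤ Fintype.card T * (VSep E + 1) := by
  classical
  have hM : M = m * Fintype.card T := by
    simpa using Fintype.card_congr e
  have hne : {k | ∃ f : Fin m ≃ Fin m, ∀ i : ℕ,
      {v | i ≤ (f v : ℕ) ∧ ∃ u, (f u : ℕ) < i ∧ E u v}.ncard ≤ k}.Nonempty := by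
    refine ⟨m, Equiv.refl _, fun i => ?_⟩
    refine (Set.ncard_le_ncard (Set.subset_univ _)).trans ?_
    rw [Set.ncard_univ, Nat.card_eq_fintype_card, Fintype.card_fin]
  obtain ⟨g, hg⟩ := Nat.sInf_mem hne
  have hg' : ∀ i : ℕ, {v | i ≤ (g v : ℕ) ∧ ∃ u, (g u : ℕ) < i ∧ E u v}.ncard ≤ VSep E := hg
  clear hg
  let q : T ≃ Fin (Fintype.card T) := Fintype.equivFin T
  let f : Fin M ≃ Fin M :=
    e.trans ((Equiv.prodCongr g q).trans (finProdFinEquiv.trans (finCongr hM.symm)))
  have hf : ∀ p, (f p : ℕ) = (q (e p).2 : ℕ) + Fintype.card T * (g (e p).1 : ℕ) := by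
    intro p
    rfl
  refine Nat.sInf_le ⟨f, fun i => ?_⟩
  rcases Nat.eq_zero_or_pos (Fintype.card T) with ht | ht
  · have h0 : M = 0 := by rw [hM, ht, Nat.mul_zero]
    refine (Set.ncard_le_ncard (Set.subset_univ _)).trans ?_
    rw [Set.ncard_univ, Nat.card_eq_fintype_card, Fintype.card_fin, h0]
    exact Nat.zero_le _
  · set W : Set (Fin m) := {w | (g w : ℕ) = i / Fintype.card T} ∪
      {w | i / Fintype.card T + 1 ≤ (g w : ℕ) ∧
        ∃ u, (g u : ℕ) < i / Fintype.card T + 1 ∧ E u w} with hW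
    have h1 : W.ncard ≤ VSep E + 1 := by
      refine (Set.ncard_union_le _ _).trans ?_
      have ha : {w | (g w : ℕ) = i / Fintype.card T}.ncard ≤ 1 := by
        rw [Set.ncard_le_one_iff]
        intro a b ha hb
        apply g.injective
        apply Fin.ext
        rw [Set.mem_ofPred_eq] at ha hb
        exact ha.trans hb.symm
      have hb := hg' (i / Fintype.card T + 1)
      omega
    have h2 : e '' {v | i ≤ (f v : ℕ) ∧ ∃ u, (f u : ℕ) < i ∧ Blow E J e u v} ⊆
        W ×ˢ (Set.univ : Set T) := by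
      rintro _ ⟨v, ⟨hv, u, hu, huv⟩, rfl⟩
      refine ⟨?_, Set.mem_univ _⟩
      rw [hf] at hv hu
      have hy := (q (e v).2).2
      have hgu : (g (e u).1 : ℕ) ≤ i / Fintype.card T := by
        rw [Nat.le_div_iff_mul_le ht, Nat.mul_comm]
        omega
      have hgv : i / Fintype.card T ≤ (g (e v).1 : ℕ) := by
        have : i / Fintype.card T < (g (e v).1 : ℕ) + 1 := by
          rw [Nat.div_lt_iff_lt_mul ht, Nat.add_mul, Nat.one_mul, Nat.mul_comm]
          omega
        omega
      rcases Nat.lt_or_eq_of_le hgv with hlt | heq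
      · refine Or.inr ⟨hlt, (e u).1, by omega, ?_⟩
        rcases huv.1 with he | hE
        · rw [he] at hgu
          omega
        · exact hE
      · exact Or.inl heq.symm
    calc {v | i ≤ (f v : ℕ) ∧ ∃ u, (f u : ℕ) < i ∧ Blow E J e u v}.ncard
        = (e '' {v | i ≤ (f v : ℕ) ∧ ∃ u, (f u : ℕ) < i ∧ Blow E J e u v}).ncard :=
          (Set.ncard_image_of_injective _ e.injective).symm
      _ ≤ (W ×ˢ (Set.univ : Set T)).ncard := Set.ncard_le_ncard h2 (Set.toFinite _)
      _ = W.ncard * Fintype.card T := by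
          rw [Set.ncard_prod, Set.ncard_univ, Nat.card_eq_fintype_card]
      _ ≤ Fintype.card T * (VSep E + 1) := by
          rw [Nat.mul_comm]
          exact Nat.mul_le_mul_left _ h1

end MP1fca05
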