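import Pool.Agent.Lib.MP_1fca05_lc.Low

/-!
The lower bound for reflexive relations: a chain of column sets.
-/

namespace MP1fca05

open scoped Classical in
/-- the columns with an element of `P` in one of the layers `a, ..., a'` -/
noncomputable def colsIn {m : ℕ} (P : Finset (Nd m)) (a a' : ℕ) : Finset (Fin (m + 1)) :=
  Finset.univ.filter (fun w => ∃ l i, a ≤ l ∧ l ≤ a' ∧ (w, l, i) ∈ P)

section

variable {m : ℕ} {R : Fin m → Fin m → Prop}

theorem mem_colsIn {P : Finset (Nd m)} {a a' : ℕ} {w : Fin (m + 1)} :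
    w ∈ colsIn P a a' ↔ ∃ l i, a ≤ l ∧ l ≤ a' ∧ (w, l, i) ∈ P := by
  simp [colsIn]

theorem card_colsIn_le {P U : Finset (Nd m)} (hPU : P ⊆ U) (a a' : ℕ) :
    (colsIn P a a').card ≤ (U.filter (fun x => a ≤ x.2.1 ∧ x.2.1 ≤ a')).card := by
  classical
  have h1 : colsIn P a a' ⊆ (U.filter (fun x => a ≤ x.2.1 ∧ x.2.1 ≤ a')).image (fun x => x.1) := by
    intro w hw
    obtain ⟨l, i, h1, h2, h3⟩ := mem_colsIn.1 hw
    exact Finset.mem_image.2 ⟨_, Finset.mem_filter.2 ⟨hPU h3, h1, h2⟩, rfl⟩
  exact (Finset.card_le_card h1).trans Finset.card_image_le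

theorem card_two_in {P P' U : Finset (Nd m)} (hP : P ⊆ U) (hP' : P' ⊆ U) {a a' c c' : ℕ}
    (ha : a' < c) : (colsIn P a a').card + (colsIn P' c c').card ≤ U.card := by
  classical
  have h1 := card_colsIn_le hP a a'
  have h2 := card_colsIn_le hP' c c'
  have h3 : Disjoint (U.filter (fun x => a ≤ x.2.1 ∧ x.2.1 ≤ a'))
      (U.filter (fun x => c ≤ x.2.1 ∧ x.2.1 ≤ c')) := by
    rw [Finset.disjoint_filter]
    intro x _ hx hx'
    omega
  have h4 : (U.filter (fun x => a ≤ x.2.1 ∧ x.2.1 ≤ a')) ∪
      (U.filter (fun x => c ≤ x.2.1 ∧ x.2.1 ≤ c')) ⊆ U :=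
    Finset.union_subset (Finset.filter_subset _ _) (Finset.filter_subset _ _)
  have h5 := Finset.card_le_card h4
  rw [Finset.card_union_of_disjoint h3] at h5
  omega

theorem rp_refl (hR : ∀ i, R i i) (w : Fin (m + 1)) : Rp R w w := by
  rcases Fin.eq_castSucc_or_eq_last w with ⟨j, rfl⟩ | rfl
  · exact Or.inr (Or.inr ⟨j, j, rfl, rfl, hR j⟩)
  · exact Or.inl rfl

/-- an open column stays open along layers without pebbles in it -/
theorem op_up (hR : ∀ i, R i i) {P : Finset (Nd m)} {b k : ℕ} {w : Fin (m + 1)}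
    (h : Op R P b k w) : ∀ j, (∀ l i, b + k < l → l ≤ b + k + j → (w, l, i) ∉ P) →
      Op R P b (k + j) w
  | 0, _ => h
  | j + 1, hj => by
      refine ⟨w, op_up hR h j (fun l i h1 h2 => hj l i h1 (by omega)), rp_refl hR w,
        fun i _ => ?_⟩
      have h1 := hj (b + (k + j) + 1) i (by omega) (by omega)
      exact h1

theorem op_of_free_col (hR : ∀ i, R i i) {P : Finset (Nd m)} {b k : ℕ} {w : Fin (m + 1)}
    (h : ∀ l i, b ≤ l → l ≤ b + k → (w, l, i) ∉ P) : Op R P b k w := by
  have h0 : Op R P b 0 w := h b _ le_rfl (by omega)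
  have := op_up hR h0 k (fun l i h1 h2 => h l i (by omega) (by omega))
  rwa [zero_add] at this

theorem mem_colsIn_of_closed (hR : ∀ i, R i i) {P : Finset (Nd m)} {b k : ℕ} {w : Fin (m + 1)}
    (h : ¬ Op R P b k w) : w ∈ colsIn P b (b + k) := by
  by_contra hcon
  rw [mem_colsIn] at hcon
  push Not at hcon
  exact h (op_of_free_col hR (fun l i h1 h2 => hcon l i h1 h2))

theorem card_colsIn_of_closed (hR : ∀ i, R i i) {P : Finset (Nd m)} {b k : ℕ}
    (h : ∀ w, ¬ Op R P b k w) : (colsIn P b (b + k)).card = m + 1 := by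
  have : colsIn P b (b + k) = Finset.univ :=
    Finset.eq_univ_of_forall (fun w => mem_colsIn_of_closed hR (h w))
  rw [this, Finset.card_univ, Fintype.card_fin]

/-- a time interval in which the target stops being open for the base `b` contains a time at which
nothing is open beyond the first `2 s + 2` levels -/
theorem lose_closed {s L t0 t1 : ℕ} {P : ℕ → Finset (Nd m)}
    (hst : ∀ t, t0 ≤ t → t < t1 → St R (P t) (P (t + 1)))
    (hc : ∀ t, t0 ≤ t → t ≤ t1 → (P t).card ≤ s) {b : ℕ} (hb : b + (2 * s + 2) ≤ L)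
    (h01 : t0 ≤ t1) {w : Fin (m + 1)} (h0 : Op R (P t0) b (L - b) w)
    (h1 : ¬ Op R (P t1) b (L - b) w) :
    ∃ t, t0 ≤ t ∧ t < t1 ∧ ∀ u, ¬ Op R (P (t + 1)) b (2 * s + 2) u := by
  obtain ⟨t, h2, h3, h4, h5⟩ := last_time (fun t => Op R (P t) b (L - b) w) h0 h01 h1
  refine ⟨t, h2, h3, ?_⟩
  have h6 := h5 (t + 1) (by omega) (by omega)
  rcases dichotomy (hst t h2 h3) (hc (t + 1) (by omega) (by omega)) b with h7 | h7
  · exact absurd (h7 _ w (by omega) h4) h6
  · exact fun u => h7 (2 * s + 2) u le_rfl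

theorem none_open' {P : Finset (Nd m)} {b k : ℕ} (h : ∀ u, ¬ Op R P b k u) {k' : ℕ}
    (hk : k ≤ k') (w : Fin (m + 1)) : ¬ Op R P b k' w := by
  obtain ⟨j, rfl⟩ : ∃ j, k' = k + j := ⟨k' - k, by omega⟩
  exact none_open h j w

open scoped Classical in
/-- the columns that are open at some level at least `n` -/
noncomputable def Xs (R : Fin m → Fin m → Prop) (P : Finset (Nd m)) (n : ℕ) :
    Finset (Fin (m + 1)) :=
  Finset.univ.filter (fun w => ∃ k, n ≤ k ∧ Op R P 0 k w)

theorem mem_Xs {P : Finset (Nd m)} {n : ℕ} {w : Fin (m + 1)} :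
    w ∈ Xs R P n ↔ ∃ k, n ≤ k ∧ Op R P 0 k w := by
  simp [Xs]

theorem exists_chain (hR : ∀ i, R i i) {s T L : ℕ} (P : ℕ → Finset (Nd m))
    (hP0 : P 0 = ∅) (hst : ∀ t, t < T → St R (P t) (P (t + 1)))
    (hc : ∀ t, t ≤ T → (P t).card ≤ s) (hz : (Fin.last m, L, Fin.last m) ∈ P T)
    (hL : 5 * (2 * s + 2) ≤ L) :
    2 * (m + 1) ≤ s + 1 ∨ ∃ (t1 t2 : ℕ) (X : ℕ → Finset (Fin (m + 1))), t1 ≤ t2 ∧ X t1 = ∅ ∧
      X t2 = Finset.univ ∧ (∀ r, t1 ≤ r → r < t2 → X r ⊆ X (r + 1)) ∧
      ∀ r, t1 ≤ r → r < t2 →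
        (Finset.univ \ X r).card + {v | ∃ u ∈ X (r + 1), Rp R u v}.ncard ≤ s + 1 := by
  classical
  -- the first time the target carries a pebble
  obtain ⟨tf, hf0, hfT, hf1, hf2⟩ := first_time (fun t => (Fin.last m, L, Fin.last m) ∉ P t)
    (a := 0) (b := T) (by simp [hP0]) (by omega) (by simpa using hz)
  obtain ⟨e, rfl⟩ : ∃ e, tf = e + 1 := ⟨tf - 1, by omega⟩
  have hze : (Fin.last m, L, Fin.last m) ∉ P e := hf2 e (by omega) (by omega)
  have hze1 : (Fin.last m, L, Fin.last m) ∈ P (e + 1) := by simpa using hf1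
  obtain ⟨v, hv1, hv2⟩ := hst e (by omega)
  have hvz : v = (Fin.last m, L, Fin.last m) := by
    rcases Finset.mem_insert.1 (hv2 hze1) with h | h
    · exact h.symm
    · exact absurd h hze
  subst hvz
  have hne : ∀ b, b < L → ¬ Op R (P e) b (L - b) (Fin.last m) := by
    intro b hb
    apply not_op_of_preds (by omega)
    have : b + (L - b) = L := by omega
    rw [this]
    exact hv1
  obtain ⟨t0, _, ht0e, ht0, ht0'⟩ := last_time (fun t => Op R (P t) 0 L (Fin.last m))
    (a := 0) (b := e) (by simp only [hP0]; exact op_empty _ _ _) (by omega)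
    (by simpa using hne 0 (by omega))
  have hres : ∀ b, b ≤ L → Op R (P t0) b (L - b) (Fin.last m) := by
    intro b hb
    have h1 : Op R (P t0) 0 (b + (L - b)) (Fin.last m) := by
      have : b + (L - b) = L := by omega
      rw [this]
      exact ht0
    have h2 := op_restrict h1
    rwa [zero_add] at h2
  have hfirst0 : ∀ k w, 2 * s + 2 ≤ k → ¬ Op R (P (t0 + 1)) 0 k w := by
    rcases dichotomy (hst t0 (by omega)) (hc (t0 + 1) (by omega)) 0 with h7 | h7
    · exact absurd (h7 _ _ (by omega) ht0) (ht0' (t0 + 1) (by omega) (by omega))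
    · exact h7
  have hfirst : ∀ w, ¬ Op R (P (t0 + 1)) 0 (2 * (2 * s + 2)) w :=
    fun w => hfirst0 _ w (by omega)
  by_cases hall : ∀ t, t0 + 1 ≤ t → t ≤ e → ∀ w, ¬ Op R (P t) 0 (2 * (2 * s + 2)) w
  · -- always closed in the low region
    left
    obtain ⟨t, h1, h2, hcl⟩ := lose_closed (R := R) (s := s) (L := L) (t0 := t0) (t1 := e) (P := P)
      (b := 2 * (2 * s + 2) + 1) (w := Fin.last m) (fun t h1 h2 => hst t (by omega))
      (fun t h1 h2 => hc t (by omega)) (by omega) (by omega) (hres _ (by omega))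
      (hne _ (by omega))
    have h3 := card_two_in (P := P (t + 1)) (P' := P (t + 1)) (U := P (t + 1))
      (a := 0) (a' := 0 + 2 * (2 * s + 2)) (c := 2 * (2 * s + 2) + 1)
      (c' := 2 * (2 * s + 2) + 1 + (2 * s + 2)) (Finset.Subset.refl _) (Finset.Subset.refl _)
      (by omega)
    rw [card_colsIn_of_closed hR (hall (t + 1) (by omega) (by omega)),
      card_colsIn_of_closed hR hcl] at h3
    have h4 := hc (t + 1) (by omega)
    omega
  · push Not at hall
    obtain ⟨t', h1, h2, w', h3⟩ := hall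
    obtain ⟨t, h4, h5, h6, h7⟩ := first_time
      (fun t => ∀ w, ¬ Op R (P t) 0 (2 * (2 * s + 2)) w) (a := t0 + 1) (b := t') hfirst h1
      (by push Not; exact ⟨w', h3⟩)
    obtain ⟨d, rfl⟩ : ∃ d, t = d + 1 := ⟨t - 1, by omega⟩
    push Not at h6
    obtain ⟨w6, h6⟩ := h6
    obtain ⟨v, hv1, hv2⟩ := hst d (by omega)
    have hU : (insert v (P d)).card ≤ s + 1 :=
      (Finset.card_insert_le _ _).trans (by have := hc d (by omega); omega)
    have hPU : P d ⊆ insert v (P d) := Finset.subset_insert _ _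
    have hPd := h7 d (by omega) (by omega)
    by_cases hopen4 : ∃ w, Op R (P (d + 1)) 0 (4 * (2 * s + 2)) w
    · -- everything is open at some level between `2 N` and `4 N`
      left
      obtain ⟨w4, h4o⟩ := hopen4
      obtain ⟨i, hi, hfr1, hfr2⟩ := exists_free_pair (hc (d + 1) (by omega)) (2 * (2 * s + 2))
      have hsome : ∃ u, Op R (P (d + 1)) 0 (2 * (2 * s + 2) + 2 * i) u := by
        by_contra hcon
        push Not at hcon
        exact none_open' hcon (by omega) w4 h4o
      obtain ⟨u, hu⟩ := hsome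
      have hopen : ∀ w, Op R (P (d + 1)) 0 (2 * (2 * s + 2) + 2 * i + 2) w := by
        apply all_open (u := u) _ _ hu
        · simpa using hfr1
        · simpa using hfr2
      obtain ⟨l, hl⟩ : ∃ l, l = 2 * (2 * s + 2) + 2 * i + 2 := ⟨_, rfl⟩
      rw [← hl] at hopen
      have hno : ¬ Op R (P (d + 1)) l (L - l) (Fin.last m) := by
        intro hcon
        have h8 : Op R (P (d + 1)) (0 + l) (L - l) (Fin.last m) := by rwa [zero_add]
        have h9 := op_concat hopen h8
        have h10 : l + (L - l) = L := by omega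
        rw [h10] at h9
        exact ht0' (d + 1) (by omega) (by omega) h9
      obtain ⟨r, hr1, hr2, hcl⟩ := lose_closed (R := R) (s := s) (L := L) (t0 := t0) (t1 := d + 1)
        (P := P) (b := l) (w := Fin.last m) (fun t h1 h2 => hst t (by omega))
        (fun t h1 h2 => hc t (by omega)) (by omega) (by omega) (hres _ (by omega)) hno
      rcases Nat.lt_or_ge r d with hrd | hrd
      · have h8 := card_two_in (P := P (r + 1)) (P' := P (r + 1)) (U := P (r + 1))
          (a := 0) (a' := 0 + 2 * (2 * s + 2)) (c := l) (c' := l + (2 * s + 2))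
          (Finset.Subset.refl _) (Finset.Subset.refl _) (by omega)
        rw [card_colsIn_of_closed hR (h7 (r + 1) (by omega) (by omega)),
          card_colsIn_of_closed hR hcl] at h8
        have h9 := hc (r + 1) (by omega)
        omega
      · have hrd' : r = d := by omega
        subst hrd'
        have h8 := card_two_in (P := P r) (P' := P (r + 1)) (U := insert v (P r))
          (a := 0) (a' := 0 + 2 * (2 * s + 2)) (c := l) (c' := l + (2 * s + 2)) hPU hv2 (by omega)
        rw [card_colsIn_of_closed hR hPd, card_colsIn_of_closed hR hcl] at h8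
        omega
    · -- the chain
      right
      push Not at hopen4
      -- the last time nothing is open
      have hX0 : Xs R (P (t0 + 1)) (2 * s + 2) = ∅ := by
        apply Finset.eq_empty_of_forall_notMem
        intro w hw
        obtain ⟨k, hk, hk'⟩ := mem_Xs.1 hw
        exact hfirst0 k w hk hk'
      have hXd : Xs R (P (d + 1)) (2 * s + 2) = Finset.univ := by
        obtain ⟨i, hi, hfr1, hfr2⟩ := exists_free_pair (hc (d + 1) (by omega)) (2 * s + 2)
        have hsome : ∃ u, Op R (P (d + 1)) 0 (2 * s + 2 + 2 * i) u := by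
          by_contra hcon
          push Not at hcon
          exact none_open' hcon (by omega) w6 h6
        obtain ⟨u, hu⟩ := hsome
        have hopen : ∀ w, Op R (P (d + 1)) 0 (2 * s + 2 + 2 * i + 2) w := by
          apply all_open (u := u) _ _ hu
          · simpa using hfr1
          · simpa using hfr2
        exact Finset.eq_univ_of_forall (fun w => mem_Xs.2 ⟨_, by omega, hopen w⟩)
      obtain ⟨t1, hb1, hb2, hb3, hb4⟩ := last_time
        (fun t => Xs R (P t) (2 * s + 2) = ∅) (a := t0 + 1) (b := d + 1) hX0 (by omega)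
        (by rw [hXd]; exact Finset.univ_nonempty.ne_empty)
      have hstep : ∀ r, t1 ≤ r → r < d + 1 →
          ∀ k w, 2 * s + 2 ≤ k → Op R (P r) 0 k w → Op R (P (r + 1)) 0 k w := by
        intro r h8 h9
        rcases dichotomy (hst r (by omega)) (hc (r + 1) (by omega)) 0 with h10 | h10
        · exact h10
        · exfalso
          apply hb4 (r + 1) (by omega) (by omega)
          apply Finset.eq_empty_of_forall_notMem
          intro w hw
          obtain ⟨k, hk, hk'⟩ := mem_Xs.1 hw
          exact h10 k w hk hk'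
      have hclosed : ∀ j r, r + j = d + 1 → t1 ≤ r →
          ∀ w, ¬ Op R (P r) 0 (4 * (2 * s + 2)) w := by
        intro j
        induction j with
        | zero =>
            intro r hr _ w
            have : r = d + 1 := by omega
            rw [this]
            exact hopen4 w
        | succ j ih =>
            intro r hr hr1 w hw
            exact ih (r + 1) (by omega) (by omega) w
              (hstep r hr1 (by omega) _ w (by omega) hw)
      refine ⟨t1, d + 1, fun r => Xs R (P r) (2 * s + 2), by omega, hb3, hXd, ?_, ?_⟩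
      · intro r h8 h9 w hw
        obtain ⟨k, hk, hk'⟩ := mem_Xs.1 hw
        exact mem_Xs.2 ⟨k, hk, hstep r h8 h9 k w hk hk'⟩
      · intro r h8 h9
        obtain ⟨v, hv1, hv2⟩ := hst r (by omega)
        have hU : (insert v (P r)).card ≤ s + 1 :=
          (Finset.card_insert_le _ _).trans (by have := hc r (by omega); omega)
        have hPU : P r ⊆ insert v (P r) := Finset.subset_insert _ _
        have hA : Finset.univ \ Xs R (P r) (2 * s + 2) ⊆ colsIn (P r) 0 (2 * s + 2) := by
          intro w hw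
          rw [Finset.mem_sdiff] at hw
          have h10 : ¬ Op R (P r) 0 (2 * s + 2) w :=
            fun hcon => hw.2 (mem_Xs.2 ⟨_, le_rfl, hcon⟩)
          simpa using mem_colsIn_of_closed hR h10
        have hB : {v | ∃ u ∈ Xs R (P (r + 1)) (2 * s + 2), Rp R u v} ⊆
            (↑(colsIn (P (r + 1)) (2 * s + 3) (4 * (2 * s + 2))) : Set (Fin (m + 1))) := by
          rintro w ⟨u, hu, huw⟩
          obtain ⟨k, hk, hk'⟩ := mem_Xs.1 hu
          have hcl := hclosed (d + 1 - (r + 1)) (r + 1) (by omega) (by omega)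
          have hk4 : k < 4 * (2 * s + 2) := by
            by_contra hcon
            exact none_open' hcl (by omega) u hk'
          by_contra hcon
          rw [Finset.mem_coe, mem_colsIn] at hcon
          push Not at hcon
          have h10 : Op R (P (r + 1)) 0 (k + 1) w :=
            ⟨u, hk', huw, fun i _ => hcon _ i (by omega) (by omega)⟩
          have h11 := op_up hR h10 (4 * (2 * s + 2) - (k + 1))
            (fun l i h12 h13 => hcon l i (by omega) (by omega))
          have h12 : k + 1 + (4 * (2 * s + 2) - (k + 1)) = 4 * (2 * s + 2) := by omega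
          rw [h12] at h11
          exact hcl w h11
        have hB' : {v | ∃ u ∈ Xs R (P (r + 1)) (2 * s + 2), Rp R u v}.ncard ≤
            (colsIn (P (r + 1)) (2 * s + 3) (4 * (2 * s + 2))).card := by
          rw [← Set.ncard_coe_finset]
          exact Set.ncard_le_ncard hB (Finset.finite_toSet _)
        have hA' := Finset.card_le_card hA
        have h12 := card_two_in (P := P r) (P' := P (r + 1)) (U := insert v (P r))
          (a := 0) (a' := 2 * s + 2) (c := 2 * s + 3) (c' := 4 * (2 * s + 2)) hPU hv2 (by omega)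
        show (Finset.univ \ Xs R (P r) (2 * s + 2)).card +
          {v | ∃ u ∈ Xs R (P (r + 1)) (2 * s + 2), Rp R u v}.ncard ≤ s + 1
        omega

end

end MP1fca05
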