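import Pool.Agent.Lib.MP_1fca05_lc.Defs

/-!
A chain of column sets gives a layout (MP_1fca05_lc).
-/

namespace MP1fca05

/-- A set of columns without the hub whose members have positions below `q` has at most `q`
elements. -/
theorem card_le_of_pos {m : ℕ} (f : Fin m ≃ Fin m) {q : ℕ} (Y : Finset (Fin (m + 1)))
    (hub : Fin.last m ∉ Y) (hY : ∀ u : Fin m, u.castSucc ∈ Y → (f u : ℕ) < q) : Y.card ≤ q := by
  have h1 : Y.card ≤ (Finset.range q).card := by
    refine Finset.card_le_card_of_injOn
      (fun w => Fin.lastCases (motive := fun _ => ℕ) 0 (fun u => (f u : ℕ)) w) ?_ ?_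
    · intro w hw
      have hw' : w ∈ Y := hw
      induction w using Fin.lastCases with
      | last => exact absurd hw' hub
      | cast u =>
        simp only [Fin.lastCases_castSucc]
        exact Finset.mem_coe.2 (Finset.mem_range.2 (hY u hw'))
    · intro w hw w' hw' h
      have hw1 : w ∈ Y := hw
      have hw1' : w' ∈ Y := hw'
      induction w using Fin.lastCases with
      | last => exact absurd hw1 hub
      | cast u =>
        induction w' using Fin.lastCases with
        | last => exact absurd hw1' hub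
        | cast u' =>
          simp only [Fin.lastCases_castSucc] at h
          rw [f.injective (Fin.ext h)]
  rwa [Finset.card_range] at h1

/-- An increasing chain of column sets in which every step is cheap gives a layout. -/
theorem layout_of_chain {m : ℕ} (R : Fin m → Fin m → Prop) {s t1 t2 k : ℕ} (h12 : t1 ≤ t2)
    (X : ℕ → Finset (Fin (m + 1))) (h1 : X t1 = ∅) (h2 : X t2 = Finset.univ)
    (hmono : ∀ r, t1 ≤ r → r < t2 → X r ⊆ X (r + 1))
    (hcard : ∀ r, t1 ≤ r → r < t2 →
      (Finset.univ \ X r).card + {v | ∃ u ∈ X (r + 1), Rp R u v}.ncard ≤ s + 1)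
    (hk : s ≤ m + k + 2) : Layout R k := by
  classical
  -- the sets increase
  have hmono' : ∀ b, ∀ a, t1 ≤ a → a ≤ b → b ≤ t2 → X a ⊆ X b := by
    intro b
    induction b with
    | zero =>
      intro a _ hab _
      have : a = 0 := by omega
      rw [this]
    | succ b ih =>
      intro a ha hab hb
      rcases Nat.lt_or_ge a (b + 1) with h | h
      · exact (ih a ha (by omega) (by omega)).trans (hmono b (by omega) (by omega))
      · have : a = b + 1 := by omega
        rw [this]
  -- the first time at which a column appears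
  have hex : ∀ w : Fin (m + 1), ∃ r, t1 ≤ r ∧ w ∈ X r := fun w =>
    ⟨t2, h12, by rw [h2]; exact Finset.mem_univ _⟩
  set τ : Fin (m + 1) → ℕ := fun w => Nat.find (hex w) with hτ
  have hτ1 : ∀ w, t1 ≤ τ w ∧ w ∈ X (τ w) := fun w => Nat.find_spec (hex w)
  have hτmin : ∀ w r, t1 ≤ r → w ∈ X r → τ w ≤ r := fun w r hr hw =>
    Nat.find_min' (hex w) ⟨hr, hw⟩
  have hτ2 : ∀ w, τ w ≤ t2 := fun w => hτmin w t2 h12 (by rw [h2]; exact Finset.mem_univ _)
  have hτ3 : ∀ w, t1 < τ w := by
    intro w
    rcases Nat.lt_or_ge t1 (τ w) with h | h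
    · exact h
    · exfalso
      have h3 : τ w = t1 := le_antisymm h (hτ1 w).1
      have h4 := (hτ1 w).2
      rw [h3, h1] at h4
      exact absurd h4 (Finset.notMem_empty _)
  have hin : ∀ w r, τ w ≤ r → r ≤ t2 → w ∈ X r := fun w r h h' =>
    hmono' r (τ w) (hτ1 w).1 h h' (hτ1 w).2
  -- the order
  set g : Fin m → ℕ := fun j => τ j.castSucc with hg
  set σ : Equiv.Perm (Fin m) := Tuple.sort g with hσ
  have hσm : Monotone (g ∘ σ) := Tuple.monotone_sort g
  refine ⟨σ.symm, fun i => ?_⟩
  have hle : ∀ N : Set (Fin m), N.ncard ≤ m := by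
    intro N
    have h3 := Set.ncard_le_ncard (Set.subset_univ N)
    rwa [Set.ncard_univ, Nat.card_eq_fintype_card, Fintype.card_fin] at h3
  rcases Nat.eq_zero_or_pos i with hi0 | hi0
  · subst hi0
    have h3 : {v | ∃ u, (σ.symm u : ℕ) < 0 ∧ R u v} = ∅ := by
      ext v
      simp
    rw [h3, Set.ncard_empty]
    exact Nat.zero_le _
  rcases Nat.lt_or_ge m i with him | him
  · exact (hle _).trans (by omega)
  -- the column in position `i - 1`
  set p : Fin m := ⟨i - 1, by omega⟩ with hp
  set x : Fin m := σ p with hx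
  obtain ⟨r, hr⟩ : ∃ r, τ x.castSucc = r + 1 :=
    ⟨τ x.castSucc - 1, by have := hτ3 x.castSucc; omega⟩
  have hr1 : t1 ≤ r := by have := hτ3 x.castSucc; omega
  have hr2 : r < t2 := by have := hτ2 x.castSucc; omega
  have hlt : ∀ u : Fin m, (σ.symm u : ℕ) < i → τ u.castSucc ≤ r + 1 := by
    intro u hu
    have h3 : σ.symm u ≤ p := by
      rw [Fin.le_def, hp]
      simp only
      omega
    have h4 := hσm h3
    simp only [Function.comp, Equiv.apply_symm_apply, hg] at h4
    rw [← hr]
    exact h4
  have hpos : ∀ u : Fin m, τ u.castSucc ≤ r → (σ.symm u : ℕ) < i - 1 := by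
    intro u hu
    by_contra hcon
    have h3 : p ≤ σ.symm u := by
      rw [Fin.le_def, hp]
      simp only
      omega
    have h4 := hσm h3
    simp only [Function.comp, Equiv.apply_symm_apply, hg] at h4
    have h5 : τ x.castSucc ≤ τ u.castSucc := h4
    omega
  by_cases hhub : Fin.last m ∈ X r
  · -- the hub is there
    obtain ⟨r', hr'⟩ : ∃ r', τ (Fin.last m) = r' + 1 :=
      ⟨τ (Fin.last m) - 1, by have := hτ3 (Fin.last m); omega⟩
    have h3 : τ (Fin.last m) ≤ r := hτmin _ r hr1 hhub
    have h4 : t1 ≤ r' := by have := hτ3 (Fin.last m); omega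
    have h5 : (X r').card ≤ i - 1 := by
      refine card_le_of_pos σ.symm (X r') ?_ ?_
      · intro h
        have := hτmin _ r' h4 h
        omega
      · intro u hu
        exact hpos u ((hτmin _ r' h4 hu).trans (by omega))
    have h6 : {v | ∃ u ∈ X (r' + 1), Rp R u v} = Set.univ := by
      ext v
      simp only [Set.mem_univ, iff_true]
      refine ⟨Fin.last m, ?_, Or.inl rfl⟩
      rw [← hr']
      exact (hτ1 _).2
    have h7 := hcard r' h4 (by omega)
    rw [h6, Set.ncard_univ, Nat.card_eq_fintype_card, Fintype.card_fin] at h7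
    have h8 := Finset.card_sdiff_add_card_eq_card (Finset.subset_univ (X r'))
    rw [Finset.card_univ, Fintype.card_fin] at h8
    have h9 := hle {v | ∃ u, (σ.symm u : ℕ) < i ∧ R u v}
    omega
  · -- the hub is not there
    have h5 : (X r).card ≤ i - 1 :=
      card_le_of_pos σ.symm (X r) hhub fun u hu => hpos u (hτmin _ r hr1 hu)
    have h8 := Finset.card_sdiff_add_card_eq_card (Finset.subset_univ (X r))
    rw [Finset.card_univ, Fintype.card_fin] at h8
    have h7 := hcard r hr1 hr2
    have h6 : {v | ∃ u, (σ.symm u : ℕ) < i ∧ R u v}.ncard + 1 ≤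
        {v | ∃ u ∈ X (r + 1), Rp R u v}.ncard := by
      have h9 : (insert (Fin.last m) (Fin.castSucc '' {v | ∃ u, (σ.symm u : ℕ) < i ∧ R u v}) :
          Set (Fin (m + 1))) ⊆ {v | ∃ u ∈ X (r + 1), Rp R u v} := by
        rintro v (rfl | ⟨v', ⟨u, hu, huv⟩, rfl⟩)
        · refine ⟨x.castSucc, ?_, Or.inr (Or.inl rfl)⟩
          rw [← hr]
          exact (hτ1 _).2
        · exact ⟨u.castSucc, hin _ _ (hlt u hu) (by omega), Or.inr (Or.inr ⟨u, v', rfl, rfl, huv⟩)⟩
      have h10 := Set.ncard_le_ncard h9
      rw [Set.ncard_insert_of_notMem, Set.ncard_image_of_injective _ (Fin.castSucc_injective m)]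
        at h10
      · exact h10
      · rintro ⟨v', _, h⟩
        exact (Fin.castSucc_lt_last v').ne h
    omega

end MP1fca05
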