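import Pool.Agent.Lib.MP_1fca05_lc.Defs

/-!
The blow-up of a dag by copies (MP_1fca05_lc).
-/

namespace MP1fca05

/-- `E` is acyclic and `t` is its only sink. -/
structure IsSinkDag {V : Type} (E : V → V → Prop) (t : V) : Prop where
  acyclic : ∀ v, ¬ Relation.TransGen E v v
  sink : ∀ v, (∀ w, ¬ E v w) ↔ v = t

/-- The blow-up of the dag `E` with sink `z`: every node `v` is replaced by the `t` copies
`inl (v, i)`, every arc by all the arcs between the copies of its ends, and a new sink `inr ()` is
added, with an arc from every copy of `z`. -/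
def CpArc {V : Type} (E : V → V → Prop) (z : V) (t : ℕ) :
    (V × Fin t) ⊕ Unit → (V × Fin t) ⊕ Unit → Prop
  | .inl x, .inl y => E x.1 y.1
  | .inl x, .inr _ => x.1 = z
  | .inr _, _ => False

end MP1fca05
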