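import Pool.Agent.Lib.MP_1fca05_lc.Cp
import Pool.Agent.Lib.MP_1fca05_lc.Upper

/-!
The blow-up by copies: lower bound.
-/

namespace MP1fca05

namespace CpLow

open Up

variable {V : Type} [DecidableEq V]

/-- The nodes all of whose copies carry pebbles. -/
def Pf (t : ℕ) (Q : Finset ((V × Fin t) ⊕ Unit)) : Finset V :=
  (Q.toLeft.image Prod.fst).filter fun v => ∀ a : Fin t, Sum.inl (v, a) ∈ Q

theorem mem_pf {t : ℕ} (ht : 1 ≤ t) {Q : Finset ((V × Fin t) ⊕ Unit)} {v : V} :
    v ∈ Pf t Q ↔ ∀ a : Fin t, Sum.inl (v, a) ∈ Q := by
  rw [Pf, Finset.mem_filter]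
  constructor
  · exact fun h => h.2
  · intro h
    refine ⟨Finset.mem_image.2 ⟨(v, ⟨0, ht⟩), ?_, rfl⟩, h⟩
    rw [Finset.mem_toLeft]
    exact h _

theorem card_pf {t : ℕ} (ht : 1 ≤ t) (Q : Finset ((V × Fin t) ⊕ Unit)) :
    (Pf t Q).card * t ≤ Q.card := by
  have h1 : ((Pf t Q) ×ˢ (Finset.univ : Finset (Fin t))).card ≤ Q.card := by
    apply Finset.card_le_card_of_injOn (fun x => Sum.inl x)
    · intro x hx
      have hx' := (Finset.mem_product.1 (Finset.mem_coe.1 hx)).1
      exact (mem_pf ht).1 hx' x.2
    · intro a _ b _ hab
      exact Sum.inl_injective hab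
  rw [Finset.card_product, Finset.card_univ, Fintype.card_fin] at h1
  exact h1

/-- The invariant. -/
def Inv (E : V → V → Prop) (c : ℕ) (P : Finset V) : Prop :=
  (P.card ≤ c - 1 ∧ Rch E (c - 1) ∅ P) ∨
    ∃ v ∈ P, P.card ≤ c ∧ (∀ u, E u v → u ∈ P.erase v) ∧ Rch E (c - 1) ∅ (P.erase v)

variable {E : V → V → Prop} {c : ℕ} {P : Finset V}

theorem Inv.rch (h : Inv E c P) (hc : P.card ≤ c - 1) : Rch E (c - 1) ∅ P := by
  rcases h with h | ⟨v, h1, h2, h3, h4⟩
  · exact h.2
  · have h5 := Rch.place (E := E) (K := c - 1) (P := P.erase v) (v := v)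
      (Finset.notMem_erase _ _) h3 (by rw [Finset.card_erase_add_one h1]; exact hc)
    rw [Finset.insert_erase h1] at h5
    exact h4.trans h5

theorem Inv.erase (h : Inv E c P) {x : V} (hx : x ∈ P) : Inv E c (P.erase x) := by
  rcases h with h | ⟨v, h1, h2, h3, h4⟩
  · left
    exact ⟨(Finset.card_le_card (Finset.erase_subset _ _)).trans h.1,
      h.2.trans (Rch.remove hx h.1)⟩
  · left
    have hcx := Finset.card_erase_add_one hx
    have hcv := Finset.card_erase_add_one h1
    refine ⟨by omega, ?_⟩
    by_cases hxv : x = v
    · rw [hxv]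
      exact h4
    · have hx' : x ∈ P.erase v := Finset.mem_erase.2 ⟨hxv, hx⟩
      have e : insert v ((P.erase v).erase x) = P.erase x := by
        rw [Finset.erase_right_comm, Finset.insert_erase]
        exact Finset.mem_erase.2 ⟨fun h => hxv h.symm, h1⟩
      by_cases hE : E x v
      · refine Relation.ReflTransGen.tail h4 ⟨Or.inr (Or.inr ⟨x, v, hx',
          Finset.notMem_erase _ _, hE, h3, e.symm⟩), by omega⟩
      · have h5 := Rch.remove (E := E) (K := c - 1) hx' (by omega)
        have hcc := Finset.card_erase_add_one hx'
        have h6 := Rch.place (E := E) (K := c - 1) (P := (P.erase v).erase x) (v := v)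
          (fun h => Finset.notMem_erase v P (Finset.mem_of_mem_erase h))
          (fun u hu => Finset.mem_erase.2 ⟨fun h => hE (h ▸ hu), h3 u hu⟩) (by omega)
        rw [e] at h6
        exact (h4.trans h5).trans h6

theorem Inv.place (h : Inv E c P) {w : V} (hE : ∀ u, E u w → u ∈ P) (hw : w ∉ P)
    (hc : P.card + 1 ≤ c) : Inv E c (insert w P) := by
  right
  have e : (insert w P).erase w = P := Finset.erase_insert hw
  refine ⟨w, Finset.mem_insert_self _ _, ?_, ?_, ?_⟩
  · rw [Finset.card_insert_of_notMem hw]
    exact hc
  · rw [e]
    exact hE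
  · rw [e]
    exact h.rch (by omega)

theorem Inv.slide (h : Inv E c P) {u w : V} (hE : ∀ u, E u w → u ∈ P) (hw : w ∉ P)
    (huw : E u w) (hc : P.card + 1 ≤ c) : Inv E c (insert w (P.erase u)) := by
  left
  have hu := hE u huw
  have hcu := Finset.card_erase_add_one hu
  have hw' : w ∉ P.erase u := fun h => hw (Finset.mem_of_mem_erase h)
  have h1 : (insert w (P.erase u)).card ≤ c - 1 := by
    rw [Finset.card_insert_of_notMem hw']
    omega
  exact ⟨h1, Relation.ReflTransGen.tail (h.rch (by omega))
    ⟨Or.inr (Or.inr ⟨u, w, hu, hw, huw, hE, rfl⟩), h1⟩⟩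

theorem step {z : V} (hE : ∀ v, ¬ E v v) {t K : ℕ} (ht : 1 ≤ t)
    {Q Q' : Finset ((V × Fin t) ⊕ Unit)} (hm : Move (CpArc E z t) Q Q')
    (h0 : Sum.inr () ∉ Q') (hQ : Q.card ≤ K) (h : Inv E ((K + 1) / t) (Pf t Q)) :
    Inv E ((K + 1) / t) (Pf t Q') := by
  have hfull : ∀ (w : V) (a : Fin t), Sum.inl (w, a) ∉ Q →
      w ∈ Pf t (insert (Sum.inl (w, a)) Q) → (Pf t Q).card + 1 ≤ (K + 1) / t := by
    intro w a ha hw
    rw [Nat.le_div_iff_mul_le ht]
    have h1 := card_pf ht (insert (Sum.inl (w, a)) Q)
    rw [Finset.card_insert_of_notMem ha] at h1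
    have h2 : insert w (Pf t Q) ⊆ Pf t (insert (Sum.inl (w, a)) Q) := by
      intro v hv
      rcases Finset.mem_insert.1 hv with rfl | hv
      · exact hw
      · rw [mem_pf ht] at hv ⊢
        exact fun b => Finset.mem_insert_of_mem (hv b)
    have h3 := Finset.card_le_card h2
    rw [Finset.card_insert_of_notMem (fun hw' => ha ((mem_pf ht).1 hw' a))] at h3
    have h4 := Nat.mul_le_mul_right t h3
    omega
  rcases hm with ⟨v, hv, hp, rfl⟩ | ⟨v, hv, rfl⟩ | ⟨u, v, hu, hv, huv, hp, rfl⟩
  · -- a placement
    rcases v with ⟨w, a⟩ | v
    · have hpre : ∀ u, E u w → u ∈ Pf t Q := by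
        intro u hu
        rw [mem_pf ht]
        exact fun b => hp (Sum.inl (u, b)) hu
      have hwP : w ∉ Pf t Q := fun hw => hv ((mem_pf ht).1 hw a)
      by_cases hw : w ∈ Pf t (insert (Sum.inl (w, a)) Q)
      · have e : Pf t (insert (Sum.inl (w, a)) Q) = insert w (Pf t Q) := by
          ext x
          rw [Finset.mem_insert]
          by_cases hxw : x = w
          · rw [hxw]
            exact ⟨fun _ => Or.inl rfl, fun _ => hw⟩
          · rw [mem_pf ht, mem_pf ht]
            constructor
            · intro hx
              right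
              intro b
              rcases Finset.mem_insert.1 (hx b) with hb | hb
              · exact absurd (congrArg Prod.fst (Sum.inl_injective hb)) hxw
              · exact hb
            · rintro (hx | hx)
              · exact absurd hx hxw
              · exact fun b => Finset.mem_insert_of_mem (hx b)
        rw [e]
        exact h.place hpre hwP (hfull w a hv hw)
      · have e : Pf t (insert (Sum.inl (w, a)) Q) = Pf t Q := by
          ext x
          by_cases hxw : x = w
          · rw [hxw]
            exact ⟨fun h => absurd h hw, fun h => absurd h hwP⟩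
          · rw [mem_pf ht, mem_pf ht]
            constructor
            · intro hx b
              rcases Finset.mem_insert.1 (hx b) with hb | hb
              · exact absurd (congrArg Prod.fst (Sum.inl_injective hb)) hxw
              · exact hb
            · exact fun hx b => Finset.mem_insert_of_mem (hx b)
        rw [e]
        exact h
    · exact absurd (Finset.mem_insert_self _ _) h0
  · -- a removal
    rcases v with ⟨w, a⟩ | v
    · by_cases hw : w ∈ Pf t Q
      · have e : Pf t (Q.erase (Sum.inl (w, a))) = (Pf t Q).erase w := by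
          ext x
          rw [Finset.mem_erase, mem_pf ht, mem_pf ht]
          constructor
          · intro hx
            refine ⟨?_, fun b => Finset.mem_of_mem_erase (hx b)⟩
            rintro rfl
            exact Finset.notMem_erase _ _ (hx a)
          · rintro ⟨h1, h2⟩ b
            refine Finset.mem_erase.2 ⟨fun hb => h1 ?_, h2 b⟩
            exact congrArg Prod.fst (Sum.inl_injective hb)
        rw [e]
        exact h.erase hw
      · have e : Pf t (Q.erase (Sum.inl (w, a))) = Pf t Q := by
          ext x
          constructor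
          · intro hx
            rw [mem_pf ht] at hx ⊢
            exact fun b => Finset.mem_of_mem_erase (hx b)
          · intro hx
            have hxw : x ≠ w := fun h => hw (h ▸ hx)
            rw [mem_pf ht] at hx ⊢
            exact fun b => Finset.mem_erase.2
              ⟨fun hb => hxw (congrArg Prod.fst (Sum.inl_injective hb)), hx b⟩
        rw [e]
        exact h
    · have e : Pf t (Q.erase (Sum.inr v)) = Pf t Q := by
        ext x
        rw [mem_pf ht, mem_pf ht]
        constructor
        · exact fun hx b => Finset.mem_of_mem_erase (hx b)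
        · exact fun hx b => Finset.mem_erase.2 ⟨Sum.inl_ne_inr, hx b⟩
      rw [e]
      exact h
  · -- a slide
    rcases v with ⟨w, a⟩ | v
    · rcases u with ⟨u, b⟩ | u
      swap
      · exact absurd huv id
      have huw : E u w := huv
      have hne : u ≠ w := fun h => hE w (h ▸ huw)
      have hpre : ∀ u, E u w → u ∈ Pf t Q := by
        intro u hu
        rw [mem_pf ht]
        exact fun b => hp (Sum.inl (u, b)) hu
      have hwP : w ∉ Pf t Q := fun hw => hv ((mem_pf ht).1 hw a)
      have huP := hpre u huw
      by_cases hw : w ∈ Pf t (insert (Sum.inl (w, a)) Q)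
      · have e : Pf t (insert (Sum.inl (w, a)) (Q.erase (Sum.inl (u, b)))) =
            insert w ((Pf t Q).erase u) := by
          ext x
          rw [Finset.mem_insert, Finset.mem_erase]
          by_cases hxw : x = w
          · rw [hxw]
            refine ⟨fun _ => Or.inl rfl, fun _ => ?_⟩
            rw [mem_pf ht] at hw ⊢
            intro d
            rcases Finset.mem_insert.1 (hw d) with hd | hd
            · rw [hd]
              exact Finset.mem_insert_self _ _
            · refine Finset.mem_insert_of_mem (Finset.mem_erase.2 ⟨fun h => hne ?_, hd⟩)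
              exact (congrArg Prod.fst (Sum.inl_injective h)).symm
          · rw [mem_pf ht, mem_pf ht]
            constructor
            · intro hx
              right
              have hx' : ∀ d, Sum.inl (x, d) ∈ Q.erase (Sum.inl (u, b)) := by
                intro d
                rcases Finset.mem_insert.1 (hx d) with hd | hd
                · exact absurd (congrArg Prod.fst (Sum.inl_injective hd)) hxw
                · exact hd
              refine ⟨?_, fun d => Finset.mem_of_mem_erase (hx' d)⟩
              rintro rfl
              exact Finset.notMem_erase _ _ (hx' b)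
            · rintro (hx | ⟨h1, h2⟩)
              · exact absurd hx hxw
              · intro d
                refine Finset.mem_insert_of_mem (Finset.mem_erase.2 ⟨fun h => h1 ?_, h2 d⟩)
                exact congrArg Prod.fst (Sum.inl_injective h)
        rw [e]
        exact h.slide hpre hwP huw (hfull w a hv hw)
      · have e : Pf t (insert (Sum.inl (w, a)) (Q.erase (Sum.inl (u, b)))) =
            (Pf t Q).erase u := by
          ext x
          rw [Finset.mem_erase]
          by_cases hxw : x = w
          · rw [hxw]
            refine ⟨fun h => ?_, fun h => absurd h.2 hwP⟩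
            exfalso
            apply hw
            rw [mem_pf ht] at h ⊢
            intro d
            rcases Finset.mem_insert.1 (h d) with hd | hd
            · rw [hd]
              exact Finset.mem_insert_self _ _
            · exact Finset.mem_insert_of_mem (Finset.mem_of_mem_erase hd)
          · rw [mem_pf ht, mem_pf ht]
            constructor
            · intro hx
              have hx' : ∀ d, Sum.inl (x, d) ∈ Q.erase (Sum.inl (u, b)) := by
                intro d
                rcases Finset.mem_insert.1 (hx d) with hd | hd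
                · exact absurd (congrArg Prod.fst (Sum.inl_injective hd)) hxw
                · exact hd
              refine ⟨?_, fun d => Finset.mem_of_mem_erase (hx' d)⟩
              rintro rfl
              exact Finset.notMem_erase _ _ (hx' b)
            · rintro ⟨h1, h2⟩ d
              refine Finset.mem_insert_of_mem (Finset.mem_erase.2 ⟨fun h => h1 ?_, h2 d⟩)
              exact congrArg Prod.fst (Sum.inl_injective h)
        rw [e]
        exact h.erase huP
    · exact absurd (Finset.mem_insert_self _ _) h0

end CpLow

open Up CpLow in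
theorem cp_lower {V : Type} [DecidableEq V] {E : V → V → Prop} {z : V}
    (hE : ∀ v, ¬ E v v) (hz : ∃ u, E u z) {t K : ℕ} (ht : 1 ≤ t)
    (h : CanPebble (CpArc E z t) (.inr ()) K) : CanPebble E z ((K + 1) / t - 1) := by
  obtain ⟨T, S, hS0, hm, hT, hK⟩ := h
  have hex : ∃ i, Sum.inr () ∈ S i := ⟨T, hT⟩
  classical
  set T0 := Nat.find hex with hT0
  have h1 : Sum.inr () ∈ S T0 := Nat.find_spec hex
  have h2 : ∀ i, i < T0 → Sum.inr () ∉ S i := fun i hi => Nat.find_min hex hi
  have h3 : T0 ≤ T := Nat.find_min' hex hT
  have h4 : T0 ≠ 0 := by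
    intro h
    rw [h, hS0] at h1
    exact absurd h1 (Finset.notMem_empty _)
  have key : ∀ i, i < T0 → Inv E ((K + 1) / t) (Pf t (S i)) := by
    intro i
    induction i with
    | zero =>
      intro _
      left
      have e : Pf t (S 0) = ∅ := by
        rw [hS0]
        ext x
        rw [mem_pf ht]
        constructor
        · intro h
          exact absurd (h ⟨0, ht⟩) (Finset.notMem_empty _)
        · intro h
          exact absurd h (Finset.notMem_empty _)
      rw [e]
      exact ⟨by simp, Relation.ReflTransGen.refl⟩
    | succ i ih =>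
      intro hi
      exact step hE ht (hm i (by omega)) (h2 _ hi) (hK i (by omega)) (ih (by omega))
  obtain ⟨j, hj⟩ : ∃ j, T0 = j + 1 := ⟨T0 - 1, by omega⟩
  have hInv := key j (by omega)
  have hjn := h2 j (by omega)
  rw [hj] at h1
  have hzP : z ∈ Pf t (S j) := by
    rw [mem_pf ht]
    rcases hm j (by omega) with ⟨v, hv, hp, he⟩ | ⟨v, hv, he⟩ | ⟨u, v, hu, hv, huv, hp, he⟩
    · rw [he] at h1
      rcases Finset.mem_insert.1 h1 with h | h
      · subst h
        exact fun a => hp (Sum.inl (z, a)) rfl
      · exact absurd h hjn
    · rw [he] at h1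
      exact absurd (Finset.mem_of_mem_erase h1) hjn
    · rw [he] at h1
      rcases Finset.mem_insert.1 h1 with h | h
      · subst h
        exact fun a => hp (Sum.inl (z, a)) rfl
      · exact absurd (Finset.mem_of_mem_erase h) hjn
  rcases hInv with h | ⟨v, hv1, hv2, hv3, hv4⟩
  · exact h.2.can hzP
  · by_cases hvz : v = z
    · subst hvz
      obtain ⟨u, hu⟩ := hz
      have hu' := hv3 u hu
      have hc1 := Finset.card_erase_add_one hu'
      have hc2 := Finset.card_erase_add_one hv1
      have hn : v ∉ ((Pf t (S j)).erase v).erase u := fun h =>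
        Finset.notMem_erase _ _ (Finset.mem_of_mem_erase h)
      have h5 : Rch E ((K + 1) / t - 1) ∅ (insert v (((Pf t (S j)).erase v).erase u)) :=
        Relation.ReflTransGen.tail hv4 ⟨Or.inr (Or.inr ⟨u, v, hu', Finset.notMem_erase _ _,
          hu, hv3, rfl⟩), by
          rw [Finset.card_insert_of_notMem hn]
          omega⟩
      exact h5.can (Finset.mem_insert_self _ _)
    · exact hv4.can (Finset.mem_erase.2 ⟨fun h => hvz h.symm, hzP⟩)

end MP1fca05
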