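import Pool.Agent.Lib.MP_1fca05_lc.Sp

/-!
The Cayley graph of `F_s ^ r` with the multiples of the vectors `(1, a, ..., a ^ (r - 1))`: any two
large sets are joined.
-/

namespace MP1fca05

namespace CrvA

open Finset

/-- The character `z ↦ exp (2 π i c z / s)` of the space. -/
noncomputable def ch {r s : ℕ} [NeZero s] (c z : Fin r → ZMod s) : ℂ :=
  ZMod.stdAddChar (∑ i, c i * z i)

variable {r s : ℕ} [Fact s.Prime]

theorem ch_add (c z w : Fin r → ZMod s) : ch c (z + w) = ch c z * ch c w := by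
  unfold ch
  rw [← AddChar.map_add_eq_mul, ← sum_add_distrib]
  congr 1
  exact sum_congr rfl fun i _ => mul_add _ _ _

theorem ch_neg (c z : Fin r → ZMod s) : ch c (-z) = (starRingEnd ℂ) (ch c z) := by
  unfold ch
  rw [← AddChar.map_neg_eq_conj, ← sum_neg_distrib]
  congr 1
  exact sum_congr rfl fun i _ => mul_neg _ _

theorem one_sum (b : ZMod s) :
    ∑ x : ZMod s, ZMod.stdAddChar (x * b) = if b = 0 then (s : ℂ) else 0 := by
  have h := AddChar.sum_mulShift (R := ZMod s) (R' := ℂ) b (ZMod.isPrimitive_stdAddChar s)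
  rw [ZMod.card] at h
  rw [h]
  split_ifs <;> simp

/-- Orthogonality. -/
theorem orth (z : Fin r → ZMod s) :
    ∑ c : Fin r → ZMod s, ch c z = if z = 0 then (s : ℂ) ^ r else 0 := by
  have h1 : ∀ c : Fin r → ZMod s, ch c z = ∏ i, ZMod.stdAddChar (c i * z i) := by
    intro c
    unfold ch
    exact map_prod (ZMod.stdAddChar (N := s)).toMonoidHom
      (fun i => Multiplicative.ofAdd (c i * z i)) univ
  rw [sum_congr rfl fun c _ => h1 c]
  have h2 := sum_prod_piFinset (univ : Finset (ZMod s))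
    (fun (i : Fin r) (x : ZMod s) => (ZMod.stdAddChar (x * z i) : ℂ))
  rw [Fintype.piFinset_univ] at h2
  rw [h2, prod_congr rfl fun i _ => one_sum (z i)]
  split_ifs with h
  · subst h
    simp
  · obtain ⟨i, hi⟩ : ∃ i, z i ≠ 0 := by
      by_contra hcon
      push Not at hcon
      exact h (funext hcon)
    exact prod_eq_zero (mem_univ i) (if_neg hi)

/-- Parseval's identity. -/
theorem parseval (A : Finset (Fin r → ZMod s)) :
    ∑ c : Fin r → ZMod s, ‖∑ x ∈ A, ch c x‖ ^ 2 = (s : ℝ) ^ r * A.card := by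
  have h1 : ∀ c : Fin r → ZMod s, ((‖∑ x ∈ A, ch c x‖ ^ 2 : ℝ) : ℂ) =
      ∑ x ∈ A, ∑ y ∈ A, ch c (x + -y) := by
    intro c
    have h2 := Complex.mul_conj' (∑ x ∈ A, ch c x)
    push_cast
    rw [← h2, map_sum, sum_mul_sum]
    refine sum_congr rfl fun x _ => sum_congr rfl fun y _ => ?_
    rw [ch_add, ch_neg]
  have h3 : ((∑ c : Fin r → ZMod s, ‖∑ x ∈ A, ch c x‖ ^ 2 : ℝ) : ℂ) =
      ((s : ℝ) ^ r * A.card : ℝ) := by
    rw [Complex.ofReal_sum, sum_congr rfl fun c _ => h1 c, sum_comm]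
    have h4 : ∀ x ∈ A, ∑ c : Fin r → ZMod s, ∑ y ∈ A, ch c (x + -y) = (s : ℂ) ^ r := by
      intro x hx
      rw [sum_comm, sum_congr rfl fun y _ => orth (x + -y)]
      rw [sum_eq_single x]
      · simp
      · intro y _ hy
        rw [if_neg]
        intro h
        apply hy
        rw [add_neg_eq_zero] at h
        exact h.symm
      · intro h
        exact absurd hx h
    rw [sum_congr rfl h4, sum_const, nsmul_eq_mul]
    push_cast
    ring
  exact_mod_cast h3

/-- The multiples of the vectors of the curve. -/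
def vec (a b : ZMod s) : Fin r → ZMod s := fun i => b * a ^ (i : ℕ)

theorem S_eq (c : Fin r → ZMod s) :
    ∑ a : ZMod s, ∑ b : ZMod s, ch c (vec a b) =
      (s : ℂ) * ((univ.filter fun a : ZMod s => ∑ i, c i * a ^ (i : ℕ) = 0).card : ℂ) := by
  have h1 : ∀ a : ZMod s, ∑ b : ZMod s, ch c (vec a b) =
      if ∑ i, c i * a ^ (i : ℕ) = 0 then (s : ℂ) else 0 := by
    intro a
    rw [← one_sum]
    refine sum_congr rfl fun b _ => ?_
    unfold ch vec
    congr 1
    rw [mul_sum]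
    exact sum_congr rfl fun i _ => by ring
  rw [sum_congr rfl fun a _ => h1 a, ← sum_filter, sum_const, nsmul_eq_mul, mul_comm]

/-- The number of zeros. -/
theorem card_zeros (c : Fin r → ZMod s) (hc : c ≠ 0) :
    (univ.filter fun a : ZMod s => ∑ i, c i * a ^ (i : ℕ) = 0).card ≤ r - 1 := by
  classical
  set P : Polynomial (ZMod s) := ∑ i : Fin r, Polynomial.monomial (i : ℕ) (c i) with hP
  have hco : ∀ i : Fin r, P.coeff i = c i := by
    intro i
    rw [hP, Polynomial.finsetSum_coeff, sum_eq_single i]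
    · rw [Polynomial.coeff_monomial, if_pos rfl]
    · intro j _ hj
      rw [Polynomial.coeff_monomial, if_neg]
      intro h
      exact hj (Fin.ext h)
    · intro h
      exact absurd (mem_univ _) h
  have hP0 : P ≠ 0 := by
    intro h
    apply hc
    funext i
    rw [← hco, h, Polynomial.coeff_zero]
    rfl
  have hdeg : P.natDegree ≤ r - 1 := by
    rw [Polynomial.natDegree_le_iff_coeff_eq_zero]
    intro m hm
    rw [hP, Polynomial.finsetSum_coeff]
    refine sum_eq_zero fun j _ => ?_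
    rw [Polynomial.coeff_monomial, if_neg]
    have := j.2
    omega
  have hsub : (univ.filter fun a : ZMod s => ∑ i, c i * a ^ (i : ℕ) = 0) ⊆ P.roots.toFinset := by
    intro a ha
    rw [mem_filter] at ha
    rw [Multiset.mem_toFinset, Polynomial.mem_roots hP0, Polynomial.IsRoot.def, hP,
      Polynomial.eval_finsetSum]
    rw [← ha.2]
    exact sum_congr rfl fun i _ => Polynomial.eval_monomial
  calc _ ≤ P.roots.toFinset.card := card_le_card hsub
    _ ≤ Multiset.card P.roots := Multiset.toFinset_card_le _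
    _ ≤ P.natDegree := Polynomial.card_roots' P
    _ ≤ r - 1 := hdeg

end CrvA

open CrvA Finset in
theorem crv_joined {r s : ℕ} [Fact s.Prime] (hr : 1 ≤ r) (A B : Finset (Fin r → ZMod s))
    (hA : (r - 1) * s ^ r < s * A.card) (hB : (r - 1) * s ^ r < s * B.card) :
    ∃ a ∈ A, ∃ b ∈ B, Crv r s a b := by
  classical
  by_contra hno
  push Not at hno
  set F : (Fin r → ZMod s) → ℂ := fun c => ∑ x ∈ A, ch c x with hF
  set G : (Fin r → ZMod s) → ℂ := fun c => ∑ y ∈ B, ch c y with hG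
  set S : (Fin r → ZMod s) → ℂ := fun c => ∑ a : ZMod s, ∑ b : ZMod s, ch c (vec a b) with hS
  have hzero : ∑ c : Fin r → ZMod s, F c * (starRingEnd ℂ) (G c) * S c = 0 := by
    have h1 : ∀ c : Fin r → ZMod s, F c * (starRingEnd ℂ) (G c) * S c =
        ∑ x ∈ A, ∑ y ∈ B, ∑ a : ZMod s, ∑ b : ZMod s, ch c (x + -y + vec a b) := by
      intro c
      simp only [hF, hG, hS]
      rw [map_sum, sum_mul_sum, sum_mul]
      refine sum_congr rfl fun x _ => ?_
      rw [sum_mul]
      refine sum_congr rfl fun y _ => ?_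
      rw [mul_sum]
      refine sum_congr rfl fun a _ => ?_
      rw [mul_sum]
      refine sum_congr rfl fun b _ => ?_
      rw [ch_add, ch_add, ch_neg]
    rw [sum_congr rfl fun c _ => h1 c, sum_comm]
    refine sum_eq_zero fun x hx => ?_
    rw [sum_comm]
    refine sum_eq_zero fun y hy => ?_
    rw [sum_comm]
    refine sum_eq_zero fun a _ => ?_
    rw [sum_comm]
    refine sum_eq_zero fun b _ => ?_
    rw [orth, if_neg]
    intro h
    apply hno x hx y hy
    refine ⟨a, b, fun i => ?_⟩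
    have h2 := congrFun h i
    simp only [Pi.add_apply, Pi.neg_apply, Pi.zero_apply, vec] at h2
    linear_combination -h2
  have h0 : F 0 * (starRingEnd ℂ) (G 0) * S 0 = (A.card : ℂ) * B.card * (s : ℂ) ^ 2 := by
    have e0 : ∀ z : Fin r → ZMod s, ch 0 z = 1 := by
      intro z
      unfold ch
      simp
    simp only [hF, hG, hS, e0, sum_const, card_univ, ZMod.card, nsmul_eq_mul, mul_one, map_natCast]
    ring
  have hSle : ∀ c : Fin r → ZMod s, c ≠ 0 → ‖S c‖ ≤ (s : ℝ) * ((r : ℝ) - 1) := by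
    intro c hc
    have h1 : S c = _ := S_eq c
    rw [h1, norm_mul, Complex.norm_natCast, Complex.norm_natCast]
    refine mul_le_mul_of_nonneg_left ?_ (Nat.cast_nonneg _)
    have h2 := card_zeros c hc
    have h3 : ((r - 1 : ℕ) : ℝ) = (r : ℝ) - 1 := by
      rw [Nat.cast_sub hr, Nat.cast_one]
    rw [← h3]
    exact_mod_cast h2
  set α : ℝ := (A.card : ℝ) with hα
  set β : ℝ := (B.card : ℝ) with hβ
  set t : ℝ := (s : ℝ) ^ r with ht
  have hs0 : (0 : ℝ) < s := Nat.cast_pos.2 (Fact.out : s.Prime).pos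
  have hr1 : (0 : ℝ) ≤ (r : ℝ) - 1 := by
    have : (1 : ℝ) ≤ r := by exact_mod_cast hr
    linarith
  have hbound : α * β * (s : ℝ) ^ 2 ≤ (s : ℝ) * ((r : ℝ) - 1) * ∑ c : Fin r → ZMod s,
      ‖F c‖ * ‖G c‖ := by
    have h1 : F 0 * (starRingEnd ℂ) (G 0) * S 0 =
        -∑ c ∈ univ.erase (0 : Fin r → ZMod s), F c * (starRingEnd ℂ) (G c) * S c := by
      rw [← add_sum_erase _ _ (mem_univ (0 : Fin r → ZMod s))] at hzero
      linear_combination hzero
    have h2 : ‖F 0 * (starRingEnd ℂ) (G 0) * S 0‖ = α * β * (s : ℝ) ^ 2 := by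
      rw [h0, norm_mul, norm_mul, norm_pow, Complex.norm_natCast, Complex.norm_natCast,
        Complex.norm_natCast]
    rw [← h2, h1, norm_neg, mul_sum]
    calc _ ≤ ∑ c ∈ univ.erase (0 : Fin r → ZMod s), ‖F c * (starRingEnd ℂ) (G c) * S c‖ :=
          norm_sum_le _ _
      _ ≤ ∑ c ∈ univ.erase (0 : Fin r → ZMod s), (s : ℝ) * ((r : ℝ) - 1) * (‖F c‖ * ‖G c‖) := by
          refine sum_le_sum fun c hc => ?_
          rw [norm_mul, norm_mul, RCLike.norm_conj, mul_comm]
          exact mul_le_mul_of_nonneg_right (hSle c (ne_of_mem_erase hc))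
            (mul_nonneg (norm_nonneg _) (norm_nonneg _))
      _ ≤ _ := by
          refine sum_le_sum_of_subset_of_nonneg (erase_subset _ _) fun c _ _ => ?_
          positivity
  have hcs : (∑ c : Fin r → ZMod s, ‖F c‖ * ‖G c‖) ^ 2 ≤ (t * α) * (t * β) := by
    have h1 := sum_mul_sq_le_sq_mul_sq (univ : Finset (Fin r → ZMod s))
      (fun c => ‖F c‖) (fun c => ‖G c‖)
    have h2 : ∑ c : Fin r → ZMod s, ‖F c‖ ^ 2 = t * α := parseval A
    have h3 : ∑ c : Fin r → ZMod s, ‖G c‖ ^ 2 = t * β := parseval B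
    rw [h2, h3] at h1
    exact h1
  have hA' : ((r : ℝ) - 1) * t < s * α := by
    have h3 : ((r - 1 : ℕ) : ℝ) = (r : ℝ) - 1 := by
      rw [Nat.cast_sub hr, Nat.cast_one]
    have h4 : (((r - 1) * s ^ r : ℕ) : ℝ) < ((s * A.card : ℕ) : ℝ) := by exact_mod_cast hA
    rw [Nat.cast_mul, Nat.cast_mul, h3, Nat.cast_pow] at h4
    exact h4
  have hB' : ((r : ℝ) - 1) * t < s * β := by
    have h3 : ((r - 1 : ℕ) : ℝ) = (r : ℝ) - 1 := by
      rw [Nat.cast_sub hr, Nat.cast_one]
    have h4 : (((r - 1) * s ^ r : ℕ) : ℝ) < ((s * B.card : ℕ) : ℝ) := by exact_mod_cast hB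
    rw [Nat.cast_mul, Nat.cast_mul, h3, Nat.cast_pow] at h4
    exact h4
  have ht0 : 0 < t := pow_pos hs0 r
  have hrt : 0 ≤ ((r : ℝ) - 1) * t := mul_nonneg hr1 ht0.le
  have hα0 : 0 < α := by
    have h1 : 0 < (s : ℝ) * α := lt_of_le_of_lt hrt hA'
    exact (mul_pos_iff_of_pos_left hs0).1 h1
  have hβ0 : 0 < β := by
    have h1 : 0 < (s : ℝ) * β := lt_of_le_of_lt hrt hB'
    exact (mul_pos_iff_of_pos_left hs0).1 h1
  set Z : ℝ := ∑ c : Fin r → ZMod s, ‖F c‖ * ‖G c‖ with hZ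
  have hZ0 : 0 ≤ Z := sum_nonneg fun c _ => mul_nonneg (norm_nonneg _) (norm_nonneg _)
  have e1 : (α * β * (s : ℝ) ^ 2) ^ 2 ≤ ((s : ℝ) * ((r : ℝ) - 1)) ^ 2 * ((t * α) * (t * β)) := by
    calc _ ≤ ((s : ℝ) * ((r : ℝ) - 1) * Z) ^ 2 := by
          refine pow_le_pow_left₀ (by positivity) hbound 2
      _ = ((s : ℝ) * ((r : ℝ) - 1)) ^ 2 * Z ^ 2 := by ring
      _ ≤ _ := mul_le_mul_of_nonneg_left hcs (sq_nonneg _)
  have e2 : (((r : ℝ) - 1) * t) * (((r : ℝ) - 1) * t) < (s * α) * (s * β) :=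
    mul_lt_mul'' hA' hB' hrt hrt
  have e3 : (0 : ℝ) < α * β * (s : ℝ) ^ 2 := by positivity
  have e4 := mul_lt_mul_of_pos_left e2 e3
  nlinarith

end MP1fca05
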