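import Mathlib

/-!
Black pebbling, factor below two (MP_1fca05_lc), definitions.
-/

namespace MP1fca05

/-- One move of the standard black pebble game on the digraph with arcs `E` (`E u v`: an arc from
`u` to `v`): place a pebble on `v` if all direct predecessors of `v` carry pebbles, remove a
pebble, or slide a pebble from a direct predecessor `u` of `v` onto `v` if all direct predecessors
of `v` carry pebbles. -/
def Move {V : Type} [DecidableEq V] (E : V → V → Prop) (P Q : Finset V) : Prop :=
  (∃ v, v ∉ P ∧ (∀ u, E u v → u ∈ P) ∧ Q = insert v P) ∨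
  (∃ v, v ∈ P ∧ Q = P.erase v) ∨
  (∃ u v, u ∈ P ∧ v ∉ P ∧ E u v ∧ (∀ w, E w v → w ∈ P) ∧ Q = insert v (P.erase u))

/-- There is a pebbling strategy of cost at most `k`: a finite sequence of moves from the empty
configuration to a configuration with a pebble on `t`, never using more than `k` pebbles. -/
def CanPebble {V : Type} [DecidableEq V] (E : V → V → Prop) (t : V) (k : ℕ) : Prop :=
  ∃ (T : ℕ) (S : ℕ → Finset V), S 0 = ∅ ∧ (∀ i, i < T → Move E (S i) (S (i + 1))) ∧ t ∈ S T ∧
    ∀ i, i ≤ T → (S i).card ≤ k

/-- The black pebbling number: the least cost of a pebbling strategy for the target `t`. -/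
noncomputable def Peb {V : Type} [DecidableEq V] (E : V → V → Prop) (t : V) : ℕ :=
  sInf {k | CanPebble E t k}

/-- `E` is acyclic with unique sink `t` and indegree at most two. -/
structure IsPebDag {V : Type} (E : V → V → Prop) (t : V) : Prop where
  acyclic : ∀ v, ¬ Relation.TransGen E v v
  sink : ∀ v, (∀ w, ¬ E v w) ↔ v = t
  indeg : ∀ v, {u | E u v}.encard ≤ 2

/-- `R` on the columns `0, ..., m-1`, extended by a hub column (the last one) which is joined to
and from every column. -/
def Rp {m : ℕ} (R : Fin m → Fin m → Prop) (a b : Fin (m + 1)) : Prop :=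
  a = Fin.last m ∨ b = Fin.last m ∨ ∃ i j : Fin m, a = i.castSucc ∧ b = j.castSucc ∧ R i j

/-- The nodes of the dag `D_R`: `inl (w, l, j)` is the `j`-th node of column `w` in layer `l`, and
`inr j` is the `j`-th node of the final chain. -/
abbrev Node (m : ℕ) : Type := (Fin (m + 1) × Fin (20 * (m + 1)) × Fin (m + 1)) ⊕ Fin (m + 1)

/-- The arcs of the dag `D_R`. The nodes `(w, l, 0), ..., (w, l, m)` form a path; for `l > 0` the
node `(w, l, j)` has moreover the arc from the last node `(j, l - 1, m)` of column `j` in the
layer below, if `R` (extended by the hub) relates column `j` to column `w`. The nodes of the final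
chain form a path; its `j`-th node has moreover the arc from the last node of column `j` in the
top layer. -/
def Arc {m : ℕ} (R : Fin m → Fin m → Prop) : Node m → Node m → Prop
  | .inl (u, a, i), .inl (w, b, j) =>
      (u = w ∧ a = b ∧ (i : ℕ) + 1 = j) ∨
        (i = Fin.last m ∧ (a : ℕ) + 1 = b ∧ u = j ∧ Rp R u w)
  | .inl (u, a, i), .inr j => i = Fin.last m ∧ (a : ℕ) + 1 = 20 * (m + 1) ∧ u = j
  | .inr i, .inr j => (i : ℕ) + 1 = j
  | .inr _, .inl _ => False

/-- The sink of `D_R`: the last node of the final chain. -/
def tgt (m : ℕ) : Node m := .inr (Fin.last m)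

/-- The columns can be ordered (`f u` is the position of `u`) so that, for every `i`, the first
`i` of them are related to at most `i + k` columns. -/
def Layout {m : ℕ} (R : Fin m → Fin m → Prop) (k : ℕ) : Prop :=
  ∃ f : Fin m ≃ Fin m, ∀ i : ℕ, {v | ∃ u, (f u : ℕ) < i ∧ R u v}.ncard ≤ i + k

/-- Any two (not necessarily disjoint) sets `A`, `B` of at least `q` columns are joined by `R`,
from `A` to `B`. -/
def Joined {m : ℕ} (R : Fin m → Fin m → Prop) (q : ℕ) : Prop :=
  ∀ A B : Finset (Fin m), q ≤ A.card → q ≤ B.card → ∃ a ∈ A, ∃ b ∈ B, R a b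

end MP1fca05
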