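import Mathlib
import Pool.Agent.Lib.MP_1fca05_lc.Defs

/-!
A feedback vertex set gives a layout.
-/

namespace MP1fca05

theorem layout_of_acyclic {m : ℕ} (R : Fin m → Fin m → Prop) (H : Finset (Fin m))
    (hH : ∀ v, ¬ Relation.TransGen (fun a b => R a b ∧ a ∉ H ∧ b ∉ H) v v) :
    Layout R H.card := by
  classical
  set E : Fin m → Fin m → Prop := fun a b => R a b ∧ a ∉ H ∧ b ∉ H with hE
  let r : Fin m → ℕ := fun u => if u ∈ H then m + 1 else
    (Finset.univ.filter (fun v => Relation.TransGen E u v)).card
  have hrH : ∀ u, u ∈ H → r u = m + 1 := fun u hu => if_pos hu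
  have hrN : ∀ u, u ∉ H → r u = (Finset.univ.filter (fun v => Relation.TransGen E u v)).card :=
    fun u hu => if_neg hu
  have hle : ∀ u, u ∉ H → r u ≤ m := by
    intro u hu
    rw [hrN u hu]
    calc (Finset.univ.filter (fun v => Relation.TransGen E u v)).card
        ≤ (Finset.univ : Finset (Fin m)).card := Finset.card_le_card (Finset.filter_subset _ _)
      _ = m := by simp
  have hlt : ∀ u v, R u v → v ∉ H → r v < r u := by
    intro u v h hv
    by_cases hu : u ∈ H
    · rw [hrH u hu]
      exact Nat.lt_succ_of_le (hle v hv)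
    · have hE' : E u v := ⟨h, hu, hv⟩
      rw [hrN u hu, hrN v hv]
      apply Finset.card_lt_card
      rw [Finset.ssubset_iff_of_subset]
      · refine ⟨v, ?_, ?_⟩
        · simpa using Relation.TransGen.single hE'
        · simpa using hH v
      · intro w hw
        simp only [Finset.mem_filter, Finset.mem_univ, true_and] at hw ⊢
        exact Relation.TransGen.head hE' hw
  have hmono : Monotone (r ∘ Tuple.sort r) := Tuple.monotone_sort r
  refine ⟨(Tuple.sort r).symm, fun i => ?_⟩
  have hpos : ∀ u v, r v < r u → (Tuple.sort r).symm v < (Tuple.sort r).symm u := by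
    intro u v h
    by_contra hc
    have h1 := hmono (not_lt.mp hc)
    simp only [Function.comp_apply, Equiv.apply_symm_apply] at h1
    omega
  have hsub : {v | ∃ u, ((Tuple.sort r).symm u : ℕ) < i ∧ R u v} ⊆
      (H : Set (Fin m)) ∪ ((Finset.univ.filter (fun v => ((Tuple.sort r).symm v : ℕ) < i) :
        Finset (Fin m)) : Set (Fin m)) := by
    rintro v ⟨u, hu, huv⟩
    by_cases hv : v ∈ H
    · exact Or.inl hv
    · refine Or.inr ?_
      have h1 : ((Tuple.sort r).symm v : ℕ) < (Tuple.sort r).symm u := hpos u v (hlt u v huv hv)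
      simpa using lt_trans h1 hu
  have hcard : (Finset.univ.filter (fun v => ((Tuple.sort r).symm v : ℕ) < i)).card ≤ i := by
    have h1 : (Finset.univ.filter (fun v => ((Tuple.sort r).symm v : ℕ) < i)).card
        ≤ (Finset.range i).card := by
      apply Finset.card_le_card_of_injOn (fun v => ((Tuple.sort r).symm v : ℕ))
      · intro v hv
        simpa using hv
      · intro a _ b _ hab
        exact (Tuple.sort r).symm.injective (Fin.ext hab)
    simpa using h1
  calc {v | ∃ u, ((Tuple.sort r).symm u : ℕ) < i ∧ R u v}.ncard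
      ≤ ((H : Set (Fin m)) ∪ ((Finset.univ.filter
          (fun v => ((Tuple.sort r).symm v : ℕ) < i) : Finset (Fin m)) : Set (Fin m))).ncard :=
        Set.ncard_le_ncard hsub (Set.toFinite _)
    _ ≤ (H : Set (Fin m)).ncard + ((Finset.univ.filter
          (fun v => ((Tuple.sort r).symm v : ℕ) < i) : Finset (Fin m)) : Set (Fin m)).ncard :=
        Set.ncard_union_le _ _
    _ ≤ i + H.card := by
        rw [Set.ncard_coe_finset, Set.ncard_coe_finset]
        omega

end MP1fca05
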