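import Pool.Agent.Lib.MP_1fca05_lc.Open

/-!
Live levels and heavy layers.
-/

namespace MP1fca05

open scoped Classical in
/-- the columns (other than the hub) which are open at level `k` -/
noncomputable def Oc {m : ℕ} (R : Fin m → Fin m → Prop) (P : Finset (Nd m)) (b k : ℕ) :
    Finset (Fin m) :=
  Finset.univ.filter (fun w => Op R P b k w.castSucc)

open scoped Classical in
/-- the columns (other than the hub) with an element of `P` in layer `a` -/
noncomputable def cols {m : ℕ} (P : Finset (Nd m)) (a : ℕ) : Finset (Fin m) :=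
  Finset.univ.filter (fun w => ∃ i, (w.castSucc, a, i) ∈ P)

/-- at least `q` columns are open at level `k` -/
def Live {m : ℕ} (R : Fin m → Fin m → Prop) (q : ℕ) (P : Finset (Nd m)) (b k : ℕ) : Prop :=
  q ≤ (Oc R P b k).card

section

variable {m : ℕ} {R : Fin m → Fin m → Prop}

theorem mem_Oc {P : Finset (Nd m)} {b k : ℕ} {w : Fin m} :
    w ∈ Oc R P b k ↔ Op R P b k w.castSucc := by
  simp [Oc]

theorem mem_cols {P : Finset (Nd m)} {a : ℕ} {w : Fin m} :
    w ∈ cols P a ↔ ∃ i, (w.castSucc, a, i) ∈ P := by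
  simp [cols]

theorem not_live_of_none {q : ℕ} (hq : 1 ≤ q) {P : Finset (Nd m)} {b k : ℕ}
    (h : ∀ w, ¬ Op R P b k w) : ¬ Live R q P b k := by
  unfold Live
  have : Oc R P b k = ∅ := by
    apply Finset.eq_empty_of_forall_notMem
    intro w hw
    exact h _ (mem_Oc.1 hw)
  rw [this, Finset.card_empty]
  omega

theorem exists_open_of_live {q : ℕ} (hq : 1 ≤ q) {P : Finset (Nd m)} {b k : ℕ}
    (h : Live R q P b k) : ∃ w, Op R P b k w := by
  unfold Live at h
  have : (Oc R P b k).Nonempty := by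
    rw [← Finset.card_pos]
    omega
  obtain ⟨w, hw⟩ := this
  exact ⟨_, mem_Oc.1 hw⟩

theorem heavy_zero {q : ℕ} (hq : 1 ≤ q) {P : Finset (Nd m)} {b : ℕ}
    (h : ¬ Live R q P b 0) : m + 2 ≤ (cols P b).card + 2 * q := by
  have h1 : (Finset.univ : Finset (Fin m)) ⊆ Oc R P b 0 ∪ cols P b := by
    intro w _
    rw [Finset.mem_union, mem_Oc, mem_cols]
    by_cases hw : (w.castSucc, b, Fin.last m) ∈ P
    · exact Or.inr ⟨_, hw⟩
    · exact Or.inl hw
  have h2 := (Finset.card_le_card h1).trans (Finset.card_union_le _ _)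
  rw [Finset.card_univ, Fintype.card_fin] at h2
  unfold Live at h
  omega

theorem heavy_succ {q : ℕ} (hR : Joined R q) {P : Finset (Nd m)} {b k : ℕ}
    (h0 : Live R q P b k) (h : ¬ Live R q P b (k + 1)) :
    m + 2 ≤ (cols P (b + (k + 1))).card + 2 * q := by
  classical
  set W : Finset (Fin m) := Finset.univ \ (Oc R P b (k + 1) ∪ cols P (b + (k + 1))) with hW
  have hWq : W.card < q := by
    by_contra hcon
    push Not at hcon
    obtain ⟨a, ha, w, hw, haw⟩ := hR _ _ h0 hcon
    rw [hW, Finset.mem_sdiff, Finset.mem_union, not_or, mem_Oc, mem_cols] at hw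
    obtain ⟨_, hw1, hw2⟩ := hw
    push Not at hw2
    exact hw1 ⟨a.castSucc, mem_Oc.1 ha, Or.inr (Or.inr ⟨a, w, rfl, rfl, haw⟩), fun i _ => hw2 i⟩
  have h1 : (Finset.univ : Finset (Fin m)) ⊆ W ∪ (Oc R P b (k + 1) ∪ cols P (b + (k + 1))) := by
    intro w _
    by_cases hw : w ∈ Oc R P b (k + 1) ∪ cols P (b + (k + 1))
    · exact Finset.mem_union_right _ hw
    · exact Finset.mem_union_left _ (Finset.mem_sdiff.2 ⟨Finset.mem_univ _, hw⟩)
  have h2 := (Finset.card_le_card h1).trans (Finset.card_union_le _ _)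
  have h3 := Finset.card_union_le (Oc R P b (k + 1)) (cols P (b + (k + 1)))
  rw [Finset.card_univ, Fintype.card_fin] at h2
  unfold Live at h
  omega

/-- a level that is not live, above live levels only, gives a heavy layer -/
theorem exists_heavy {q : ℕ} (hq : 1 ≤ q) (hR : Joined R q) {P : Finset (Nd m)} {b k : ℕ}
    (h : ¬ Live R q P b k) :
    ∃ j ≤ k, ¬ Live R q P b j ∧ m + 2 ≤ (cols P (b + j)).card + 2 * q := by
  classical
  have hex : ∃ j, ¬ Live R q P b j := ⟨k, h⟩
  refine ⟨Nat.find hex, Nat.find_min' hex h, Nat.find_spec hex, ?_⟩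
  have hs := Nat.find_spec hex
  rcases Nat.eq_zero_or_pos (Nat.find hex) with h0 | h0
  · rw [h0] at hs ⊢
    exact heavy_zero hq hs
  · obtain ⟨j, hj⟩ : ∃ j, Nat.find hex = j + 1 := ⟨Nat.find hex - 1, by omega⟩
    rw [hj] at hs ⊢
    have h1 : Live R q P b j := by
      by_contra hcon
      have := Nat.find_min' hex hcon
      omega
    exact heavy_succ hR h1 hs

theorem card_cols_le {P U : Finset (Nd m)} (hPU : P ⊆ U) (a : ℕ) :
    (cols P a).card ≤ (U.filter (fun x => x.2.1 = a)).card := by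
  classical
  have h1 : (cols P a).image Fin.castSucc ⊆ (U.filter (fun x => x.2.1 = a)).image (fun x => x.1) := by
    intro w hw
    obtain ⟨w', hw', rfl⟩ := Finset.mem_image.1 hw
    obtain ⟨i, hi⟩ := mem_cols.1 hw'
    exact Finset.mem_image.2 ⟨_, Finset.mem_filter.2 ⟨hPU hi, rfl⟩, rfl⟩
  calc (cols P a).card = ((cols P a).image Fin.castSucc).card :=
        (Finset.card_image_of_injective _ (Fin.castSucc_injective m)).symm
    _ ≤ _ := Finset.card_le_card h1
    _ ≤ _ := Finset.card_image_le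

theorem card_two {P P' U : Finset (Nd m)} (hP : P ⊆ U) (hP' : P' ⊆ U) {a a' : ℕ} (ha : a ≠ a') :
    (cols P a).card + (cols P' a').card ≤ U.card := by
  classical
  have h1 := card_cols_le hP a
  have h2 := card_cols_le hP' a'
  have h3 : Disjoint (U.filter (fun x => x.2.1 = a)) (U.filter (fun x => x.2.1 = a')) := by
    rw [Finset.disjoint_filter]
    intro x _ hx hx'
    exact ha (hx.symm.trans hx')
  have h4 : (U.filter (fun x => x.2.1 = a)) ∪ (U.filter (fun x => x.2.1 = a')) ⊆ U :=
    Finset.union_subset (Finset.filter_subset _ _) (Finset.filter_subset _ _)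
  have h5 := Finset.card_le_card h4
  rw [Finset.card_union_of_disjoint h3] at h5
  omega

end

end MP1fca05
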