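import Pool.Agent.Lib.MP_1fca05_lc.Defs

namespace MP1fca05

/-- A rank which increases along the arcs. -/
def rk {m : ℕ} : Node m → ℕ
  | .inl (_, l, j) => (l : ℕ) * (m + 1) + j
  | .inr j => 20 * (m + 1) * (m + 1) + j

theorem rk_lt {m : ℕ} {R : Fin m → Fin m → Prop} {x y : Node m} (h : Arc R x y) : rk x < rk y := by
  match x, y, h with
  | .inl (u, a, i), .inl (w, b, j), h =>
    show (a : ℕ) * (m + 1) + i < (b : ℕ) * (m + 1) + j
    rcases h with ⟨_, h2, h3⟩ | ⟨h1, h2, _, _⟩
    · rw [h2]; omega
    · have h4 : (i : ℕ) = m := by rw [h1]; rfl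
      rw [h4, ← h2]
      have : ((a : ℕ) + 1) * (m + 1) = (a : ℕ) * (m + 1) + (m + 1) := by ring
      omega
  | .inl (u, a, i), .inr j, h =>
    show (a : ℕ) * (m + 1) + i < 20 * (m + 1) * (m + 1) + j
    obtain ⟨_, h2, _⟩ := h
    have h3 : ((a : ℕ) + 1) * (m + 1) = (a : ℕ) * (m + 1) + (m + 1) := by ring
    rw [h2] at h3
    have := i.isLt
    omega
  | .inr i, .inr j, h =>
    show 20 * (m + 1) * (m + 1) + (i : ℕ) < 20 * (m + 1) * (m + 1) + j
    have h1 : (i : ℕ) + 1 = j := h
    omega

theorem rk_transGen {m : ℕ} {R : Fin m → Fin m → Prop} {x y : Node m}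
    (h : Relation.TransGen (Arc R) x y) : rk x < rk y := by
  induction h with
  | single h => exact rk_lt h
  | tail _ h ih => exact ih.trans (rk_lt h)

theorem encard_pair_le' {α : Type*} (x y : α) : ({x, y} : Set α).encard ≤ 2 := by
  refine (Set.encard_insert_le _ _).trans ?_
  rw [Set.encard_singleton]
  norm_num

theorem isPebDag {m : ℕ} (R : Fin m → Fin m → Prop) : IsPebDag (Arc R) (tgt m) := by
  refine ⟨fun v h => lt_irrefl _ (rk_transGen h), fun v => ⟨fun h => ?_, ?_⟩, fun v => ?_⟩
  · by_contra hv
    match v, h, hv with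
    | .inl (w, l, j), h, _ =>
      by_cases hj : (j : ℕ) < m
      · exact h (.inl (w, l, ⟨j + 1, by omega⟩)) (Or.inl ⟨rfl, rfl, rfl⟩)
      · have hj' : j = Fin.last m := by
          apply Fin.ext
          have h1 : ((Fin.last m : Fin (m + 1)) : ℕ) = m := rfl
          rw [h1]
          have := j.isLt
          omega
        by_cases hl : (l : ℕ) + 1 < 20 * (m + 1)
        · exact h (.inl (Fin.last m, ⟨l + 1, hl⟩, w))
            (Or.inr ⟨hj', rfl, rfl, Or.inr (Or.inl rfl)⟩)
        · refine h (.inr w) ⟨hj', ?_, rfl⟩
          have := l.isLt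
          omega
    | .inr j, h, hv =>
      by_cases hj : (j : ℕ) < m
      · exact h (.inr ⟨j + 1, by omega⟩) rfl
      · refine hv ?_
        show (Sum.inr j : Node m) = .inr (Fin.last m)
        have hj' : j = Fin.last m := by
          apply Fin.ext
          have h1 : ((Fin.last m : Fin (m + 1)) : ℕ) = m := rfl
          rw [h1]
          have := j.isLt
          omega
        rw [hj']
  · rintro rfl w h
    match w, h with
    | .inr j, h =>
      have h1 : ((Fin.last m : Fin (m + 1)) : ℕ) + 1 = j := h
      have h2 : ((Fin.last m : Fin (m + 1)) : ℕ) = m := rfl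
      have := j.isLt
      omega
  · match v with
    | .inl (w, b, j) =>
      have hsub : {u | Arc R u (.inl (w, b, j))} ⊆
          {(.inl (w, b, ⟨(j : ℕ) - 1, by have := j.isLt; omega⟩) : Node m),
            .inl (j, ⟨(b : ℕ) - 1, by have := b.isLt; omega⟩, Fin.last m)} := by
        intro u hu
        match u, hu with
        | .inl (u, a, i), hu =>
          rcases hu with ⟨h1, h2, h3⟩ | ⟨h1, h2, h3, _⟩
          · left
            have h4 : i = ⟨(j : ℕ) - 1, by have := j.isLt; omega⟩ := by
              apply Fin.ext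
              show (i : ℕ) = (j : ℕ) - 1
              omega
            rw [h1, h2, h4]
          · right
            have h4 : a = ⟨(b : ℕ) - 1, by have := b.isLt; omega⟩ := by
              apply Fin.ext
              show (a : ℕ) = (b : ℕ) - 1
              omega
            rw [Set.mem_singleton_iff, h1, h3, h4]
      exact (Set.encard_le_encard hsub).trans (encard_pair_le' _ _)
    | .inr j =>
      have hsub : {u | Arc R u (.inr j)} ⊆
          {(.inr ⟨(j : ℕ) - 1, by have := j.isLt; omega⟩ : Node m),
            .inl (j, ⟨20 * (m + 1) - 1, by omega⟩, Fin.last m)} := by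
        intro u hu
        match u, hu with
        | .inl (u, a, i), hu =>
          obtain ⟨h1, h2, h3⟩ := hu
          right
          have h4 : a = ⟨20 * (m + 1) - 1, by omega⟩ := by
            apply Fin.ext
            show (a : ℕ) = 20 * (m + 1) - 1
            omega
          rw [Set.mem_singleton_iff, h1, h3, h4]
        | .inr i, hu =>
          left
          have h1 : (i : ℕ) + 1 = j := hu
          have h4 : i = ⟨(j : ℕ) - 1, by have := j.isLt; omega⟩ := by
            apply Fin.ext
            show (i : ℕ) = (j : ℕ) - 1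
            omega
          rw [h4]
      exact (Set.encard_le_encard hsub).trans (encard_pair_le' _ _)

theorem card_node (m : ℕ) : Fintype.card (Node m) = 20 * (m + 1) ^ 3 + (m + 1) := by
  simp only [Node, Fintype.card_sum, Fintype.card_prod, Fintype.card_fin]
  ring

end MP1fca05
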