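import Pool.Agent.Lib.MP_1fca05_lc.Low
import Pool.Agent.Lib.MP_1fca05_lc.Upper
import Pool.Agent.Lib.MP_1fca05_lc.Props

/-!
Transfer of strategies to the infinite layered dag, and the bounds for the pebbling number.
-/

namespace MP1fca05

section

variable {m : ℕ} {R : Fin m → Fin m → Prop}

/-- the embedding of `D_R` into the infinite layered dag -/
def emb (m : ℕ) : Node m → Nd m
  | .inl (u, a, i) => (u, a, i)
  | .inr j => (Fin.last m, 20 * (m + 1), j)

theorem emb_injective (m : ℕ) : Function.Injective (emb m) := by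
  rintro (⟨u, a, i⟩ | i) (⟨w, b, j⟩ | j) h
  · simp only [emb, Prod.mk.injEq] at h
    obtain ⟨h1, h2, h3⟩ := h
    rw [h1, h3, Fin.ext h2]
  · simp only [emb, Prod.mk.injEq] at h
    have := a.2
    omega
  · simp only [emb, Prod.mk.injEq] at h
    have := b.2
    omega
  · simp only [emb, Prod.mk.injEq] at h
    rw [h.2.2]

theorem emb_pred {x : Nd m} {v : Node m} (h : Pr R x (emb m v)) :
    ∃ u, Arc R u v ∧ emb m u = x := by
  obtain ⟨xu, xa, xi⟩ := x
  rcases v with ⟨w, b, j⟩ | j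
  · rcases h with ⟨h1, h2, h3⟩ | ⟨h1, h2, h3, h4⟩
    · simp only [emb] at h1 h2 h3
      subst h1 h2
      exact ⟨.inl (xu, b, xi), Or.inl ⟨rfl, rfl, h3⟩, rfl⟩
    · simp only [emb] at h1 h2 h3 h4
      subst h1 h3
      have hb := b.2
      refine ⟨.inl (xu, ⟨xa, by omega⟩, Fin.last m), Or.inr ⟨rfl, h2, rfl, h4⟩, rfl⟩
  · rcases h with ⟨h1, h2, h3⟩ | ⟨h1, h2, h3, h4⟩
    · simp only [emb] at h1 h2 h3
      subst h1 h2
      exact ⟨.inr xi, h3, rfl⟩
    · simp only [emb] at h1 h2 h3 h4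
      subst h1 h3
      refine ⟨.inl (xu, ⟨xa, by omega⟩, Fin.last m), ⟨rfl, h2, rfl⟩, rfl⟩

theorem st_of_move {P Q : Finset (Node m)} (h : Move (Arc R) P Q) :
    St R (P.image (emb m)) (Q.image (emb m)) := by
  classical
  rcases h with ⟨v, _, h2, rfl⟩ | ⟨v, _, rfl⟩ | ⟨u, v, _, _, _, h4, rfl⟩
  · refine ⟨emb m v, fun x hx => ?_, ?_⟩
    · obtain ⟨u, hu, rfl⟩ := emb_pred hx
      exact Finset.mem_image_of_mem _ (h2 u hu)
    · rw [Finset.image_insert]
  · refine ⟨(0, 0, 0), fun x hx => ?_, ?_⟩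
    · rcases hx with ⟨_, _, h3⟩ | ⟨_, h3, _, _⟩
      · simp at h3
      · simp at h3
    · exact (Finset.image_subset_image (Finset.erase_subset _ _)).trans (Finset.subset_insert _ _)
  · refine ⟨emb m v, fun x hx => ?_, ?_⟩
    · obtain ⟨u, hu, rfl⟩ := emb_pred hx
      exact Finset.mem_image_of_mem _ (h4 u hu)
    · rw [Finset.image_insert]
      exact Finset.insert_subset_insert _ (Finset.image_subset_image (Finset.erase_subset _ _))

theorem low_of_canPebble {q : ℕ} (hR : Joined R q) {s : ℕ} (h : CanPebble (Arc R) (tgt m) s) :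
    2 * (m + 2) ≤ s + 1 + 4 * q := by
  classical
  by_contra hcon
  have hq := one_le_of_joined hR
  obtain ⟨T, S, hS0, hS, hT, hc⟩ := h
  apply hcon
  apply low_inf hR (s := s) (T := T) (L := 20 * (m + 1)) (fun t => (S t).image (emb m))
  · simp [hS0]
  · intro t ht
    exact st_of_move (hS t ht)
  · intro t ht
    exact (Finset.card_image_le).trans (hc t ht)
  · exact Finset.mem_image_of_mem (emb m) hT
  · omega

theorem layout_self (R : Fin m → Fin m → Prop) : Layout R m := by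
  refine ⟨Equiv.refl _, fun i => ?_⟩
  have h1 := Set.ncard_le_ncard (Set.subset_univ {v | ∃ u, ((Equiv.refl (Fin m)) u : ℕ) < i ∧ R u v})
  rw [Set.ncard_univ, Nat.card_eq_fintype_card, Fintype.card_fin] at h1
  omega

theorem exists_canPebble (R : Fin m → Fin m → Prop) : CanPebble (Arc R) (tgt m) (m + m + 3) :=
  canPebble_of_layout R m (layout_self R)

theorem canPebble_peb (R : Fin m → Fin m → Prop) :
    CanPebble (Arc R) (tgt m) (Peb (Arc R) (tgt m)) :=
  Nat.sInf_mem (s := {k | CanPebble (Arc R) (tgt m) k}) ⟨_, exists_canPebble R⟩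

theorem peb_le {k : ℕ} (h : Layout R k) : Peb (Arc R) (tgt m) ≤ m + k + 3 :=
  Nat.sInf_le (canPebble_of_layout R k h)

theorem le_peb {q : ℕ} (h : Joined R q) : 2 * m + 3 ≤ Peb (Arc R) (tgt m) + 4 * q := by
  have := low_of_canPebble h (canPebble_peb R)
  omega

end

end MP1fca05
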