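import Pool.Agent.Lib.MP_1fca05_lc.Defs

/-!
Open paths in the infinite layered dag.
-/

namespace MP1fca05

/-- nodes of the infinite layered dag -/
abbrev Nd (m : ℕ) : Type := Fin (m + 1) × ℕ × Fin (m + 1)

/-- arcs of the infinite layered dag -/
def Pr {m : ℕ} (R : Fin m → Fin m → Prop) (x y : Nd m) : Prop :=
  (x.1 = y.1 ∧ x.2.1 = y.2.1 ∧ (x.2.2 : ℕ) + 1 = y.2.2) ∨
    (x.2.2 = Fin.last m ∧ x.2.1 + 1 = y.2.1 ∧ x.1 = y.2.2 ∧ Rp R x.1 y.1)

/-- `Op R P b k w`: there is a path free of the set `P` from the last node of a column in layer `b`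
to the last node of column `w` in layer `b + k`. -/
def Op {m : ℕ} (R : Fin m → Fin m → Prop) (P : Finset (Nd m)) (b : ℕ) : ℕ → Fin (m + 1) → Prop
  | 0, w => (w, b, Fin.last m) ∉ P
  | k + 1, w => ∃ u, Op R P b k u ∧ Rp R u w ∧ ∀ i, u ≤ i → (w, b + k + 1, i) ∉ P

/-- One step on the infinite layered dag. -/
def St {m : ℕ} (R : Fin m → Fin m → Prop) (P Q : Finset (Nd m)) : Prop :=
  ∃ v, (∀ u, Pr R u v → u ∈ P) ∧ Q ⊆ insert v P

section

variable {m : ℕ} {R : Fin m → Fin m → Prop}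

theorem rp_last_right (a : Fin (m + 1)) : Rp R a (Fin.last m) := Or.inr (Or.inl rfl)

theorem rp_last_left (a : Fin (m + 1)) : Rp R (Fin.last m) a := Or.inl rfl

theorem op_out {P : Finset (Nd m)} {b : ℕ} : ∀ {k : ℕ} {w : Fin (m + 1)}, Op R P b k w →
    (w, b + k, Fin.last m) ∉ P
  | 0, w, h => h
  | k + 1, w, h => by
      obtain ⟨u, _, _, h3⟩ := h
      have := h3 (Fin.last m) (Fin.le_last u)
      simpa [add_assoc] using this

theorem op_anti {P Q : Finset (Nd m)} (hQ : Q ⊆ P) {b : ℕ} : ∀ {k : ℕ} {w : Fin (m + 1)},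
    Op R P b k w → Op R Q b k w
  | 0, w, h => fun hh => h (hQ hh)
  | k + 1, w, h => by
      obtain ⟨u, h1, h2, h3⟩ := h
      exact ⟨u, op_anti hQ h1, h2, fun i hi hh => h3 i hi (hQ hh)⟩

theorem op_place {P : Finset (Nd m)} {v : Nd m} (hv : ∀ u, Pr R u v → u ∈ P) {b : ℕ}
    (hb : ∀ w, v ≠ (w, b, Fin.last m)) : ∀ {k : ℕ} {w : Fin (m + 1)},
    Op R P b k w → Op R (insert v P) b k w
  | 0, w, h => by
      intro hh
      rcases Finset.mem_insert.1 hh with hh | hh
      · exact hb w hh.symm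
      · exact h hh
  | k + 1, w, h => by
      obtain ⟨u, h1, h2, h3⟩ := h
      refine ⟨u, op_place hv hb h1, h2, fun i hi hh => ?_⟩
      rcases Finset.mem_insert.1 hh with hh | hh
      · subst hh
        rcases eq_or_lt_of_le hi with hui | hui
        · subst hui
          have h4 : (u, b + k, Fin.last m) ∈ P := hv _ (Or.inr ⟨rfl, rfl, rfl, h2⟩)
          exact op_out h1 h4
        · have hi1 : ((i : ℕ) - 1) < m + 1 := by omega
          have h5 : (u : ℕ) < i := hui
          have h4 : (w, b + k + 1, (⟨(i : ℕ) - 1, hi1⟩ : Fin (m + 1))) ∈ P :=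
            hv _ (Or.inl ⟨rfl, rfl, by simp only; omega⟩)
          refine h3 _ ?_ h4
          rw [Fin.le_def]
          simp only
          omega
      · exact h3 i hi hh

theorem op_concat {P : Finset (Nd m)} {b c : ℕ} (hc : ∀ u, Op R P b c u) :
    ∀ {k : ℕ} {w : Fin (m + 1)}, Op R P (b + c) k w → Op R P b (c + k) w
  | 0, w, _ => hc w
  | k + 1, w, h => by
      obtain ⟨u, h1, h2, h3⟩ := h
      refine ⟨u, op_concat hc h1, h2, fun i hi => ?_⟩
      have := h3 i hi
      simpa [add_assoc] using this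

theorem op_restrict {P : Finset (Nd m)} {b c : ℕ} :
    ∀ {k : ℕ} {w : Fin (m + 1)}, Op R P b (c + k) w → Op R P (b + c) k w
  | 0, w, h => op_out h
  | k + 1, w, h => by
      obtain ⟨u, h1, h2, h3⟩ := h
      refine ⟨u, op_restrict h1, h2, fun i hi => ?_⟩
      have := h3 i hi
      simpa [add_assoc] using this

theorem op_empty (b : ℕ) : ∀ (k : ℕ) (w : Fin (m + 1)), Op R ∅ b k w
  | 0, w => by simp [Op]
  | k + 1, w => ⟨Fin.last m, op_empty b k _, rp_last_left w, fun i _ => by simp⟩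

/-- no element of `P` in layer `a` -/
def Free (P : Finset (Nd m)) (a : ℕ) : Prop := ∀ w i, (w, a, i) ∉ P

theorem exists_free_pair {P : Finset (Nd m)} {s : ℕ} (hP : P.card ≤ s) (c : ℕ) :
    ∃ i ≤ s, Free P (c + 2 * i + 1) ∧ Free P (c + 2 * i + 2) := by
  by_contra hcon
  push Not at hcon
  have hsub : Finset.range (s + 1) ⊆ P.image (fun x => (x.2.1 - c - 1) / 2) := by
    intro i hi
    have hi' : i ≤ s := Nat.lt_succ_iff.1 (Finset.mem_range.1 hi)
    rw [Finset.mem_image]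
    by_cases h1 : Free P (c + 2 * i + 1)
    · have h2 := hcon i hi' h1
      unfold Free at h2
      push Not at h2
      obtain ⟨w, j, hj⟩ := h2
      exact ⟨_, hj, by simp only; omega⟩
    · unfold Free at h1
      push Not at h1
      obtain ⟨w, j, hj⟩ := h1
      exact ⟨_, hj, by simp only; omega⟩
  have h3 := Finset.card_le_card hsub
  rw [Finset.card_range] at h3
  have h4 := Finset.card_image_le (s := P) (f := fun x => (x.2.1 - c - 1) / 2)
  omega

theorem all_open {P : Finset (Nd m)} {b k : ℕ} (h1 : Free P (b + k + 1)) (h2 : Free P (b + k + 2))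
    {u : Fin (m + 1)} (hu : Op R P b k u) (w : Fin (m + 1)) : Op R P b (k + 2) w :=
  ⟨Fin.last m, ⟨u, hu, rp_last_right u, fun _ _ => h1 _ _⟩, rp_last_left w, fun _ _ => h2 _ _⟩

theorem none_open {P : Finset (Nd m)} {b k : ℕ} (h : ∀ u, ¬ Op R P b k u) :
    ∀ (j : ℕ) (w : Fin (m + 1)), ¬ Op R P b (k + j) w
  | 0, w => h w
  | j + 1, w => by
      rintro ⟨u, h1, _, _⟩
      exact none_open h j u h1

theorem dichotomy {P Q : Finset (Nd m)} (hst : St R P Q) {s : ℕ} (hQ : Q.card ≤ s) (b : ℕ) :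
    (∀ k w, 2 * s + 2 ≤ k → Op R P b k w → Op R Q b k w) ∨
      (∀ k w, 2 * s + 2 ≤ k → ¬ Op R Q b k w) := by
  obtain ⟨v, hv, hQv⟩ := hst
  obtain ⟨i, hi, hf1, hf2⟩ := exists_free_pair hQ b
  by_cases hop : ∃ u, Op R Q b (2 * i) u
  · left
    obtain ⟨u, hu⟩ := hop
    have hall : ∀ w, Op R Q b (2 * i + 2) w := all_open hf1 hf2 hu
    intro k w hk hPk
    by_cases hvs : ∀ w, v ≠ (w, b, Fin.last m)
    · exact op_anti hQv (op_place hv hvs hPk)
    · push Not at hvs
      obtain ⟨w0, hw0⟩ := hvs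
      have hvs' : ∀ w, v ≠ (w, b + (2 * i + 2), Fin.last m) := by
        intro w hh
        rw [hw0] at hh
        have := congrArg (fun x : Nd m => x.2.1) hh
        simp only at this
        omega
      obtain ⟨d, rfl⟩ : ∃ d, k = (2 * i + 2) + d := ⟨k - (2 * i + 2), by omega⟩
      exact op_concat hall (op_anti hQv (op_place hv hvs' (op_restrict hPk)))
  · right
    push Not at hop
    intro k w hk
    obtain ⟨d, rfl⟩ : ∃ d, k = 2 * i + d := ⟨k - 2 * i, by omega⟩
    exact none_open hop d w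

end

end MP1fca05
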