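import Pool.Agent.Lib.MP_1fca05_lc.Defs

/-!
Powers of a relation on columns (MP_1fca05_lc).
-/

namespace MP1fca05

/-- The `k`-th power of the relation `R` on `m` columns. Its `m ^ k` columns are coded by the
`k`-tuples of columns of `R` (the bijection is `finFunctionFinEquiv`); two of them are related if
their entries are related in every position. -/
def Pw {m : ℕ} (R : Fin m → Fin m → Prop) (k : ℕ) (u v : Fin (m ^ k)) : Prop :=
  ∀ i : Fin k, R (finFunctionFinEquiv.symm u i) (finFunctionFinEquiv.symm v i)

end MP1fca05
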