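import Pool.Agent.Lib.MP_1fca05_lc.PowDefs

/-!
If any two large sets of columns are joined, then the same holds for the powers of the relation.
-/

namespace MP1fca05

/-- few columns with a large fibre give a small set -/
theorem fiber_card {m k n a : ℕ} (A : Finset (Fin (k + 1) → Fin m))
    (hA : a * m ^ k + m * n < A.card) :
    a < (Finset.univ.filter (fun x : Fin m =>
      n < (Finset.univ.filter (fun t : Fin k → Fin m => (Fin.cons x t : Fin (k + 1) → Fin m) ∈ A)).card)).card := by
  classical
  by_contra hcon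
  push Not at hcon
  set S : Finset (Fin m) := Finset.univ.filter (fun x : Fin m =>
      n < (Finset.univ.filter (fun t : Fin k → Fin m =>
        (Fin.cons x t : Fin (k + 1) → Fin m) ∈ A)).card) with hS
  have h1 : A.card = ∑ x : Fin m, (Finset.univ.filter (fun t : Fin k → Fin m =>
      (Fin.cons x t : Fin (k + 1) → Fin m) ∈ A)).card := by
    rw [Finset.card_eq_sum_card_fiberwise (f := fun y : Fin (k + 1) → Fin m => y 0)
      (t := Finset.univ) (fun _ _ => Finset.mem_coe.2 (Finset.mem_univ _))]
    refine Finset.sum_congr rfl fun x _ => ?_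
    symm
    apply Finset.card_bij (fun (t : Fin k → Fin m) _ => (Fin.cons x t : Fin (k + 1) → Fin m))
    · intro t ht
      rw [Finset.mem_filter]
      exact ⟨(Finset.mem_filter.1 ht).2, by simp⟩
    · intro t _ t' _ h
      exact Fin.cons_right_injective (α := fun _ => Fin m) x h
    · intro y hy
      obtain ⟨hy1, hy2⟩ := Finset.mem_filter.1 hy
      refine ⟨Fin.tail y, ?_, ?_⟩
      · rw [Finset.mem_filter]
        refine ⟨Finset.mem_univ _, ?_⟩
        rw [← hy2, Fin.cons_self_tail]
        exact hy1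
      · rw [← hy2, Fin.cons_self_tail]
  have h2 : A.card ≤ ∑ x : Fin m, ((if x ∈ S then m ^ k else 0) + n) := by
    rw [h1]
    refine Finset.sum_le_sum fun x _ => ?_
    by_cases hx : x ∈ S
    · rw [if_pos hx]
      have h3 := Finset.card_le_univ (Finset.univ.filter (fun t : Fin k → Fin m =>
        (Fin.cons x t : Fin (k + 1) → Fin m) ∈ A))
      rw [Fintype.card_fun, Fintype.card_fin, Fintype.card_fin] at h3
      omega
    · rw [if_neg hx]
      have h3 : ¬ n < (Finset.univ.filter (fun t : Fin k → Fin m =>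
        (Fin.cons x t : Fin (k + 1) → Fin m) ∈ A)).card := fun h =>
          hx (Finset.mem_filter.2 ⟨Finset.mem_univ _, h⟩)
      omega
  rw [Finset.sum_add_distrib, Finset.sum_const, Finset.card_univ, Fintype.card_fin,
    ← Finset.sum_filter, Finset.sum_const, smul_eq_mul, smul_eq_mul] at h2
  have h3 : (Finset.univ.filter (fun x => x ∈ S)).card = S.card := by
    congr 1
    ext x
    simp
  rw [h3] at h2
  have h4 : S.card * m ^ k ≤ a * m ^ k := Nat.mul_le_mul_right _ hcon
  omega

theorem joined_fun {m : ℕ} {R : Fin m → Fin m → Prop} {q : ℕ} (h : Joined R (q + 1)) :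
    ∀ (k : ℕ) (A B : Finset (Fin k → Fin m)), k * q * m ^ (k - 1) < A.card →
      k * q * m ^ (k - 1) < B.card → ∃ a ∈ A, ∃ b ∈ B, ∀ i, R (a i) (b i)
  | 0, A, B, hA, hB => by
      obtain ⟨a, ha⟩ := Finset.card_pos.1 (lt_of_le_of_lt (Nat.zero_le _) hA)
      obtain ⟨b, hb⟩ := Finset.card_pos.1 (lt_of_le_of_lt (Nat.zero_le _) hB)
      exact ⟨a, ha, b, hb, fun i => i.elim0⟩
  | k + 1, A, B, hA, hB => by
      classical
      have e : m * (k * q * m ^ (k - 1)) = k * q * m ^ k := by
        rcases k with _ | k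
        · simp
        · rw [Nat.add_sub_cancel, pow_succ]
          ring
      have e2 : q * m ^ k + m * (k * q * m ^ (k - 1)) = (k + 1) * q * m ^ (k + 1 - 1) := by
        rw [e, Nat.add_sub_cancel]
        ring
      have hA' := fiber_card (a := q) (n := k * q * m ^ (k - 1)) A (by rw [e2]; exact hA)
      have hB' := fiber_card (a := q) (n := k * q * m ^ (k - 1)) B (by rw [e2]; exact hB)
      obtain ⟨x, hx, y, hy, hxy⟩ := h _ _ hA' hB'
      have hx' := (Finset.mem_filter.1 hx).2
      have hy' := (Finset.mem_filter.1 hy).2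
      obtain ⟨a, ha, b, hb, hab⟩ := joined_fun h k _ _ hx' hy'
      refine ⟨Fin.cons x a, (Finset.mem_filter.1 ha).2, Fin.cons y b, (Finset.mem_filter.1 hb).2,
        fun i => ?_⟩
      refine Fin.cases ?_ (fun i => ?_) i
      · simpa using hxy
      · simpa using hab i

theorem joined_pow {m : ℕ} {R : Fin m → Fin m → Prop} {q : ℕ} (h : Joined R (q + 1)) (k : ℕ) :
    Joined (Pw R k) (k * q * m ^ (k - 1) + 1) := by
  classical
  intro A B hA hB
  obtain ⟨a, ha, b, hb, hab⟩ := joined_fun h k (A.map finFunctionFinEquiv.symm.toEmbedding)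
    (B.map finFunctionFinEquiv.symm.toEmbedding) (by rw [Finset.card_map]; omega)
    (by rw [Finset.card_map]; omega)
  obtain ⟨u, hu, rfl⟩ := Finset.mem_map.1 ha
  obtain ⟨v, hv, rfl⟩ := Finset.mem_map.1 hb
  exact ⟨u, hu, v, hv, hab⟩

end MP1fca05
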