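import Pool.Agent.Lib.MP_1fca05_lc.PowDefs

/-!
A large pair of unjoined sets of columns gives a good layout for the powers of the relation.
-/

namespace MP1fca05

theorem layout_of_level {m : ℕ} {R : Fin m → Fin m → Prop} {α : Type} [LinearOrder α]
    (g h : Fin m → α) (K : ℕ) (hR : ∀ u v, R u v → h v ≤ g u)
    (hK : ∀ c : α, (Finset.univ.filter (fun v => h v ≤ c)).card ≤
      (Finset.univ.filter (fun u => g u < c)).card + K) : Layout R K := by
  classical
  set σ : Equiv.Perm (Fin m) := Tuple.sort g with hσ
  have hmono : Monotone (g ∘ σ) := Tuple.monotone_sort g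
  refine ⟨σ.symm, fun i => ?_⟩
  rcases Nat.eq_zero_or_pos i with hi | hi
  · subst hi
    have h1 : {v | ∃ u, (σ.symm u : ℕ) < 0 ∧ R u v} = ∅ := by
      ext v
      simp
    rw [h1, Set.ncard_empty]
    omega
  rcases Nat.eq_zero_or_pos m with hm | hm
  · subst hm
    have h1 : {v : Fin 0 | ∃ u, (σ.symm u : ℕ) < i ∧ R u v} = ∅ := by
      ext v
      exact v.elim0
    rw [h1, Set.ncard_empty]
    omega
  -- the last of the first `i` columns
  obtain ⟨j, hj⟩ : ∃ j : Fin m, (j : ℕ) = min i m - 1 := ⟨⟨min i m - 1, by omega⟩, rfl⟩
  set c : α := g (σ j) with hc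
  have hsub : {v | ∃ u, (σ.symm u : ℕ) < i ∧ R u v} ⊆
      (↑(Finset.univ.filter (fun v => h v ≤ c)) : Set (Fin m)) := by
    rintro v ⟨u, hu, huv⟩
    rw [Finset.mem_coe, Finset.mem_filter]
    refine ⟨Finset.mem_univ _, (hR u v huv).trans ?_⟩
    have h1 : σ.symm u ≤ j := by
      rw [Fin.le_def]
      have := (σ.symm u).2
      omega
    have h2 := hmono h1
    simpa using h2
  have h1 := Set.ncard_le_ncard hsub (Finset.finite_toSet _)
  rw [Set.ncard_coe_finset] at h1
  refine h1.trans ((hK c).trans (Nat.add_le_add_right ?_ K))
  have h2 : (Finset.univ.filter (fun u => g u < c)).card ≤ (Finset.range i).card := by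
    apply Finset.card_le_card_of_injOn (fun u => (σ.symm u : ℕ))
    · intro u hu
      have hu' : g u < c := (Finset.mem_filter.1 hu).2
      rw [Finset.mem_coe, Finset.mem_range]
      by_contra hcon
      have h3 : j ≤ σ.symm u := by
        rw [Fin.le_def]
        have h5 : i ≤ (σ.symm u : ℕ) := not_lt.1 hcon
        omega
      have h4 := hmono h3
      simp only [Function.comp, Equiv.apply_symm_apply] at h4
      exact absurd hu' (not_lt.2 h4)
    · intro u _ v _ huv
      exact σ.symm.injective (Fin.ext huv)
  rwa [Finset.card_range] at h2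

/-- a bijection of the columns that maps `B` outside `A` -/
theorem exists_perm {m : ℕ} {A B : Finset (Fin m)} (h : A.card + B.card ≤ m) :
    ∃ σ : Equiv.Perm (Fin m), ∀ b ∈ B, σ b ∉ A := by
  classical
  have h1 : B.card ≤ (Aᶜ).card := by
    rw [Finset.card_compl, Fintype.card_fin]
    omega
  obtain ⟨B', hB', hcard⟩ := Finset.exists_subset_card_eq h1
  let e : {x // x ∈ B} ≃ {x // x ∈ B'} := Finset.equivOfCardEq hcard.symm
  refine ⟨e.extendSubtype, fun b hb => ?_⟩
  have h2 := e.extendSubtype_mem b hb
  exact Finset.mem_compl.1 (hB' h2)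

section

variable {m k : ℕ}

theorem card_pi_mem (D : Finset (Fin m)) (i : Fin k) :
    (Finset.univ.filter (fun y : Fin k → Fin m => y i ∈ D)).card = D.card * m ^ (k - 1) := by
  classical
  have h1 : Finset.univ.filter (fun y : Fin k → Fin m => y i ∈ D) =
      Fintype.piFinset (fun j => if j = i then D else Finset.univ) := by
    ext y
    simp only [Finset.mem_filter, Finset.mem_univ, true_and, Fintype.mem_piFinset]
    constructor
    · intro h j
      by_cases hj : j = i
      · subst hj
        simpa using h
      · simp [hj]
    · intro h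
      have := h i
      simpa using this
  rw [h1, Fintype.card_piFinset]
  have h2 : ∀ j : Fin k, (if j = i then D else Finset.univ : Finset (Fin m)).card =
      if j = i then D.card else m := by
    intro j
    split_ifs
    · rfl
    · simp
  rw [Finset.prod_congr rfl (fun j _ => h2 j), ← Finset.mul_prod_erase _ _ (Finset.mem_univ i),
    if_pos rfl]
  congr 1
  rw [Finset.prod_congr rfl (g := fun _ => m)
    (fun j hj => if_neg (Finset.ne_of_mem_erase hj)), Finset.prod_const,
    Finset.card_erase_of_mem (Finset.mem_univ _), Finset.card_univ, Fintype.card_fin]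

theorem card_exists_mem (D : Finset (Fin m)) :
    (Finset.univ.filter (fun y : Fin k → Fin m => ∃ i, y i ∈ D)).card ≤
      k * (D.card * m ^ (k - 1)) := by
  classical
  have h1 : Finset.univ.filter (fun y : Fin k → Fin m => ∃ i, y i ∈ D) =
      Finset.univ.biUnion (fun i => Finset.univ.filter (fun y : Fin k → Fin m => y i ∈ D)) := by
    ext y
    simp
  rw [h1]
  refine Finset.card_biUnion_le.trans ?_
  rw [Finset.sum_congr rfl (fun i _ => card_pi_mem D i), Finset.sum_const, Finset.card_univ,
    Fintype.card_fin, smul_eq_mul]

/-- the tuples with a given pattern of entries in `A` -/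
theorem card_pattern (A : Finset (Fin m)) (c : Fin k → Bool) {n : ℕ} (h1 : A.card ≤ n)
    (h2 : m - A.card ≤ n) :
    (Finset.univ.filter (fun x : Fin k → Fin m => ∀ i, decide (x i ∉ A) = c i)).card ≤ n ^ k := by
  classical
  have h3 : Finset.univ.filter (fun x : Fin k → Fin m => ∀ i, decide (x i ∉ A) = c i) =
      Fintype.piFinset (fun i => if c i = true then Aᶜ else A) := by
    ext x
    simp only [Finset.mem_filter, Finset.mem_univ, true_and, Fintype.mem_piFinset]
    refine forall_congr' fun i => ?_
    by_cases hc : c i = true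
    · simp [hc]
    · simp [hc]
  rw [h3, Fintype.card_piFinset]
  have h4 : ∀ i ∈ (Finset.univ : Finset (Fin k)),
      (if c i = true then Aᶜ else A : Finset (Fin m)).card ≤ n := by
    intro i _
    split_ifs
    · rwa [Finset.card_compl, Fintype.card_fin]
    · exact h1
  refine (Finset.prod_le_pow_card _ _ _ h4).trans ?_
  rw [Finset.card_univ, Fintype.card_fin]

end

theorem layout_pow {m : ℕ} {R : Fin m → Fin m → Prop} {A B : Finset (Fin m)}
    (hAB : ∀ a ∈ A, ∀ b ∈ B, ¬ R a b) (hcard : A.card + B.card ≤ m) {n : ℕ} (h1 : A.card ≤ n)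
    (h2 : m - A.card ≤ n) (k : ℕ) :
    Layout (Pw R k) (k * ((m - A.card - B.card) * m ^ (k - 1)) + n ^ k) := by
  classical
  obtain ⟨σ, hσ⟩ := exists_perm hcard
  set gg : (Fin k → Fin m) → Lex (Fin k → Bool) :=
    fun x => toLex (fun i => decide (x i ∉ A)) with hgg
  set hh : (Fin k → Fin m) → Lex (Fin k → Bool) :=
    fun y => toLex (fun i => decide (y i ∈ B)) with hhh
  apply layout_of_level (fun u => gg (finFunctionFinEquiv.symm u))
    (fun v => hh (finFunctionFinEquiv.symm v))
  · intro u v huv
    apply Pi.toLex_monotone
    intro i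
    have h3 := huv i
    by_cases hb : finFunctionFinEquiv.symm v i ∈ B
    · have ha : finFunctionFinEquiv.symm u i ∉ A := fun ha => hAB _ ha _ hb h3
      simp [hb, ha]
    · simp [hb]
  · intro c
    have e1 : (Finset.univ.filter (fun v : Fin (m ^ k) =>
        hh (finFunctionFinEquiv.symm v) ≤ c)).card =
        (Finset.univ.filter (fun y : Fin k → Fin m => hh y ≤ c)).card := by
      apply Finset.card_equiv finFunctionFinEquiv.symm
      intro v
      simp
    have e2 : (Finset.univ.filter (fun v : Fin (m ^ k) =>
        gg (finFunctionFinEquiv.symm v) < c)).card =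
        (Finset.univ.filter (fun y : Fin k → Fin m => gg y < c)).card := by
      apply Finset.card_equiv finFunctionFinEquiv.symm
      intro v
      simp
    suffices key : (Finset.univ.filter (fun y : Fin k → Fin m => hh y ≤ c)).card ≤
        (Finset.univ.filter (fun y : Fin k → Fin m => gg y < c)).card +
          (k * ((m - A.card - B.card) * m ^ (k - 1)) + n ^ k) by
      rw [← e1, ← e2] at key
      convert key
      rfl
    set D : Finset (Fin m) := Finset.univ.filter (fun y => y ∉ B ∧ σ y ∉ A) with hD
    have hDcard : D.card ≤ m - A.card - B.card := by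
      have h3 : D ∪ (B ∪ A.map σ.symm.toEmbedding) ⊆ Finset.univ := Finset.subset_univ _
      have h4 : Disjoint D (B ∪ A.map σ.symm.toEmbedding) := by
        rw [Finset.disjoint_left]
        intro y hy hy'
        have h5 := (Finset.mem_filter.1 hy).2
        rcases Finset.mem_union.1 hy' with h6 | h6
        · exact h5.1 h6
        · obtain ⟨a, ha, hay⟩ := Finset.mem_map.1 h6
          apply h5.2
          rw [← hay]
          simpa using ha
      have h5 : Disjoint B (A.map σ.symm.toEmbedding) := by
        rw [Finset.disjoint_left]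
        intro y hy hy'
        obtain ⟨a, ha, hay⟩ := Finset.mem_map.1 hy'
        apply hσ y hy
        rw [← hay]
        simpa using ha
      have h6 := Finset.card_le_card h3
      rw [Finset.card_union_of_disjoint h4, Finset.card_union_of_disjoint h5, Finset.card_map,
        Finset.card_univ, Fintype.card_fin] at h6
      omega
    have hsub : Finset.univ.filter (fun y : Fin k → Fin m => hh y ≤ c) ⊆
        Finset.univ.filter (fun y : Fin k → Fin m => ∃ i, y i ∈ D) ∪
          Finset.univ.filter (fun y : Fin k → Fin m => gg (fun i => σ (y i)) ≤ c) := by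
      intro y hy
      have hy' : hh y ≤ c := (Finset.mem_filter.1 hy).2
      rw [Finset.mem_union]
      by_cases hyD : ∃ i, y i ∈ D
      · exact Or.inl (Finset.mem_filter.2 ⟨Finset.mem_univ _, hyD⟩)
      · right
        rw [Finset.mem_filter]
        refine ⟨Finset.mem_univ _, ?_⟩
        have h3 : gg (fun i => σ (y i)) = hh y := by
          simp only [hgg, hhh]
          congr 1
          funext i
          push Not at hyD
          have h4 := hyD i
          by_cases hb : y i ∈ B
          · have h5 := hσ _ hb
            simp [hb, h5]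
          · have h5 : σ (y i) ∈ A := by
              by_contra hcon
              exact h4 (Finset.mem_filter.2 ⟨Finset.mem_univ _, hb, hcon⟩)
            simp [hb, h5]
        rw [h3]
        exact hy'
    have e3 : (Finset.univ.filter (fun y : Fin k → Fin m => gg (fun i => σ (y i)) ≤ c)).card =
        (Finset.univ.filter (fun x : Fin k → Fin m => gg x ≤ c)).card := by
      apply Finset.card_equiv (Equiv.arrowCongr (Equiv.refl (Fin k)) σ)
      intro y
      simp [Equiv.arrowCongr, Function.comp_def]
    have hsub2 : Finset.univ.filter (fun x : Fin k → Fin m => gg x ≤ c) ⊆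
        Finset.univ.filter (fun x : Fin k → Fin m => gg x < c) ∪
          Finset.univ.filter (fun x : Fin k → Fin m => ∀ i, decide (x i ∉ A) = ofLex c i) := by
      intro x hx
      rcases lt_or_eq_of_le (Finset.mem_filter.1 hx).2 with h3 | h3
      · exact Finset.mem_union_left _ (Finset.mem_filter.2 ⟨Finset.mem_univ _, h3⟩)
      · refine Finset.mem_union_right _ (Finset.mem_filter.2 ⟨Finset.mem_univ _, fun i => ?_⟩)
        rw [← h3]
        rfl
    have h3 := Finset.card_le_card hsub
    have h4 := Finset.card_le_card hsub2
    have h5 := (Finset.card_union_le _ _).trans' h3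
    have h6 := (Finset.card_union_le _ _).trans' h4
    have h7 := card_exists_mem (k := k) D
    have h8 := card_pattern A (ofLex c) h1 h2
    have h9 : k * (D.card * m ^ (k - 1)) ≤ k * ((m - A.card - B.card) * m ^ (k - 1)) :=
      Nat.mul_le_mul_left _ (Nat.mul_le_mul_right _ hDcard)
    omega

end MP1fca05
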