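import Pool.Agent.Lib.MP_1fca05_lc.Main
import Pool.Agent.Lib.MP_1fca05_lc.PowLayout
import Pool.Agent.Lib.MP_1fca05_lc.PowJoined

/-!
The gap of the black pebbling number obtained from the gap of balanced bicliques (MP_1fca05_lc).
-/

namespace MP1fca05

/-- There are sets of at least `(1 / 2 - δ) m` columns each without an arc from the first to the
second. -/
def Hole {m : ℕ} (R : Fin m → Fin m → Prop) (δ : ℝ) : Prop :=
  ∃ A B : Finset (Fin m), (1 / 2 - δ) * m ≤ A.card ∧ (1 / 2 - δ) * m ≤ B.card ∧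
    ∀ a ∈ A, ∀ b ∈ B, ¬ R a b

/-- There are no two sets of at least `δ m` columns each without an arc from the first to the
second. -/
def NoHole {m : ℕ} (R : Fin m → Fin m → Prop) (δ : ℝ) : Prop :=
  ∀ A B : Finset (Fin m), δ * m ≤ A.card → δ * m ≤ B.card → ∃ a ∈ A, ∃ b ∈ B, R a b

theorem exists_params {ε : ℝ} (hε : 0 < ε) :
    ∃ k : ℕ, 1 ≤ k ∧ ((3 : ℝ) / 4) ^ k ≤ ε / 4 := by
  obtain ⟨n, hn⟩ := exists_pow_lt_of_lt_one (show 0 < ε / 4 by linarith)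
    (show (3 : ℝ) / 4 < 1 by norm_num)
  refine ⟨n + 1, by omega, ?_⟩
  rw [pow_succ]
  have : (0 : ℝ) ≤ (3 / 4) ^ n := by positivity
  linarith

section

variable {m k : ℕ} {R : Fin m → Fin m → Prop} {ε δ : ℝ}

theorem pow_pos_facts (hε : 0 < ε) (hε1 : ε ≤ 1) (hk : 1 ≤ k)
    (hm : 16 * (k : ℝ) / ε ≤ m) : (16 : ℝ) ≤ ε * m ∧ (m : ℝ) ≤ (m : ℝ) ^ k ∧
      (m : ℝ) * (m : ℝ) ^ (k - 1) = (m : ℝ) ^ k ∧ 16 * (k : ℝ) ≤ ε * m := by
  have hk' : (1 : ℝ) ≤ k := by exact_mod_cast hk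
  have h1 : 16 * (k : ℝ) ≤ ε * m := by
    rw [div_le_iff₀ hε] at hm
    linarith
  have hm1 : (1 : ℝ) ≤ m := by nlinarith
  refine ⟨by linarith, ?_, ?_, h1⟩
  · calc (m : ℝ) = (m : ℝ) ^ 1 := (pow_one _).symm
      _ ≤ (m : ℝ) ^ k := pow_le_pow_right₀ hm1 hk
  · obtain ⟨j, rfl⟩ : ∃ j, k = j + 1 := ⟨k - 1, by omega⟩
    rw [Nat.add_sub_cancel, pow_succ]
    ring

theorem peb_hole (hε : 0 < ε) (hε1 : ε ≤ 1) (hk : 1 ≤ k) (hk4 : ((3 : ℝ) / 4) ^ k ≤ ε / 4)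
    (hδ : δ = ε / (16 * k)) (hm : 16 * (k : ℝ) / ε ≤ m) (h : Hole R δ) :
    (Peb (Arc (Pw R k)) (tgt (m ^ k)) : ℝ) ≤ (1 + ε) * (m : ℝ) ^ k := by
  obtain ⟨h16, hmk, hmm, h16k⟩ := pow_pos_facts hε hε1 hk hm
  have hk' : (1 : ℝ) ≤ k := by exact_mod_cast hk
  have hk0 : (0 : ℝ) < 16 * k := by linarith
  have hδ0 : 0 < δ := by rw [hδ]; positivity
  have hδk : δ * (16 * k) = ε := by rw [hδ]; field_simp
  have hδ1 : δ ≤ 1 / 16 := by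
    rw [hδ, div_le_iff₀ hk0]
    linarith
  have hδm : 1 ≤ δ * m := by
    have h1 : δ * (16 * k) * m = ε * m := by rw [hδk]
    have h2 : 16 * (k : ℝ) ≤ δ * m * (16 * k) := by
      rw [show δ * m * (16 * k) = δ * (16 * k) * m by ring, h1]
      exact h16k
    by_contra hcon
    push Not at hcon
    nlinarith
  have hm0 : (0 : ℝ) < m := by nlinarith
  obtain ⟨A0, B0, hA0, hB0, hAB0⟩ := h
  -- sets of the same size
  have hx : 0 ≤ (1 / 2 - δ) * (m : ℝ) := mul_nonneg (by linarith) hm0.le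
  obtain ⟨a, ha⟩ : ∃ a : ℕ, a = ⌈(1 / 2 - δ) * (m : ℝ)⌉₊ := ⟨_, rfl⟩
  have ha1 : (1 / 2 - δ) * (m : ℝ) ≤ a := by rw [ha]; exact Nat.le_ceil _
  have ha2 : (a : ℝ) < (1 / 2 - δ) * (m : ℝ) + 1 := by rw [ha]; exact Nat.ceil_lt_add_one hx
  have haA : a ≤ A0.card := by rw [ha]; exact Nat.ceil_le.2 hA0
  have haB : a ≤ B0.card := by rw [ha]; exact Nat.ceil_le.2 hB0
  obtain ⟨A, hA, hAc⟩ := Finset.exists_subset_card_eq haA
  obtain ⟨B, hB, hBc⟩ := Finset.exists_subset_card_eq haB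
  have h2a : a + a ≤ m := by
    have : (a : ℝ) + a ≤ m := by linarith
    exact_mod_cast this
  have hL := layout_pow (R := R) (A := A) (B := B) (n := m - a)
    (fun x hx y hy => hAB0 x (hA hx) y (hB hy)) (by omega) (by omega) (by omega) k
  have h1 := peb_le hL
  rw [hAc, hBc] at h1
  have h2 : (Peb (Arc (Pw R k)) (tgt (m ^ k)) : ℝ) ≤
      (m : ℝ) ^ k + (k * ((m - a - a : ℕ) * (m : ℝ) ^ (k - 1)) + ((m - a : ℕ) : ℝ) ^ k) + 3 := by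
    exact_mod_cast h1
  have h3 : ((m - a - a : ℕ) : ℝ) ≤ 2 * δ * m := by
    rw [Nat.cast_sub (by omega), Nat.cast_sub (by omega)]
    linarith
  have h4 : ((m - a : ℕ) : ℝ) ≤ 3 / 4 * m := by
    rw [Nat.cast_sub (by omega)]
    nlinarith
  have h5 : ((m - a : ℕ) : ℝ) ^ k ≤ ε / 4 * (m : ℝ) ^ k := by
    calc ((m - a : ℕ) : ℝ) ^ k ≤ (3 / 4 * m) ^ k := pow_le_pow_left₀ (Nat.cast_nonneg _) h4 k
      _ = (3 / 4) ^ k * (m : ℝ) ^ k := mul_pow _ _ _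
      _ ≤ ε / 4 * (m : ℝ) ^ k := mul_le_mul_of_nonneg_right hk4 (by positivity)
  have h6 : (k : ℝ) * ((m - a - a : ℕ) * (m : ℝ) ^ (k - 1)) ≤ ε / 8 * (m : ℝ) ^ k := by
    calc (k : ℝ) * ((m - a - a : ℕ) * (m : ℝ) ^ (k - 1))
        ≤ k * (2 * δ * m * (m : ℝ) ^ (k - 1)) :=
          mul_le_mul_of_nonneg_left (mul_le_mul_of_nonneg_right h3 (by positivity)) (by positivity)
      _ = δ * (16 * k) / 8 * (m * (m : ℝ) ^ (k - 1)) := by ring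
      _ = ε / 8 * (m : ℝ) ^ k := by rw [hδk, hmm]
  have h7 : 16 ≤ ε * (m : ℝ) ^ k := by nlinarith
  linarith

theorem peb_noHole (hε : 0 < ε) (hε1 : ε ≤ 1) (hk : 1 ≤ k)
    (hδ : δ = ε / (16 * k)) (hm : 16 * (k : ℝ) / ε ≤ m) (h : NoHole R δ) :
    (2 - ε) * (m : ℝ) ^ k ≤ Peb (Arc (Pw R k)) (tgt (m ^ k)) := by
  obtain ⟨h16, hmk, hmm, h16k⟩ := pow_pos_facts hε hε1 hk hm
  have hk' : (1 : ℝ) ≤ k := by exact_mod_cast hk
  have hk0 : (0 : ℝ) < 16 * k := by linarith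
  have hδ0 : 0 < δ := by rw [hδ]; positivity
  have hδk : δ * (16 * k) = ε := by rw [hδ]; field_simp
  have hm0 : (0 : ℝ) < m := by nlinarith
  have hδm : 0 < δ * m := mul_pos hδ0 hm0
  obtain ⟨q, hq⟩ : ∃ q : ℕ, q + 1 = ⌈δ * (m : ℝ)⌉₊ := by
    have := Nat.ceil_pos.2 hδm
    exact ⟨⌈δ * (m : ℝ)⌉₊ - 1, by omega⟩
  have hq1 : (q : ℝ) ≤ δ * m := by
    have h1 : ((q + 1 : ℕ) : ℝ) < δ * m + 1 := by
      rw [hq]
      exact Nat.ceil_lt_add_one hδm.le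
    push_cast at h1
    linarith
  have hJ : Joined R (q + 1) := by
    intro A B hA hB
    rw [hq] at hA hB
    exact h A B (Nat.ceil_le.1 hA) (Nat.ceil_le.1 hB)
  have h1 := le_peb (joined_pow hJ k)
  have h2 : 2 * (m : ℝ) ^ k + 3 ≤ Peb (Arc (Pw R k)) (tgt (m ^ k)) +
      4 * (k * q * (m : ℝ) ^ (k - 1) + 1) := by exact_mod_cast h1
  have h3 : (k : ℝ) * q * (m : ℝ) ^ (k - 1) ≤ ε / 16 * (m : ℝ) ^ k := by
    calc (k : ℝ) * q * (m : ℝ) ^ (k - 1) ≤ k * (δ * m) * (m : ℝ) ^ (k - 1) :=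
          mul_le_mul_of_nonneg_right (mul_le_mul_of_nonneg_left hq1 (by positivity))
            (by positivity)
      _ = δ * (16 * k) / 16 * (m * (m : ℝ) ^ (k - 1)) := by ring
      _ = ε / 16 * (m : ℝ) ^ k := by rw [hδk, hmm]
  have h7 : 16 ≤ ε * (m : ℝ) ^ k := by nlinarith
  linarith

end

/-- For every `ε` there are a power `k` and a `δ` such that the gap between `Hole R δ` and
`NoHole R δ` becomes the gap between `1 + ε` and `2 - ε` times `m ^ k` for the pebbling number. -/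
theorem hole_gap (ε : ℝ) (hε : 0 < ε) (hε1 : ε ≤ 1) :
    ∃ (k m₀ : ℕ) (δ : ℝ), 1 ≤ k ∧ 0 < δ ∧ ∀ m : ℕ, m₀ ≤ m → ∀ R : Fin m → Fin m → Prop,
      (Hole R δ → (Peb (Arc (Pw R k)) (tgt (m ^ k)) : ℝ) ≤ (1 + ε) * (m : ℝ) ^ k) ∧
      (NoHole R δ → (2 - ε) * (m : ℝ) ^ k ≤ Peb (Arc (Pw R k)) (tgt (m ^ k))) ∧
      (∀ α : ℝ, Hole R δ → α ≤ (2 - 3 * ε) * Peb (Arc (Pw R k)) (tgt (m ^ k)) →
        α < (2 - ε) * (m : ℝ) ^ k) := by
  obtain ⟨k, hk, hk4⟩ := exists_params hε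
  have hk' : (1 : ℝ) ≤ k := by exact_mod_cast hk
  refine ⟨k, ⌈16 * (k : ℝ) / ε⌉₊, ε / (16 * k), hk, by positivity, fun m hm R => ?_⟩
  have hm' : 16 * (k : ℝ) / ε ≤ m := (Nat.le_ceil _).trans (by exact_mod_cast hm)
  have hA : Hole R (ε / (16 * k)) →
      (Peb (Arc (Pw R k)) (tgt (m ^ k)) : ℝ) ≤ (1 + ε) * (m : ℝ) ^ k :=
    fun h => peb_hole hε hε1 hk hk4 rfl hm' h
  refine ⟨hA, fun h => peb_noHole hε hε1 hk rfl hm' h, fun α h hα => ?_⟩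
  obtain ⟨h16, hmk, _, _⟩ := pow_pos_facts hε hε1 hk hm'
  have hM : 0 < (m : ℝ) ^ k := by nlinarith
  have h1 := hA h
  have h0 : (0 : ℝ) ≤ Peb (Arc (Pw R k)) (tgt (m ^ k)) := Nat.cast_nonneg _
  rcases le_or_gt 0 (2 - 3 * ε) with h2 | h2
  · have h3 : (2 - 3 * ε) * (Peb (Arc (Pw R k)) (tgt (m ^ k)) : ℝ) ≤
        (2 - 3 * ε) * ((1 + ε) * (m : ℝ) ^ k) := mul_le_mul_of_nonneg_left h1 h2
    nlinarith [mul_pos hε hM, mul_pos (mul_pos hε hε) hM]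
  · have h3 : (2 - 3 * ε) * (Peb (Arc (Pw R k)) (tgt (m ^ k)) : ℝ) ≤ 0 :=
      mul_nonpos_of_nonpos_of_nonneg h2.le h0
    nlinarith

end MP1fca05
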