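import Pool.Agent.Lib.MP_1fca05_lc.Main
import Pool.Agent.Lib.MP_1fca05_lc.Chain
import Pool.Agent.Lib.MP_1fca05_lc.ChainLayout

/-!
The pebbling number for reflexive relations, and layouts from unjoined sets.
-/

namespace MP1fca05

section

variable {m : ℕ} {R : Fin m → Fin m → Prop}

theorem layout_pred (hm : 1 ≤ m) (R : Fin m → Fin m → Prop) : Layout R (m - 1) := by
  refine ⟨Equiv.refl _, fun i => ?_⟩
  rcases Nat.eq_zero_or_pos i with rfl | hi
  · have : {v | ∃ u, ((Equiv.refl (Fin m)) u : ℕ) < 0 ∧ R u v} = ∅ := by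
      ext v
      simp
    rw [this, Set.ncard_empty]
    omega
  · have h1 := Set.ncard_le_ncard (Set.subset_univ {v | ∃ u, ((Equiv.refl (Fin m)) u : ℕ) < i ∧ R u v})
    rw [Set.ncard_univ, Nat.card_eq_fintype_card, Fintype.card_fin] at h1
    omega

theorem chain_or {s : ℕ} (hR : ∀ i, R i i) (h : CanPebble (Arc R) (tgt m) s) (hs : s ≤ 2 * m) :
    ∃ (t1 t2 : ℕ) (X : ℕ → Finset (Fin (m + 1))), t1 ≤ t2 ∧ X t1 = ∅ ∧
      X t2 = Finset.univ ∧ (∀ r, t1 ≤ r → r < t2 → X r ⊆ X (r + 1)) ∧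
      ∀ r, t1 ≤ r → r < t2 →
        (Finset.univ \ X r).card + {v | ∃ u ∈ X (r + 1), Rp R u v}.ncard ≤ s + 1 := by
  classical
  obtain ⟨T, S, hS0, hS, hT, hc⟩ := h
  rcases exists_chain hR (s := s) (T := T) (L := 20 * (m + 1)) (fun t => (S t).image (emb m))
    (by simp [hS0]) (fun t ht => st_of_move (hS t ht))
    (fun t ht => (Finset.card_image_le).trans (hc t ht)) (Finset.mem_image_of_mem (emb m) hT)
    (by omega) with h1 | h1
  · omega
  · exact h1

theorem le_peb_refl (hm : 1 ≤ m) (hR : ∀ i, R i i) :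
    m + sInf {k | Layout R k} + 2 ≤ Peb (Arc R) (tgt m) := by
  by_contra hcon
  push Not at hcon
  have hβ : sInf {k | Layout R k} ≤ m - 1 := Nat.sInf_le (layout_pred hm R)
  obtain ⟨t1, t2, X, h12, hX1, hX2, hmono, hcard⟩ :=
    chain_or hR (canPebble_peb R) (by omega)
  rcases Nat.eq_zero_or_pos (sInf {k | Layout R k}) with h0 | h0
  · -- the first column needs already `m + 2` pebbles
    rw [h0] at hcon
    obtain ⟨t, h1, h2, h3, h4⟩ := first_time (fun t => X t = ∅) (a := t1) (b := t2) hX1 h12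
      (by rw [hX2]; exact Finset.univ_nonempty.ne_empty)
    obtain ⟨d, rfl⟩ : ∃ d, t = d + 1 := ⟨t - 1, by omega⟩
    have h5 := h4 d (by omega) (by omega)
    have h6 := hcard d (by omega) (by omega)
    have h5' : X d = ∅ := h5
    rw [h5', Finset.sdiff_empty, Finset.card_univ, Fintype.card_fin] at h6
    obtain ⟨w, hw⟩ := Finset.nonempty_iff_ne_empty.2 h3
    have h7 : 2 ≤ {v | ∃ u ∈ X (d + 1), Rp R u v}.ncard := by
      show 1 < {v | ∃ u ∈ X (d + 1), Rp R u v}.ncard
      have hfin : {v | ∃ u ∈ X (d + 1), Rp R u v}.Finite := Set.toFinite _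
      rw [Set.one_lt_ncard_iff hfin]
      rcases Fin.eq_castSucc_or_eq_last w with ⟨j, rfl⟩ | rfl
      · exact ⟨j.castSucc, Fin.last m, ⟨_, hw, rp_refl hR _⟩, ⟨_, hw, rp_last_right _⟩,
          Fin.castSucc_ne_last j⟩
      · refine ⟨0, Fin.last m, ⟨_, hw, rp_last_left _⟩, ⟨_, hw, rp_last_left _⟩, ?_⟩
        intro h8
        have := congrArg Fin.val h8
        simp at this
        omega
    omega
  · have h1 : Layout R (sInf {k | Layout R k} - 1) :=
      layout_of_chain R h12 X hX1 hX2 hmono hcard (by omega)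
    have h2 := Nat.sInf_le (s := {k | Layout R k}) h1
    omega

/-- the pebbling number of `D_R` for a reflexive relation, up to one -/
theorem peb_refl (hm : 1 ≤ m) (hR : ∀ i, R i i) :
    m + sInf {k | Layout R k} + 2 ≤ Peb (Arc R) (tgt m) ∧
      Peb (Arc R) (tgt m) ≤ m + sInf {k | Layout R k} + 3 :=
  ⟨le_peb_refl hm hR, peb_le (Nat.sInf_mem (s := {k | Layout R k}) ⟨m, layout_self R⟩)⟩

end

end MP1fca05
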