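import Pool.Agent.Lib.MP_1fca05_lc.VSep

/-!
The sparse version of the dag `D_R` (MP_1fca05_lc): the nodes that read nothing are left out.
-/

namespace MP1fca05

/-- The nodes of the sparse dag `S_R`: `inl (w, l, j)`, for `j` related to `w` by `R` (extended by
the hub), is the node of column `w` in layer `l` that reads column `j`, and `inr j` is the `j`-th
node of the final chain. -/
abbrev SNode {M : ℕ} (R : Fin M → Fin M → Prop) : Type :=
  {x : Fin (M + 1) × Fin (20 * (M + 1)) × Fin (M + 1) // Rp R x.2.2 x.1} ⊕ Fin (M + 1)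

/-- The arcs of the sparse dag `S_R`. The nodes `(w, l, j)` with `w` and `l` fixed form a path, in
the order of `j` (the last of them is `(w, l, M)`, which reads the hub); for `l > 0` the node
`(w, l, j)` has moreover the arc from the last node `(j, l - 1, M)` of column `j` in the layer
below. The nodes of the final chain form a path; its `j`-th node has moreover the arc from the last
node of column `j` in the top layer. -/
def SArc {M : ℕ} (R : Fin M → Fin M → Prop) : SNode R → SNode R → Prop
  | .inl x, .inl y =>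
      (x.1.1 = y.1.1 ∧ x.1.2.1 = y.1.2.1 ∧ x.1.2.2 < y.1.2.2 ∧
          ∀ j, x.1.2.2 < j → j < y.1.2.2 → ¬ Rp R j x.1.1) ∨
        (x.1.2.2 = Fin.last M ∧ (x.1.2.1 : ℕ) + 1 = y.1.2.1 ∧ x.1.1 = y.1.2.2)
  | .inl x, .inr j => x.1.2.2 = Fin.last M ∧ (x.1.2.1 : ℕ) + 1 = 20 * (M + 1) ∧ x.1.1 = j
  | .inr i, .inr j => (i : ℕ) + 1 = j
  | .inr _, .inl _ => False

/-- The sink of `S_R`: the last node of the final chain. -/
def stgt {M : ℕ} (R : Fin M → Fin M → Prop) : SNode R := .inr (Fin.last M)

/-- The blow-up of the digraph `E` on `m` vertices by the relation `J` on `T`: its vertices are the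
pairs of a vertex of `E` and an element of `T`, numbered by `e`; there is an arc from `(v, x)` to
`(w, y)` if `v = w` or `E` has the arc from `v` to `w`, and `J x y`. -/
def Blow {m M : ℕ} {T : Type} (E : Fin m → Fin m → Prop) (J : T → T → Prop)
    (e : Fin M ≃ Fin m × T) (p p' : Fin M) : Prop :=
  ((e p).1 = (e p').1 ∨ E (e p).1 (e p').1) ∧ J (e p).2 (e p').2

/-- `x` and `y` differ by a multiple of a vector `(1, a, a ^ 2, ..., a ^ (r - 1))`. -/
def Crv (r s : ℕ) (x y : Fin r → ZMod s) : Prop :=
  ∃ a b : ZMod s, ∀ i, y i = x i + b * a ^ (i : ℕ)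

end MP1fca05
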