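import Pool.Agent.Lib.MP_1fca05_lc.Sp

/-!
The number of arcs of the blow-up.
-/

namespace MP1fca05

theorem ncard_le_of_subset_range {α β : Type*} [Fintype α] [Finite β] (g : α → β) {S : Set β}
    (h : S ⊆ Set.range g) : S.ncard ≤ Fintype.card α := by
  refine (Set.ncard_le_ncard h (Set.toFinite _)).trans ?_
  rw [← Set.image_univ]
  refine (Set.ncard_image_le (Set.toFinite _)).trans ?_
  rw [Set.ncard_univ, Nat.card_eq_fintype_card]

theorem crv_count (r s : ℕ) [NeZero s] (x : Fin r → ZMod s) : {y | Crv r s x y}.ncard ≤ s ^ 2 := by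
  have h := ncard_le_of_subset_range
    (fun p : ZMod s × ZMod s => fun i : Fin r => x i + p.2 * p.1 ^ (i : ℕ))
    (S := {y | Crv r s x y}) ?_
  · rwa [Fintype.card_prod, ZMod.card, ← sq] at h
  · rintro y ⟨a, b, hab⟩
    exact ⟨(a, b), (funext hab).symm⟩

theorem blow_count {m M r s : ℕ} [NeZero s] (E : Fin m → Fin m → Prop)
    (e : Fin M ≃ Fin m × (Fin r → ZMod s)) :
    {p : Fin (M + 1) × Fin (M + 1) | Rp (Rc (Blow E (Crv r s) e)) p.1 p.2}.ncard ≤
      M * (m * s ^ 2) + 2 * M + 1 := by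
  have h := ncard_le_of_subset_range
    (Sum.elim (fun j : Fin (M + 1) => (Fin.last M, j))
      (Sum.elim (fun i : Fin M => (i.castSucc, Fin.last M))
        (fun q : Fin M × (Fin m × (ZMod s × ZMod s)) =>
          (q.1.castSucc, (e.symm (q.2.1, fun i : Fin r =>
            (e q.1).2 i + q.2.2.2 * q.2.2.1 ^ (i : ℕ))).castSucc))))
    (S := {p : Fin (M + 1) × Fin (M + 1) | Rp (Rc (Blow E (Crv r s) e)) p.1 p.2}) ?_
  · rw [Fintype.card_sum, Fintype.card_sum, Fintype.card_prod, Fintype.card_prod,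
      Fintype.card_prod, ZMod.card, Fintype.card_fin, Fintype.card_fin, Fintype.card_fin,
      ← sq] at h
    omega
  · rintro ⟨a, b⟩ hab
    rcases hab with h1 | h1 | ⟨i, j, h1, h2, h3⟩
    · simp only at h1
      subst h1
      exact ⟨Sum.inl b, rfl⟩
    · simp only at h1
      subst h1
      rcases Fin.eq_castSucc_or_eq_last a with ⟨i, rfl⟩ | rfl
      · exact ⟨Sum.inr (Sum.inl i), rfl⟩
      · exact ⟨Sum.inl (Fin.last M), rfl⟩
    · simp only at h1 h2
      subst h1 h2
      have h4 : Crv r s (e i).2 (e j).2 := by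
        rcases h3 with rfl | h3
        · exact ⟨0, 0, fun l => by simp⟩
        · exact h3.2
      obtain ⟨x, y, hxy⟩ := h4
      refine ⟨Sum.inr (Sum.inr (i, ((e j).1, (x, y)))), ?_⟩
      simp only [Sum.elim_inr]
      congr 2
      rw [Equiv.symm_apply_eq]
      exact Prod.ext rfl (funext fun l => (hxy l).symm)

end MP1fca05
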