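import Pool.Agent.Lib.MP_1fca05_lc.SpMain

/-!
Additive approximations of the pebbling number decide the vertex separation number.
-/

namespace MP1fca05

theorem rpow_lt_half {s r c : ℕ} (hs : 8 ≤ s) (hr : 1 ≤ r) {x α : ℝ} (h1 : 1 ≤ x)
    (hx : x ≤ (s : ℝ) ^ c) (hα : α * c ≤ r - 1 / 2) : x ^ α < (s : ℝ) ^ r / 2 := by
  have hs' : (8 : ℝ) ≤ s := by exact_mod_cast hs
  have hs0 : (0 : ℝ) < s := by linarith
  rcases le_or_gt α 0 with h | h
  · have h2 : x ^ α ≤ 1 := Real.rpow_le_one_of_one_le_of_nonpos h1 h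
    have h3 : (s : ℝ) ^ 1 ≤ (s : ℝ) ^ r := pow_le_pow_right₀ (by linarith) hr
    rw [pow_one] at h3
    linarith
  · have h2 : x ^ α ≤ ((s : ℝ) ^ c) ^ α := Real.rpow_le_rpow (by linarith) hx h.le
    have h3 : ((s : ℝ) ^ c) ^ α = (s : ℝ) ^ (c * α : ℝ) := by
      rw [← Real.rpow_natCast, ← Real.rpow_mul hs0.le]
    have h4 : (s : ℝ) ^ (c * α : ℝ) ≤ (s : ℝ) ^ ((r : ℝ) - 1 / 2) :=
      Real.rpow_le_rpow_of_exponent_le (by linarith) (by linarith)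
    have h5 : (s : ℝ) ^ ((r : ℝ) - 1 / 2) = (s : ℝ) ^ r / (s : ℝ) ^ (1 / 2 : ℝ) := by
      rw [Real.rpow_sub hs0, Real.rpow_natCast]
    have h6 : (2 : ℝ) < (s : ℝ) ^ (1 / 2 : ℝ) := by
      rw [← Real.sqrt_eq_rpow]
      rw [Real.lt_sqrt (by norm_num)]
      linarith
    have h7 : (s : ℝ) ^ r / (s : ℝ) ^ (1 / 2 : ℝ) < (s : ℝ) ^ r / 2 :=
      div_lt_div_of_pos_left (by positivity) (by norm_num) h6
    linarith

theorem s_decides {m M r s : ℕ} (hp : s.Prime) (hm : 1 ≤ m) {ε : ℝ} (hε : 0 < ε)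
    (hr : 3 ≤ 2 * ε * r) (hs : 8 * m * r ≤ s) (E : Fin m → Fin m → Prop)
    (e : Fin M ≃ Fin m × (Fin r → ZMod s)) (k : ℕ) {A : ℝ}
    (h1 : (Peb (SArc (Rc (Blow E (Crv r s) e))) (stgt _) : ℝ) ≤ A)
    (h2 : A ≤ Peb (SArc (Rc (Blow E (Crv r s) e))) (stgt _) +
        (Nat.card (SNode (Rc (Blow E (Crv r s) e))) : ℝ) ^ (1 / 2 - ε) ∨
      A ≤ Peb (SArc (Rc (Blow E (Crv r s) e))) (stgt _) +
        (Peb (SArc (Rc (Blow E (Crv r s) e))) (stgt _) : ℝ) ^ (1 - ε)) :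
    VSep E ≤ k ↔ A < (M + s ^ r * (k + 1) + 3 : ℕ) + (s : ℝ) ^ r / 2 := by
  haveI : Fact s.Prime := ⟨hp⟩
  haveI : NeZero s := ⟨hp.ne_zero⟩
  have hr1 : 1 ≤ r := by
    rcases Nat.eq_zero_or_pos r with h | h
    · rw [h] at hr
      simp at hr
      linarith
    · exact h
  have hs8 : 8 ≤ s := by nlinarith
  have hM := eq_of_equiv e
  have hX : s ≤ s ^ r := by
    calc s = s ^ 1 := (pow_one s).symm
      _ ≤ s ^ r := Nat.pow_le_pow_right (by omega) hr1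
  have hM1 : 1 ≤ M := by rw [hM]; nlinarith
  obtain ⟨hlo, hup⟩ := s_peb_rc hM1 (Blow E (Crv r s) e)
  set p := Peb (SArc (Rc (Blow E (Crv r s) e))) (stgt _) with hpdef
  -- the size of the pebbling number
  have hpM : p ≤ s ^ (r + 1) := by
    have h3 := vsep_le_pred hM1 (Blow E (Crv r s) e)
    have h4 : 8 * M ≤ s ^ (r + 1) := by
      have h5 : 8 * m ≤ s := by nlinarith
      calc 8 * M = 8 * m * s ^ r := by rw [hM]; ring
        _ ≤ s * s ^ r := Nat.mul_le_mul_right _ h5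
        _ = s ^ (r + 1) := by ring
    omega
  have hε1 : (1 / 2 - ε) * ((2 * r + 5 : ℕ) : ℝ) ≤ r - 1 / 2 := by
    push_cast
    nlinarith
  have hε2 : (1 - ε) * ((r + 1 : ℕ) : ℝ) ≤ r - 1 / 2 := by
    push_cast
    nlinarith
  have hN := node_bound hm hr1 hs E e
  have hN1 : 1 ≤ Nat.card (SNode (Rc (Blow E (Crv r s) e))) := by
    rw [s_card]
    omega
  have hgap1 : (Nat.card (SNode (Rc (Blow E (Crv r s) e))) : ℝ) ^ (1 / 2 - ε) <
      (s : ℝ) ^ r / 2 :=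
    rpow_lt_half hs8 hr1 (by exact_mod_cast hN1) (by exact_mod_cast hN) hε1
  have hgap2 : (p : ℝ) ^ (1 - ε) < (s : ℝ) ^ r / 2 :=
    rpow_lt_half hs8 hr1 (by have : 1 ≤ p := by omega
                             exact_mod_cast this) (by exact_mod_cast hpM) hε2
  have hA : A < p + (s : ℝ) ^ r / 2 := by
    rcases h2 with h2 | h2 <;> linarith
  constructor
  · intro hk
    have h3 := blow_up E e (r := r) (s := s) hk
    have h4 : p ≤ M + s ^ r * (k + 1) + 3 := by omega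
    have h5 : (p : ℝ) ≤ (M + s ^ r * (k + 1) + 3 : ℕ) := by exact_mod_cast h4
    linarith
  · intro hA2
    by_contra hk
    push Not at hk
    have h3 := blow_low hm hr1 hs E e hk
    have h4 : 2 * (M + s ^ r * (k + 1) + 3) + s ^ r ≤ 2 * p := by omega
    have h5 : (2 : ℝ) * (M + s ^ r * (k + 1) + 3 : ℕ) + (s : ℝ) ^ r ≤ 2 * p := by
      exact_mod_cast h4
    linarith

end MP1fca05
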