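import Pool.Agent.Lib.MP_1fca05_lc.SpChain

/-!
The lower bound for the sparse dag.
-/

namespace MP1fca05

section

variable {M : ℕ} {R : Fin M → Fin M → Prop}

/-- the embedding of the sparse dag into the infinite layered dag -/
def semb (R : Fin M → Fin M → Prop) : SNode R → Nd M
  | .inl x => (x.1.1, x.1.2.1, x.1.2.2)
  | .inr j => (Fin.last M, 20 * (M + 1), j)

theorem exists_prev {w : Fin (M + 1)} {u j : Fin (M + 1)} (hu : Rp R u w) (huj : u < j) :
    ∃ i, u ≤ i ∧ i < j ∧ Rp R i w ∧ ∀ l, i < l → l < j → ¬ Rp R l w := by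
  classical
  have hne : (Finset.univ.filter (fun i => Rp R i w ∧ i < j)).Nonempty :=
    ⟨u, by simp [hu, huj]⟩
  refine ⟨(Finset.univ.filter (fun i => Rp R i w ∧ i < j)).max' hne, ?_, ?_, ?_, ?_⟩
  · exact Finset.le_max' _ _ (by simp [hu, huj])
  · have := Finset.max'_mem _ hne
    rw [Finset.mem_filter] at this
    exact this.2.2
  · have := Finset.max'_mem _ hne
    rw [Finset.mem_filter] at this
    exact this.2.1
  · intro l h1 h2 h3
    have := Finset.le_max' (Finset.univ.filter (fun i => Rp R i w ∧ i < j)) l (by simp [h3, h2])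
    exact absurd h1 (not_lt.2 this)

/-- placing a pebble on a node all of whose predecessors carry pebbles keeps openness -/
theorem semb_ins {P : Finset (SNode R)} {v : SNode R} (hv : ∀ u, SArc R u v → u ∈ P) (l : ℕ)
    (hl : (semb R v).2.1 = l + 1) (u : Fin (M + 1)) (hu : Rp R u (semb R v).1)
    (huv : u ≤ (semb R v).2.2) : (u, l, Fin.last M) ∈ P.image (semb R) ∨
      ∃ i, u ≤ i ∧ ((semb R v).1, l + 1, i) ∈ P.image (semb R) := by
  classical
  rcases v with ⟨⟨w, a, j⟩, hj⟩ | j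
  · simp only [semb] at hl hu huv hj ⊢
    rcases eq_or_lt_of_le huv with h1 | h1
    · left
      subst h1
      have ha := a.2
      refine Finset.mem_image.2 ⟨.inl ⟨(u, ⟨l, by omega⟩, Fin.last M), Or.inl rfl⟩, hv _ ?_, rfl⟩
      exact Or.inr ⟨rfl, hl.symm, rfl⟩
    · right
      obtain ⟨i, h2, h3, h4, h5⟩ := exists_prev hu h1
      refine ⟨i, h2, Finset.mem_image.2 ⟨.inl ⟨(w, a, i), h4⟩, hv _ ?_, ?_⟩⟩
      · exact Or.inl ⟨rfl, rfl, h3, h5⟩
      · simp only [semb, hl]
  · simp only [semb] at hl hu huv ⊢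
    rcases eq_or_lt_of_le huv with h1 | h1
    · left
      subst h1
      refine Finset.mem_image.2 ⟨.inl ⟨(u, ⟨l, by omega⟩, Fin.last M), Or.inl rfl⟩, hv _ ?_, rfl⟩
      exact ⟨rfl, hl.symm, rfl⟩
    · right
      have h1' : (u : ℕ) < j := h1
      have hj := j.2
      refine ⟨⟨(j : ℕ) - 1, by omega⟩, ?_, Finset.mem_image.2 ⟨.inr ⟨(j : ℕ) - 1, by omega⟩,
        hv _ ?_, ?_⟩⟩
      · rw [Fin.le_def]
        simp only
        omega
      · show (j : ℕ) - 1 + 1 = j
        omega
      · simp only [semb, hl]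

theorem ast_of_move {P Q : Finset (SNode R)} (h : Move (SArc R) P Q) :
    ASt R (P.image (semb R)) (Q.image (semb R)) := by
  classical
  rcases h with ⟨v, _, h2, rfl⟩ | ⟨v, _, rfl⟩ | ⟨u, v, _, _, _, h4, rfl⟩
  · refine ⟨semb R v, ?_, fun b hb k w hw => op_ins (semb_ins h2) hb hw⟩
    rw [Finset.image_insert]
  · refine ⟨(0, 0, 0), ?_, fun b hb k w hw => op_ins (fun l hl => ?_) hb hw⟩
    · exact (Finset.image_subset_image (Finset.erase_subset _ _)).trans (Finset.subset_insert _ _)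
    · simp only at hl
      omega
  · refine ⟨semb R v, ?_, fun b hb k w hw => op_ins (semb_ins h4) hb hw⟩
    rw [Finset.image_insert]
    exact Finset.insert_subset_insert _ (Finset.image_subset_image (Finset.erase_subset _ _))

theorem s_preds {P Q : Finset (SNode R)} (h : Move (SArc R) P Q) {z : SNode R} (hz : z ∉ P)
    (hz' : z ∈ Q) : ∀ u, SArc R u z → u ∈ P := by
  classical
  rcases h with ⟨v, _, h2, rfl⟩ | ⟨v, _, rfl⟩ | ⟨u, v, _, _, _, h4, rfl⟩
  · rcases Finset.mem_insert.1 hz' with h | h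
    · rw [h]
      exact h2
    · exact absurd h hz
  · exact absurd (Finset.mem_of_mem_erase hz') hz
  · rcases Finset.mem_insert.1 hz' with h | h
    · rw [h]
      exact h4
    · exact absurd (Finset.mem_of_mem_erase h) hz

theorem s_chain_or {s : ℕ} (hR : ∀ i, R i i) (h : CanPebble (SArc R) (stgt R) s)
    (hs : s ≤ 2 * M) :
    ∃ (t1 t2 : ℕ) (X : ℕ → Finset (Fin (M + 1))), t1 ≤ t2 ∧ X t1 = ∅ ∧
      X t2 = Finset.univ ∧ (∀ r, t1 ≤ r → r < t2 → X r ⊆ X (r + 1)) ∧
      ∀ r, t1 ≤ r → r < t2 →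
        (Finset.univ \ X r).card + {v | ∃ u ∈ X (r + 1), Rp R u v}.ncard ≤ s + 1 := by
  classical
  obtain ⟨T, S, hS0, hS, hT, hc⟩ := h
  obtain ⟨tf, hf0, hfT, hf1, hf2⟩ := first_time (fun t => stgt R ∉ S t)
    (a := 0) (b := T) (by simp [hS0]) (by omega) (by simpa using hT)
  obtain ⟨e, rfl⟩ : ∃ e, tf = e + 1 := ⟨tf - 1, by omega⟩
  have hze : stgt R ∉ S e := hf2 e (by omega) (by omega)
  have hze1 : stgt R ∈ S (e + 1) := by simpa using hf1
  have hpre := s_preds (hS e (by omega)) hze hze1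
  have hne : ∀ b, b < 20 * (M + 1) →
      ¬ Op R ((S e).image (semb R)) b (20 * (M + 1) - b) (Fin.last M) := by
    intro b hb hop
    obtain ⟨k, hk⟩ : ∃ k, 20 * (M + 1) - b = k + 1 := ⟨20 * (M + 1) - b - 1, by omega⟩
    rw [hk] at hop
    obtain ⟨u, h1, h2, h3⟩ := hop
    have h5 := semb_ins hpre (b + k) (by simp only [stgt, semb]; omega) u
      (by simp only [stgt, semb]; exact h2) (by simp only [stgt, semb]; exact Fin.le_last u)
    rcases h5 with h5 | ⟨i, h5, h6⟩
    · exact op_out h1 h5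
    · exact h3 i h5 h6
  rcases aexists_chain hR (s := s) (e := e) (L := 20 * (M + 1)) (fun t => (S t).image (semb R))
    (by simp [hS0]) (fun t ht => ast_of_move (hS t (by omega)))
    (fun t ht => (Finset.card_image_le).trans (hc t (by omega))) hne
    (by omega) with h1 | h1
  · omega
  · exact h1

theorem s_le_peb (hM : 1 ≤ M) (hR : ∀ i, R i i) {K : ℕ}
    (h : CanPebble (SArc R) (stgt R) K) : M + sInf {k | Layout R k} + 2 ≤ K := by
  by_contra hcon
  push Not at hcon
  have hβ : sInf {k | Layout R k} ≤ M - 1 := Nat.sInf_le (layout_pred hM R)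
  obtain ⟨t1, t2, X, h12, hX1, hX2, hmono, hcard⟩ := s_chain_or hR h (by omega)
  rcases Nat.eq_zero_or_pos (sInf {k | Layout R k}) with h0 | h0
  · -- the first column needs already `M + 2` pebbles
    rw [h0] at hcon
    obtain ⟨t, h1, h2, h3, h4⟩ := first_time (fun t => X t = ∅) (a := t1) (b := t2) hX1 h12
      (by rw [hX2]; exact Finset.univ_nonempty.ne_empty)
    obtain ⟨d, rfl⟩ : ∃ d, t = d + 1 := ⟨t - 1, by omega⟩
    have h5 := h4 d (by omega) (by omega)
    have h6 := hcard d (by omega) (by omega)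
    have h5' : X d = ∅ := h5
    rw [h5', Finset.sdiff_empty, Finset.card_univ, Fintype.card_fin] at h6
    obtain ⟨w, hw⟩ := Finset.nonempty_iff_ne_empty.2 h3
    have h7 : 2 ≤ {v | ∃ u ∈ X (d + 1), Rp R u v}.ncard := by
      show 1 < {v | ∃ u ∈ X (d + 1), Rp R u v}.ncard
      have hfin : {v | ∃ u ∈ X (d + 1), Rp R u v}.Finite := Set.toFinite _
      rw [Set.one_lt_ncard_iff hfin]
      rcases Fin.eq_castSucc_or_eq_last w with ⟨j, rfl⟩ | rfl
      · exact ⟨j.castSucc, Fin.last M, ⟨_, hw, rp_refl hR _⟩, ⟨_, hw, rp_last_right _⟩,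
          Fin.castSucc_ne_last j⟩
      · refine ⟨0, Fin.last M, ⟨_, hw, rp_last_left _⟩, ⟨_, hw, rp_last_left _⟩, ?_⟩
        intro h8
        have := congrArg Fin.val h8
        simp at this
        omega
    omega
  · have h1 : Layout R (sInf {k | Layout R k} - 1) :=
      layout_of_chain R h12 X hX1 hX2 hmono hcard (by omega)
    have h2 := Nat.sInf_le (s := {k | Layout R k}) h1
    omega

end

end MP1fca05
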