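import Pool.Agent.Lib.MP_1fca05_lc.Sp

/-!
The sparse dag is a dag with unique sink and indegree at most two; the number of its nodes.
-/

namespace MP1fca05

/-- A rank which increases along the arcs of the sparse dag. -/
def srk {M : ℕ} {R : Fin M → Fin M → Prop} : SNode R → ℕ
  | .inl x => (x.1.2.1 : ℕ) * (M + 1) + x.1.2.2
  | .inr j => 20 * (M + 1) * (M + 1) + j

theorem srk_lt {M : ℕ} {R : Fin M → Fin M → Prop} {x y : SNode R} (h : SArc R x y) :
    srk x < srk y := by
  match x, y, h with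
  | .inl x, .inl y, h =>
    show (x.1.2.1 : ℕ) * (M + 1) + x.1.2.2 < (y.1.2.1 : ℕ) * (M + 1) + y.1.2.2
    rcases h with ⟨_, h2, h3, _⟩ | ⟨h1, h2, _⟩
    · rw [h2]
      have h4 : (x.1.2.2 : ℕ) < y.1.2.2 := h3
      omega
    · have h4 : (x.1.2.2 : ℕ) = M := by rw [h1]; rfl
      rw [h4, ← h2]
      have : ((x.1.2.1 : ℕ) + 1) * (M + 1) = (x.1.2.1 : ℕ) * (M + 1) + (M + 1) := by ring
      omega
  | .inl x, .inr j, h =>
    show (x.1.2.1 : ℕ) * (M + 1) + x.1.2.2 < 20 * (M + 1) * (M + 1) + j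
    obtain ⟨_, h2, _⟩ := h
    have h3 : ((x.1.2.1 : ℕ) + 1) * (M + 1) = (x.1.2.1 : ℕ) * (M + 1) + (M + 1) := by ring
    rw [h2] at h3
    have := x.1.2.2.isLt
    omega
  | .inr i, .inr j, h =>
    show 20 * (M + 1) * (M + 1) + (i : ℕ) < 20 * (M + 1) * (M + 1) + j
    have h1 : (i : ℕ) + 1 = j := h
    omega

theorem srk_transGen {M : ℕ} {R : Fin M → Fin M → Prop} {x y : SNode R}
    (h : Relation.TransGen (SArc R) x y) : srk x < srk y := by
  induction h with
  | single h => exact srk_lt h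
  | tail _ h ih => exact ih.trans (srk_lt h)

theorem encard_union_le_two {α : Type*} {A B : Set α} (hA : ∀ a ∈ A, ∀ b ∈ A, a = b)
    (hB : ∀ a ∈ B, ∀ b ∈ B, a = b) : (A ∪ B).encard ≤ 2 := by
  have h1 : A.encard ≤ 1 := Set.encard_le_one_iff.2 fun a b ha hb => hA a ha b hb
  have h2 : B.encard ≤ 1 := Set.encard_le_one_iff.2 fun a b ha hb => hB a ha b hb
  refine (Set.encard_union_le A B).trans ((add_le_add h1 h2).trans ?_)
  norm_num

theorem fin_eq_last {M : ℕ} {j : Fin (M + 1)} (hj : ¬ (j : ℕ) < M) : j = Fin.last M := by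
  apply Fin.ext
  have h1 : ((Fin.last M : Fin (M + 1)) : ℕ) = M := rfl
  rw [h1]
  have := j.isLt
  omega

/-- The next column that is read. -/
theorem exists_next_reading {M : ℕ} (R : Fin M → Fin M → Prop) (w j : Fin (M + 1))
    (hj : (j : ℕ) < M) : ∃ j' : Fin (M + 1), j < j' ∧ Rp R j' w ∧
      ∀ i, j < i → i < j' → ¬ Rp R i w := by
  classical
  let S : Finset (Fin (M + 1)) := Finset.univ.filter fun i => j < i ∧ Rp R i w
  have hS : S.Nonempty := by
    refine ⟨Fin.last M, ?_⟩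
    rw [Finset.mem_filter]
    refine ⟨Finset.mem_univ _, ?_, Or.inl rfl⟩
    show (j : ℕ) < M
    exact hj
  have hm := Finset.min'_mem S hS
  rw [Finset.mem_filter] at hm
  refine ⟨S.min' hS, hm.2.1, hm.2.2, ?_⟩
  intro i h1 h2 h3
  have h4 : i ∈ S := by
    rw [Finset.mem_filter]
    exact ⟨Finset.mem_univ _, h1, h3⟩
  exact absurd (Finset.min'_le S i h4) (not_le.2 h2)

theorem s_isPebDag {M : ℕ} (R : Fin M → Fin M → Prop) : IsPebDag (SArc R) (stgt R) := by
  refine ⟨fun v h => lt_irrefl _ (srk_transGen h), fun v => ⟨fun h => ?_, ?_⟩, fun v => ?_⟩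
  · by_contra hv
    match v, h, hv with
    | .inl ⟨(w, l, j), hx⟩, h, _ =>
      by_cases hj : (j : ℕ) < M
      · obtain ⟨j', h1, h2, h3⟩ := exists_next_reading R w j hj
        exact h (.inl ⟨(w, l, j'), h2⟩) (Or.inl ⟨rfl, rfl, h1, h3⟩)
      · have hj' : j = Fin.last M := fin_eq_last hj
        by_cases hl : (l : ℕ) + 1 < 20 * (M + 1)
        · exact h (.inl ⟨(Fin.last M, ⟨l + 1, hl⟩, w), Or.inr (Or.inl rfl)⟩)
            (Or.inr ⟨hj', rfl, rfl⟩)
        · refine h (.inr w) ⟨hj', ?_, rfl⟩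
          have := l.isLt
          show (l : ℕ) + 1 = 20 * (M + 1)
          omega
    | .inr j, h, hv =>
      by_cases hj : (j : ℕ) < M
      · exact h (.inr ⟨j + 1, by omega⟩) rfl
      · refine hv ?_
        show (Sum.inr j : SNode R) = .inr (Fin.last M)
        rw [fin_eq_last hj]
  · rintro rfl w h
    match w, h with
    | .inr j, h =>
      have h1 : ((Fin.last M : Fin (M + 1)) : ℕ) + 1 = j := h
      have h2 : ((Fin.last M : Fin (M + 1)) : ℕ) = M := rfl
      have := j.isLt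
      omega
  · match v with
    | .inl y =>
      have hsub : {u | SArc R u (.inl y)} ⊆
          {u : SNode R | ∃ x, u = .inl x ∧ (x.1.1 = y.1.1 ∧ x.1.2.1 = y.1.2.1 ∧
            x.1.2.2 < y.1.2.2 ∧ ∀ j, x.1.2.2 < j → j < y.1.2.2 → ¬ Rp R j x.1.1)} ∪
          {u : SNode R | ∃ x, u = .inl x ∧ (x.1.2.2 = Fin.last M ∧
            (x.1.2.1 : ℕ) + 1 = y.1.2.1 ∧ x.1.1 = y.1.2.2)} := by
        intro u hu
        match u, hu with
        | .inl x, hu =>
          rcases hu with h | h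
          · exact Or.inl ⟨x, rfl, h⟩
          · exact Or.inr ⟨x, rfl, h⟩
      refine (Set.encard_le_encard hsub).trans (encard_union_le_two ?_ ?_)
      · rintro _ ⟨a, rfl, ha1, ha2, ha3, ha4⟩ _ ⟨b, rfl, hb1, hb2, hb3, hb4⟩
        have h1 : a.1.2.2 = b.1.2.2 := by
          rcases lt_trichotomy a.1.2.2 b.1.2.2 with h | h | h
          · refine absurd ?_ (ha4 b.1.2.2 h hb3)
            have := b.2
            rw [ha1, ← hb1]
            exact this
          · exact h
          · refine absurd ?_ (hb4 a.1.2.2 h ha3)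
            have := a.2
            rw [hb1, ← ha1]
            exact this
        have h2 : a.1 = b.1 :=
          Prod.ext (ha1.trans hb1.symm) (Prod.ext (ha2.trans hb2.symm) h1)
        rw [Subtype.ext h2]
      · rintro _ ⟨a, rfl, ha1, ha2, ha3⟩ _ ⟨b, rfl, hb1, hb2, hb3⟩
        have h1 : a.1.2.1 = b.1.2.1 := Fin.ext (by omega)
        have h2 : a.1 = b.1 :=
          Prod.ext (ha3.trans hb3.symm) (Prod.ext h1 (ha1.trans hb1.symm))
        rw [Subtype.ext h2]
    | .inr j =>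
      have hsub : {u | SArc R u (.inr j)} ⊆
          {u : SNode R | ∃ x, u = .inl x ∧ (x.1.2.2 = Fin.last M ∧
            (x.1.2.1 : ℕ) + 1 = 20 * (M + 1) ∧ x.1.1 = j)} ∪
          {u : SNode R | ∃ i : Fin (M + 1), u = .inr i ∧ (i : ℕ) + 1 = j} := by
        intro u hu
        match u, hu with
        | .inl x, hu => exact Or.inl ⟨x, rfl, hu⟩
        | .inr i, hu => exact Or.inr ⟨i, rfl, hu⟩
      refine (Set.encard_le_encard hsub).trans (encard_union_le_two ?_ ?_)
      · rintro _ ⟨a, rfl, ha1, ha2, ha3⟩ _ ⟨b, rfl, hb1, hb2, hb3⟩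
        have h1 : a.1.2.1 = b.1.2.1 := Fin.ext (by omega)
        have h2 : a.1 = b.1 :=
          Prod.ext (ha3.trans hb3.symm) (Prod.ext h1 (ha1.trans hb1.symm))
        rw [Subtype.ext h2]
      · rintro _ ⟨a, rfl, ha⟩ _ ⟨b, rfl, hb⟩
        have h1 : a = b := Fin.ext (by omega)
        rw [h1]

theorem s_card {M : ℕ} (R : Fin M → Fin M → Prop) :
    Nat.card (SNode R) = 20 * (M + 1) * {p : Fin (M + 1) × Fin (M + 1) | Rp R p.1 p.2}.ncard +
      (M + 1) := by
  classical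
  let e : {x : Fin (M + 1) × Fin (20 * (M + 1)) × Fin (M + 1) // Rp R x.2.2 x.1} ≃
      Fin (20 * (M + 1)) × {p : Fin (M + 1) × Fin (M + 1) | Rp R p.1 p.2} :=
    { toFun := fun x => (x.1.2.1, ⟨(x.1.2.2, x.1.1), x.2⟩)
      invFun := fun y => ⟨(y.2.1.2, y.1, y.2.1.1), y.2.2⟩
      left_inv := fun x => rfl
      right_inv := fun y => rfl }
  unfold SNode
  rw [Nat.card_sum, Nat.card_congr e, Nat.card_prod, Nat.card_eq_fintype_card (α := Fin (M + 1)),
    Nat.card_eq_fintype_card (α := Fin (20 * (M + 1))), Fintype.card_fin, Fintype.card_fin,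
    Nat.card_coe_set_eq]

end MP1fca05
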