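import Pool.Agent.Lib.MP_1fca05_lc.Sp
import Pool.Agent.Lib.MP_1fca05_lc.Upper

/-!
A strategy for the dense dag gives a strategy for the sparse dag.
-/

namespace MP1fca05

namespace Sim

open Up

/-! ### The image of a strategy under a partial map -/

section

variable {V V' : Type} [DecidableEq V] [DecidableEq V'] (f : V → Option V')

/-- The image of a configuration. -/
def F (P : Finset V) : Finset V' := Finset.eraseNone (P.image f)

omit [DecidableEq V] in
theorem mem_F {P : Finset V} {y : V'} : y ∈ F f P ↔ ∃ x ∈ P, f x = some y := by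
  unfold F
  rw [Finset.mem_eraseNone, Finset.mem_image]

omit [DecidableEq V] in
theorem card_F (P : Finset V) : (F f P).card ≤ P.card :=
  (Finset.card_eraseNone_le _).trans Finset.card_image_le

theorem F_empty : F f (∅ : Finset V) = ∅ := by
  ext y
  simp [mem_F]

theorem F_insert_none {P : Finset V} {v : V} (hv : f v = none) : F f (insert v P) = F f P := by
  ext y
  rw [mem_F, mem_F]
  constructor
  · rintro ⟨x, hx, hxy⟩
    rcases Finset.mem_insert.1 hx with rfl | hx
    · rw [hv] at hxy
      exact absurd hxy (by simp)
    · exact ⟨x, hx, hxy⟩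
  · rintro ⟨x, hx, hxy⟩
    exact ⟨x, Finset.mem_insert_of_mem hx, hxy⟩

theorem F_insert_some {P : Finset V} {v : V} {y : V'} (hv : f v = some y) :
    F f (insert v P) = insert y (F f P) := by
  ext z
  rw [Finset.mem_insert, mem_F, mem_F]
  constructor
  · rintro ⟨x, hx, hxy⟩
    rcases Finset.mem_insert.1 hx with rfl | hx
    · rw [hv, Option.some_inj] at hxy
      exact Or.inl hxy.symm
    · exact Or.inr ⟨x, hx, hxy⟩
  · rintro (rfl | ⟨x, hx, hxy⟩)
    · exact ⟨v, Finset.mem_insert_self _ _, hv⟩
    · exact ⟨x, Finset.mem_insert_of_mem hx, hxy⟩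

theorem F_erase {P : Finset V} {u : V} (hu : u ∈ P) :
    F f (P.erase u) = F f P ∨
      ∃ z, z ∈ F f P ∧ f u = some z ∧ F f (P.erase u) = (F f P).erase z := by
  have h1 : F f P = F f (insert u (P.erase u)) := by rw [Finset.insert_erase hu]
  rcases h2 : f u with _ | z
  · left
    rw [h1, F_insert_none f h2]
  · have h3 : F f P = insert z (F f (P.erase u)) := by rw [h1, F_insert_some f h2]
    by_cases hz : z ∈ F f (P.erase u)
    · left
      rw [h3, Finset.insert_eq_of_mem hz]
    · right
      refine ⟨z, ?_, rfl, ?_⟩
      · rw [h3]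
        exact Finset.mem_insert_self _ _
      · rw [h3, Finset.erase_insert hz]

variable {E : V → V → Prop} {E' : V' → V' → Prop} {K : ℕ}

theorem erase_rch {P : Finset V} {u : V} (hu : u ∈ P) (hP : P.card ≤ K) :
    Rch E' K (F f P) (F f (P.erase u)) := by
  rcases F_erase f hu with h | ⟨z, hz, -, h⟩
  · rw [h]
    exact Relation.ReflTransGen.refl
  · rw [h]
    exact Rch.remove hz ((card_F f P).trans hP)

theorem move_rch
    (H1 : ∀ v y, f v = some y → (∃ u, E u v ∧ f u = some y) ∨
      ∀ y', E' y' y → ∃ u, E u v ∧ f u = some y')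
    (H2 : ∀ u v y z, E u v → f v = some y → f u = some z → z = y ∨ E' z y)
    {P Q : Finset V} (h : Move E P Q) (hP : P.card ≤ K) (hQ : Q.card ≤ K) :
    Rch E' K (F f P) (F f Q) := by
  -- all predecessors of the image of `v` are in the image of the configuration
  have key : ∀ v y, (∀ u, E u v → u ∈ P) → f v = some y → y ∉ F f P →
      ∀ y', E' y' y → y' ∈ F f P := by
    intro v y hpre hv hy y' hy'
    rcases H1 v y hv with ⟨u, hu, hu'⟩ | h
    · exact absurd ((mem_F f).2 ⟨u, hpre u hu, hu'⟩) hy
    · obtain ⟨u, hu, hu'⟩ := h y' hy'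
      exact (mem_F f).2 ⟨u, hpre u hu, hu'⟩
  rcases h with ⟨v, hvP, hpre, rfl⟩ | ⟨v, hvP, rfl⟩ | ⟨u, v, huP, hvP, huv, hpre, rfl⟩
  · rcases hv : f v with _ | y
    · rw [F_insert_none f hv]
      exact Relation.ReflTransGen.refl
    · rw [F_insert_some f hv]
      by_cases hy : y ∈ F f P
      · rw [Finset.insert_eq_of_mem hy]
        exact Relation.ReflTransGen.refl
      · refine Rch.place hy (key v y hpre hv hy) ?_
        rw [Finset.card_insert_of_notMem hvP] at hQ
        have := card_F f P
        omega
  · exact erase_rch f hvP hP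
  · rcases hv : f v with _ | y
    · rw [F_insert_none f hv]
      exact erase_rch f huP hP
    · by_cases hy' : y ∈ F f (P.erase u)
      · rw [F_insert_some f hv, Finset.insert_eq_of_mem hy']
        exact erase_rch f huP hP
      · have hQF : F f (insert v (P.erase u)) = insert y (F f (P.erase u)) := F_insert_some f hv
        rcases F_erase f huP with h | ⟨z, hz, huz, h⟩
        · rw [hQF, h]
          rw [h] at hy'
          refine Rch.place hy' (key v y hpre hv hy') ?_
          have h1 := card_F f (P.erase u)
          rw [h, Finset.card_erase_of_mem huP] at h1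
          have h2 : 0 < P.card := Finset.card_pos.2 ⟨u, huP⟩
          omega
        · by_cases hy : y ∈ F f P
          · have h3 : y = z := by
              by_contra hne
              apply hy'
              rw [h]
              exact Finset.mem_erase.2 ⟨hne, hy⟩
            rw [hQF, h, h3, Finset.insert_erase hz]
            exact Relation.ReflTransGen.refl
          · have h3 : E' z y := by
              rcases H2 u v y z huv hv huz with h3 | h3
              · rw [h3] at hz
                exact absurd hz hy
              · exact h3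
            refine Relation.ReflTransGen.single ⟨Or.inr (Or.inr ⟨z, y, hz, hy, h3,
              key v y hpre hv hy, ?_⟩), (card_F f _).trans hQ⟩
            rw [hQF, h]

/-- The image of a strategy is a strategy. -/
theorem canPebble_image
    (H1 : ∀ v y, f v = some y → (∃ u, E u v ∧ f u = some y) ∨
      ∀ y', E' y' y → ∃ u, E u v ∧ f u = some y')
    (H2 : ∀ u v y z, E u v → f v = some y → f u = some z → z = y ∨ E' z y)
    {t : V} {t' : V'} (ht : f t = some t') (h : CanPebble E t K) : CanPebble E' t' K := by
  obtain ⟨T, S, h0, hm, hT, hK⟩ := h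
  have key : ∀ i ≤ T, Rch E' K ∅ (F f (S i)) := by
    intro i
    induction i with
    | zero =>
      intro _
      rw [h0, F_empty]
      exact Relation.ReflTransGen.refl
    | succ i ih =>
      intro hi
      exact (ih (by omega)).trans
        (move_rch f H1 H2 (hm i (by omega)) (hK i (by omega)) (hK (i + 1) hi))
  exact (key T le_rfl).can ((mem_F f).2 ⟨t, hT, ht⟩)

end

/-! ### The partial map from the dense to the sparse dag -/

variable {M : ℕ} {R : Fin M → Fin M → Prop}

/-- `y` is the last node of the sparse dag which is not after the node `x`, in its column and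
layer. -/
def Im (R : Fin M → Fin M → Prop) : Node M → SNode R → Prop
  | .inl (w, l, j), .inl y =>
      y.1.1 = w ∧ y.1.2.1 = l ∧ y.1.2.2 ≤ j ∧ ∀ j', y.1.2.2 < j' → j' ≤ j → ¬ Rp R j' w
  | .inr j, .inr j' => j = j'
  | .inl _, .inr _ => False
  | .inr _, .inl _ => False

theorem Im_unique {x : Node M} {y y' : SNode R} (h : Im R x y) (h' : Im R x y') : y = y' := by
  rcases x with ⟨w, l, j⟩ | j <;> rcases y with ⟨⟨w1, l1, j1⟩, hy⟩ | j1 <;>
    rcases y' with ⟨⟨w2, l2, j2⟩, hy'⟩ | j2
  · obtain ⟨h1, h2, h3, h4⟩ := h
    obtain ⟨h1', h2', h3', h4'⟩ := h'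
    simp only at h1 h2 h3 h4 h1' h2' h3' h4' hy hy'
    subst h1 h2 h1' h2'
    have h5 : j1 = j2 := by
      rcases lt_trichotomy j1 j2 with h5 | h5 | h5
      · exact absurd hy' (h4 j2 h5 h3')
      · exact h5
      · exact absurd hy (h4' j1 h5 h3)
    subst h5
    rfl
  · exact h'.elim
  · exact h.elim
  · exact h.elim
  · exact h.elim
  · exact h.elim
  · exact h'.elim
  · have h1 : j = j1 := h
    have h2 : j = j2 := h'
    rw [← h1, ← h2]

open Classical in
/-- The partial map. -/
noncomputable def img (R : Fin M → Fin M → Prop) (x : Node M) : Option (SNode R) :=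
  if h : ∃ y, Im R x y then some h.choose else none

theorem img_eq {x : Node M} {y : SNode R} : img R x = some y ↔ Im R x y := by
  unfold img
  constructor
  · intro h
    by_cases hx : ∃ y, Im R x y
    · rw [dif_pos hx, Option.some_inj] at h
      rw [← h]
      exact hx.choose_spec
    · rw [dif_neg hx] at h
      exact absurd h (by simp)
  · intro h
    have hx : ∃ y, Im R x y := ⟨y, h⟩
    rw [dif_pos hx, Option.some_inj]
    exact Im_unique hx.choose_spec h

theorem Im_last {w : Fin (M + 1)} {l : Fin (20 * (M + 1))} :
    Im R (.inl (w, l, Fin.last M)) (.inl ⟨(w, l, Fin.last M), Or.inl rfl⟩) :=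
  ⟨rfl, rfl, le_rfl, fun _ h1 _ => absurd h1 (not_lt.2 (Fin.le_last _))⟩

theorem img_H1 (v : Node M) (y : SNode R) (hv : img R v = some y) :
    (∃ u, Arc R u v ∧ img R u = some y) ∨ ∀ y', SArc R y' y → ∃ u, Arc R u v ∧ img R u = some y' := by
  rw [img_eq] at hv
  simp only [img_eq]
  rcases v with ⟨w, l, j⟩ | j
  · rcases y with ⟨⟨w1, l1, j1⟩, hy⟩ | j1
    · obtain ⟨h1, h2, h3, h4⟩ := hv
      simp only at h1 h2 h3 h4 hy
      subst h1 h2
      rcases h3.lt_or_eq with h3 | h3
      · -- the node reads nothing
        left
        have hj : (j1 : ℕ) < j := h3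
        refine ⟨.inl (w1, l1, ⟨j - 1, by omega⟩), Or.inl ⟨rfl, rfl, ?_⟩, rfl, rfl, ?_, ?_⟩
        · show (j : ℕ) - 1 + 1 = j
          omega
        · show j1 ≤ (⟨(j : ℕ) - 1, by omega⟩ : Fin (M + 1))
          rw [Fin.le_def]
          show (j1 : ℕ) ≤ j - 1
          omega
        · intro j' hj1 hj2
          refine h4 j' hj1 ?_
          rw [Fin.le_def] at hj2 ⊢
          have hj3 : (j' : ℕ) ≤ j - 1 := hj2
          omega
      · -- the node is a node of the sparse dag
        subst h3
        right
        rintro (⟨⟨w2, l2, j2⟩, hy2⟩ | j2) hE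
        · rcases hE with ⟨e1, e2, e3, e4⟩ | ⟨e1, e2, e3⟩
          · simp only at e1 e2 e3 e4 hy2
            subst e1 e2
            have hj : (j2 : ℕ) < j1 := e3
            refine ⟨.inl (w2, l2, ⟨j1 - 1, by omega⟩), Or.inl ⟨rfl, rfl, ?_⟩, rfl, rfl, ?_, ?_⟩
            · show (j1 : ℕ) - 1 + 1 = j1
              omega
            · show j2 ≤ (⟨(j1 : ℕ) - 1, by omega⟩ : Fin (M + 1))
              rw [Fin.le_def]
              show (j2 : ℕ) ≤ j1 - 1
              omega
            · intro j' hj1 hj2
              refine e4 j' hj1 ?_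
              rw [Fin.lt_def]
              rw [Fin.le_def] at hj2
              have hj3 : (j' : ℕ) ≤ j1 - 1 := hj2
              omega
          · simp only at e1 e2 e3 hy2
            subst e1 e3
            exact ⟨.inl (w2, l2, Fin.last M), Or.inr ⟨rfl, e2, rfl, hy⟩, Im_last⟩
        · exact hE.elim
    · exact hv.elim
  · rcases y with y | j1
    · exact hv.elim
    · have hj : j = j1 := hv
      subst hj
      right
      rintro (⟨⟨w2, l2, j2⟩, hy2⟩ | j2) hE
      · obtain ⟨e1, e2, e3⟩ := hE
        simp only at e1 e2 e3 hy2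
        subst e1 e3
        exact ⟨.inl (w2, l2, Fin.last M), ⟨rfl, e2, rfl⟩, Im_last⟩
      · exact ⟨.inr j2, hE, rfl⟩

theorem img_H2 (u v : Node M) (y z : SNode R) (huv : Arc R u v) (hv : img R v = some y)
    (hu : img R u = some z) : z = y ∨ SArc R z y := by
  rw [img_eq] at hv hu
  rcases v with ⟨w, l, j⟩ | j
  · rcases y with ⟨⟨w1, l1, j1⟩, hy⟩ | j1
    · obtain ⟨h1, h2, h3, h4⟩ := hv
      simp only at h1 h2 h3 h4 hy
      subst h1 h2
      rcases u with ⟨w', l', j'⟩ | j'
      · rcases z with ⟨⟨w2, l2, j2⟩, hz⟩ | j2
        · obtain ⟨g1, g2, g3, g4⟩ := hu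
          simp only at g1 g2 g3 g4 hz
          subst g1 g2
          rcases huv with ⟨rfl, rfl, e⟩ | ⟨e1, e2, rfl, e3⟩
          · -- the path predecessor
            rcases lt_trichotomy j2 j1 with h5 | h5 | h5
            · right
              left
              refine ⟨rfl, rfl, h5, fun i hi1 hi2 => ?_⟩
              simp only at hi1 hi2
              refine g4 i hi1 ?_
              rw [Fin.le_def]
              rw [Fin.lt_def] at hi2
              rw [Fin.le_def] at h3
              omega
            · left
              subst h5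
              rfl
            · exfalso
              refine h4 j2 h5 ?_ hz
              rw [Fin.le_def] at g3 ⊢
              omega
          · -- the reading predecessor
            subst e1
            have h5 : j1 = w2 := by
              rcases h3.lt_or_eq with h3 | h3
              · exact absurd e3 (h4 w2 h3 le_rfl)
              · exact h3
            have h6 : j2 = Fin.last M := by
              rcases g3.lt_or_eq with g3 | g3
              · exact absurd (Or.inl rfl) (g4 (Fin.last M) g3 le_rfl)
              · exact g3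
            subst h5 h6
            exact Or.inr (Or.inr ⟨rfl, e2, rfl⟩)
        · exact hu.elim
      · exact huv.elim
    · exact hv.elim
  · rcases y with y | j1
    · exact hv.elim
    · have hj : j = j1 := hv
      subst hj
      right
      rcases u with ⟨w', l', j'⟩ | j'
      · rcases z with ⟨⟨w2, l2, j2⟩, hz⟩ | j2
        · obtain ⟨g1, g2, g3, g4⟩ := hu
          simp only at g1 g2 g3 g4 hz
          subst g1 g2
          obtain ⟨rfl, e2, rfl⟩ := huv
          have h6 : j2 = Fin.last M := by
            rcases g3.lt_or_eq with g3 | g3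
            · exact absurd (Or.inl rfl) (g4 (Fin.last M) g3 le_rfl)
            · exact g3
          subst h6
          exact ⟨rfl, e2, rfl⟩
        · exact hu.elim
      · rcases z with z | j2
        · exact hu.elim
        · have hj : j' = j2 := hu
          subst hj
          exact huv

end Sim

theorem s_canPebble {M : ℕ} (R : Fin M → Fin M → Prop) {K : ℕ} (h : CanPebble (Arc R) (tgt M) K) :
    CanPebble (SArc R) (stgt R) K := by
  have ht : Sim.Im R (tgt M) (stgt R) := rfl
  exact Sim.canPebble_image (Sim.img R) Sim.img_H1 Sim.img_H2 (Sim.img_eq.2 ht) h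

end MP1fca05
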