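import Pool.Agent.Lib.MP_1fca05_lc.SpLow
import Pool.Agent.Lib.MP_1fca05_lc.SpUpper
import Pool.Agent.Lib.MP_1fca05_lc.SpProps
import Pool.Agent.Lib.MP_1fca05_lc.SpCount
import Pool.Agent.Lib.MP_1fca05_lc.BlowUp
import Pool.Agent.Lib.MP_1fca05_lc.BlowLow
import Pool.Agent.Lib.MP_1fca05_lc.Curve

/-!
The pebbling number of the sparse dag, and the additive gap.
-/

namespace MP1fca05

section

variable {M : ℕ}

theorem s_exists_canPebble (R : Fin M → Fin M → Prop) :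
    CanPebble (SArc R) (stgt R) (M + M + 3) := s_canPebble R (exists_canPebble R)

theorem s_canPebble_peb (R : Fin M → Fin M → Prop) :
    CanPebble (SArc R) (stgt R) (Peb (SArc R) (stgt R)) :=
  Nat.sInf_mem (s := {k | CanPebble (SArc R) (stgt R) k}) ⟨_, s_exists_canPebble R⟩

/-- the pebbling number of the sparse dag for the reflexive closure of a digraph -/
theorem s_peb_rc (hM : 1 ≤ M) (E : Fin M → Fin M → Prop) :
    M + VSep E + 2 ≤ Peb (SArc (Rc E)) (stgt (Rc E)) ∧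
      Peb (SArc (Rc E)) (stgt (Rc E)) ≤ M + VSep E + 3 := by
  constructor
  · rw [vsep_eq]
    exact s_le_peb hM (fun i => Or.inl rfl) (s_canPebble_peb _)
  · have h1 := s_canPebble (Rc E) (canPebble_peb (Rc E))
    exact (Nat.sInf_le (s := {k | CanPebble (SArc (Rc E)) (stgt (Rc E)) k}) h1).trans
      (peb_rc hM).2

theorem vsep_le_pred (hM : 1 ≤ M) (E : Fin M → Fin M → Prop) : VSep E ≤ M - 1 := by
  rw [vsep_eq]
  exact Nat.sInf_le (layout_pred hM _)

end

section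

variable {m M r s : ℕ}

theorem card_cube (r s : ℕ) [NeZero s] : Fintype.card (Fin r → ZMod s) = s ^ r := by
  simp [ZMod.card]

theorem eq_of_equiv [NeZero s] (e : Fin M ≃ Fin m × (Fin r → ZMod s)) : M = m * s ^ r := by
  have := Fintype.card_congr e
  rwa [Fintype.card_fin, Fintype.card_prod, Fintype.card_fin, card_cube] at this

theorem blow_low [Fact s.Prime] (hm : 1 ≤ m) (hr : 1 ≤ r) (hs : 8 * m * r ≤ s)
    (E : Fin m → Fin m → Prop) (e : Fin M ≃ Fin m × (Fin r → ZMod s)) {k : ℕ} (hk : k < VSep E) :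
    2 * (s ^ r * (k + 1) + 1) + s ^ r ≤ 2 * VSep (Blow E (Crv r s) e) := by
  haveI : NeZero s := ⟨(Fact.out : s.Prime).ne_zero⟩
  obtain ⟨r', rfl⟩ : ∃ r', r = r' + 1 := ⟨r - 1, by omega⟩
  have hs0 : 0 < s := (Fact.out : s.Prime).pos
  set q := r' * s ^ r' + 1 with hq
  have hj : ∀ A B : Finset (Fin (r' + 1) → ZMod s), q ≤ A.card → q ≤ B.card →
      ∃ a ∈ A, ∃ b ∈ B, Crv (r' + 1) s a b := by
    have key : ∀ c : ℕ, q ≤ c → (r' + 1 - 1) * s ^ (r' + 1) < s * c := by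
      intro c hc
      calc (r' + 1 - 1) * s ^ (r' + 1) = s * (r' * s ^ r') := by
            rw [Nat.add_sub_cancel]; ring
        _ < s * q := by
            apply Nat.mul_lt_mul_of_pos_left _ hs0
            omega
        _ ≤ s * c := Nat.mul_le_mul_left _ hc
    intro A B hA hB
    exact crv_joined (by omega) A B (key _ hA) (key _ hB)
  have h1 := le_vsep_blow hm E (Crv (r' + 1) s) e (q := q) (by omega) hj
  rw [card_cube] at h1
  have h2 : VSep E ≤ m - 1 := vsep_le_pred hm E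
  have h3 : (s ^ (r' + 1) - 2 * q) * (k + 2) ≤ (s ^ (r' + 1) - 2 * q) * (VSep E + 1) :=
    Nat.mul_le_mul_left _ (by omega)
  -- the size of `q`
  have hX : 1 ≤ s ^ r' := Nat.one_le_pow _ _ hs0
  have h4 : 4 * m * q + 2 ≤ s ^ (r' + 1) := by
    calc 4 * m * q + 2 ≤ 8 * m * (r' + 1) * s ^ r' := by
          rw [hq]
          nlinarith [Nat.mul_le_mul hm hX, Nat.mul_le_mul (Nat.mul_le_mul hm hX) (le_refl (r' + 1)),
            Nat.zero_le (m * r' * s ^ r'), Nat.mul_le_mul (le_refl m) hX]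
      _ ≤ s * s ^ r' := Nat.mul_le_mul_right _ hs
      _ = s ^ (r' + 1) := by ring
  have h5 : 2 * q * (k + 2) ≤ 2 * q * m := Nat.mul_le_mul_left _ (by omega)
  have h6 : (s ^ (r' + 1) - 2 * q) * (k + 2) + 2 * q * (k + 2) = s ^ (r' + 1) * (k + 2) := by
    rw [← Nat.add_mul]
    congr 1
    have : 2 * q ≤ 4 * m * q := by nlinarith
    omega
  have h7 : s ^ (r' + 1) * (k + 2) = s ^ (r' + 1) * (k + 1) + s ^ (r' + 1) := by ring
  have h8 : 4 * m * q = 2 * (2 * q * m) := by ring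
  omega

theorem blow_up [Fact s.Prime] (E : Fin m → Fin m → Prop)
    (e : Fin M ≃ Fin m × (Fin r → ZMod s)) {k : ℕ} (hk : VSep E ≤ k) :
    VSep (Blow E (Crv r s) e) ≤ s ^ r * (k + 1) := by
  haveI : NeZero s := ⟨(Fact.out : s.Prime).ne_zero⟩
  have h1 := vsep_blow_le E (Crv r s) e
  rw [card_cube] at h1
  exact h1.trans (Nat.mul_le_mul_left _ (by omega))

theorem node_bound [Fact s.Prime] (hm : 1 ≤ m) (hr : 1 ≤ r) (hs : 8 * m * r ≤ s)
    (E : Fin m → Fin m → Prop) (e : Fin M ≃ Fin m × (Fin r → ZMod s)) :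
    Nat.card (SNode (Rc (Blow E (Crv r s) e))) ≤ s ^ (2 * r + 5) := by
  haveI : NeZero s := ⟨(Fact.out : s.Prime).ne_zero⟩
  rw [s_card]
  have h1 := blow_count E e
  have hM := eq_of_equiv e
  have hms : 8 * m ≤ s := by nlinarith
  have hs8 : 8 ≤ s := by omega
  set X := s ^ r with hX
  have hXs : s ≤ X := by
    calc s = s ^ 1 := (pow_one s).symm
      _ ≤ s ^ r := Nat.pow_le_pow_right (by omega) hr
  have hpow : s ^ (2 * r + 5) = s ^ 5 * (X * X) := by rw [hX]; ring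
  rw [hpow]
  have h8M : 8 * M ≤ s * X := by rw [hM]; nlinarith
  have hsX : 64 ≤ s * X := by nlinarith
  have h4 : 4 * (M + 1) ≤ s * X := by omega
  have h5 : 64 * (M * (m * s ^ 2)) ≤ s ^ 4 * X := by
    calc 64 * (M * (m * s ^ 2)) = (8 * M) * (8 * m) * s ^ 2 := by ring
      _ ≤ (s * X) * s * s ^ 2 := by gcongr
      _ = s ^ 4 * X := by ring
  have h6 : 4 * (2 * M + 1) ≤ 2 * (s * X) := by omega
  have h7 : 512 * (s * X) ≤ s ^ 4 * X := by
    have : 512 ≤ s ^ 3 := by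
      calc 512 = 8 ^ 3 := by norm_num
        _ ≤ s ^ 3 := Nat.pow_le_pow_left hs8 3
    calc 512 * (s * X) ≤ s ^ 3 * (s * X) := Nat.mul_le_mul_right _ this
      _ = s ^ 4 * X := by ring
  set W := s ^ 4 * X with hW
  have h8 : 32 * (M * (m * s ^ 2) + 2 * M + 1) ≤ W := by omega
  have h9 : 128 * ((M + 1) * (M * (m * s ^ 2) + 2 * M + 1)) ≤ s ^ 5 * (X * X) := by
    calc 128 * ((M + 1) * (M * (m * s ^ 2) + 2 * M + 1)) =
          (4 * (M + 1)) * (32 * (M * (m * s ^ 2) + 2 * M + 1)) := by ring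
      _ ≤ (s * X) * W := Nat.mul_le_mul h4 h8
      _ = s ^ 5 * (X * X) := by rw [hW]; ring
  have h10 : 20 * (M + 1) * {p : Fin (M + 1) × Fin (M + 1) |
      Rp (Rc (Blow E (Crv r s) e)) p.1 p.2}.ncard ≤
      20 * ((M + 1) * (M * (m * s ^ 2) + 2 * M + 1)) := by
    rw [mul_assoc]
    exact Nat.mul_le_mul_left _ (Nat.mul_le_mul_left _ h1)
  have h11 : M + 1 ≤ (M + 1) * (M * (m * s ^ 2) + 2 * M + 1) := Nat.le_mul_of_pos_right _ (by omega)
  omega

end

end MP1fca05
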