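import Pool.Agent.Lib.MP_1fca05_lc.Refl

/-!
The vertex separation number of a digraph and the pebbling number.
-/

namespace MP1fca05

/-- The (directed) vertex separation number of the digraph `E` on `m` vertices: the least `k` such
that the vertices can be ordered (`f u` is the position of `u`) so that, for every `i`, at most `k`
vertices outside the first `i` have an arc from one of the first `i` vertices. -/
noncomputable def VSep {m : ℕ} (E : Fin m → Fin m → Prop) : ℕ :=
  sInf {k | ∃ f : Fin m ≃ Fin m, ∀ i : ℕ,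
    {v | i ≤ (f v : ℕ) ∧ ∃ u, (f u : ℕ) < i ∧ E u v}.ncard ≤ k}

/-- The reflexive closure of `E`. -/
def Rc {m : ℕ} (E : Fin m → Fin m → Prop) (a b : Fin m) : Prop := a = b ∨ E a b

section

variable {m : ℕ} {E : Fin m → Fin m → Prop}

theorem ncard_pos_lt (f : Fin m ≃ Fin m) {i : ℕ} (hi : i ≤ m) :
    {v | (f v : ℕ) < i}.ncard = i := by
  classical
  have h1 : {v | (f v : ℕ) < i} = f ⁻¹' {j | (j : ℕ) < i} := rfl
  rw [h1, Set.ncard_preimage_of_injective_subset_range f.injective
    (by rw [f.surjective.range_eq]; exact Set.subset_univ _)]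
  have h2 : {j : Fin m | (j : ℕ) < i} = Set.range (Fin.castLE hi) := by
    ext j
    constructor
    · intro hj
      exact ⟨⟨j, hj⟩, rfl⟩
    · rintro ⟨x, rfl⟩
      exact x.2
  rw [h2, ← Set.image_univ, Set.ncard_image_of_injective _ (Fin.castLE_injective hi),
    Set.ncard_univ, Nat.card_eq_fintype_card, Fintype.card_fin]

theorem layout_rc_iff {k : ℕ} : Layout (Rc E) k ↔ ∃ f : Fin m ≃ Fin m, ∀ i : ℕ,
    {v | i ≤ (f v : ℕ) ∧ ∃ u, (f u : ℕ) < i ∧ E u v}.ncard ≤ k := by
  have key : ∀ (f : Fin m ≃ Fin m) (i : ℕ), i ≤ m →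
      {v | ∃ u, (f u : ℕ) < i ∧ Rc E u v}.ncard =
        i + {v | i ≤ (f v : ℕ) ∧ ∃ u, (f u : ℕ) < i ∧ E u v}.ncard := by
    intro f i hi
    have h1 : {v | ∃ u, (f u : ℕ) < i ∧ Rc E u v} =
        {v | (f v : ℕ) < i} ∪ {v | i ≤ (f v : ℕ) ∧ ∃ u, (f u : ℕ) < i ∧ E u v} := by
      ext v
      constructor
      · rintro ⟨u, hu, huv⟩
        by_cases hv : (f v : ℕ) < i
        · exact Or.inl hv
        · rcases huv with rfl | huv
          · exact absurd hu hv
          · exact Or.inr ⟨not_lt.1 hv, u, hu, huv⟩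
      · rintro (hv | ⟨_, u, hu, huv⟩)
        · exact ⟨v, hv, Or.inl rfl⟩
        · exact ⟨u, hu, Or.inr huv⟩
    have h2 : Disjoint {v | (f v : ℕ) < i}
        {v | i ≤ (f v : ℕ) ∧ ∃ u, (f u : ℕ) < i ∧ E u v} := by
      rw [Set.disjoint_left]
      rintro v hv ⟨hv', _⟩
      exact absurd hv (not_lt.2 hv')
    rw [h1, Set.ncard_union_eq h2 (Set.toFinite _) (Set.toFinite _), ncard_pos_lt f hi]
  constructor
  · rintro ⟨f, hf⟩
    refine ⟨f, fun i => ?_⟩
    by_cases hi : i ≤ m
    · have := hf i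
      rw [key f i hi] at this
      omega
    · have h0 : {v | i ≤ (f v : ℕ) ∧ ∃ u, (f u : ℕ) < i ∧ E u v} = ∅ := by
        ext v
        simp only [Set.mem_ofPred_eq, Set.mem_empty_iff_false, iff_false]
        rintro ⟨hv, _⟩
        have := (f v).2
        omega
      rw [h0, Set.ncard_empty]
      omega
  · rintro ⟨f, hf⟩
    refine ⟨f, fun i => ?_⟩
    by_cases hi : i ≤ m
    · have := hf i
      rw [key f i hi]
      omega
    · have h1 := Set.ncard_le_ncard (Set.subset_univ {v | ∃ u, (f u : ℕ) < i ∧ Rc E u v})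
      rw [Set.ncard_univ, Nat.card_eq_fintype_card, Fintype.card_fin] at h1
      omega

theorem vsep_eq : VSep E = sInf {k | Layout (Rc E) k} := by
  unfold VSep
  congr 1
  ext k
  exact layout_rc_iff.symm

theorem peb_rc (hm : 1 ≤ m) : m + VSep E + 2 ≤ Peb (Arc (Rc E)) (tgt m) ∧
    Peb (Arc (Rc E)) (tgt m) ≤ m + VSep E + 3 := by
  rw [vsep_eq]
  exact peb_refl hm (fun i => Or.inl rfl)

end

end MP1fca05
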